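import Mathlib
import Pool.Agent.Lib.MP_f9aece_nt_h97.OffF3
import Pool.Agent.Lib.MP_f9aece_nt_h97.OffB
import Pool.Agent.Lib.MP_f9aece_nt_h97.Point

/-!
Statements of the modules of the project `NearLine` (moments of the zeta function at distance
`δ` from the critical line, `δ log T` large).  `N` bounds the exponents: `0 < k ≤ N`, `β = 2k`.
-/

set_option autoImplicit false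

namespace Pool.Agent.Lib.NL

open MeasureTheory Set Filter Topology Complex
open Pool.Agent.Lib.MP_f9aece_nt Pool.Agent.Lib.MP_f9aece_nt_h97

/-! ### Definitions -/

/-- coefficients of `(1 - z)^(-k)` -/
noncomputable def bk (k : ℝ) (i : ℕ) : ℝ := ∏ l ∈ Finset.range i, (k + l) / (l + 1)

/-- the truncated local factor of `zeta^k` at the prime `p` -/
noncomputable def Lk (k : ℝ) (K p : ℕ) : DP :=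
  ∑ i ∈ Finset.range (K + 1), MonoidAlgebra.single (p ^ i) (bk k i)

/-- product of the truncated local factors over the small primes -/
noncomputable def B0 (k : ℝ) (K p0 : ℕ) : DP := ∏ p ∈ Psm p0, Lk k K p

/-- truncated local factor of the series of squares -/
noncomputable def Fl (k : ℝ) (K : ℕ) (q : ℝ) : ℝ := ∑ i ∈ Finset.range (K + 1), bk k i ^ 2 * q ^ i

/-- product over the small primes -/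
noncomputable def F0 (k : ℝ) (K p0 : ℕ) (s : ℝ) : ℝ := ∏ p ∈ Psm p0, Fl k K ((p : ℝ) ^ (-s))

/-- the mollifier -/
noncomputable def DN (k : ℝ) (K m p0 : ℕ) (Y : ℝ) (J : ℕ) : DP := B0 k K p0 * Dm m p0 (1 - k) Y J

/-- the model of `zeta^k` -/
noncomputable def BN (k : ℝ) (K m p0 : ℕ) (Y : ℝ) (J : ℕ) : DP := B0 k K p0 * Bm m p0 k Y J

/-- its mean square -/
noncomputable def EN (k : ℝ) (K m p0 : ℕ) (Y : ℝ) (J : ℕ) (s : ℝ) : ℝ :=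
  BK (K1s s) (BN k K m p0 Y J) (BN k K m p0 Y J)

/-- error of the forms -/
noncomputable def er (C : ℝ) (m p0 : ℕ) : ℝ := C * (1 / p0 + 1 / 2 ^ m)

/-- large value weight -/
noncomputable def Qw (N m p0 : ℕ) (Y σ : ℝ) (J : ℕ) (t : ℝ) : ℝ :=
  ∑ j ∈ Finset.range J, (‖Pj p0 Y σ j t‖ / ((Mm m j : ℝ) / (10 * N))) ^ (2 * Mm m j)

/-- the point on the line at distance `δ` -/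
noncomputable def pt (δ t : ℝ) : ℂ := ((1 / 2 + δ : ℝ) : ℂ) + I * t

/-- cut-offs of the upper bound weights -/
noncomputable def Rm (m j : ℕ) : ℝ := (Mm m j : ℝ) / 10

/-- off-diagonal pieces of the upper bound weight -/
noncomputable def T1 (m p0 : ℕ) (c Y : ℝ) (J j : ℕ) : DP :=
  PP (sc Y p0 j) ^ Mm m j * ∏ i ∈ Finset.Ico (j + 1) J, expo c (Mm m i) (sc Y p0 i)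

/-- their coefficients -/
noncomputable def qm (m : ℕ) (c : ℝ) (j : ℕ) : ℝ :=
  5 * |c| * (Real.exp (Rm m j) / Rm m j ^ (2 * Mm m j))

/-- the divisor function `d_k` -/
noncomputable def dk (k : ℝ) (n : ℕ) : ℝ := n.factorization.prod fun _ a => bk k a

/-- the Dirichlet series of `d_k ^ 2` -/
noncomputable def SS (k s : ℝ) : ℝ := ∑' n : ℕ, dk k n ^ 2 * (n : ℝ) ^ (-s)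

/-- the moment at distance `δ` over `[0,T]` -/
noncomputable def ML (k δ T : ℝ) : ℝ := ∫ t in (0 : ℝ)..T, ‖riemannZeta (pt δ t)‖ ^ (2 * k)

/-! ### A: forms over the scales (file `A.lean`) -/

def ScaleForms : Prop := ∀ N : ℕ, 1 ≤ N → ∃ C : ℝ, 1 ≤ C ∧ ∃ m1 p1 : ℕ, 4000 ≤ m1 ∧ 2 ≤ p1 ∧
  ∀ m : ℕ, m1 ≤ m → ∀ p0 : ℕ, p1 ≤ p0 → ∀ k : ℝ, 0 ≤ k → k ≤ N → ∀ Y : ℝ, 0 < Y → ∀ (J : ℕ) (s : ℝ),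
  1 ≤ s →
  |BK (K2s s) (DD m p0 (-(1 - k)) Y J) (DD m p0 (-(1 - k)) Y J)|
    ≤ Real.exp ((k ^ 2 - 1) * QT s p0 Y J + er C m p0) ∧
  Real.exp (k ^ 2 * QT s p0 Y J - er C m p0) ≤ BK (Kcs s) (DD m p0 (-(1 - k)) Y J) (DD m p0 k Y J) ∧
  Real.exp (k ^ 2 * QT s p0 Y J - er C m p0) ≤ BK (K1s s) (DD m p0 k Y J) (DD m p0 k Y J) ∧
  BK (K1s s) (DD m p0 k Y J) (DD m p0 k Y J) ≤ Real.exp (k ^ 2 * QT s p0 Y J + er C m p0) ∧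
  |BK Kg (DD m p0 (-(1 - k)) Y J) (DD m p0 (-(1 - k)) Y J)|
    ≤ C * (1 + Y) * Real.exp ((k ^ 2 - 1) * QT 1 p0 Y J)

/-! ### A2: small primes split off (file `A2.lean`) -/

def SmallForms : Prop := ∀ (k : ℝ) (K m p0 : ℕ) (Y : ℝ) (J : ℕ) (s : ℝ), 1 ≤ s →
  BK (K2s s) (DN k K m p0 Y J) (DN k K m p0 Y J)
    = (∏ p ∈ Psm p0, (1 - (p : ℝ) ^ (-s))) * F0 k K p0 s
      * BK (K2s s) (DD m p0 (-(1 - k)) Y J) (DD m p0 (-(1 - k)) Y J) ∧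
  BK (Kcs s) (DN k K m p0 Y J) (BN k K m p0 Y J)
    = F0 k K p0 s * BK (Kcs s) (DD m p0 (-(1 - k)) Y J) (DD m p0 k Y J) ∧
  EN k K m p0 Y J s = F0 k K p0 s * BK (K1s s) (DD m p0 k Y J) (DD m p0 k Y J)

/-! ### B: the direct energy (file `B.lean`) -/

def EnergyN : Prop := ∀ N : ℕ, 1 ≤ N → ∀ η : ℝ, 0 < η → ∃ m1 p1 : ℕ, 4000 ≤ m1 ∧ 2 ≤ p1 ∧
  ∃ Λ : ℝ, 1 ≤ Λ ∧ ∀ m : ℕ, m1 ≤ m → ∀ p0 : ℕ, p1 ≤ p0 → ∀ (K : ℕ) (k : ℝ), 0 ≤ k → k ≤ N →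
  ∀ δ : ℝ, 0 < δ → δ ≤ 1 / 4 → ∀ Y : ℝ, Λ ≤ δ * Y → (p0 : ℝ) ≤ Real.exp Y → ∀ J : ℕ,
  Y / 4 ^ J < Real.log 2 → ∀ L : ℕ,
  ∑ M ∈ Finset.Icc 1 L, eM (DN k K m p0 Y J) (BN k K m p0 Y J) M ^ 2 * (M : ℝ) ^ (-(2 * (1 / 2 + δ)))
    ≤ η * EN k K m p0 Y J (1 + 2 * δ)

/-! ### C: the forms of the dual part (file `C.lean`) -/

def KForms : Prop := ∀ N : ℕ, 1 ≤ N → ∃ m1 p1 : ℕ, 4000 ≤ m1 ∧ 2 ≤ p1 ∧ ∀ m : ℕ, m1 ≤ m →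
  ∀ p0 : ℕ, p1 ≤ p0 → ∀ K : ℕ, ∃ C : ℝ, 0 ≤ C ∧ ∀ k : ℝ, 0 ≤ k → k ≤ N → ∀ Y : ℝ, 1 ≤ Y → ∀ J : ℕ,
  Y / 4 ^ J < Real.log 2 →
  |BK K2 (DN k K m p0 Y J) (DN k K m p0 Y J)| ≤ C * Y ^ (k ^ 2 - 1) ∧
  |BK Kg (DN k K m p0 Y J) (DN k K m p0 Y J)| ≤ C * Y ^ (k ^ 2)

/-! ### D: sizes (file `D.lean`) -/

def Sizes : Prop := ∀ N p0 K : ℕ, 1 ≤ N → 1 ≤ p0 → ∃ C : ℝ, 1 ≤ C ∧ ∀ k : ℝ, 0 ≤ k → k ≤ N →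
  ∀ m : ℕ, 1 ≤ m → ∀ Y : ℝ, 0 < Y → ∀ J : ℕ,
  (∀ n, (DN k K m p0 Y J).coeff n ≠ 0 → 1 ≤ n ∧ (n : ℝ) ≤ C * Real.exp (2 * m * Y)) ∧
  (∀ n, (BN k K m p0 Y J).coeff n ≠ 0 → 1 ≤ n ∧ (n : ℝ) ≤ C * Real.exp (2 * m * Y)) ∧
  nrm (DN k K m p0 Y J) ≤ C * Real.exp (N * J + 2 * m * Y) ∧
  Cone (Len (2 * m * Y + Real.log C)) (BN k K m p0 Y J) ∧
  aug (BN k K m p0 Y J) ≤ C * Real.exp (N * J + 2 * m * Y)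

/-! ### E: mean square of `ζ D - B` (file `E.lean`) -/

def OffCoreN : Prop := ∀ N : ℕ, 1 ≤ N → ∀ η : ℝ, 0 < η → ∃ m1 p1 : ℕ, 4000 ≤ m1 ∧ 2 ≤ p1 ∧
  ∀ m : ℕ, m1 ≤ m → ∀ p0 : ℕ, p1 ≤ p0 → ∀ K : ℕ, ∃ Λ Y0 : ℝ, 1 ≤ Λ ∧ 1 ≤ Y0 ∧ ∀ Y : ℝ, Y0 ≤ Y →
  ∀ J : ℕ, (J : ℝ) ≤ Y + 3 → Y / 4 ^ J < Real.log 2 → ∀ δ : ℝ, Λ / (160 * m * Y) ≤ δ → δ ≤ 1 / 4 →
  ∀ k : ℝ, 0 < k → k ≤ N →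
  ∫ t in (0 : ℝ)..Real.exp (160 * m * Y),
    ‖riemannZeta (pt δ t) * evs (pt δ t) (DN k K m p0 Y J) - evs (pt δ t) (BN k K m p0 Y J)‖ ^ 2
    ≤ η * (Real.exp (160 * m * Y) * EN k K m p0 Y J (1 + 2 * δ))

/-! ### F: mean values of the model (file `F.lean`) -/

def MeanN : Prop := ∀ N : ℕ, 1 ≤ N → ∀ η : ℝ, 0 < η → ∃ m1 : ℕ, 4000 ≤ m1 ∧ ∀ m : ℕ, m1 ≤ m →
  ∀ p0 : ℕ, 1 ≤ p0 → ∀ K : ℕ, ∃ Y0 : ℝ, 1 ≤ Y0 ∧ ∀ Y : ℝ, Y0 ≤ Y → ∀ J : ℕ, (J : ℝ) ≤ Y + 3 →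
  ∀ k : ℝ, 0 < k → k ≤ N → ∀ δ : ℝ, 0 ≤ δ → δ ≤ 1 / 4 →
  1 ≤ EN k K m p0 Y J (1 + 2 * δ) ∧
  |(∫ t in (0 : ℝ)..Real.exp (160 * m * Y), ‖evs (pt δ t) (BN k K m p0 Y J)‖ ^ 2)
      - Real.exp (160 * m * Y) * EN k K m p0 Y J (1 + 2 * δ)|
    ≤ η * (Real.exp (160 * m * Y) * EN k K m p0 Y J (1 + 2 * δ)) ∧
  ∫ t in (0 : ℝ)..Real.exp (160 * m * Y),
      ‖evs (pt δ t) (BN k K m p0 Y J)‖ ^ 2 * Qw N m p0 Y (1 / 2 + δ) J t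
    ≤ η * (Real.exp (160 * m * Y) * EN k K m p0 Y J (1 + 2 * δ))

/-! ### G: the small primes, pointwise (file `G.lean`) -/

def SmallPt : Prop := ∀ (N p0 : ℕ) (ε : ℝ), 0 < ε → ∃ K1 : ℕ, ∀ K : ℕ, K1 ≤ K → ∀ k : ℝ, 0 ≤ k →
  k ≤ N → ∀ δ t : ℝ, 0 ≤ δ →
  |‖evs (pt δ t) (B0 k K p0)‖ ^ 2 * ‖evs (pt δ t) (Dsm p0)‖ ^ (2 * k) - 1| ≤ ε

/-! ### H: lower bound, pointwise (file `H.lean`) -/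

def LowerPt : Prop := ∀ N : ℕ, 1 ≤ N → ∀ ε : ℝ, 0 < ε → ε ≤ 1 / 4 → ∃ m1 : ℕ, 4000 ≤ m1 ∧ ∀ m : ℕ,
  m1 ≤ m → ∀ (p0 K : ℕ) (k : ℝ), 0 < k → k ≤ N → ∀ (Y : ℝ) (J : ℕ) (δ t : ℝ), 0 ≤ δ → ∀ z : ℂ,
  ‖evs (pt δ t) (B0 k K p0)‖ ^ 2 * ‖evs (pt δ t) (Dsm p0)‖ ^ (2 * k) ≤ 1 + ε →
  (1 - 2 * ε) * (‖evs (pt δ t) (BN k K m p0 Y J)‖ ^ 2 - 2 * N * (‖evs (pt δ t) (BN k K m p0 Y J)‖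
      * ‖z * evs (pt δ t) (DN k K m p0 Y J) - evs (pt δ t) (BN k K m p0 Y J)‖))
    - ‖evs (pt δ t) (BN k K m p0 Y J)‖ ^ 2 * Qw N m p0 Y (1 / 2 + δ) J t
  ≤ ‖z‖ ^ (2 * k)

/-! ### I: lower bound (file `I.lean`) -/

def LowerN : Prop := ∀ N : ℕ, 1 ≤ N → ∀ η : ℝ, 0 < η → ∃ m1 p1 : ℕ, 4000 ≤ m1 ∧ 2 ≤ p1 ∧
  ∀ m : ℕ, m1 ≤ m → ∀ p0 : ℕ, p1 ≤ p0 → ∃ K1 : ℕ, ∀ K : ℕ, K1 ≤ K → ∃ Λ Y0 : ℝ, 1 ≤ Λ ∧ 1 ≤ Y0 ∧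
  ∀ Y : ℝ, Y0 ≤ Y → ∀ J : ℕ, (J : ℝ) ≤ Y + 3 → Y / 4 ^ J < Real.log 2 → ∀ δ : ℝ,
  Λ / (160 * m * Y) ≤ δ → δ ≤ 1 / 4 → ∀ k : ℝ, 0 < k → k ≤ N →
  (1 - η) * (Real.exp (160 * m * Y) * EN k K m p0 Y J (1 + 2 * δ)) ≤ ML k δ (Real.exp (160 * m * Y))

/-! ### J: upper bound, pointwise (file `J.lean`) -/

def UpperPt : Prop := ∀ ε : ℝ, 0 < ε → ε ≤ 1 / 4 → ∃ m1 : ℕ, 4000 ≤ m1 ∧ ∀ m : ℕ, m1 ≤ m →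
  ∀ (p0 K : ℕ) (k : ℝ), 0 < k → k ≤ 1 → ∀ (Y : ℝ) (J : ℕ) (δ t : ℝ), 0 ≤ δ → ∀ z : ℂ,
  1 - ε ≤ ‖evs (pt δ t) (B0 k K p0)‖ ^ 2 * ‖evs (pt δ t) (Dsm p0)‖ ^ (2 * k) →
  ‖z‖ ^ (2 * k) ≤ (1 + 3 * ε) *
    (k * (‖z * evs (pt δ t) (B0 k K p0 * Dsm p0)‖ ^ 2
        * up (-(1 - k)) (Mm m) (Rm m) (fun j => Pj p0 Y (1 / 2 + δ) j t) J)
      + (1 - k) * (‖evs (pt δ t) (B0 k K p0)‖ ^ 2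
        * up k (Mm m) (Rm m) (fun j => Pj p0 Y (1 / 2 + δ) j t) J))

/-! ### K: the weights as sums of squares (file `K.lean`) -/

def UpEq : Prop := ∀ (m p0 : ℕ) (c Y : ℝ) (J : ℕ) (δ t : ℝ), 0 ≤ δ →
  up c (Mm m) (Rm m) (fun j => Pj p0 Y (1 / 2 + δ) j t) J
    = ‖evs (pt δ t) (DD m p0 c Y J)‖ ^ 2
      + ∑ j ∈ Finset.range J, qm m c j * ‖evs (pt δ t) (T1 m p0 c Y J j)‖ ^ 2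

/-! ### L: mean of the second weight (file `L.lean`) -/

def UpperB : Prop := ∀ η : ℝ, 0 < η → ∃ m1 : ℕ, 4000 ≤ m1 ∧ ∀ m : ℕ, m1 ≤ m →
  ∀ p0 : ℕ, 1 ≤ p0 → ∀ K : ℕ, ∃ Y0 : ℝ, 1 ≤ Y0 ∧ ∀ Y : ℝ, Y0 ≤ Y → ∀ J : ℕ, (J : ℝ) ≤ Y + 3 →
  ∀ k : ℝ, 0 < k → k ≤ 1 → ∀ δ : ℝ, 0 ≤ δ → δ ≤ 1 / 4 →
  ∫ t in (0 : ℝ)..Real.exp (160 * m * Y), ‖evs (pt δ t) (B0 k K p0)‖ ^ 2
      * up k (Mm m) (Rm m) (fun j => Pj p0 Y (1 / 2 + δ) j t) J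
    ≤ (1 + η) * (Real.exp (160 * m * Y) * EN k K m p0 Y J (1 + 2 * δ))

/-! ### M: mean of the first weight (file `M.lean`) -/

def UpperA : Prop := ∀ η : ℝ, 0 < η → ∃ m1 p1 : ℕ, 4000 ≤ m1 ∧ 2 ≤ p1 ∧ ∀ m : ℕ, m1 ≤ m →
  ∀ p0 : ℕ, p1 ≤ p0 → ∀ K : ℕ, ∃ Λ Y0 : ℝ, 1 ≤ Λ ∧ 1 ≤ Y0 ∧ ∀ Y : ℝ, Y0 ≤ Y → ∀ J : ℕ,
  (J : ℝ) ≤ Y + 3 → Y / 4 ^ J < Real.log 2 → ∀ δ : ℝ, Λ / (160 * m * Y) ≤ δ → δ ≤ 1 / 4 →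
  ∀ k : ℝ, 0 < k → k ≤ 1 →
  ∫ t in (0 : ℝ)..Real.exp (160 * m * Y),
      ‖riemannZeta (pt δ t) * evs (pt δ t) (B0 k K p0 * Dsm p0)‖ ^ 2
      * up (-(1 - k)) (Mm m) (Rm m) (fun j => Pj p0 Y (1 / 2 + δ) j t) J
    ≤ (1 + η) * (Real.exp (160 * m * Y) * EN k K m p0 Y J (1 + 2 * δ))

/-! ### N: upper bound (file `N.lean`) -/

def UpperN : Prop := ∀ η : ℝ, 0 < η → ∃ m1 p1 : ℕ, 4000 ≤ m1 ∧ 2 ≤ p1 ∧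
  ∀ m : ℕ, m1 ≤ m → ∀ p0 : ℕ, p1 ≤ p0 → ∃ K1 : ℕ, ∀ K : ℕ, K1 ≤ K → ∃ Λ Y0 : ℝ, 1 ≤ Λ ∧ 1 ≤ Y0 ∧
  ∀ Y : ℝ, Y0 ≤ Y → ∀ J : ℕ, (J : ℝ) ≤ Y + 3 → Y / 4 ^ J < Real.log 2 → ∀ δ : ℝ,
  Λ / (160 * m * Y) ≤ δ → δ ≤ 1 / 4 → ∀ k : ℝ, 0 < k → k ≤ 1 →
  ML k δ (Real.exp (160 * m * Y)) ≤ (1 + η) * (Real.exp (160 * m * Y) * EN k K m p0 Y J (1 + 2 * δ))

/-! ### O: the Dirichlet series (file `O.lean`) -/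

def SeriesN : Prop := ∀ N : ℕ, 1 ≤ N → ∀ η : ℝ, 0 < η → ∃ m1 p1 : ℕ, 4000 ≤ m1 ∧ 2 ≤ p1 ∧
  ∀ m : ℕ, m1 ≤ m → ∀ p0 : ℕ, p1 ≤ p0 → ∃ K1 : ℕ, ∀ K : ℕ, K1 ≤ K → ∃ Λ : ℝ, 1 ≤ Λ ∧
  ∀ Y : ℝ, 1 ≤ Y → (p0 : ℝ) ≤ Real.exp Y → ∀ J : ℕ, Y / 4 ^ J < Real.log 2 → ∀ δ : ℝ,
  0 < δ → δ ≤ 1 / 4 → Λ ≤ δ * Y → ∀ k : ℝ, 0 < k → k ≤ N →
  (1 - η) * SS k (1 + 2 * δ) ≤ EN k K m p0 Y J (1 + 2 * δ) ∧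
  EN k K m p0 Y J (1 + 2 * δ) ≤ (1 + η) * SS k (1 + 2 * δ)

/-! ### P: the moments over `[0,T]` (file `P.lean`) -/

def MomentN : Prop := ∀ N : ℕ, 1 ≤ N → ∀ ε : ℝ, 0 < ε → ∃ C : ℝ, ∀ k δ T : ℝ, 0 < k → k ≤ N →
  0 < δ → δ ≤ 1 / 4 → 1 ≤ T → C ≤ δ * Real.log T →
  (1 - ε) * (T * SS k (1 + 2 * δ)) ≤ ML k δ T ∧ (k ≤ 1 → ML k δ T ≤ (1 + ε) * (T * SS k (1 + 2 * δ)))

end Pool.Agent.Lib.NL
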