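import Mathlib
import Pool.Agent.Lib.MP_f9aece_nt_nl.Stmts
import Pool.Agent.Lib.MP_f9aece_nt_h97.OffF4

/-!
NearLine, module A2: the small primes split off from the forms.
-/

set_option autoImplicit false

namespace Pool.Agent.Lib.NL

open MeasureTheory Set Filter Topology Complex
open Pool.Agent.Lib.MP_f9aece_nt Pool.Agent.Lib.MP_f9aece_nt_h97

/-- polynomials in one prime -/
noncomputable def mkp (p n : ℕ) (x : ℕ → ℝ) : DP :=
  ∑ i ∈ Finset.range n, MonoidAlgebra.single (p ^ i) (x i)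

lemma Lk_eq (k : ℝ) (K p : ℕ) : Lk k K p = mkp p (K + 1) (bk k) := rfl

lemma BK_mkp (K : ℕ → ℕ → ℝ) (p n n' : ℕ) (x y : ℕ → ℝ) :
    BK K (mkp p n x) (mkp p n' y)
      = ∑ i ∈ Finset.range n, ∑ l ∈ Finset.range n', x i * y l * K (p ^ i) (p ^ l) := by
  unfold mkp
  rw [BK_sum_left]
  refine Finset.sum_congr rfl fun i _ => ?_
  rw [BK_sum_right]
  refine Finset.sum_congr rfl fun l _ => ?_
  rw [BK_single]

lemma sup_mkp {p : ℕ} (hp : p.Prime) (n : ℕ) (x : ℕ → ℝ) :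
    Sup (Smo (({p} : Finset ℕ) : Set ℕ)) (mkp p n x) := by
  unfold mkp
  refine Sup.sum _ fun i hi => Sup.single ?_ _
  clear hi
  induction i with
  | zero => simpa using one_mem_Smo _
  | succ i ih => rw [pow_succ]; exact mul_mem_Smo ih (prime_mem_Smo hp (by simp))

/-- the coefficients of the product with `1 - [p]` -/
noncomputable def cc (b : ℕ → ℝ) (K : ℕ) : ℕ → ℝ
  | 0 => b 0
  | i + 1 => (if i + 1 < K + 1 then b (i + 1) else 0) - b i

lemma cc_succ (b : ℕ → ℝ) (K i : ℕ) :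
    cc b K (i + 1) = (if i + 1 < K + 1 then b (i + 1) else 0) - b i := rfl

lemma mkp_mul_one_sub (p K : ℕ) (b : ℕ → ℝ) :
    mkp p (K + 1) b * (1 - MonoidAlgebra.single p (1 : ℝ)) = mkp p (K + 2) (cc b K) := by
  unfold mkp
  rw [mul_sub, mul_one, Finset.sum_mul]
  have e1 : ∀ i ∈ Finset.range (K + 1),
      (MonoidAlgebra.single (p ^ i) (b i) : DP) * MonoidAlgebra.single p (1 : ℝ)
        = MonoidAlgebra.single (p ^ (i + 1)) (b i) := by
    intro i _
    rw [MonoidAlgebra.single_mul_single, mul_one, pow_succ]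
  rw [Finset.sum_congr rfl e1, Finset.sum_range_succ' (n := K + 1)]
  have e2 : ∀ i ∈ Finset.range (K + 1),
      (MonoidAlgebra.single (p ^ (i + 1)) (cc b K (i + 1)) : DP)
        = (if i + 1 < K + 1 then MonoidAlgebra.single (p ^ (i + 1)) (b (i + 1)) else 0)
          - MonoidAlgebra.single (p ^ (i + 1)) (b i) := by
    intro i _
    rw [cc_succ, MonoidAlgebra.single_sub]
    split_ifs
    · rfl
    · rw [MonoidAlgebra.single_zero]
  rw [Finset.sum_congr rfl e2, Finset.sum_sub_distrib]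
  have e3 : ∑ i ∈ Finset.range (K + 1), (MonoidAlgebra.single (p ^ i) (b i) : DP)
      = (∑ i ∈ Finset.range (K + 1), if i + 1 < K + 1 then
        (MonoidAlgebra.single (p ^ (i + 1)) (b (i + 1)) : DP) else 0)
        + MonoidAlgebra.single (p ^ 0) (cc b K 0) := by
    rw [Finset.sum_range_succ' (n := K), Finset.sum_range_succ (n := K), if_neg (by omega), add_zero]
    congr 1
    refine Finset.sum_congr rfl fun i hi => ?_
    rw [Finset.mem_range] at hi
    rw [if_pos (by omega)]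
  rw [e3]
  abel

lemma sum_cc (b : ℕ → ℝ) (K : ℕ) (n : ℕ) (hn : n ≤ K) :
    ∑ i ∈ Finset.range (n + 1), cc b K i = b n := by
  induction n with
  | zero => simp [cc]
  | succ n ih =>
    rw [Finset.sum_range_succ, ih (by omega), cc_succ, if_pos (by omega)]
    ring

lemma form_max (c : ℕ → ℝ) (q : ℝ) (n : ℕ) :
    ∑ i ∈ Finset.range (n + 1), ∑ l ∈ Finset.range (n + 1), c i * c l * q ^ max i l
      = (1 - q) * (∑ j ∈ Finset.range n, (∑ i ∈ Finset.range (j + 1), c i) ^ 2 * q ^ j)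
        + (∑ i ∈ Finset.range (n + 1), c i) ^ 2 * q ^ n := by
  induction n with
  | zero => simp; ring
  | succ n ih =>
    have e1 : ∑ i ∈ Finset.range (n + 1 + 1), ∑ l ∈ Finset.range (n + 1 + 1), c i * c l * q ^ max i l
        = (∑ i ∈ Finset.range (n + 1), ∑ l ∈ Finset.range (n + 1), c i * c l * q ^ max i l)
          + 2 * c (n + 1) * (∑ i ∈ Finset.range (n + 1), c i) * q ^ (n + 1)
          + c (n + 1) ^ 2 * q ^ (n + 1) := by
      rw [Finset.sum_range_succ (n := n + 1)]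
      have h1 : ∀ i ∈ Finset.range (n + 1), ∑ l ∈ Finset.range (n + 1 + 1), c i * c l * q ^ max i l
          = (∑ l ∈ Finset.range (n + 1), c i * c l * q ^ max i l) + c i * c (n + 1) * q ^ (n + 1) := by
        intro i hi
        rw [Finset.mem_range] at hi
        rw [Finset.sum_range_succ, max_eq_right (by omega)]
      have h2 : ∑ l ∈ Finset.range (n + 1 + 1), c (n + 1) * c l * q ^ max (n + 1) l
          = (∑ l ∈ Finset.range (n + 1), c (n + 1) * c l * q ^ (n + 1))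
            + c (n + 1) * c (n + 1) * q ^ (n + 1) := by
        rw [Finset.sum_range_succ, max_self]
        congr 1
        refine Finset.sum_congr rfl fun l hl => ?_
        rw [Finset.mem_range] at hl
        rw [max_eq_left (by omega)]
      rw [Finset.sum_congr rfl h1, Finset.sum_add_distrib, h2]
      have h3 : ∑ i ∈ Finset.range (n + 1), c i * c (n + 1) * q ^ (n + 1)
          = (∑ i ∈ Finset.range (n + 1), c i) * c (n + 1) * q ^ (n + 1) := by
        rw [Finset.sum_mul, Finset.sum_mul]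
      have h4 : ∑ l ∈ Finset.range (n + 1), c (n + 1) * c l * q ^ (n + 1)
          = c (n + 1) * (∑ i ∈ Finset.range (n + 1), c i) * q ^ (n + 1) := by
        rw [Finset.mul_sum, Finset.sum_mul]
      rw [h3, h4]
      ring
    rw [e1, ih, Finset.sum_range_succ (n := n) (f := fun j => (∑ i ∈ Finset.range (j + 1), c i) ^ 2 * q ^ j),
      Finset.sum_range_succ (n := n + 1) (f := c)]
    ring

lemma local_K2 {s : ℝ} {p : ℕ} (hp : p.Prime) (b : ℕ → ℝ) (K : ℕ) :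
    BK (K2s s) (mkp p (K + 1) b * (1 - MonoidAlgebra.single p (1 : ℝ)))
        (mkp p (K + 1) b * (1 - MonoidAlgebra.single p (1 : ℝ)))
      = (1 - (p : ℝ) ^ (-s)) * ∑ i ∈ Finset.range (K + 1), b i ^ 2 * ((p : ℝ) ^ (-s)) ^ i := by
  rw [mkp_mul_one_sub, BK_mkp]
  have e : ∑ i ∈ Finset.range (K + 2), ∑ l ∈ Finset.range (K + 2),
      cc b K i * cc b K l * K2s s (p ^ i) (p ^ l)
      = ∑ i ∈ Finset.range (K + 1 + 1), ∑ l ∈ Finset.range (K + 1 + 1),
        cc b K i * cc b K l * ((p : ℝ) ^ (-s)) ^ max i l := by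
    refine Finset.sum_congr rfl fun i _ => Finset.sum_congr rfl fun l _ => ?_
    rw [K2s_pow hp]
  rw [e, form_max]
  have e2 : ∑ i ∈ Finset.range (K + 1 + 1), cc b K i = 0 := by
    rw [Finset.sum_range_succ, sum_cc b K K le_rfl, cc_succ, if_neg (by omega)]
    ring
  rw [e2]
  have e3 : ∀ j ∈ Finset.range (K + 1), (∑ i ∈ Finset.range (j + 1), cc b K i) ^ 2 * ((p : ℝ) ^ (-s)) ^ j
      = b j ^ 2 * ((p : ℝ) ^ (-s)) ^ j := by
    intro j hj
    rw [Finset.mem_range] at hj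
    rw [sum_cc b K j (by omega)]
  rw [Finset.sum_congr rfl e3]
  ring

lemma local_Kc {s : ℝ} {p : ℕ} (hp : p.Prime) (b : ℕ → ℝ) (K : ℕ) :
    BK (Kcs s) (mkp p (K + 1) b * (1 - MonoidAlgebra.single p (1 : ℝ))) (mkp p (K + 1) b)
      = ∑ i ∈ Finset.range (K + 1), b i ^ 2 * ((p : ℝ) ^ (-s)) ^ i := by
  rw [mkp_mul_one_sub, BK_mkp, Finset.sum_comm]
  refine Finset.sum_congr rfl fun l hl => ?_
  rw [Finset.mem_range] at hl
  have e : ∀ i ∈ Finset.range (K + 2), cc b K i * b l * Kcs s (p ^ i) (p ^ l)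
      = if i ≤ l then cc b K i * (b l * ((p : ℝ) ^ (-s)) ^ l) else 0 := by
    intro i _
    rw [Kcs_pow hp]
    by_cases h : i ≤ l
    · rw [if_pos h, if_pos h]; ring
    · rw [if_neg h, if_neg h, mul_zero]
  rw [Finset.sum_congr rfl e, ← Finset.sum_filter]
  have e4 : (Finset.range (K + 2)).filter (fun i => i ≤ l) = Finset.range (l + 1) := by
    ext i
    simp only [Finset.mem_filter, Finset.mem_range]
    omega
  rw [e4, ← Finset.sum_mul, sum_cc b K l (by omega)]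
  ring

lemma local_K1 {s : ℝ} {p : ℕ} (hp : p.Prime) (b : ℕ → ℝ) (n : ℕ) :
    BK (K1s s) (mkp p n b) (mkp p n b) = ∑ i ∈ Finset.range n, b i ^ 2 * ((p : ℝ) ^ (-s)) ^ i := by
  rw [BK_mkp]
  refine Finset.sum_congr rfl fun i hi => ?_
  rw [Finset.sum_eq_single i]
  · rw [K1s_pow hp, if_pos rfl]; ring
  · intro l _ hli
    rw [K1s_pow hp, if_neg (Ne.symm hli), mul_zero]
  · intro h
    exact absurd hi h

lemma B0_eq (k : ℝ) (K p0 : ℕ) : B0 k K p0 = ∏ p ∈ Psm p0, mkp p (K + 1) (bk k) := rfl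

lemma sup_B0 (k : ℝ) (K p0 : ℕ) : Sup (Smo (Psm p0 : Set ℕ)) (B0 k K p0) := by
  unfold B0
  refine Sup.prod _ (fun p hp => ?_) (one_mem_Smo _) (fun a ha b hb => mul_mem_Smo ha hb)
  exact (sup_mkp (Psm_prime p hp) _ _).mono (Smo_mono (by simpa using hp))

lemma B0_mul_Dsm (k : ℝ) (K p0 : ℕ) : B0 k K p0 * Dsm p0
    = ∏ p ∈ Psm p0, (mkp p (K + 1) (bk k) * (1 - MonoidAlgebra.single p (1 : ℝ))) := by
  unfold B0 Dsm
  rw [← Finset.prod_mul_distrib]
  rfl

lemma sup_mkp_mul {p : ℕ} (hp : p.Prime) (n : ℕ) (x : ℕ → ℝ) :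
    Sup (Smo (({p} : Finset ℕ) : Set ℕ)) (mkp p n x * (1 - MonoidAlgebra.single p (1 : ℝ))) :=
  (sup_mkp hp n x).mul (sup_loc_sm hp) fun _ ha _ hb => mul_mem_Smo ha hb

lemma sup_B0Dsm (k : ℝ) (K p0 : ℕ) : Sup (Smo (Psm p0 : Set ℕ)) (B0 k K p0 * Dsm p0) :=
  (sup_B0 k K p0).mul (sup_Dsm p0) fun _ ha _ hb => mul_mem_Smo ha hb

lemma small_K2s {s : ℝ} (hs : 1 ≤ s) (k : ℝ) (K p0 : ℕ) :
    BK (K2s s) (B0 k K p0 * Dsm p0) (B0 k K p0 * Dsm p0)
      = (∏ p ∈ Psm p0, (1 - (p : ℝ) ^ (-s))) * F0 k K p0 s := by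
  rw [B0_mul_Dsm, BK_prod_MK (mk_K2s hs) (Psm p0) (fun p => {p}) disj_single _ _
    (fun p hp => sup_mkp_mul (Psm_prime p hp) _ _) (fun p hp => sup_mkp_mul (Psm_prime p hp) _ _)]
  unfold F0 Fl
  rw [← Finset.prod_mul_distrib]
  exact Finset.prod_congr rfl fun p hp => local_K2 (Psm_prime p hp) _ _

lemma small_Kcs {s : ℝ} (hs : 1 ≤ s) (k : ℝ) (K p0 : ℕ) :
    BK (Kcs s) (B0 k K p0 * Dsm p0) (B0 k K p0) = F0 k K p0 s := by
  rw [B0_mul_Dsm, B0_eq]
  unfold F0 Fl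
  rw [BK_prod_MK (mk_Kcs hs) (Psm p0) (fun p => {p}) disj_single _ _
    (fun p hp => sup_mkp_mul (Psm_prime p hp) _ _) (fun p hp => sup_mkp (Psm_prime p hp) _ _)]
  exact Finset.prod_congr rfl fun p hp => local_Kc (Psm_prime p hp) _ _

lemma small_K1s {s : ℝ} (hs : 1 ≤ s) (k : ℝ) (K p0 : ℕ) :
    BK (K1s s) (B0 k K p0) (B0 k K p0) = F0 k K p0 s := by
  rw [B0_eq]
  unfold F0 Fl
  rw [BK_prod_MK (mk_K1s hs) (Psm p0) (fun p => {p}) disj_single _ _
    (fun p hp => sup_mkp (Psm_prime p hp) _ _) (fun p hp => sup_mkp (Psm_prime p hp) _ _)]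
  exact Finset.prod_congr rfl fun p hp => local_K1 (Psm_prime p hp) _ _

lemma DN_eq (k : ℝ) (K m p0 : ℕ) (Y : ℝ) (J : ℕ) :
    DN k K m p0 Y J = B0 k K p0 * Dsm p0 * DD m p0 (-(1 - k)) Y J := by
  unfold DN Dm
  rw [mul_assoc]

theorem smallForms : SmallForms := by
  intro k K m p0 Y J s hs
  refine ⟨?_, ?_, ?_⟩
  · rw [DN_eq, BK_mul_sup (K2s s) (sup_B0Dsm k K p0) (sup_B0Dsm k K p0) (sup_DD _) (sup_DD _)
      ((mk_K2s hs).2.2.2 _ _ disj_Psm), small_K2s hs]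
  · rw [DN_eq]
    unfold BN Bm
    rw [BK_mul_sup (Kcs s) (sup_B0Dsm k K p0) (sup_B0 k K p0) (sup_DD _) (sup_DD _)
      ((mk_Kcs hs).2.2.2 _ _ disj_Psm), small_Kcs hs]
  · unfold EN BN Bm
    rw [BK_mul_sup (K1s s) (sup_B0 k K p0) (sup_B0 k K p0) (sup_DD _) (sup_DD _)
      ((mk_K1s hs).2.2.2 _ _ disj_Psm), small_K1s hs]

end Pool.Agent.Lib.NL
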