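import Mathlib
import Pool.Agent.Lib.MP_f9aece_nt_nl.A2
import Pool.Agent.Lib.MP_f9aece_nt_h5.PrimeOff

/-!
NearLine, module B: the direct energy of `ζ D - B`.
-/

set_option autoImplicit false

namespace Pool.Agent.Lib.NL

open MeasureTheory Set Filter Topology Complex
open Pool.Agent.Lib.MP_f9aece_nt Pool.Agent.Lib.MP_f9aece_nt_h97
open Pool.Agent.Lib.MP_f9aece_nt_h5

lemma er_small (C κ : ℝ) (_hC : 0 ≤ C) (hκ : 0 < κ) : ∃ m1 p1 : ℕ, 4000 ≤ m1 ∧ 2 ≤ p1 ∧ ∀ m : ℕ, m1 ≤ m →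
    ∀ p0 : ℕ, p1 ≤ p0 → er C m p0 ≤ κ := by
  refine ⟨max 4000 ⌈2 * C / κ⌉₊, max 2 ⌈2 * C / κ⌉₊, le_max_left _ _, le_max_left _ _, ?_⟩
  intro m hm p0 hp
  have hm' : 2 * C / κ ≤ m := (Nat.le_ceil _).trans (by exact_mod_cast (le_max_right _ _).trans hm)
  have hp' : 2 * C / κ ≤ p0 := (Nat.le_ceil _).trans (by exact_mod_cast (le_max_right _ _).trans hp)
  have hp0 : (0 : ℝ) < p0 := by
    have : 2 ≤ p0 := (le_max_left _ _).trans hp
    exact_mod_cast (by omega : 0 < p0)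
  have h2 : 2 * C / κ ≤ 2 ^ m := by
    refine hm'.trans ?_
    have : m < 2 ^ m := Nat.lt_two_pow_self
    exact_mod_cast this.le
  have a1 : C * (1 / p0) ≤ κ / 2 := by
    rw [div_le_iff₀ hκ] at hp'
    rw [mul_one_div, div_le_iff₀ hp0]
    linarith
  have a2 : C * (1 / 2 ^ m) ≤ κ / 2 := by
    rw [div_le_iff₀ hκ] at h2
    rw [mul_one_div, div_le_iff₀ (by positivity)]
    linarith
  unfold er
  rw [mul_add]
  linarith

lemma er_nonneg {C : ℝ} (hC : 0 ≤ C) (m p0 : ℕ) : 0 ≤ er C m p0 := by unfold er; positivity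

lemma exp_le_one_add {x κ : ℝ} (h0 : 0 ≤ x) (hx : x ≤ κ / 2) (hκ : κ ≤ 1) : Real.exp x ≤ 1 + κ := by
  have h1 : Real.exp x ≤ 1 / (1 - x) := by
    rw [le_div_iff₀ (by linarith)]
    have h2 := Real.add_one_le_exp (-x)
    have h3 : Real.exp x * Real.exp (-x) = 1 := by rw [← Real.exp_add]; simp
    have h4 := Real.exp_pos x
    nlinarith
  refine h1.trans ?_
  rw [div_le_iff₀ (by linarith)]
  nlinarith

lemma numG1' {κ e : ℝ} (hκ0 : 0 < κ) (hκ1 : κ ≤ 1) (he : e ≤ 1 + κ) :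
    (3 + κ) * e - 3 ≤ 5 * κ := by
  nlinarith

lemma bk_zero (k : ℝ) : bk k 0 = 1 := by simp [bk]

lemma bk_nonneg {k : ℝ} (hk : 0 ≤ k) (i : ℕ) : 0 ≤ bk k i :=
  Finset.prod_nonneg fun l _ => by positivity

lemma bk_mono {k l : ℝ} (hk : 0 ≤ k) (hkl : k ≤ l) (i : ℕ) : bk k i ≤ bk l i := by
  unfold bk
  exact Finset.prod_le_prod (fun j _ => by positivity) fun j _ => by gcongr

lemma one_le_Fl (k : ℝ) (K : ℕ) {q : ℝ} (hq : 0 ≤ q) : 1 ≤ Fl k K q := by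
  unfold Fl
  have h := Finset.single_le_sum (f := fun i => bk k i ^ 2 * q ^ i) (s := Finset.range (K + 1))
    (fun i _ => by positivity) (Finset.mem_range.mpr (Nat.succ_pos K))
  simpa [bk_zero] using h

lemma one_le_F0 (k : ℝ) (K p0 : ℕ) (s : ℝ) : 1 ≤ F0 k K p0 s := by
  unfold F0
  calc (1 : ℝ) = ∏ _p ∈ Psm p0, (1 : ℝ) := by simp
    _ ≤ _ := Finset.prod_le_prod (fun _ _ => zero_le_one) fun p _ => one_le_Fl k K (by positivity)

lemma DN_supp (k : ℝ) (K m p0 : ℕ) (Y : ℝ) (J : ℕ) : ∀ n, (DN k K m p0 Y J).coeff n ≠ 0 → 1 ≤ n := by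
  intro n hn
  have h : Sup (Smo (Set.univ : Set ℕ)) (DN k K m p0 Y J) := by
    rw [DN_eq]
    exact ((sup_B0Dsm k K p0).mono (Smo_mono (Set.subset_univ _))).mul
      ((sup_DD _).mono (Smo_mono (Set.subset_univ _))) (fun a ha b hb => mul_mem_Smo ha hb)
  exact Smo_pos (h n hn)

lemma BN_supp (k : ℝ) (K m p0 : ℕ) (Y : ℝ) (J : ℕ) : ∀ n, (BN k K m p0 Y J).coeff n ≠ 0 → 1 ≤ n := by
  intro n hn
  have h : Sup (Smo (Set.univ : Set ℕ)) (BN k K m p0 Y J) := by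
    unfold BN Bm
    exact ((sup_B0 k K p0).mono (Smo_mono (Set.subset_univ _))).mul
      ((sup_DD _).mono (Smo_mono (Set.subset_univ _))) (fun a ha b hb => mul_mem_Smo ha hb)
  exact Smo_pos (h n hn)

/-- the scalar inequality behind the energy bound -/
lemma energy_scalar {ε x Q k V Z A P F1 F2 E : ℝ} (hε : 0 ≤ ε) (hZ0 : 0 ≤ Z) (hP0 : 0 ≤ P)
    (hZ : Z ≤ (1 + ε) * A) (hAP : A * P ≤ Real.exp (Q + 2 * V))
    (h1 : |F1| ≤ Real.exp ((k ^ 2 - 1) * Q + (x - 2 * V)))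
    (h2 : Real.exp (k ^ 2 * Q - x) ≤ F2) (h3 : Real.exp (k ^ 2 * Q - x) ≤ E)
    (h4 : E ≤ Real.exp (k ^ 2 * Q + x)) :
    Z * (P * F1) - 2 * F2 + E ≤ ((3 + ε) * Real.exp (2 * x) - 3) * E := by
  set G := Real.exp (k ^ 2 * Q) with hG
  have hG0 : 0 < G := Real.exp_pos _
  have hE0 : 0 < E := lt_of_lt_of_le (Real.exp_pos _) h3
  have hE1 : G ≤ E * Real.exp x := by
    calc G = Real.exp (k ^ 2 * Q - x) * Real.exp x := by rw [← Real.exp_add, hG]; congr 1; ring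
      _ ≤ _ := by gcongr
  have hE2 : E ≤ G * Real.exp x := by
    refine h4.trans (le_of_eq ?_)
    rw [hG, ← Real.exp_add]
  have hF2' : G * Real.exp (-x) ≤ F2 := by
    refine le_trans (le_of_eq ?_) h2
    rw [hG, ← Real.exp_add]; rfl
  have hA0 : 0 ≤ A := by
    by_contra h
    rw [not_le] at h
    nlinarith
  have hZF : Z * (P * F1) ≤ (1 + ε) * (G * Real.exp x) := by
    have hPF : P * F1 ≤ P * |F1| := mul_le_mul_of_nonneg_left (le_abs_self _) hP0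
    calc Z * (P * F1) ≤ Z * (P * |F1|) := mul_le_mul_of_nonneg_left hPF hZ0
      _ ≤ ((1 + ε) * A) * (P * |F1|) := mul_le_mul_of_nonneg_right hZ (by positivity)
      _ = (1 + ε) * ((A * P) * |F1|) := by ring
      _ ≤ (1 + ε) * (Real.exp (Q + 2 * V) * Real.exp ((k ^ 2 - 1) * Q + (x - 2 * V))) := by
          gcongr
      _ = (1 + ε) * (G * Real.exp x) := by
          rw [← Real.exp_add, hG, ← Real.exp_add]
          congr 2
          ring
  have hGE : G * Real.exp x ≤ E * Real.exp (2 * x) := by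
    calc G * Real.exp x ≤ (E * Real.exp x) * Real.exp x := by gcongr
      _ = _ := by rw [mul_assoc, ← Real.exp_add]; congr 2; ring
  have hkey : Z * (P * F1) - 2 * F2 + E ≤ (1 + ε) * (G * Real.exp x) - 2 * (G * Real.exp (-x)) + E := by
    linarith
  refine hkey.trans ?_
  have hGm : E * Real.exp (-(2 * x)) ≤ G * Real.exp (-x) := by
    calc E * Real.exp (-(2 * x)) ≤ (G * Real.exp x) * Real.exp (-(2 * x)) := by gcongr
      _ = _ := by rw [mul_assoc, ← Real.exp_add]; congr 2; ring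
  have h6 : 2 - Real.exp (2 * x) ≤ Real.exp (-(2 * x)) := by
    have h8 : Real.exp (-(2 * x)) * Real.exp (2 * x) = 1 := by
      rw [← Real.exp_add]; simp
    have h9 := Real.exp_pos (-(2 * x))
    have h10 := Real.exp_pos (2 * x)
    nlinarith [sq_nonneg (Real.exp (2 * x) - 1)]
  have h7 : E * (2 - Real.exp (2 * x)) ≤ E * Real.exp (-(2 * x)) := by gcongr
  calc (1 + ε) * (G * Real.exp x) - 2 * (G * Real.exp (-x)) + E
      ≤ (1 + ε) * (E * Real.exp (2 * x)) - 2 * (E * Real.exp (-(2 * x))) + E := by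
        have := mul_le_mul_of_nonneg_left hGE (by linarith : 0 ≤ 1 + ε)
        linarith
    _ ≤ (1 + ε) * (E * Real.exp (2 * x)) - 2 * (E * (2 - Real.exp (2 * x))) + E := by linarith
    _ = _ := by ring

theorem energyN (hA : ScaleForms) : EnergyN := by
  intro N hN η hη
  obtain ⟨C, hC1, m1, p1, hm14, hp12, hforms⟩ := hA N hN
  have hC0 : 0 ≤ C := by linarith
  set κ := min (η / 5) 1 with hκdef
  have hκ0 : 0 < κ := lt_min (by positivity) one_pos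
  have hκ1 : κ ≤ 1 := min_le_right _ _
  have hκη : 5 * κ ≤ η := by
    have := min_le_left (η / 5) 1
    rw [← hκdef] at this
    linarith
  obtain ⟨m2, p2, hm24, hp22, hsm⟩ := er_small (C + 2) (κ / 4) (by linarith) (by positivity)
  obtain ⟨C0, hzt⟩ := zeta_tail κ hκ0
  refine ⟨max m1 m2, max p1 p2, hm14.trans (le_max_left _ _), hp12.trans (le_max_left _ _),
    max 1 C0, le_max_left _ _, ?_⟩
  intro m hm p0 hp0 K k hk0 hkN δ hδ hδ4 Y hΛ hp0Y J hJ L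
  have hm1 : m1 ≤ m := (le_max_left _ _).trans hm
  have hm2 : m2 ≤ m := (le_max_right _ _).trans hm
  have hpp1 : p1 ≤ p0 := (le_max_left _ _).trans hp0
  have hpp2 : p2 ≤ p0 := (le_max_right _ _).trans hp0
  have hp02 : 2 ≤ p0 := hp12.trans hpp1
  have hδY1 : 1 ≤ δ * Y := (le_max_left _ _).trans hΛ
  have hY0 : 0 < Y := by
    by_contra h
    rw [not_lt] at h
    nlinarith
  have hxs := hsm m hm2 p0 hpp2
  set x := er (C + 2) m p0 with hx
  have hx0 : 0 ≤ x := er_nonneg (by linarith) m p0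
  have hs : (1 : ℝ) < 1 + 2 * δ := by linarith
  obtain ⟨g1, g2, g3, g4, _⟩ := hforms m hm1 p0 hpp1 k hk0 hkN Y hY0 J (1 + 2 * δ) hs.le
  obtain ⟨e1, e2, e3⟩ := smallForms k K m p0 Y J (1 + 2 * δ) hs.le
  have hfl : p0 ≤ ⌊Real.exp Y⌋₊ := Nat.le_floor hp0Y
  have hexpY : Real.exp (C0 / δ) ≤ Real.exp Y := by
    apply Real.exp_le_exp.mpr
    rw [div_le_iff₀ hδ]
    have := (le_max_right 1 C0).trans hΛ
    linarith
  have hZ := hzt δ hδ hδ4 (Real.exp Y) hexpY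
  have h5 := euler_le (s := 1 + 2 * δ) (J := J) hY0 hJ hs.le hfl
  set V := ∑ j ∈ Finset.range J, V2 (sc Y p0 j) with hV
  have hV0 : 0 ≤ V := Finset.sum_nonneg fun j _ => V2_nonneg _
  have hV1 : V ≤ 1 / p0 := sum_V2_sc hY0 hp02
  set A := ∏ p ∈ (Finset.Ioc 0 ⌊Real.exp Y⌋₊).filter Nat.Prime, (1 - (p : ℝ) ^ (-(1 + 2 * δ)))⁻¹ with hAd
  have hZr : Zr (1 + 2 * δ) ≤ (1 + κ) * A := by
    rw [← Zr_eq hs]
    push_cast
    exact hZ
  set P := ∏ p ∈ Psm p0, (1 - (p : ℝ) ^ (-(1 + 2 * δ))) with hP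
  have hP0 : 0 ≤ P := Finset.prod_nonneg fun p hp => by
    obtain ⟨_, _, h⟩ := q_bounds (Psm_prime p hp) hs.le
    linarith
  have herx : er C m p0 + 2 * V ≤ x := by
    rw [hx]
    unfold er
    have : 0 ≤ 1 / (2 : ℝ) ^ m := by positivity
    nlinarith
  have hsc := energy_scalar (ε := κ) (x := x) (Q := QT (1 + 2 * δ) p0 Y J) (k := k) (V := V)
    (Z := Zr (1 + 2 * δ)) (A := A) (P := P)
    (F1 := BK (K2s (1 + 2 * δ)) (DD m p0 (-(1 - k)) Y J) (DD m p0 (-(1 - k)) Y J))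
    (F2 := BK (Kcs (1 + 2 * δ)) (DD m p0 (-(1 - k)) Y J) (DD m p0 k Y J))
    (E := BK (K1s (1 + 2 * δ)) (DD m p0 k Y J) (DD m p0 k Y J))
    hκ0.le (Zr_nonneg _) hP0 hZr h5
    (g1.trans (Real.exp_le_exp.mpr (by linarith)))
    (le_trans (Real.exp_le_exp.mpr (by linarith)) g2)
    (le_trans (Real.exp_le_exp.mpr (by linarith)) g3)
    (g4.trans (Real.exp_le_exp.mpr (by linarith)))
  have hexp : Real.exp (2 * x) ≤ 1 + κ := exp_le_one_add (by linarith) (by linarith) hκ1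
  have hnum := numG1' hκ0 hκ1 hexp
  have hsum := eM_sum_le hs (B := BN k K m p0 Y J) (DN_supp k K m p0 Y J) L
  have hexp2 : -(2 * (1 / 2 + δ)) = -(1 + 2 * δ) := by ring
  rw [hexp2]
  refine hsum.trans ?_
  have e3' : BK (K1s (1 + 2 * δ)) (BN k K m p0 Y J) (BN k K m p0 Y J)
      = F0 k K p0 (1 + 2 * δ) * BK (K1s (1 + 2 * δ)) (DD m p0 k Y J) (DD m p0 k Y J) := e3
  rw [e1, e2, e3', e3]
  set F := F0 k K p0 (1 + 2 * δ) with hF
  have hF1 : 1 ≤ F := one_le_F0 _ _ _ _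
  set E := BK (K1s (1 + 2 * δ)) (DD m p0 k Y J) (DD m p0 k Y J) with hE
  have hE0 : 0 < E := lt_of_lt_of_le (Real.exp_pos _) g3
  set F1 := BK (K2s (1 + 2 * δ)) (DD m p0 (-(1 - k)) Y J) (DD m p0 (-(1 - k)) Y J) with hF1d
  set F2 := BK (Kcs (1 + 2 * δ)) (DD m p0 (-(1 - k)) Y J) (DD m p0 k Y J) with hF2d
  calc Zr (1 + 2 * δ) * (P * F * F1) - 2 * (F * F2) + F * E
      = F * (Zr (1 + 2 * δ) * (P * F1) - 2 * F2 + E) := by ring
    _ ≤ F * (((3 + κ) * Real.exp (2 * x) - 3) * E) := by gcongr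
    _ ≤ F * (η * E) := by
        have : ((3 + κ) * Real.exp (2 * x) - 3) * E ≤ η * E :=
          mul_le_mul_of_nonneg_right (by linarith) hE0.le
        gcongr
    _ = η * (F * E) := by ring

end Pool.Agent.Lib.NL
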