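import Mathlib
import Pool.Agent.Lib.MP_f9aece_nt_nl.B
import Pool.Agent.Lib.MP_f9aece_nt_h40.GFormsB

/-!
NearLine, module D: lengths and norms of the polynomials.
-/

set_option autoImplicit false

namespace Pool.Agent.Lib.NL

open MeasureTheory Set Filter Topology Complex
open Pool.Agent.Lib.MP_f9aece_nt Pool.Agent.Lib.MP_f9aece_nt_h97
open Pool.Agent.Lib.MP_f9aece_nt_h40 (Dsm' dom_Dsm aug_Dsm' cone_Dsm' card_Psm Psm_le sum_lenm aug_nonneg')

lemma aug_mono {f g : DP} (h : Dom f g) : aug f ≤ aug g := by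
  have h1 := abs_pair_le h (φ := fun _ => 1) (ψ := fun _ => 1) (by simp)
  exact (le_abs_self _).trans h1

lemma aug_expo_N {I : Finset ℕ} {M : ℕ} {y c : ℝ} (hc : 0 ≤ c) (hy : 0 ≤ y)
    (hcard : (I.card : ℝ) ≤ Real.exp y) : aug (expo c M I) ≤ Real.exp (c + M * y) := by
  unfold expo aug
  rw [pair_sum]
  have h1 : ∀ r ∈ Finset.range (M + 1),
      pair (fun _ => 1) ((c ^ r / (r.factorial : ℝ)) • PP I ^ r)
        ≤ c ^ r / (r.factorial : ℝ) * Real.exp (M * y) := by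
    intro r hr
    rw [Finset.mem_range] at hr
    rw [pair_smul]
    refine mul_le_mul_of_nonneg_left ?_ (by positivity)
    have h2 : pair (fun _ => 1) (PP I ^ r) = (I.card : ℝ) ^ r := by
      have := aug_pow (PP I) r
      rw [aug_PP] at this
      exact this
    rw [h2]
    calc (I.card : ℝ) ^ r ≤ Real.exp y ^ r := by gcongr
      _ ≤ Real.exp y ^ M := pow_le_pow_right₀ (Real.one_le_exp hy) (by omega)
      _ = Real.exp (M * y) := by rw [← Real.exp_nat_mul]
  refine (Finset.sum_le_sum h1).trans ?_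
  rw [← Finset.sum_mul, Real.exp_add]
  gcongr
  exact Real.sum_le_exp_of_nonneg hc _

lemma dom_DDN (m p0 : ℕ) {c d : ℝ} (hc : |c| ≤ d) (Y : ℝ) (J : ℕ) :
    Dom (DD m p0 c Y J) (DD m p0 d Y J) :=
  Dom.prod _ fun _ _ => dom_expo (fun _ hp => sc_prime hp) hc _

lemma cone_DDN (m p0 : ℕ) {c Y : ℝ} (hc : 0 ≤ c) (hY : 0 < Y) (J : ℕ) :
    Cone (Len (2 * m * Y)) (DD m p0 c Y J) := by
  unfold DD
  refine (cone_len_prod _ _ (fun j => (Mm m j : ℝ) * (Y / 4 ^ j)) fun j _ => ?_).mono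
    (Len.mono (sum_lenm m hY J))
  refine (cone_expo (fun p hp => sc_prime hp) hc (Mm m j)).mono fun n hn => ?_
  exact ⟨Smo_pos hn.1, log_le_of_Omega (fun p hp => sc_log_le hp) (by positivity) hn.1 hn.2⟩

lemma aug_DDN (m p0 : ℕ) {c Y : ℝ} (hc : 0 ≤ c) (hY : 0 < Y) (J : ℕ) :
    aug (DD m p0 c Y J) ≤ Real.exp (c * J + 2 * m * Y) := by
  unfold DD
  rw [aug_prod]
  have hcard : ∀ j, ((sc Y p0 j).card : ℝ) ≤ Real.exp (Y / 4 ^ j) := fun j =>
    card_le_exp fun p hp => ⟨(sc_prime hp).one_le, sc_log_le hp⟩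
  calc ∏ i ∈ Finset.range J, aug (expo c (Mm m i) (sc Y p0 i))
      ≤ ∏ i ∈ Finset.range J, Real.exp (c + Mm m i * (Y / 4 ^ i)) :=
        Finset.prod_le_prod (fun i _ => aug_nonneg' (cone_expo (fun p hp => sc_prime hp)
          hc (Mm m i))) fun i _ => aug_expo_N hc (by positivity) (hcard i)
    _ = Real.exp (∑ i ∈ Finset.range J, (c + Mm m i * (Y / 4 ^ i))) := by rw [Real.exp_sum]
    _ ≤ _ := by
        apply Real.exp_le_exp.mpr
        rw [Finset.sum_add_distrib]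
        simp only [Finset.sum_const, Finset.card_range, nsmul_eq_mul]
        have := sum_lenm m hY J
        linarith

lemma dom_B0 {k l : ℝ} (hk : 0 ≤ k) (hkl : k ≤ l) (K p0 : ℕ) : Dom (B0 k K p0) (B0 l K p0) := by
  unfold B0
  refine Dom.prod _ fun p _ => ?_
  unfold Lk
  refine Dom.sum _ fun i _ => Dom.single _ ?_
  rw [abs_of_nonneg (bk_nonneg hk i)]
  exact bk_mono hk hkl i

lemma cone_B0 {k : ℝ} (hk : 0 ≤ k) (K : ℕ) {p0 : ℕ} (_hp0 : 1 ≤ p0) :
    Cone (Len (p0 * (K * Real.log p0))) (B0 k K p0) := by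
  have hlog : 0 ≤ Real.log p0 := Real.log_natCast_nonneg _
  have h := cone_len_prod (Psm p0) (fun p => Lk k K p)
    (fun _ => K * Real.log p0) (fun p hp => by
      unfold Lk
      refine Cone.sum _ fun i hi => Cone.single ?_ (bk_nonneg hk i)
      rw [Finset.mem_range] at hi
      have hpp := Psm_prime p hp
      refine ⟨Nat.one_le_iff_ne_zero.mpr (pow_ne_zero _ hpp.ne_zero), ?_⟩
      push_cast
      rw [Real.log_pow]
      have h1 : Real.log p ≤ Real.log p0 := by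
        apply Real.log_le_log (by exact_mod_cast hpp.pos)
        exact_mod_cast Psm_le hp
      have h2 : (i : ℝ) ≤ K := by exact_mod_cast (by omega : i ≤ K)
      have h3 : 0 ≤ Real.log (p : ℝ) := Real.log_natCast_nonneg _
      gcongr)
  refine h.mono (Len.mono ?_)
  rw [Finset.sum_const, nsmul_eq_mul]
  have := card_Psm p0
  gcongr

theorem sizes : Sizes := by
  intro N p0 K hN hp0
  have hN0 : (0 : ℝ) ≤ N := by positivity
  have hlog : 0 ≤ Real.log p0 := Real.log_natCast_nonneg _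
  set lam := (p0 : ℝ) * (K * Real.log p0) + p0 * Real.log p0 with hlam
  have hlam0 : 0 ≤ lam := by positivity
  set A0 := aug (B0 N K p0) with hA0
  have hA00 : 0 ≤ A0 := aug_nonneg' (cone_B0 hN0 K hp0)
  set C := Real.exp lam + A0 * 2 ^ p0 + A0 with hC
  have hexp1 : 1 ≤ Real.exp lam := Real.one_le_exp hlam0
  have h2p : (0 : ℝ) ≤ A0 * 2 ^ p0 := by positivity
  have hClam : Real.exp lam ≤ C := by rw [hC]; linarith
  have hC1 : 1 ≤ C := hexp1.trans hClam
  have hC2 : A0 * 2 ^ p0 ≤ C := by rw [hC]; linarith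
  have hC3 : A0 ≤ C := by rw [hC]; linarith
  have hCpos : 0 < C := by linarith
  refine ⟨C, hC1, ?_⟩
  intro k hk0 hkN m hm Y hY J
  have habs : |(-(1 - k))| ≤ (N : ℝ) := by
    have hN1 : (1 : ℝ) ≤ N := by exact_mod_cast hN
    rw [abs_le]
    constructor <;> linarith
  have habs2 : |k| ≤ (N : ℝ) := by rwa [abs_of_nonneg hk0]
  -- the majorants
  have dD : Dom (DN k K m p0 Y J) (B0 N K p0 * Dsm' p0 * DD m p0 N Y J) := by
    rw [DN_eq]
    exact ((dom_B0 hk0 hkN K p0).mul (dom_Dsm p0)).mul (dom_DDN m p0 habs Y J)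
  have dB : Dom (BN k K m p0 Y J) (B0 N K p0 * DD m p0 N Y J) := by
    unfold BN Bm
    exact (dom_B0 hk0 hkN K p0).mul (dom_DDN m p0 habs2 Y J)
  have cD : Cone (Len (lam + 2 * m * Y)) (B0 N K p0 * Dsm' p0 * DD m p0 N Y J) :=
    ((cone_B0 hN0 K hp0).mul (cone_Dsm' hp0) fun x hx y hy => Len.mul hx hy).mul
      (cone_DDN m p0 hN0 hY J) fun x hx y hy => Len.mul hx hy
  have cB : Cone (Len (lam + 2 * m * Y)) (B0 N K p0 * DD m p0 N Y J) := by
    refine (((cone_B0 hN0 K hp0).mul (cone_DDN m p0 hN0 hY J) fun x hx y hy => Len.mul hx hy)).mono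
      (Len.mono ?_)
    rw [hlam]
    have : 0 ≤ (p0 : ℝ) * Real.log p0 := by positivity
    linarith
  have hlenC : ∀ x : ℝ, Real.exp (lam + x) ≤ C * Real.exp x := fun x => by
    rw [Real.exp_add]
    exact mul_le_mul_of_nonneg_right hClam (Real.exp_pos _).le
  have aDD := aug_DDN m p0 hN0 hY J
  have aDD0 : 0 ≤ aug (DD m p0 N Y J) := aug_nonneg' (cone_DDN m p0 hN0 hY J)
  refine ⟨?_, ?_, ?_, ?_, ?_⟩
  · intro n hn
    obtain ⟨h1, h2⟩ := sup_len_floor (dD.sup cD) n hn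
    exact ⟨h1, h2.trans (hlenC _)⟩
  · intro n hn
    obtain ⟨h1, h2⟩ := sup_len_floor (dB.sup cB) n hn
    exact ⟨h1, h2.trans (hlenC _)⟩
  · refine (nrm_le_aug dD).trans ?_
    rw [aug_mul, aug_mul]
    calc aug (B0 N K p0) * aug (Dsm' p0) * aug (DD m p0 N Y J)
        ≤ A0 * 2 ^ p0 * Real.exp (N * J + 2 * m * Y) := by
          have := aug_Dsm' p0
          gcongr
      _ ≤ _ := mul_le_mul_of_nonneg_right hC2 (Real.exp_pos _).le
  · unfold BN Bm
    refine ((cone_B0 hk0 K hp0).mul (cone_DDN m p0 hk0 hY J) fun x hx y hy => Len.mul hx hy).mono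
      (Len.mono ?_)
    have h1 : lam ≤ Real.log C := by
      rw [Real.le_log_iff_exp_le hCpos]
      exact hClam
    have h2 : (p0 : ℝ) * (K * Real.log p0) ≤ lam := by
      rw [hlam]
      have : 0 ≤ (p0 : ℝ) * Real.log p0 := by positivity
      linarith
    linarith
  · refine (aug_mono dB).trans ?_
    rw [aug_mul]
    calc aug (B0 N K p0) * aug (DD m p0 N Y J) ≤ A0 * Real.exp (N * J + 2 * m * Y) := by gcongr
      _ ≤ _ := mul_le_mul_of_nonneg_right hC3 (Real.exp_pos _).le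

end Pool.Agent.Lib.NL
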