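import Mathlib
import Pool.Agent.Lib.MP_f9aece_nt_nl.D
import Pool.Agent.Lib.MP_f9aece_nt_h97.OffG

/-!
NearLine, module E: the mean square of `ζ D - B`.
-/

set_option autoImplicit false

namespace Pool.Agent.Lib.NL

open MeasureTheory Set Filter Topology Complex
open Pool.Agent.Lib.MP_f9aece_nt Pool.Agent.Lib.MP_f9aece_nt_h97
open Pool.Agent.Lib.MP_f9aece_nt_h5

/-- lower bound for the mean square of the model -/
lemma EN_lower {C : ℝ} {N m p0 K J : ℕ} {k Y δ c : ℝ}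
    (h3 : Real.exp (k ^ 2 * QT (1 + 2 * δ) p0 Y J - er C m p0)
      ≤ BK (K1s (1 + 2 * δ)) (DD m p0 k Y J) (DD m p0 k Y J))
    (her : er C m p0 ≤ 1) (hk0 : 0 ≤ k) (hkN : k ≤ N) (hc0 : 0 ≤ c) (hδ0 : 0 < δ)
    (hQ : Real.log (1 / δ) - c ≤ QT (1 + 2 * δ) p0 Y J) :
    (1 / δ) ^ (k ^ 2) * Real.exp (-((N : ℝ) ^ 2 * c + 1)) ≤ EN k K m p0 Y J (1 + 2 * δ) := by
  obtain ⟨_, _, e3⟩ := smallForms k K m p0 Y J (1 + 2 * δ) (by linarith)
  rw [e3]
  have hF := one_le_F0 k K p0 (1 + 2 * δ)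
  have hk2 : k ^ 2 ≤ (N : ℝ) ^ 2 := by gcongr
  have e1 : (1 / δ) ^ (k ^ 2) = Real.exp (k ^ 2 * Real.log (1 / δ)) := by
    rw [Real.rpow_def_of_pos (by positivity), mul_comm]
  have h4 : (1 / δ) ^ (k ^ 2) * Real.exp (-((N : ℝ) ^ 2 * c + 1))
      ≤ BK (K1s (1 + 2 * δ)) (DD m p0 k Y J) (DD m p0 k Y J) := by
    refine le_trans ?_ h3
    rw [e1, ← Real.exp_add]
    apply Real.exp_le_exp.mpr
    have h5 : k ^ 2 * (Real.log (1 / δ) - c) ≤ k ^ 2 * QT (1 + 2 * δ) p0 Y J := by gcongr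
    have h6 : k ^ 2 * c ≤ (N : ℝ) ^ 2 * c := by gcongr
    linarith
  have h0 : 0 ≤ BK (K1s (1 + 2 * δ)) (DD m p0 k Y J) (DD m p0 k Y J) :=
    le_trans (by positivity) h4
  calc _ ≤ BK (K1s (1 + 2 * δ)) (DD m p0 k Y J) (DD m p0 k Y J) := h4
    _ = 1 * BK (K1s (1 + 2 * δ)) (DD m p0 k Y J) (DD m p0 k Y J) := by ring
    _ ≤ _ := mul_le_mul_of_nonneg_right hF h0

lemma numE5 {C C1 X Y m E c u a2 η f1 f2 k2 t : ℝ} {n : ℕ} (hC : 0 ≤ C) (hC1 : 0 ≤ C1)
    (hX : X = 160 * m * Y) (hm : 0 < m) (hY : 1 ≤ Y) (hf1 : f1 ≤ C1 * Y ^ (k2 - 1))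
    (hf2 : f2 ≤ C1 * Y ^ k2) (_hf20 : 0 ≤ f2) (hu : 1 ≤ u) (hk2 : k2 ≤ n)
    (hYX : Y ≤ X) (hk20 : 0 ≤ k2)
    (hE : (X / u) ^ k2 * Real.exp (-c) ≤ E) (ht0 : 0 ≤ t) (ht : t ≤ Real.exp (-u)) (hE0 : 0 < E)
    (ha2 : a2 = C * (C1 * (2 + 160 * m) * Real.exp c))
    (ha1 : a2 * (u ^ n * Real.exp (-u)) ≤ η) :
    C * (t * ((1 + X) * f1 + f2)) ≤ η * E := by
  have hYp : 0 < Y := by linarith
  have hXp : 0 < X := by rw [hX]; positivity
  have hu0 : 0 < u := by linarith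
  have hYk : Y ^ k2 ≤ E * (u ^ n * Real.exp c) := by
    have h1 : X ^ k2 = (X / u) ^ k2 * u ^ k2 := by
      rw [← Real.mul_rpow (by positivity) hu0.le, div_mul_cancel₀ _ hu0.ne']
    have h2 : u ^ k2 ≤ u ^ n := by
      rw [← Real.rpow_natCast]
      exact Real.rpow_le_rpow_of_exponent_le hu hk2
    have h3 : (X / u) ^ k2 ≤ E * Real.exp c := by
      calc (X / u) ^ k2 = (X / u) ^ k2 * Real.exp (-c) * Real.exp c := by
            rw [mul_assoc, ← Real.exp_add]; simp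
        _ ≤ _ := by gcongr
    calc Y ^ k2 ≤ X ^ k2 := Real.rpow_le_rpow hYp.le hYX hk20
      _ = (X / u) ^ k2 * u ^ k2 := h1
      _ ≤ (E * Real.exp c) * u ^ n := by gcongr
      _ = _ := by ring
  have h4 : Y ^ (k2 - 1) = Y ^ k2 / Y := by rw [Real.rpow_sub_one hYp.ne']
  have h5 : (1 + X) * f1 + f2 ≤ C1 * (2 + 160 * m) * Y ^ k2 := by
    have h6 : (1 + X) * f1 ≤ (1 + X) * (C1 * (Y ^ k2 / Y)) := by
      rw [← h4]
      exact mul_le_mul_of_nonneg_left hf1 (by positivity)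
    have h7 : (1 + X) * (C1 * (Y ^ k2 / Y)) ≤ C1 * (1 + 160 * m) * Y ^ k2 := by
      have h8 : (1 + X) / Y ≤ 1 + 160 * m := by
        rw [div_le_iff₀ hYp, hX]
        nlinarith
      calc (1 + X) * (C1 * (Y ^ k2 / Y)) = C1 * Y ^ k2 * ((1 + X) / Y) := by ring
        _ ≤ C1 * Y ^ k2 * (1 + 160 * m) := by gcongr
        _ = _ := by ring
    linarith
  have h50 : 0 ≤ C1 * (2 + 160 * m) * Y ^ k2 := by positivity
  calc C * (t * ((1 + X) * f1 + f2))
      ≤ C * (t * (C1 * (2 + 160 * m) * Y ^ k2)) := by gcongr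
    _ ≤ C * (Real.exp (-u) * (C1 * (2 + 160 * m) * Y ^ k2)) := by gcongr
    _ ≤ C * (Real.exp (-u) * (C1 * (2 + 160 * m) * (E * (u ^ n * Real.exp c)))) := by gcongr
    _ = a2 * (u ^ n * Real.exp (-u)) * E := by rw [ha2]; ring
    _ ≤ η * E := by gcongr

lemma numE6 {C n H E c K m Y a3 η T16 N : ℝ} {J : ℕ} (hC : 0 ≤ C) (hn0 : 0 ≤ n) (hN0 : 0 ≤ N)
    (hm : N + 1 ≤ m) (hY : 1 ≤ Y) (hJ : (J : ℝ) ≤ Y + 3)
    (hn : n * H ≤ K * (Real.exp (N * J + 2 * m * Y) * Real.exp (2 * m * Y))) (hH : 0 ≤ H)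
    (hT : T16 = Real.exp (10 * m * Y)) (hE1 : 1 ≤ E * Real.exp c)
    (ha3 : a3 = C * (K ^ 2 * Real.exp (6 * N) * Real.exp c)) (ha1 : a3 * Real.exp (-Y) ≤ η)
    (hE : 0 < E) : C * ((n * H) ^ 2 / T16) ≤ η * E := by
  have h2 : (n * H) ^ 2 / T16 ≤ K ^ 2 * Real.exp (6 * N) * Real.exp (-Y) := by
    rw [div_le_iff₀ (by rw [hT]; exact Real.exp_pos _), hT]
    have h1 : (n * H) ^ 2 ≤ K ^ 2 * Real.exp (2 * N * J + 8 * m * Y) := by
      calc (n * H) ^ 2 ≤ (K * (Real.exp (N * J + 2 * m * Y) * Real.exp (2 * m * Y))) ^ 2 :=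
            pow_le_pow_left₀ (by positivity) hn 2
        _ = _ := by
            rw [← Real.exp_add, mul_pow, ← Real.exp_nat_mul]
            congr 2
            push_cast
            ring
    refine h1.trans ?_
    have e3 : K ^ 2 * Real.exp (6 * N) * Real.exp (-Y) * Real.exp (10 * m * Y)
        = K ^ 2 * Real.exp (6 * N + -Y + 10 * m * Y) := by
      rw [Real.exp_add, Real.exp_add]; ring
    rw [e3]
    refine mul_le_mul_of_nonneg_left (Real.exp_le_exp.mpr ?_) (by positivity)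
    have h4 : 2 * N * J ≤ 2 * N * (Y + 3) := by gcongr
    have h5 : (N + 1) * Y ≤ m * Y := by gcongr
    nlinarith
  calc C * ((n * H) ^ 2 / T16) ≤ C * (K ^ 2 * Real.exp (6 * N) * Real.exp (-Y)) := by gcongr
    _ = C * (K ^ 2 * Real.exp (6 * N) * Real.exp (-Y)) * 1 := by ring
    _ ≤ C * (K ^ 2 * Real.exp (6 * N) * Real.exp (-Y)) * (E * Real.exp c) := by gcongr
    _ = (a3 * Real.exp (-Y)) * E := by rw [ha3]; ring
    _ ≤ _ := by gcongr

lemma continuous_zeta_pt {δ : ℝ} (hδ : δ < 1 / 2) : Continuous (fun t : ℝ => riemannZeta (pt δ t)) :=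
  continuous_zeta_line (σ := 1 / 2 + δ) (by linarith)

lemma continuous_evs_pt {δ : ℝ} (hδ : 0 ≤ δ) (D : DP) : Continuous (fun t : ℝ => evs (pt δ t) D) :=
  continuous_evs_line (σ := 1 / 2 + δ) (by linarith) D

theorem offCoreN (hA : ScaleForms) (hK : KForms) : OffCoreN := by
  intro N hN η hη
  obtain ⟨C, T1, hC, hT1, hoff⟩ := off_mean
  obtain ⟨CA, hCA, mA, pA, hmA4, hpA2, hforms⟩ := hA N hN
  obtain ⟨mK, pK, hmK4, hpK2, hKf⟩ := hK N hN
  set η1 := η / (2 * (C + 1)) with hη1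
  have hη10 : 0 < η1 := by positivity
  have hCη : C * η1 ≤ η / 2 := by
    rw [hη1]
    have : C * (η / (2 * (C + 1))) = η / 2 * (C / (C + 1)) := by field_simp
    rw [this]
    have h2 : C / (C + 1) ≤ 1 := by
      rw [div_le_one (by linarith)]
      linarith
    calc η / 2 * (C / (C + 1)) ≤ η / 2 * 1 := by gcongr
      _ = _ := by ring
  obtain ⟨mB, pB, hmB4, hpB2, ΛB, hΛB1, hen⟩ := energyN hA N hN η1 hη10
  obtain ⟨mE, pE, hmE4, hpE2, her⟩ := er_small CA 1 (by linarith) one_pos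
  refine ⟨max (max mA mK) (max (max mB mE) (N + 4000)), max (max pA pK) (max pB pE),
    ?_, ?_, ?_⟩
  · exact hmA4.trans ((le_max_left _ _).trans (le_max_left _ _))
  · exact hpA2.trans ((le_max_left _ _).trans (le_max_left _ _))
  intro m hm p0 hp0 K
  have hmA : mA ≤ m := ((le_max_left _ _).trans (le_max_left _ _)).trans hm
  have hmK : mK ≤ m := ((le_max_right _ _).trans (le_max_left _ _)).trans hm
  have hmB : mB ≤ m := (((le_max_left _ _).trans (le_max_left _ _)).trans (le_max_right _ _)).trans hm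
  have hmE : mE ≤ m := (((le_max_right _ _).trans (le_max_left _ _)).trans (le_max_right _ _)).trans hm
  have hmN : N + 4000 ≤ m := ((le_max_right _ _).trans (le_max_right _ _)).trans hm
  have hpA : pA ≤ p0 := ((le_max_left _ _).trans (le_max_left _ _)).trans hp0
  have hpK : pK ≤ p0 := ((le_max_right _ _).trans (le_max_left _ _)).trans hp0
  have hpB : pB ≤ p0 := ((le_max_left _ _).trans (le_max_right _ _)).trans hp0
  have hpE : pE ≤ p0 := ((le_max_right _ _).trans (le_max_right _ _)).trans hp0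
  have hp02 : 2 ≤ p0 := hpA2.trans hpA
  obtain ⟨C1, hC1, hKf'⟩ := hKf m hmK p0 hpK K
  obtain ⟨CD, hCD1, hsz⟩ := sizes N p0 K hN (by omega)
  obtain ⟨c', hc'⟩ := prime_sum_lower p0
  set c := max c' 0 with hc
  have hc0 : 0 ≤ c := le_max_right _ _
  have hcc : c' ≤ c := le_max_left _ _
  have hm0 : (0 : ℝ) < m := by exact_mod_cast (by omega : 0 < m)
  have hmN' : (N : ℝ) + 1 ≤ m := by exact_mod_cast (by omega : N + 1 ≤ m)
  have hm4 : (4000 : ℝ) ≤ m := by exact_mod_cast (by omega : 4000 ≤ m)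
  have hp00 : (0 : ℝ) < p0 := by exact_mod_cast (by omega : 0 < p0)
  have hN0 : (0 : ℝ) ≤ N := by positivity
  set d := (N : ℝ) ^ 2 * c + 1 with hd
  have hd0 : 0 ≤ d := by positivity
  -- choice of Λ
  set A2 := C * (C1 * (2 + 160 * m) * Real.exp d) with hA2
  have hA20 : 0 ≤ A2 := by positivity
  have hlimΛ : ∀ᶠ L : ℝ in atTop, A2 * (L ^ (N ^ 2) * Real.exp (-L)) ≤ η / 4 := by
    have h1 := (Real.tendsto_pow_mul_exp_neg_atTop_nhds_zero (N ^ 2)).const_mul A2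
    rw [mul_zero] at h1
    exact h1.eventually (eventually_le_nhds (by positivity))
  obtain ⟨Λ1, hΛ1⟩ := hlimΛ.exists_forall_of_atTop
  set Λ := max (max 1 Λ1) (max (160 * m) (160 * m * ΛB)) with hΛ
  have hΛge1 : 1 ≤ Λ := (le_max_left _ _).trans (le_max_left _ _)
  have hΛgeΛ1 : Λ1 ≤ Λ := (le_max_right _ _).trans (le_max_left _ _)
  have hΛge160 : 160 * (m : ℝ) ≤ Λ := (le_max_left _ _).trans (le_max_right _ _)
  have hΛgeB : 160 * m * ΛB ≤ Λ := (le_max_right _ _).trans (le_max_right _ _)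
  have hΛ0 : 0 < Λ := by linarith
  -- choice of Y0
  set A3 := C * ((CD ^ 2) ^ 2 * Real.exp (6 * N) * Real.exp d) with hA3
  have hA30 : 0 ≤ A3 := by positivity
  have hlimY : ∀ᶠ Y : ℝ in atTop, A3 * Real.exp (-Y) ≤ η / 4 := by
    have h1 := (Real.tendsto_exp_neg_atTop_nhds_zero).const_mul A3
    rw [mul_zero] at h1
    exact h1.eventually (eventually_le_nhds (by positivity))
  obtain ⟨Y1, hY1⟩ := (hlimY.and ((eventually_ge_atTop 1).and ((eventually_ge_atTop (Real.log T1)).and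
    ((eventually_ge_atTop (Real.log CD)).and
    (eventually_ge_atTop (p0 : ℝ)))))).exists_forall_of_atTop
  refine ⟨Λ, max 1 Y1, hΛge1, le_max_left _ _, ?_⟩
  intro Y hY J hJ hJ4 δ hδΛ hδ4 k hk0 hkN
  obtain ⟨hY2, hY3, hY4, hY6, hY7⟩ := hY1 Y ((le_max_right _ _).trans hY)
  have hYp : 0 < Y := by linarith
  set X := 160 * m * Y with hX
  have hXp : 0 < X := by positivity
  have hδ0 : 0 < δ := lt_of_lt_of_le (by positivity) hδΛ
  set u := δ * X with hu
  have huΛ : Λ ≤ u := by rwa [div_le_iff₀ hXp] at hδΛ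
  have hu1 : 1 ≤ u := hΛge1.trans huΛ
  have hu0 : 0 < u := by linarith
  have hδY : δ * Y = u / (160 * m) := by rw [hu, hX]; field_simp
  have hδYB : ΛB ≤ δ * Y := by
    rw [hδY, le_div_iff₀ (by positivity)]
    linarith
  have hδY1 : 1 ≤ δ * Y := by
    rw [hδY, le_div_iff₀ (by positivity)]
    linarith
  have hyexp : 1 / δ ≤ Y := by
    rw [div_le_iff₀ hδ0]
    linarith
  have hYX : Y ≤ X := le_mul_of_one_le_left hYp.le (by linarith)
  have hs : (1 : ℝ) ≤ 1 + 2 * δ := by linarith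
  obtain ⟨g1, g2, g3, g4, _⟩ := hforms m hmA p0 hpA k hk0.le hkN Y hYp J (1 + 2 * δ) hs
  have hQ : Real.log (1 / δ) - c ≤ QT (1 + 2 * δ) p0 Y J := by
    rw [QT_eq hYp hJ4]
    have := hc' δ hδ0 hδ4 (Real.exp Y) (Real.exp_le_exp.mpr hyexp)
    linarith
  have hElow := EN_lower (K := K) g3 (her m hmE p0 hpE) hk0.le hkN hc0 hδ0 hQ
  rw [← hd] at hElow
  set E := EN k K m p0 Y J (1 + 2 * δ) with hE
  have hXu : X / u = 1 / δ := by rw [hu]; field_simp
  have hEX : (X / u) ^ (k ^ 2) * Real.exp (-d) ≤ E := by rw [hXu]; exact hElow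
  have hE1 : 1 ≤ E * Real.exp d := by
    have h1 : 1 ≤ (1 / δ) ^ (k ^ 2) := by
      apply Real.one_le_rpow _ (by positivity)
      rw [le_div_iff₀ hδ0]
      linarith
    calc (1 : ℝ) = 1 * Real.exp (-d) * Real.exp d := by rw [mul_assoc, ← Real.exp_add]; simp
      _ ≤ (1 / δ) ^ (k ^ 2) * Real.exp (-d) * Real.exp d := by gcongr
      _ ≤ _ := by gcongr
  have hE0 : 0 < E := lt_of_lt_of_le (by positivity) hElow
  set T := Real.exp X with hT
  have hTp : 0 < T := Real.exp_pos _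
  obtain ⟨hDs, hBs, hnrm, _, _⟩ := hsz k hk0.le hkN m (by omega) Y hYp J
  obtain ⟨hf1, hf2⟩ := hKf' k hk0.le hkN Y hY3 J hJ4
  set D := DN k K m p0 Y J with hD
  set B := BN k K m p0 Y J with hB
  set H := CD * Real.exp (2 * m * Y) with hH
  have hCD0 : 0 < CD := by linarith
  have hH1 : 1 ≤ H := by
    calc (1 : ℝ) = 1 * 1 := by ring
      _ ≤ _ := by
        rw [hH]
        gcongr
        exact Real.one_le_exp (by positivity)
  have hHT : H ≤ T ^ (1 / 4 : ℝ) := by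
    have e1 : T ^ (1 / 4 : ℝ) = Real.exp (40 * m * Y) := by
      rw [hT, ← Real.exp_mul, hX]; congr 1; ring
    rw [e1, hH]
    have h1 : CD ≤ Real.exp Y := by
      rwa [← Real.log_le_iff_le_exp hCD0]
    calc CD * Real.exp (2 * m * Y) ≤ Real.exp Y * Real.exp (2 * m * Y) := by gcongr
      _ = Real.exp (Y + 2 * m * Y) := by rw [← Real.exp_add]
      _ ≤ _ := by
          apply Real.exp_le_exp.mpr
          have : 1 * Y ≤ 38 * m * Y := by gcongr; linarith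
          linarith
  have hp0Y : (p0 : ℝ) ≤ Real.exp Y := by
    have := Real.add_one_le_exp Y
    linarith
  have hWs := hen m hmB p0 hpB K k hk0.le hkN δ hδ0 hδ4 Y hδYB hp0Y J hJ4
  have hTT : T1 ≤ T := by
    rw [hT, ← Real.log_le_iff_le_exp (by linarith)]
    linarith
  have hmain := hoff T hTT (1 / 2 + δ) (by linarith) (by linarith) D B H (η1 * E) hH1 hHT hDs hBs hWs (by
      refine Continuous.integrableOn_Ioc ?_
      have c1 := continuous_zeta_line (σ := 1 / 2 + δ) (by linarith)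
      have c2 := continuous_evs_line (σ := 1 / 2 + δ) (by linarith) D
      have c3 := continuous_evs_line (σ := 1 / 2 + δ) (by linarith) B
      exact ((c1.mul c2).sub c3).norm.pow 2)
  refine hmain.trans ?_
  have hlogT : Real.log T = X := by rw [hT, Real.log_exp]
  -- first term
  have t1 : C * (η1 * E) ≤ η / 2 * E := by
    calc C * (η1 * E) = (C * η1) * E := by ring
      _ ≤ _ := by gcongr
  -- second term
  have hTδ : T ^ (-(7 / 4 * (1 / 2 + δ - 1 / 2))) ≤ Real.exp (-u) := by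
    rw [hT, ← Real.exp_mul]
    apply Real.exp_le_exp.mpr
    have : X * -(7 / 4 * (1 / 2 + δ - 1 / 2)) = -(7 / 4 * u) := by rw [hu]; ring
    rw [this]
    linarith
  have t2 : C * (T ^ (-(7 / 4 * (1 / 2 + δ - 1 / 2))) * ((1 + Real.log T) * |BK K2 D D| + |BK Kg D D|))
      ≤ η / 4 * E := by
    rw [hlogT]
    refine numE5 (n := N ^ 2) (c := d) (u := u) (k2 := k ^ 2) (m := (m : ℝ)) hC hC1 hX hm0 hY3 hf1 hf2
      (abs_nonneg _) hu1 ?_ hYX (by positivity) hEX (by positivity) hTδ hE0 hA2 (hΛ1 u (hΛgeΛ1.trans huΛ))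
    push_cast
    gcongr
  -- third term
  have t3 : C * ((nrm D * H) ^ 2 / T ^ (1 / 16 : ℝ)) ≤ η / 4 * E := by
    refine numE6 (K := CD ^ 2) (m := (m : ℝ)) (Y := Y) (J := J) (N := N) (c := d) hC (nrm_nonneg D) hN0
      hmN' hY3 hJ ?_ (by linarith) ?_ hE1 hA3 hY2 hE0
    · calc nrm D * H ≤ (CD * Real.exp (N * J + 2 * m * Y)) * H := by gcongr
        _ = _ := by rw [hH]; ring
    · rw [hT, ← Real.exp_mul, hX]; congr 1; ring
  calc C * T * (η1 * E + T ^ (-(7 / 4 * (1 / 2 + δ - 1 / 2))) * ((1 + Real.log T) * |BK K2 D D| + |BK Kg D D|)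
        + (nrm D * H) ^ 2 / T ^ (1 / 16 : ℝ))
      = T * (C * (η1 * E) + C * (T ^ (-(7 / 4 * (1 / 2 + δ - 1 / 2)))
          * ((1 + Real.log T) * |BK K2 D D| + |BK Kg D D|))
        + C * ((nrm D * H) ^ 2 / T ^ (1 / 16 : ℝ))) := by ring
    _ ≤ T * (η / 2 * E + η / 4 * E + η / 4 * E) := by gcongr
    _ = _ := by ring

end Pool.Agent.Lib.NL
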