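import Mathlib
import Pool.Agent.Lib.MP_f9aece_nt_nl.Stmts
import Pool.Agent.Lib.MP_f9aece_nt_h5.EvS

/-!
Module G: the small primes, pointwise.
-/

set_option autoImplicit false

namespace Pool.Agent.Lib.NL

open MeasureTheory Set Filter Topology Complex
open Pool.Agent.Lib.MP_f9aece_nt Pool.Agent.Lib.MP_f9aece_nt_h97 Pool.Agent.Lib.MP_f9aece_nt_h5

namespace GSm

lemma bk_succ (k : ℝ) (i : ℕ) : bk k (i + 1) = bk k i * ((k + i) / (i + 1)) := by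
  unfold bk
  rw [Finset.prod_range_succ]

lemma bk_nonneg {k : ℝ} (hk : 0 ≤ k) (i : ℕ) : 0 ≤ bk k i :=
  Finset.prod_nonneg fun l _ => by positivity

lemma bk_mono {k k' : ℝ} (hk : 0 ≤ k) (hkk : k ≤ k') (i : ℕ) : bk k i ≤ bk k' i :=
  Finset.prod_le_prod (fun l _ => by positivity) fun l _ => by gcongr

lemma bk_poch (k : ℝ) (n : ℕ) :
    ((n.factorial : ℕ) : ℂ) * (bk k n : ℂ) = (ascPochhammer ℂ n).eval (k : ℂ) := by
  induction n with
  | zero => simp [bk]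
  | succ n ih =>
    rw [ascPochhammer_succ_eval, ← ih, bk_succ, Nat.factorial_succ]
    push_cast
    have : (n : ℂ) + 1 ≠ 0 := by exact_mod_cast Nat.succ_ne_zero n
    field_simp

lemma bk_choose (k : ℝ) (n : ℕ) : (bk k n : ℂ) = Ring.choose ((k : ℂ) + n - 1) n := by
  have h1 := Ring.factorial_nsmul_multichoose_eq_ascPochhammer (k : ℂ) n
  rw [Polynomial.ascPochhammer_smeval_eq_eval, ← bk_poch, nsmul_eq_mul] at h1
  have h2 : ((n.factorial : ℕ) : ℂ) ≠ 0 := by exact_mod_cast Nat.factorial_ne_zero n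
  have h3 := mul_left_cancel₀ h2 h1
  rw [← h3, Ring.multichoose_eq]

lemma bk_hasSum (k : ℝ) {w : ℂ} (hw : ‖w‖ < 1) :
    HasSum (fun n => (bk k n : ℂ) * w ^ n) (1 / (1 - w) ^ (k : ℂ)) := by
  have h := (Complex.one_div_one_sub_cpow_hasFPowerSeriesOnBall_zero (k : ℂ)).hasSum
    (y := w) (by
      rw [← ENNReal.ofReal_one, Metric.eball_ofReal]
      simpa using hw)
  simp only [FormalMultilinearSeries.ofScalars_apply_eq, smul_eq_mul, zero_add] at h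
  have e : (fun n => (bk k n : ℂ) * w ^ n) = fun n : ℕ => Ring.choose ((k : ℂ) + n - 1) n * w ^ n := by
    funext n
    rw [bk_choose]
  rw [e]
  exact h

lemma bk_summable {k : ℝ} (hk : 0 ≤ k) {r : ℝ} (hr0 : 0 ≤ r) (hr : r < 1) :
    Summable fun n => bk k n * r ^ n := by
  have h := (bk_hasSum k (w := (r : ℂ)) (by rw [Complex.norm_real, Real.norm_of_nonneg hr0]; exact hr)).summable.norm
  refine h.congr fun n => ?_
  rw [norm_mul, norm_pow, Complex.norm_real, Complex.norm_real, Real.norm_of_nonneg hr0,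
    Real.norm_of_nonneg (bk_nonneg hk n)]

/-- tails of the binomial series -/
noncomputable def tl (N : ℕ) (r : ℝ) (K : ℕ) : ℝ := ∑' i, bk N (i + (K + 1)) * r ^ (i + (K + 1))

lemma tl_nonneg (N : ℕ) {r : ℝ} (hr0 : 0 ≤ r) (K : ℕ) : 0 ≤ tl N r K :=
  tsum_nonneg fun i => mul_nonneg (bk_nonneg (Nat.cast_nonneg N) _) (by positivity)

lemma tl_tendsto (N : ℕ) (r : ℝ) : Tendsto (tl N r) atTop (𝓝 0) := by
  have h := tendsto_sum_nat_add fun n => bk N n * r ^ n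
  exact (tendsto_add_atTop_iff_nat (f := fun i => ∑' k, bk N (k + i) * r ^ (k + i)) 1).2 h

lemma trunc_le {N : ℕ} {k : ℝ} (hk : 0 ≤ k) (hkN : k ≤ N) {r : ℝ} (hr0 : 0 ≤ r) (hr : r < 1)
    {w : ℂ} (hw : ‖w‖ ≤ r) (K : ℕ) :
    ‖1 / (1 - w) ^ (k : ℂ) - ∑ i ∈ Finset.range (K + 1), (bk k i : ℂ) * w ^ i‖ ≤ tl N r K := by
  have h := bk_hasSum k (w := w) (by linarith)
  have h1 := h.summable.sum_add_tsum_nat_add (K + 1)
  rw [h.tsum_eq] at h1
  rw [← h1, add_sub_cancel_left]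
  have hs := (summable_nat_add_iff (K + 1)).2 (bk_summable (Nat.cast_nonneg N) hr0 hr)
  refine tsum_of_norm_bounded hs.hasSum fun i => ?_
  rw [norm_mul, norm_pow, Complex.norm_real, Real.norm_of_nonneg (bk_nonneg hk _)]
  exact mul_le_mul (bk_mono hk hkN _) (pow_le_pow_left₀ (norm_nonneg _) hw _) (by positivity)
    (bk_nonneg (Nat.cast_nonneg N) _)

lemma factor_le {N : ℕ} {k : ℝ} (hk : 0 ≤ k) (hkN : k ≤ N) {r : ℝ} (hr0 : 0 ≤ r) (hr : r < 1)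
    {w : ℂ} (hw : ‖w‖ ≤ r) (K : ℕ) :
    |‖∑ i ∈ Finset.range (K + 1), (bk k i : ℂ) * w ^ i‖ * ‖1 - w‖ ^ k - 1| ≤ 2 ^ N * tl N r K := by
  have h := trunc_le hk hkN hr0 hr hw K
  set S := ∑ i ∈ Finset.range (K + 1), (bk k i : ℂ) * w ^ i with hS
  have hw1 : ‖w‖ < 1 := by linarith
  have hne : 1 - w ≠ 0 := by
    intro h0
    have : w = 1 := (sub_eq_zero.1 h0).symm
    rw [this, norm_one] at hw1
    exact lt_irrefl _ hw1
  have hpos : 0 < ‖1 - w‖ := norm_pos_iff.2 hne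
  have h1 : ‖1 / (1 - w) ^ (k : ℂ)‖ = (‖1 - w‖ ^ k)⁻¹ := by
    rw [norm_div, norm_one, Complex.norm_cpow_real, one_div]
  have h2 := abs_norm_sub_norm_le (1 / (1 - w) ^ (k : ℂ)) S
  rw [h1] at h2
  have h3 : ‖1 - w‖ ^ k ≤ 2 ^ N := by
    have h4 : ‖1 - w‖ ≤ 2 := by
      refine (norm_sub_le _ _).trans ?_
      rw [norm_one]
      linarith
    calc ‖1 - w‖ ^ k ≤ 2 ^ k := Real.rpow_le_rpow hpos.le h4 hk
      _ ≤ 2 ^ (N : ℝ) := Real.rpow_le_rpow_of_exponent_le (by norm_num) hkN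
      _ = 2 ^ N := Real.rpow_natCast _ _
  have hc : 0 < ‖1 - w‖ ^ k := Real.rpow_pos_of_pos hpos _
  have h5 : ‖S‖ * ‖1 - w‖ ^ k - 1 = -(‖1 - w‖ ^ k * ((‖1 - w‖ ^ k)⁻¹ - ‖S‖)) := by
    field_simp
    ring
  rw [h5, abs_neg, abs_mul, abs_of_pos hc]
  exact mul_le_mul h3 (h2.trans h) (abs_nonneg _) (by positivity)

lemma evs_Lk (s : ℂ) (k : ℝ) (K p : ℕ) :
    evs s (Lk k K p) = ∑ i ∈ Finset.range (K + 1), (bk k i : ℂ) * ((p : ℂ) ^ (-s)) ^ i := by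
  rw [← evS_apply, Lk, map_sum]
  refine Finset.sum_congr rfl fun i hi => ?_
  clear hi
  rw [evS_single]
  congr 1
  induction i with
  | zero => simp
  | succ i ih =>
    rw [pow_succ ((p : ℂ) ^ (-s)), ← ih, pow_succ]
    push_cast
    have := Complex.natCast_mul_natCast_cpow (p ^ i) p (-s)
    push_cast at this
    exact this

lemma evs_Dsm (s : ℂ) (p0 : ℕ) : evs s (Dsm p0) = ∏ p ∈ Psm p0, (1 - (p : ℂ) ^ (-s)) := by
  rw [Dsm, evs_prod]
  refine Finset.prod_congr rfl fun p _ => ?_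
  rw [← evS_apply, map_sub, map_one, evS_single]
  simp

lemma norm_pow_le {p : ℕ} (hp : p.Prime) {δ : ℝ} (hδ : 0 ≤ δ) (t : ℝ) :
    ‖(p : ℂ) ^ (-pt δ t)‖ ≤ (2 : ℝ) ^ (-(1 / 2) : ℝ) := by
  rw [Complex.norm_natCast_cpow_of_pos hp.pos]
  have e2 : (-pt δ t).re = -(1 / 2 + δ) := by simp [pt]
  rw [e2]
  have hp2 : (2 : ℝ) ≤ p := by exact_mod_cast hp.two_le
  calc (p : ℝ) ^ (-(1 / 2 + δ)) ≤ (p : ℝ) ^ (-(1 / 2) : ℝ) :=
        Real.rpow_le_rpow_of_exponent_le (by linarith) (by linarith)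
    _ ≤ _ := Real.rpow_le_rpow_of_nonpos (by norm_num) hp2 (by norm_num)

end GSm

open GSm in
theorem smallPt : SmallPt := by
  intro N p0 ε hε
  set r : ℝ := (2 : ℝ) ^ (-(1 / 2) : ℝ) with hr
  have hr0 : 0 ≤ r := by positivity
  have hr1 : r < 1 := Real.rpow_lt_one_of_one_lt_of_neg (by norm_num) (by norm_num)
  have h1 : Tendsto (fun K => 2 ^ N * tl N r K) atTop (𝓝 (2 ^ N * 0)) :=
    (tl_tendsto N r).const_mul _
  rw [mul_zero] at h1
  have h2 : Tendsto (fun K => Real.exp ((Psm p0).card * (3 * (2 ^ N * tl N r K))) - 1) atTop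
      (𝓝 (Real.exp ((Psm p0).card * (3 * 0)) - 1)) :=
    ((Real.continuous_exp.tendsto _).comp ((h1.const_mul 3).const_mul _)).sub_const 1
  rw [mul_zero, mul_zero, Real.exp_zero, sub_self] at h2
  obtain ⟨K1, hK1⟩ := eventually_atTop.1 ((h1.eventually_le_const zero_lt_one).and
    (h2.eventually_le_const hε))
  refine ⟨K1, fun K hK k hk0 hk δ t hδ => ?_⟩
  obtain ⟨hη1, hη2⟩ := hK1 K hK
  set η := 2 ^ N * tl N r K with hη
  have hη0 : 0 ≤ η := mul_nonneg (by positivity) (tl_nonneg N hr0 K)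
  set w : ℕ → ℂ := fun p => (p : ℂ) ^ (-pt δ t) with hw
  set x : ℕ → ℝ := fun p => ‖∑ i ∈ Finset.range (K + 1), (bk k i : ℂ) * w p ^ i‖ * ‖1 - w p‖ ^ k
    with hx
  have hxp : ∀ p ∈ Psm p0, |x p - 1| ≤ η := fun p hp =>
    factor_le hk0 hk hr0 hr1 (norm_pow_le (Finset.mem_filter.mp hp).2 hδ t) K
  have e1 : ‖evs (pt δ t) (B0 k K p0)‖ ^ 2 * ‖evs (pt δ t) (Dsm p0)‖ ^ (2 * k)
      = ∏ p ∈ Psm p0, (1 + (x p ^ 2 - 1)) := by
    rw [B0, evs_prod, evs_Dsm, norm_prod, norm_prod, ← Finset.prod_pow,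
      ← Real.finsetProd_rpow _ _ (fun _ _ => norm_nonneg _), ← Finset.prod_mul_distrib]
    refine Finset.prod_congr rfl fun p _ => ?_
    rw [evs_Lk, hx]
    have e2 : ‖1 - w p‖ ^ (2 * k) = (‖1 - w p‖ ^ k) ^ 2 := by
      rw [← Real.rpow_natCast, ← Real.rpow_mul (norm_nonneg _)]
      congr 1
      push_cast
      ring
    change _ * ‖1 - w p‖ ^ (2 * k) = _
    rw [e2]
    ring
  rw [e1]
  have h3 := Finset.norm_prod_one_add_sub_one_le (Psm p0) fun p => x p ^ 2 - 1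
  rw [Real.norm_eq_abs] at h3
  refine h3.trans (le_trans ?_ hη2)
  have h4 : ∑ p ∈ Psm p0, ‖x p ^ 2 - 1‖ ≤ (Psm p0).card * (3 * η) := by
    rw [← nsmul_eq_mul]
    refine Finset.sum_le_card_nsmul _ _ _ fun p hp => ?_
    have h5 := hxp p hp
    have h6 : x p ^ 2 - 1 = (x p - 1) * ((x p - 1) + 2) := by ring
    rw [Real.norm_eq_abs, h6, abs_mul]
    have h7 : |x p - 1 + 2| ≤ 3 := by
      have := abs_le.mp (h5.trans hη1)
      rw [abs_le]
      constructor <;> linarith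
    calc |x p - 1| * |x p - 1 + 2| ≤ η * 3 := mul_le_mul h5 h7 (abs_nonneg _) hη0
      _ = 3 * η := by ring
  have := Real.exp_le_exp.mpr h4
  linarith

end Pool.Agent.Lib.NL
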