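import Mathlib
import Pool.Agent.Lib.MP_f9aece_nt_nl.E

/-!
NearLine, module I: the lower bound, from the pointwise inequality and the mean values.
-/

set_option autoImplicit false

namespace Pool.Agent.Lib.NL

open MeasureTheory Set Filter Topology Complex
open Pool.Agent.Lib.MP_f9aece_nt Pool.Agent.Lib.MP_f9aece_nt_h97

lemma continuous_Pj (p0 : ℕ) (Y σ : ℝ) (j : ℕ) : Continuous (fun t : ℝ => Pj p0 Y σ j t) := by
  unfold Pj
  refine continuous_finsetSum _ fun p hp => ?_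
  refine Continuous.const_cpow (by fun_prop) ?_
  left
  exact_mod_cast (sc_prime hp).ne_zero

lemma continuous_Qw (N m p0 : ℕ) (Y σ : ℝ) (J : ℕ) : Continuous (fun t : ℝ => Qw N m p0 Y σ J t) := by
  unfold Qw
  exact continuous_finsetSum _ fun j _ => ((continuous_Pj p0 Y σ j).norm.div_const _).pow _

lemma amgm_tau {a b N τ : ℝ} (_hN : 0 ≤ N) (hτ : 0 < τ) :
    2 * N * (a * b) ≤ τ * a ^ 2 + N ^ 2 / τ * b ^ 2 := by
  have h : 0 ≤ (τ * a - N * b) ^ 2 / τ := by positivity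
  have e : (τ * a - N * b) ^ 2 / τ = τ * a ^ 2 - 2 * N * (a * b) + N ^ 2 / τ * b ^ 2 := by
    field_simp
    ring
  rw [e] at h
  linarith

lemma numI {ε TE IB IW IQ M : ℝ} {N : ℝ} (h0 : 0 < ε) (h1 : ε ≤ 1 / 4) (hN : 1 ≤ N) (hTE : 0 ≤ TE)
    (hB : (1 - ε) * TE ≤ IB) (hW : IW ≤ ε ^ 2 / N ^ 2 * TE) (hQ : IQ ≤ ε * TE)
    (h : (1 - 2 * ε) * ((1 - ε) * IB - N ^ 2 / ε * IW) - IQ ≤ M) : (1 - 6 * ε) * TE ≤ M := by
  have hN0 : 0 < N := by linarith
  have a1 : N ^ 2 / ε * IW ≤ ε * TE := by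
    calc N ^ 2 / ε * IW ≤ N ^ 2 / ε * (ε ^ 2 / N ^ 2 * TE) := by gcongr
      _ = ε * TE := by field_simp
  have a2 : (1 - ε) * ((1 - ε) * TE) ≤ (1 - ε) * IB := mul_le_mul_of_nonneg_left hB (by linarith)
  have a3 : (1 - 2 * ε) * ((1 - ε) * ((1 - ε) * TE) - ε * TE)
      ≤ (1 - 2 * ε) * ((1 - ε) * IB - N ^ 2 / ε * IW) :=
    mul_le_mul_of_nonneg_left (by linarith) (by linarith)
  have e : (1 - 2 * ε) * ((1 - ε) * ((1 - ε) * TE) - ε * TE) - ε * TE - (1 - 6 * ε) * TE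
      = (7 * ε ^ 2 - 2 * ε ^ 3) * TE := by ring
  have a4 : 0 ≤ (7 * ε ^ 2 - 2 * ε ^ 3) * TE := by
    apply mul_nonneg _ hTE
    nlinarith [sq_nonneg ε, mul_pos h0 h0]
  linarith

theorem lowerN (hE : OffCoreN) (hF : MeanN) (hG : SmallPt) (hH : LowerPt) : LowerN := by
  intro N hN η hη
  set ε := min (1 / 4) (η / 6) with hε
  have hε0 : 0 < ε := lt_min (by norm_num) (by positivity)
  have hε4 : ε ≤ 1 / 4 := min_le_left _ _
  have hεη : 6 * ε ≤ η := by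
    have := min_le_right (1 / 4) (η / 6)
    rw [← hε] at this
    linarith
  have hN1 : (1 : ℝ) ≤ N := by exact_mod_cast hN
  have hN0 : (0 : ℝ) < N := by linarith
  obtain ⟨mE, pE, hmE4, hpE2, hE'⟩ := hE N hN (ε ^ 2 / (N : ℝ) ^ 2) (by positivity)
  obtain ⟨mF, hmF4, hF'⟩ := hF N hN ε hε0
  obtain ⟨mH, hmH4, hH'⟩ := hH N hN ε hε0 hε4
  refine ⟨max mE (max mF mH), pE, hmE4.trans (le_max_left _ _), hpE2, ?_⟩
  intro m hm p0 hp0
  have hmE : mE ≤ m := (le_max_left _ _).trans hm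
  have hmF : mF ≤ m := ((le_max_left _ _).trans (le_max_right _ _)).trans hm
  have hmH : mH ≤ m := ((le_max_right _ _).trans (le_max_right _ _)).trans hm
  obtain ⟨K1, hG'⟩ := hG N p0 ε hε0
  refine ⟨K1, ?_⟩
  intro K hK
  obtain ⟨Λ, YE, hΛ1, hYE1, hE''⟩ := hE' m hmE p0 hp0 K
  obtain ⟨YF, hYF1, hF''⟩ := hF' m hmF p0 (by omega) K
  refine ⟨Λ, max YE YF, hΛ1, hYE1.trans (le_max_left _ _), ?_⟩
  intro Y hY J hJ hJ4 δ hδΛ hδ4 k hk0 hkN
  have hYYE : YE ≤ Y := (le_max_left _ _).trans hY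
  have hYYF : YF ≤ Y := (le_max_right _ _).trans hY
  have hYp : 0 < Y := by linarith
  have hm0 : (0 : ℝ) < m := by exact_mod_cast (by omega : 0 < m)
  have hδ0 : 0 < δ := lt_of_lt_of_le (by positivity) hδΛ
  have hW := hE'' Y hYYE J hJ hJ4 δ hδΛ hδ4 k hk0 hkN
  obtain ⟨hE1, hB, hQ⟩ := hF'' Y hYYF J hJ k hk0 hkN δ hδ0.le hδ4
  set T := Real.exp (160 * m * Y) with hT
  have hTp : 0 < T := Real.exp_pos _
  set E := EN k K m p0 Y J (1 + 2 * δ) with hEd
  set IB := ∫ t in (0 : ℝ)..T, ‖evs (pt δ t) (BN k K m p0 Y J)‖ ^ 2 with hIB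
  set IQ := ∫ t in (0 : ℝ)..T, ‖evs (pt δ t) (BN k K m p0 Y J)‖ ^ 2 * Qw N m p0 Y (1 / 2 + δ) J t with hIQ
  set IW := ∫ t in (0 : ℝ)..T, ‖riemannZeta (pt δ t) * evs (pt δ t) (DN k K m p0 Y J)
    - evs (pt δ t) (BN k K m p0 Y J)‖ ^ 2 with hIW
  have cz := continuous_zeta_pt (δ := δ) (by linarith)
  have cD := continuous_evs_pt hδ0.le (DN k K m p0 Y J)
  have cB := continuous_evs_pt hδ0.le (BN k K m p0 Y J)
  have cQ := continuous_Qw N m p0 Y (1 / 2 + δ) J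
  have cB2 : Continuous (fun t : ℝ => ‖evs (pt δ t) (BN k K m p0 Y J)‖ ^ 2) := cB.norm.pow 2
  have cW : Continuous (fun t : ℝ => ‖riemannZeta (pt δ t) * evs (pt δ t) (DN k K m p0 Y J)
    - evs (pt δ t) (BN k K m p0 Y J)‖ ^ 2) := ((cz.mul cD).sub cB).norm.pow 2
  have key : (1 - 2 * ε) * ((1 - ε) * IB - (N : ℝ) ^ 2 / ε * IW) - IQ ≤ ML k δ T := by
    have e1 : (1 - 2 * ε) * ((1 - ε) * IB - (N : ℝ) ^ 2 / ε * IW) - IQ
        = ∫ t in (0 : ℝ)..T, ((1 - 2 * ε) * ((1 - ε) * ‖evs (pt δ t) (BN k K m p0 Y J)‖ ^ 2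
          - (N : ℝ) ^ 2 / ε * ‖riemannZeta (pt δ t) * evs (pt δ t) (DN k K m p0 Y J)
            - evs (pt δ t) (BN k K m p0 Y J)‖ ^ 2)
          - ‖evs (pt δ t) (BN k K m p0 Y J)‖ ^ 2 * Qw N m p0 Y (1 / 2 + δ) J t) := by
      rw [intervalIntegral.integral_sub, intervalIntegral.integral_const_mul,
        intervalIntegral.integral_sub, intervalIntegral.integral_const_mul,
        intervalIntegral.integral_const_mul]
      · exact (cB2.const_mul _).intervalIntegrable _ _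
      · exact (cW.const_mul _).intervalIntegrable _ _
      · exact (((cB2.const_mul _).sub (cW.const_mul _)).const_mul _).intervalIntegrable _ _
      · exact (cB2.mul cQ).intervalIntegrable _ _
    rw [e1]
    unfold ML
    refine intervalIntegral.integral_mono_on hTp.le ?_ ?_ ?_
    · exact ((((cB2.const_mul _).sub (cW.const_mul _)).const_mul _).sub (cB2.mul cQ)).intervalIntegrable _ _
    · exact (cz.norm.rpow_const fun _ => Or.inr (by linarith)).intervalIntegrable _ _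
    · intro t _
      have hsm := hG' K hK k hk0.le hkN δ t hδ0.le
      have hpt := hH' m hmH p0 K k hk0 hkN Y J δ t hδ0.le (riemannZeta (pt δ t))
        (by have := (abs_le.mp hsm).2; linarith)
      refine le_trans ?_ hpt
      have ham := amgm_tau (a := ‖evs (pt δ t) (BN k K m p0 Y J)‖)
        (b := ‖riemannZeta (pt δ t) * evs (pt δ t) (DN k K m p0 Y J)
            - evs (pt δ t) (BN k K m p0 Y J)‖) (N := N) hN0.le hε0
      have h2 : (1 - 2 * ε) * ((1 - ε) * ‖evs (pt δ t) (BN k K m p0 Y J)‖ ^ 2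
          - (N : ℝ) ^ 2 / ε * ‖riemannZeta (pt δ t) * evs (pt δ t) (DN k K m p0 Y J)
            - evs (pt δ t) (BN k K m p0 Y J)‖ ^ 2)
          ≤ (1 - 2 * ε) * (‖evs (pt δ t) (BN k K m p0 Y J)‖ ^ 2
            - 2 * N * (‖evs (pt δ t) (BN k K m p0 Y J)‖
              * ‖riemannZeta (pt δ t) * evs (pt δ t) (DN k K m p0 Y J)
                - evs (pt δ t) (BN k K m p0 Y J)‖)) :=
        mul_le_mul_of_nonneg_left (by linarith) (by linarith)
      linarith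
  have hTE : 0 ≤ T * E := by positivity
  have h6 := numI (N := N) hε0 hε4 hN1 hTE (by have := (abs_le.mp hB).1; linarith) hW hQ key
  refine le_trans (mul_le_mul_of_nonneg_right ?_ hTE) h6
  linarith

end Pool.Agent.Lib.NL
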