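import Mathlib
import Pool.Agent.Lib.MP_f9aece_nt_nl.I

/-!
NearLine, module N: the upper bound, from the pointwise inequality and the mean values.
-/

set_option autoImplicit false

namespace Pool.Agent.Lib.NL

open MeasureTheory Set Filter Topology Complex
open Pool.Agent.Lib.MP_f9aece_nt Pool.Agent.Lib.MP_f9aece_nt_h97

lemma continuous_EE (M : ℕ) : Continuous (fun z : ℂ => EE M z) := by
  unfold EE
  exact continuous_finsetSum _ fun r _ => (continuous_pow r).div_const _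

lemma continuous_up (c : ℝ) (m p0 : ℕ) (Y σ : ℝ) (J : ℕ) :
    Continuous (fun t : ℝ => up c (Mm m) (Rm m) (fun j => Pj p0 Y σ j t) J) := by
  induction J with
  | zero => exact continuous_const
  | succ J ih =>
    have e : (fun t : ℝ => up c (Mm m) (Rm m) (fun j => Pj p0 Y σ j t) (J + 1))
        = fun t : ℝ => ‖EE (Mm m J) (c * Pj p0 Y σ J t)‖ ^ 2
          * up c (Mm m) (Rm m) (fun j => Pj p0 Y σ j t) J
          + 5 * |c| * Real.exp (Rm m J) * (‖Pj p0 Y σ J t‖ / Rm m J) ^ (2 * Mm m J) := rfl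
    rw [e]
    have cP := continuous_Pj p0 Y σ J
    exact ((((continuous_EE _).comp (continuous_const.mul cP)).norm.pow 2).mul ih).add
      (continuous_const.mul ((cP.norm.div_const _).pow _))

theorem upperN (hG : SmallPt) (hJ : UpperPt) (hL : UpperB) (hM : UpperA) : UpperN := by
  intro η hη
  set ε := min (1 / 4) (η / 8) with hε
  have hε0 : 0 < ε := lt_min (by norm_num) (by positivity)
  have hε4 : ε ≤ 1 / 4 := min_le_left _ _
  have hεη : 8 * ε ≤ η := by
    have := min_le_right (1 / 4) (η / 8)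
    rw [← hε] at this
    linarith
  obtain ⟨mJ, hmJ4, hJ'⟩ := hJ ε hε0 hε4
  obtain ⟨mL, hmL4, hL'⟩ := hL ε hε0
  obtain ⟨mM, pM, hmM4, hpM2, hM'⟩ := hM ε hε0
  refine ⟨max mM (max mJ mL), pM, hmM4.trans (le_max_left _ _), hpM2, ?_⟩
  intro m hm p0 hp0
  have hmM : mM ≤ m := (le_max_left _ _).trans hm
  have hmJ : mJ ≤ m := ((le_max_left _ _).trans (le_max_right _ _)).trans hm
  have hmL : mL ≤ m := ((le_max_right _ _).trans (le_max_right _ _)).trans hm
  obtain ⟨K1, hG'⟩ := hG 1 p0 ε hε0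
  refine ⟨K1, ?_⟩
  intro K hK
  obtain ⟨Λ, YM, hΛ1, hYM1, hM''⟩ := hM' m hmM p0 hp0 K
  obtain ⟨YL, hYL1, hL''⟩ := hL' m hmL p0 (by omega) K
  refine ⟨Λ, max YM YL, hΛ1, hYM1.trans (le_max_left _ _), ?_⟩
  intro Y hY J hJ hJ4 δ hδΛ hδ4 k hk0 hk1
  have hYYM : YM ≤ Y := (le_max_left _ _).trans hY
  have hYYL : YL ≤ Y := (le_max_right _ _).trans hY
  have hYp : 0 < Y := by linarith
  have hm0 : (0 : ℝ) < m := by exact_mod_cast (by omega : 0 < m)
  have hδ0 : 0 < δ := lt_of_lt_of_le (by positivity) hδΛ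
  have hA := hM'' Y hYYM J hJ hJ4 δ hδΛ hδ4 k hk0 hk1
  have hB := hL'' Y hYYL J hJ k hk0 hk1 δ hδ0.le hδ4
  set T := Real.exp (160 * m * Y) with hT
  have hTp : 0 < T := Real.exp_pos _
  set E := EN k K m p0 Y J (1 + 2 * δ) with hEd
  set IA := ∫ t in (0 : ℝ)..T, ‖riemannZeta (pt δ t) * evs (pt δ t) (B0 k K p0 * Dsm p0)‖ ^ 2
      * up (-(1 - k)) (Mm m) (Rm m) (fun j => Pj p0 Y (1 / 2 + δ) j t) J with hIA
  set IB := ∫ t in (0 : ℝ)..T, ‖evs (pt δ t) (B0 k K p0)‖ ^ 2
      * up k (Mm m) (Rm m) (fun j => Pj p0 Y (1 / 2 + δ) j t) J with hIB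
  have cz := continuous_zeta_pt (δ := δ) (by linarith)
  have c0 := continuous_evs_pt hδ0.le (B0 k K p0)
  have c1 := continuous_evs_pt hδ0.le (B0 k K p0 * Dsm p0)
  have cU1 := continuous_up (-(1 - k)) m p0 Y (1 / 2 + δ) J
  have cU2 := continuous_up k m p0 Y (1 / 2 + δ) J
  have cA : Continuous (fun t : ℝ => ‖riemannZeta (pt δ t) * evs (pt δ t) (B0 k K p0 * Dsm p0)‖ ^ 2
      * up (-(1 - k)) (Mm m) (Rm m) (fun j => Pj p0 Y (1 / 2 + δ) j t) J) :=
    ((cz.mul c1).norm.pow 2).mul cU1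
  have cB : Continuous (fun t : ℝ => ‖evs (pt δ t) (B0 k K p0)‖ ^ 2
      * up k (Mm m) (Rm m) (fun j => Pj p0 Y (1 / 2 + δ) j t) J) := (c0.norm.pow 2).mul cU2
  have key : ML k δ T ≤ (1 + 3 * ε) * (k * IA + (1 - k) * IB) := by
    have e1 : (1 + 3 * ε) * (k * IA + (1 - k) * IB) = ∫ t in (0 : ℝ)..T, (1 + 3 * ε) *
        (k * (‖riemannZeta (pt δ t) * evs (pt δ t) (B0 k K p0 * Dsm p0)‖ ^ 2
          * up (-(1 - k)) (Mm m) (Rm m) (fun j => Pj p0 Y (1 / 2 + δ) j t) J)
        + (1 - k) * (‖evs (pt δ t) (B0 k K p0)‖ ^ 2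
          * up k (Mm m) (Rm m) (fun j => Pj p0 Y (1 / 2 + δ) j t) J)) := by
      rw [intervalIntegral.integral_const_mul, intervalIntegral.integral_add,
        intervalIntegral.integral_const_mul, intervalIntegral.integral_const_mul]
      · exact (cA.const_mul _).intervalIntegrable _ _
      · exact (cB.const_mul _).intervalIntegrable _ _
    rw [e1]
    unfold ML
    refine intervalIntegral.integral_mono_on hTp.le ?_ ?_ ?_
    · exact (cz.norm.rpow_const fun _ => Or.inr (by linarith)).intervalIntegrable _ _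
    · exact (((cA.const_mul _).add (cB.const_mul _)).const_mul _).intervalIntegrable _ _
    · intro t _
      have hsm := hG' K hK k hk0.le (by exact_mod_cast hk1) δ t hδ0.le
      exact hJ' m hmJ p0 K k hk0 hk1 Y J δ t hδ0.le (riemannZeta (pt δ t))
        (by have := (abs_le.mp hsm).1; linarith)
  have hM0 : 0 ≤ ML k δ T := by
    unfold ML
    exact intervalIntegral.integral_nonneg hTp.le fun t _ => by positivity
  have hmix : k * IA + (1 - k) * IB ≤ (1 + ε) * (T * E) := by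
    have a1 : k * IA ≤ k * ((1 + ε) * (T * E)) := mul_le_mul_of_nonneg_left hA hk0.le
    have a2 : (1 - k) * IB ≤ (1 - k) * ((1 + ε) * (T * E)) :=
      mul_le_mul_of_nonneg_left hB (by linarith)
    linarith
  have h3 : ML k δ T ≤ (1 + 3 * ε) * ((1 + ε) * (T * E)) :=
    key.trans (mul_le_mul_of_nonneg_left hmix (by linarith))
  have hTE : 0 ≤ T * E := by
    by_contra hneg
    rw [not_le] at hneg
    have : (1 + 3 * ε) * ((1 + ε) * (T * E)) < 0 := by
      have h5 : 0 < (1 + 3 * ε) * (1 + ε) := by positivity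
      nlinarith
    linarith
  refine h3.trans ?_
  rw [← mul_assoc]
  refine mul_le_mul_of_nonneg_right ?_ hTE
  nlinarith

end Pool.Agent.Lib.NL
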