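import Mathlib
import Pool.Agent.Lib.MP_f9aece_nt_nl.N

/-!
NearLine, module P: the moments over `[0,T]` and over shifted intervals.
-/

set_option autoImplicit false

namespace Pool.Agent.Lib.NL

open MeasureTheory Set Filter Topology Complex
open Pool.Agent.Lib.MP_f9aece_nt Pool.Agent.Lib.MP_f9aece_nt_h97

/-- the number of scales -/
lemma exists_J {Y : ℝ} (hY : 0 < Y) : ∃ J : ℕ, (J : ℝ) ≤ Y + 3 ∧ Y / 4 ^ J < Real.log 2 := by
  refine ⟨⌈Y⌉₊ + 1, ?_, ?_⟩
  · push_cast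
    have := (Nat.ceil_lt_add_one hY.le).le
    linarith
  · have h1 : Y ≤ (⌈Y⌉₊ : ℝ) := Nat.le_ceil Y
    have h2 : ((⌈Y⌉₊ + 1 : ℕ) : ℝ) ≤ 2 ^ ⌈Y⌉₊ := by exact_mod_cast Nat.lt_two_pow_self
    have h3 : (2 : ℝ) ^ ⌈Y⌉₊ ≤ 4 ^ ⌈Y⌉₊ := by gcongr; norm_num
    have h4 := Real.log_two_gt_d9
    rw [div_lt_iff₀ (by positivity), pow_succ]
    push_cast at h2
    have h5 : (1 : ℝ) ≤ 4 ^ ⌈Y⌉₊ := one_le_pow₀ (by norm_num)
    nlinarith

lemma numP_low {η ε T E S M : ℝ} (_h0 : 0 ≤ η) (hη : 2 * η ≤ ε) (hη1 : η ≤ 1 / 4) (hT : 0 ≤ T)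
    (hS : 0 ≤ S) (h1 : (1 - η) * (T * E) ≤ M) (h2 : (1 - η) * S ≤ E) : (1 - ε) * (T * S) ≤ M := by
  have a1 : (1 - η) * (T * ((1 - η) * S)) ≤ (1 - η) * (T * E) := by
    have : 0 ≤ 1 - η := by linarith
    gcongr
  have e : (1 - η) * (T * ((1 - η) * S)) = (1 - η) ^ 2 * (T * S) := by ring
  have a2 : (1 - ε) * (T * S) ≤ (1 - η) ^ 2 * (T * S) := by
    refine mul_le_mul_of_nonneg_right ?_ (by positivity)
    nlinarith [sq_nonneg η]
  linarith

lemma numP_up {η ε T E S M : ℝ} (h0 : 0 ≤ η) (hη : 3 * η ≤ ε) (hη1 : η ≤ 1 / 4) (hT : 0 ≤ T)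
    (hS : 0 ≤ S) (h1 : M ≤ (1 + η) * (T * E)) (h2 : E ≤ (1 + η) * S) : M ≤ (1 + ε) * (T * S) := by
  have a1 : (1 + η) * (T * E) ≤ (1 + η) * (T * ((1 + η) * S)) := by gcongr
  have e : (1 + η) * (T * ((1 + η) * S)) = (1 + η) ^ 2 * (T * S) := by ring
  have a2 : (1 + η) ^ 2 * (T * S) ≤ (1 + ε) * (T * S) := by
    refine mul_le_mul_of_nonneg_right ?_ (by positivity)
    nlinarith
  linarith

/-- the moments over `[0,T]` -/
theorem moment_core (hI : LowerN) (hU : UpperN) (hO : SeriesN) (hF : MeanN) (N : ℕ) (hN : 1 ≤ N)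
    (ε : ℝ) (hε : 0 < ε) : ∃ C : ℝ, 1 ≤ C ∧ ∀ k δ T : ℝ, 0 < k → k ≤ N →
    0 < δ → δ ≤ 1 / 4 → 1 ≤ T → C ≤ δ * Real.log T →
    1 / 2 ≤ SS k (1 + 2 * δ) ∧
    (1 - ε) * (T * SS k (1 + 2 * δ)) ≤ ML k δ T ∧
    (k ≤ 1 → ML k δ T ≤ (1 + ε) * (T * SS k (1 + 2 * δ))) := by
  set η := min (1 / 4) (ε / 3) with hη
  have hη0 : 0 < η := lt_min (by norm_num) (by positivity)
  have hη4 : η ≤ 1 / 4 := min_le_left _ _
  have hηε : 3 * η ≤ ε := by
    have := min_le_right (1 / 4) (ε / 3)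
    rw [← hη] at this
    linarith
  obtain ⟨mI, pI, hmI4, hpI2, hI'⟩ := hI N hN η hη0
  obtain ⟨mU, pU, hmU4, hpU2, hU'⟩ := hU η hη0
  obtain ⟨mO, pO, hmO4, hpO2, hO'⟩ := hO N hN η hη0
  obtain ⟨mF, hmF4, hF'⟩ := hF N hN η hη0
  set m := max (max mI mU) (max mO mF) with hm
  set p0 := max pI (max pU pO) with hp0
  have hmI : mI ≤ m := (le_max_left _ _).trans (le_max_left _ _)
  have hmU : mU ≤ m := (le_max_right _ _).trans (le_max_left _ _)
  have hmO : mO ≤ m := (le_max_left _ _).trans (le_max_right _ _)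
  have hmF : mF ≤ m := (le_max_right _ _).trans (le_max_right _ _)
  have hpI : pI ≤ p0 := le_max_left _ _
  have hpU : pU ≤ p0 := (le_max_left _ _).trans (le_max_right _ _)
  have hpO : pO ≤ p0 := (le_max_right _ _).trans (le_max_right _ _)
  obtain ⟨KI, hI''⟩ := hI' m hmI p0 hpI
  obtain ⟨KU, hU''⟩ := hU' m hmU p0 hpU
  obtain ⟨KO, hO''⟩ := hO' m hmO p0 hpO
  set K := max KI (max KU KO) with hK
  obtain ⟨ΛI, YI, hΛI1, hYI1, hI3⟩ := hI'' K (le_max_left _ _)
  obtain ⟨ΛU, YU, hΛU1, hYU1, hU3⟩ := hU'' K ((le_max_left _ _).trans (le_max_right _ _))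
  obtain ⟨ΛO, hΛO1, hO3⟩ := hO'' K ((le_max_right _ _).trans (le_max_right _ _))
  obtain ⟨YF, hYF1, hF3⟩ := hF' m hmF p0 (by omega) K
  have hm0 : (0 : ℝ) < m := by exact_mod_cast (by omega : 0 < m)
  have hm1 : (1 : ℝ) ≤ m := by exact_mod_cast (by omega : 1 ≤ m)
  set Ym := max (max YI YU) (max YF p0) with hYm
  have hYI : YI ≤ Ym := (le_max_left _ _).trans (le_max_left _ _)
  have hYU : YU ≤ Ym := (le_max_right _ _).trans (le_max_left _ _)
  have hYF : YF ≤ Ym := (le_max_left _ _).trans (le_max_right _ _)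
  have hYp0 : (p0 : ℝ) ≤ Ym := (le_max_right _ _).trans (le_max_right _ _)
  have hYm1 : 1 ≤ Ym := hYI1.trans hYI
  set C := max (max ΛI ΛU) (max (160 * m * ΛO) (40 * m * Ym)) with hC
  have hCI : ΛI ≤ C := (le_max_left _ _).trans (le_max_left _ _)
  have hCU : ΛU ≤ C := (le_max_right _ _).trans (le_max_left _ _)
  have hCO : 160 * m * ΛO ≤ C := (le_max_left _ _).trans (le_max_right _ _)
  have hCY : 40 * m * Ym ≤ C := (le_max_right _ _).trans (le_max_right _ _)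
  refine ⟨C, hΛI1.trans hCI, ?_⟩
  intro k δ T hk0 hkN hδ0 hδ4 hT1 hCT
  have hTp : 0 < T := by linarith
  set X := Real.log T with hX
  have hX4 : 4 * C ≤ X := by
    have hX0 : 0 ≤ X := Real.log_nonneg hT1
    have : δ * X ≤ 1 / 4 * X := by gcongr
    linarith
  set Y := X / (160 * m) with hY
  have hXY : 160 * m * Y = X := by rw [hY]; field_simp
  have hYYm : Ym ≤ Y := by
    rw [hY, le_div_iff₀ (by positivity)]
    linarith
  have hYp : 0 < Y := by linarith
  have hXp : 0 < X := by rw [← hXY]; positivity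
  obtain ⟨J, hJ1, hJ2⟩ := exists_J hYp
  have hTX : Real.exp (160 * m * Y) = T := by rw [hXY, hX, Real.exp_log hTp]
  have hδI : ΛI / (160 * m * Y) ≤ δ := by
    rw [hXY, div_le_iff₀ hXp]
    linarith
  have hδU : ΛU / (160 * m * Y) ≤ δ := by
    rw [hXY, div_le_iff₀ hXp]
    linarith
  have hδY : ΛO ≤ δ * Y := by
    have e : δ * Y = δ * X / (160 * m) := by rw [hY]; ring
    rw [e, le_div_iff₀ (by positivity)]
    linarith
  have hp0Y : (p0 : ℝ) ≤ Real.exp Y := by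
    have := Real.add_one_le_exp Y
    linarith
  have h1 := hI3 Y (hYI.trans hYYm) J hJ1 hJ2 δ hδI hδ4 k hk0 hkN
  obtain ⟨h2, h3⟩ := hO3 Y (hYm1.trans hYYm) hp0Y J hJ2 δ hδ0 hδ4 hδY k hk0 hkN
  obtain ⟨h4, _, _⟩ := hF3 Y (hYF.trans hYYm) J hJ1 k hk0 hkN δ hδ0.le hδ4
  rw [hTX] at h1
  have hS : 1 / 2 ≤ SS k (1 + 2 * δ) := by
    by_contra hcon
    rw [not_le] at hcon
    nlinarith
  refine ⟨hS, numP_low hη0.le (by linarith) hη4 hTp.le (by linarith) h1 h2, ?_⟩
  intro hk1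
  have h5 := hU3 Y (hYU.trans hYYm) J hJ1 hJ2 δ hδU hδ4 k hk0 hk1
  rw [hTX] at h5
  exact numP_up hη0.le hηε hη4 hTp.le (by linarith) h5 h3

/-- the shifted moment at distance `δ` -/
noncomputable def momL (β x δ T : ℝ) : ℝ :=
  ∫ u in (0 : ℝ)..1, ‖riemannZeta (1 / 2 + δ + I * x + I * u * T)‖ ^ β

lemma momL_eq {β x δ T : ℝ} (hT : 0 < T) :
    momL β x δ T = (∫ t in x..(x + T), ‖riemannZeta (pt δ t)‖ ^ β) / T := by
  have h2 := intervalIntegral.integral_comp_mul_add (a := 0) (b := 1)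
    (fun t => ‖riemannZeta (pt δ t)‖ ^ β) hT.ne' x
  simp only [mul_zero, zero_add, mul_one, smul_eq_mul] at h2
  unfold momL
  rw [add_comm T x] at h2
  rw [div_eq_inv_mul (∫ t in x..(x + T), ‖riemannZeta (pt δ t)‖ ^ β) T, ← h2]
  refine intervalIntegral.integral_congr fun u _ => ?_
  simp only [pt]
  congr 3
  push_cast
  ring

/-- a bound near the real axis -/
lemma zeta_bdd (x : ℝ) : ∃ M : ℝ, 1 ≤ M ∧ ∀ δ t : ℝ, 0 ≤ δ → δ ≤ 1 / 4 → |t| ≤ |x| →
    ‖riemannZeta (pt δ t)‖ ≤ M := by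
  have hcomp : IsCompact (Set.Icc (0 : ℝ) (1 / 4) ×ˢ Set.Icc (-|x|) |x|) := isCompact_Icc.prod isCompact_Icc
  have hcont : ContinuousOn (fun z : ℝ × ℝ => ‖riemannZeta (pt z.1 z.2)‖)
      (Set.Icc (0 : ℝ) (1 / 4) ×ˢ Set.Icc (-|x|) |x|) := by
    intro z hz
    have hne : pt z.1 z.2 ≠ 1 := by
      intro h
      have h1 := congrArg Complex.re h
      simp [pt] at h1
      have h2 := hz.1.2
      norm_num at h1
      linarith
    have hd : ContinuousAt riemannZeta (pt z.1 z.2) := (differentiableAt_riemannZeta hne).continuousAt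
    have hp : ContinuousAt (fun z : ℝ × ℝ => pt z.1 z.2) z := by
      unfold pt
      fun_prop
    exact (ContinuousAt.comp (f := fun z : ℝ × ℝ => pt z.1 z.2) (g := riemannZeta) hd hp).norm.continuousWithinAt
  obtain ⟨M, hM⟩ := hcomp.exists_bound_of_continuousOn hcont
  refine ⟨max 1 M, le_max_left _ _, fun δ t h0 h1 h2 => ?_⟩
  have := hM (δ, t) ⟨⟨h0, h1⟩, abs_le.mp h2⟩
  rw [Real.norm_of_nonneg (norm_nonneg _)] at this
  exact this.trans (le_max_right _ _)

theorem near_line (hI : LowerN) (hU : UpperN) (hO : SeriesN) (hF : MeanN) (N : ℕ) (hN : 1 ≤ N)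
    (x ε : ℝ) (hε : 0 < ε) : ∃ C : ℝ, 1 ≤ C ∧ ∀ β δ T : ℝ, 0 < β → β ≤ 2 * N →
    0 < δ → δ ≤ 1 / 4 → 1 ≤ T → C ≤ δ * Real.log T →
    (1 - ε) * SS (β / 2) (1 + 2 * δ) ≤ momL β x δ T ∧
    (β ≤ 2 → momL β x δ T ≤ (1 + ε) * SS (β / 2) (1 + 2 * δ)) := by
  obtain ⟨C1, hC1, hcore⟩ := moment_core hI hU hO hF N hN (ε / 4) (by positivity)
  obtain ⟨M, hM1, hM⟩ := zeta_bdd x
  set A0 := |x| * M ^ (2 * N) with hA0
  have hx0 : 0 ≤ |x| := abs_nonneg x
  have hA00 : 0 ≤ A0 := by positivity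
  set C := max (C1 + 1) ((|x| + A0 + 1) * (8 / ε + 2)) with hC
  have hCa : C1 + 1 ≤ C := le_max_left _ _
  have hCb : (|x| + A0 + 1) * (8 / ε + 2) ≤ C := le_max_right _ _
  refine ⟨C, by linarith, ?_⟩
  intro β δ T hβ0 hβN hδ0 hδ4 hT1 hCT
  have hTp : 0 < T := by linarith
  have hlogT0 : 0 ≤ Real.log T := Real.log_nonneg hT1
  have hlogT : 4 * C ≤ Real.log T := by
    have : δ * Real.log T ≤ 1 / 4 * Real.log T := by gcongr
    linarith
  have hTC : C ≤ T := by
    have h1 := Real.log_le_sub_one_of_pos hTp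
    linarith
  have hTb : (|x| + A0 + 1) * (8 / ε + 2) ≤ T := hCb.trans hTC
  have hTx : 2 * |x| + 2 ≤ T := by
    have h2 : (|x| + A0 + 1) * 2 ≤ (|x| + A0 + 1) * (8 / ε + 2) := by
      apply mul_le_mul_of_nonneg_left _ (by positivity)
      have : 0 < 8 / ε := by positivity
      linarith
    linarith
  have hTε : 8 * (|x| + A0) ≤ ε * T := by
    have h2 : (|x| + A0) * (8 / ε) ≤ T := by
      refine le_trans ?_ hTb
      have : 0 < 8 / ε := by positivity
      exact mul_le_mul (by linarith) (by linarith) this.le (by positivity)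
    have h3 : (|x| + A0) * (8 / ε) * ε = 8 * (|x| + A0) := by field_simp
    rw [← h3]
    calc (|x| + A0) * (8 / ε) * ε ≤ T * ε := by gcongr
      _ = _ := by ring
  set k := β / 2 with hk
  have hk0 : 0 < k := by positivity
  have hkN : k ≤ N := by rw [hk]; linarith
  have hβk : β = 2 * k := by rw [hk]; ring
  set S := SS k (1 + 2 * δ) with hS
  set F : ℝ → ℝ := fun t => ‖riemannZeta (pt δ t)‖ ^ β with hFd
  have cz := continuous_zeta_pt (δ := δ) (by linarith)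
  have hFc : Continuous F := cz.norm.rpow_const fun _ => Or.inr hβ0.le
  have hF0 : ∀ t, 0 ≤ F t := fun t => by rw [hFd]; positivity
  have hFM : ∀ t, |t| ≤ |x| → F t ≤ M ^ (2 * N) := by
    intro t ht
    rw [hFd]
    simp only
    calc ‖riemannZeta (pt δ t)‖ ^ β ≤ M ^ β :=
          Real.rpow_le_rpow (norm_nonneg _) (hM δ t hδ0.le hδ4 ht) hβ0.le
      _ ≤ M ^ ((2 * N : ℕ) : ℝ) := by
          apply Real.rpow_le_rpow_of_exponent_le hM1
          push_cast
          exact hβN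
      _ = _ := Real.rpow_natCast _ _
  have hedge : ∀ a b : ℝ, a ≤ b → -|x| ≤ a → b ≤ |x| → b - a ≤ |x| → ∫ t in a..b, F t ≤ A0 := by
    intro a b hab ha hb hba
    calc ∫ t in a..b, F t ≤ ∫ t in a..b, (fun _ => M ^ (2 * N)) t := by
          refine intervalIntegral.integral_mono_on hab (hFc.intervalIntegrable _ _)
            (continuous_const.intervalIntegrable _ _) fun t ht => hFM t ?_
          rw [abs_le]
          exact ⟨ha.trans ht.1, ht.2.trans hb⟩
      _ = (b - a) * M ^ (2 * N) := by simp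
      _ ≤ A0 := by rw [hA0]; gcongr
  have hint : ∀ a b : ℝ, IntervalIntegrable F volume a b := fun a b => hFc.intervalIntegrable _ _
  have hMLeq : ∀ U : ℝ, ML k δ U = ∫ t in (0 : ℝ)..U, F t := by
    intro U
    unfold ML
    rw [hFd, hβk]
  rw [momL_eq hTp]
  constructor
  · -- lower bound
    rw [le_div_iff₀ hTp]
    have hT2 : 1 ≤ T - |x| := by linarith
    have hlog2 : Real.log T - 1 ≤ Real.log (T - |x|) := by
      have h1 : T / 2 ≤ T - |x| := by linarith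
      have h2 : Real.log (T / 2) ≤ Real.log (T - |x|) := Real.log_le_log (by positivity) h1
      rw [Real.log_div hTp.ne' two_ne_zero] at h2
      have h3 := Real.log_two_lt_d9
      linarith
    have hC1T : C1 ≤ δ * Real.log (T - |x|) := by
      have h4 : δ * (Real.log T - 1) ≤ δ * Real.log (T - |x|) := by gcongr
      nlinarith
    obtain ⟨hS2, hlow, _⟩ := hcore k δ (T - |x|) hk0 hkN hδ0 hδ4 hT2 hC1T
    rw [← hS] at hS2 hlow
    rw [hMLeq] at hlow
    have h3 : ∫ t in |x|..(T - |x|), F t ≤ ∫ t in x..(x + T), F t := by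
      refine intervalIntegral.integral_mono_interval (le_abs_self x) (by linarith) ?_ ?_ (hint _ _)
      · have := neg_abs_le x
        linarith
      · exact Eventually.of_forall fun t => hF0 t
    have h4 : ∫ t in (0 : ℝ)..|x|, F t ≤ A0 := hedge 0 |x| hx0 (by linarith) le_rfl (by linarith)
    have h5 := intervalIntegral.integral_add_adjacent_intervals (hint 0 |x|) (hint |x| (T - |x|))
    have hnn : 0 ≤ ∫ t in x..(x + T), F t :=
      intervalIntegral.integral_nonneg (by linarith) fun t _ => hF0 t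
    rcases le_or_gt 1 (ε / 4) with hε1 | hε1
    · have : (1 - ε) * S * T ≤ 0 := by
        have : 0 ≤ S * T := by positivity
        nlinarith
      linarith
    have h6 : (1 - ε / 4) * ((T - |x|) * S) ≤ A0 + ∫ t in x..(x + T), F t := by linarith
    have h7 : 8 * (|x| + A0) * S ≤ ε * T * S := by gcongr
    have h8 : A0 ≤ 2 * A0 * S := by nlinarith
    have h9 : (1 - ε / 4) * (|x| * S) ≤ |x| * S := by
      have : 0 ≤ |x| * S := by positivity
      nlinarith
    nlinarith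
  · -- upper bound
    intro hβ2
    rw [div_le_iff₀ hTp]
    have hk1 : k ≤ 1 := by rw [hk]; linarith
    have hT2 : 1 ≤ T + |x| := by linarith
    have hC1T : C1 ≤ δ * Real.log (T + |x|) := by
      have h2 : Real.log T ≤ Real.log (T + |x|) := Real.log_le_log hTp (by linarith)
      have h4 : δ * Real.log T ≤ δ * Real.log (T + |x|) := by gcongr
      linarith
    obtain ⟨hS2, _, hup⟩ := hcore k δ (T + |x|) hk0 hkN hδ0 hδ4 hT2 hC1T
    have hup' := hup hk1
    rw [← hS] at hS2 hup'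
    rw [hMLeq] at hup'
    have h3 : ∫ t in x..(x + T), F t ≤ ∫ t in (-|x|)..(T + |x|), F t := by
      refine intervalIntegral.integral_mono_interval (neg_abs_le x) (by linarith) ?_ ?_ (hint _ _)
      · have := le_abs_self x
        linarith
      · exact Eventually.of_forall fun t => hF0 t
    have h4 : ∫ t in (-|x|)..0, F t ≤ A0 := hedge (-|x|) 0 (by linarith) le_rfl (by linarith) (by linarith)
    have h5 := intervalIntegral.integral_add_adjacent_intervals (hint (-|x|) 0) (hint 0 (T + |x|))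
    have h6 : ∫ t in x..(x + T), F t ≤ A0 + (1 + ε / 4) * ((T + |x|) * S) := by linarith
    have h7 : 8 * (|x| + A0) * S ≤ ε * T * S := by gcongr
    have h8 : A0 ≤ 2 * A0 * S := by nlinarith
    have hxT : |x| ≤ T := by linarith
    have h9 : ε / 4 * (|x| * S) ≤ ε / 4 * (T * S) := by gcongr
    nlinarith

end Pool.Agent.Lib.NL
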