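import Mathlib
import Pool.Agent.Lib.MP_f9aece_nt_nl.Stmts
import Pool.Agent.Lib.MP_f9aece_nt_h40.FormsTwoA

/-!
Quadratic forms over the scales, for exponents in a bounded range.
-/

set_option autoImplicit false

namespace Pool.Agent.Lib.NL

open MeasureTheory Set Filter Topology Complex
open Pool.Agent.Lib.MP_f9aece_nt Pool.Agent.Lib.MP_f9aece_nt_h97 Pool.Agent.Lib.MP_f9aece_nt_h40

/-- multiplicative kernels with given values at primes -/
structure K3 (K : ℕ → ℕ → ℝ) (s α β γ : ℝ) : Prop where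
  isMK : MK K
  l : ∀ p : ℕ, p.Prime → K p 1 = α * (p : ℝ) ^ (-s)
  r : ∀ p : ℕ, p.Prime → K 1 p = β * (p : ℝ) ^ (-s)
  d : ∀ p : ℕ, p.Prime → K p p = γ * (p : ℝ) ^ (-s)

lemma k3_K2s {s : ℝ} (hs : 1 ≤ s) : K3 (K2s s) s 1 1 1 := by
  refine ⟨mk_K2s hs, ?_, ?_, ?_⟩
  · intro p _; unfold K2s; simp
  · intro p _; unfold K2s; simp
  · intro p _; unfold K2s; simp

lemma k3_Kcs {s : ℝ} (hs : 1 ≤ s) : K3 (Kcs s) s 0 1 1 := by
  refine ⟨mk_Kcs hs, ?_, ?_, ?_⟩
  · intro p hp
    unfold Kcs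
    rw [if_neg (by rw [Nat.dvd_one]; exact hp.one_lt.ne')]
    ring
  · intro p _; unfold Kcs; simp
  · intro p _; unfold Kcs; simp

lemma k3_K1s {s : ℝ} (hs : 1 ≤ s) : K3 (K1s s) s 0 0 1 := by
  refine ⟨mk_K1s hs, ?_, ?_, ?_⟩
  · intro p hp
    unfold K1s
    rw [if_neg hp.one_lt.ne']
    ring
  · intro p hp
    unfold K1s
    rw [if_neg hp.one_lt.ne]
    ring
  · intro p _; unfold K1s; simp

lemma k3_K2 : K3 K2 1 1 1 1 := by
  refine ⟨⟨K2_nonneg, fun _ _ => le_rfl, by simp [K2], fun A B hAB a ha a' ha' b hb b' hb' =>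
    K2_mul hAB ha ha' hb hb'⟩, ?_, ?_, ?_⟩
  · intro p hp
    have := K2_pow hp 1 0
    rw [pow_one, pow_zero] at this
    rw [this, Real.rpow_neg_one]
    simp
  · intro p hp
    have := K2_pow hp 0 1
    rw [pow_one, pow_zero] at this
    rw [this, Real.rpow_neg_one]
    simp
  · intro p hp
    have := K2_pow hp 1 1
    rw [pow_one] at this
    rw [this, Real.rpow_neg_one]
    simp

/-! ### constants -/

/-- error constant of a local factor -/
noncomputable def cE (A : ℝ) : ℝ := Real.exp (2 * A)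
/-- bound of the main coefficient -/
noncomputable def cB (A : ℝ) : ℝ := 2 * A + A ^ 2
/-- constant of the squares -/
noncomputable def cC (A : ℝ) : ℝ := cE A + 2 * (cB A + cE A) ^ 2
/-- constant of the majorant -/
noncomputable def cG (A : ℝ) : ℝ := 4 * A + 4 * A ^ 2 + Real.exp (4 * A)
/-- constant of the truncation error -/
noncomputable def cT (A : ℝ) : ℝ := 3 * Real.exp (12 * cG A) * Real.exp (12 * (cB A + cC A))

lemma cE_pos (A : ℝ) : 0 < cE A := Real.exp_pos _

lemma cB_nonneg {A : ℝ} (hA : 1 ≤ A) : 0 ≤ cB A := by unfold cB; positivity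

lemma cC_pos (A : ℝ) : 0 < cC A := by
  unfold cC
  have := cE_pos A
  positivity

lemma cG_nonneg {A : ℝ} (hA : 1 ≤ A) : 0 ≤ cG A := by unfold cG; positivity

lemma cT_pos (A : ℝ) : 0 < cT A := by unfold cT; positivity

section blocks

variable {K : ℕ → ℕ → ℝ} {s α β γ A c d μ : ℝ} {M p : ℕ} {I : Finset ℕ}

/-- a local factor, two sides -/
lemma loc_two (h : K3 K s α β γ) (hs : 1 ≤ s) (hc : |c| ≤ A) (hd : |d| ≤ A)
    (hμ : c * α + d * β + c * d * γ = μ) (hμB : |μ| ≤ cB A) (hp : p.Prime)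
    (hpl : 2 * (cB A + cE A) ≤ p) (hM : 1 ≤ M) :
    Real.exp (μ * (p : ℝ) ^ (-s) - cC A * ((p : ℝ)⁻¹) ^ 2) ≤ BK K (expo c M {p}) (expo d M {p}) ∧
    BK K (expo c M {p}) (expo d M {p})
      ≤ Real.exp (μ * (p : ℝ) ^ (-s) + cC A * ((p : ℝ)⁻¹) ^ 2) := by
  obtain ⟨hq0, hq1, _⟩ := q_bounds hp hs
  have h1 := local_form h.isMK hp (cf_TE c hM) (cf_TE d hM)
  rw [loc_TE, loc_TE, h.l p hp, h.r p hp, h.d p hp] at h1
  set q := (p : ℝ) ^ (-s) with hq
  set r := (p : ℝ)⁻¹ with hr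
  have hp0 : (0 : ℝ) < p := by exact_mod_cast hp.pos
  have hr0 : 0 < r := by positivity
  have hr1 : r ≤ 1 := inv_le_one_of_one_le₀ (by exact_mod_cast hp.one_le)
  have e1 : 1 + c * (α * q) + d * (β * q) + c * d * (γ * q) = 1 + μ * q := by rw [← hμ]; ring
  rw [e1] at h1
  have h2 : Real.exp (|c| + |d|) ≤ cE A := by
    unfold cE
    apply Real.exp_le_exp.mpr
    linarith
  set x := BK K (expo c M {p}) (expo d M {p}) - 1 with hx
  have hb : BK K (expo c M {p}) (expo d M {p}) = 1 + x := by rw [hx]; ring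
  rw [hb] at h1 ⊢
  have hE := cE_pos A
  have hB0 : 0 ≤ cB A := (abs_nonneg _).trans hμB
  have h3 : |x - μ * q| ≤ cE A * r ^ 2 := by
    have e2 : x - μ * q = 1 + x - (1 + μ * q) := by ring
    rw [e2]
    refine h1.trans ?_
    gcongr
  have h4 : (cB A + cE A) * r ≤ 1 / 2 := by
    rw [hr, ← div_eq_mul_inv, div_le_iff₀ hp0]
    linarith
  have h5 : |μ * q| ≤ cB A * r := by
    rw [abs_mul, abs_of_pos hq0]
    gcongr
  have h6 : cE A * r ^ 2 ≤ cE A * r := by
    have : r ^ 2 ≤ r := by nlinarith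
    gcongr
  rw [abs_le] at h3 h5
  have h7 : |x| ≤ (cB A + cE A) * r := by
    rw [abs_le]
    constructor <;> linarith [h3.1, h3.2, h5.1, h5.2]
  have h8 : x ^ 2 ≤ (cB A + cE A) ^ 2 * r ^ 2 := by
    rw [← mul_pow, ← sq_abs x]
    gcongr
  rw [abs_le] at h7
  constructor
  · refine le_trans (Real.exp_le_exp.mpr ?_) (exp_sub_two_sq_le (x := x) (by linarith [h7.1]))
    unfold cC
    linarith [h3.1]
  · have h9 := Real.add_one_le_exp x
    have h10 : 1 + x ≤ Real.exp x := by linarith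
    refine h10.trans (Real.exp_le_exp.mpr ?_)
    unfold cC
    have : 0 ≤ 2 * (cB A + cE A) ^ 2 * r ^ 2 := by positivity
    linarith [h3.2]

/-- the product of local factors, two sides -/
lemma FF_two (h : K3 K s α β γ) (hs : 1 ≤ s) (hc : |c| ≤ A) (hd : |d| ≤ A)
    (hμ : c * α + d * β + c * d * γ = μ) (hμB : |μ| ≤ cB A) (hI : ∀ p ∈ I, p.Prime)
    (hIl : ∀ p ∈ I, 2 * (cB A + cE A) ≤ (p : ℝ)) (hM : 1 ≤ M) :
    Real.exp (μ * QS s I - cC A * V2 I) ≤ BK K (FF c M I) (FF d M I) ∧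
    BK K (FF c M I) (FF d M I) ≤ Real.exp (μ * QS s I + cC A * V2 I) := by
  unfold FF
  rw [BK_prod_MK h.isMK I (fun p => {p}) disj_single _ _ (sup_loc hI _ M) (sup_loc hI _ M)]
  unfold QS V2
  rw [Finset.mul_sum, Finset.mul_sum, ← Finset.sum_sub_distrib, ← Finset.sum_add_distrib,
    Real.exp_sum, Real.exp_sum]
  constructor
  · exact Finset.prod_le_prod (fun p _ => (Real.exp_pos _).le) fun p hp =>
      (loc_two h hs hc hd hμ hμB (hI p hp) (hIl p hp) hM).1
  · exact Finset.prod_le_prod (fun p hp => (Real.exp_pos _).le.trans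
      (loc_two h hs hc hd hμ hμB (hI p hp) (hIl p hp) hM).1) fun p hp =>
      (loc_two h hs hc hd hμ hμB (hI p hp) (hIl p hp) hM).2

/-- comparison of the truncated exponential with the product of the local ones -/
lemma dom_diffA (hA : 1 ≤ A) (hI : ∀ p ∈ I, p.Prime) (hc : |c| ≤ A) (M m : ℕ) (hm : m ≤ M) :
    Dom (FF c M I - expo c m I) ((1 / 2 ^ m : ℝ) • FF (2 * A) M I) := by
  classical
  induction I using Finset.induction_on generalizing m with
  | empty =>
    have e1 : FF c M ∅ - expo c m ∅ = 0 := by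
      unfold FF expo
      rw [Finset.prod_empty, Finset.sum_range_succ']
      have : ∀ r ∈ Finset.range m, (c ^ (r + 1) / ((r + 1).factorial : ℝ)) • PP ∅ ^ (r + 1) = 0 := by
        intro r _
        simp [PP]
      rw [Finset.sum_eq_zero this]
      simp
    rw [e1]
    intro n
    unfold FF
    rw [Finset.prod_empty, MonoidAlgebra.coeff_smul, Finsupp.smul_apply, smul_eq_mul,
      MonoidAlgebra.one_def, MonoidAlgebra.coeff_single, Finsupp.single_apply]
    simp only [MonoidAlgebra.coeff_zero, Finsupp.coe_zero, Pi.zero_apply, abs_zero]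
    split_ifs <;> positivity
  | insert p I hp ih =>
    have hpp : p.Prime := hI p (Finset.mem_insert_self _ _)
    have hI' : ∀ q ∈ I, q.Prime := fun q hq => hI q (Finset.mem_insert_of_mem hq)
    have hF : ∀ d, FF d M (insert p I) = expo d M {p} * FF d M I := fun d => by
      unfold FF; rw [Finset.prod_insert hp]
    set x := PP {p} with hx
    have hxd : Dom x x := by
      rw [hx, PP_singleton]
      exact Dom.single p (by simp)
    -- remainder pieces
    set R : ℕ → DP := fun i => if i ≤ m then FF c M I - expo c (m - i) I else FF c M I with hR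
    have e1 : FF c M (insert p I) - expo c m (insert p I)
        = ∑ i ∈ Finset.range (M + 1), ((1 / (i.factorial : ℝ)) • x ^ i) * (c ^ i • R i) := by
      rw [hF, expo_insert hp]
      have e2 : expo c M {p} * FF c M I
          = ∑ i ∈ Finset.range (M + 1), ((c ^ i / (i.factorial : ℝ)) • x ^ i) * FF c M I := by
        conv_lhs => rw [expo]
        rw [Finset.sum_mul]
      have e3 : ∑ i ∈ Finset.range (m + 1), ((c ^ i / (i.factorial : ℝ)) • x ^ i) * expo c (m - i) I
          = ∑ i ∈ Finset.range (M + 1), if i ≤ m then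
            ((c ^ i / (i.factorial : ℝ)) • x ^ i) * expo c (m - i) I else 0 := by
        rw [← Finset.sum_filter]
        refine Finset.sum_congr ?_ fun _ _ => rfl
        ext i
        simp only [Finset.mem_range, Finset.mem_filter]
        omega
      rw [e2, e3, ← Finset.sum_sub_distrib]
      refine Finset.sum_congr rfl fun i _ => ?_
      have e4 : (c ^ i / (i.factorial : ℝ)) • x ^ i = c ^ i • ((1 / (i.factorial : ℝ)) • x ^ i) := by
        rw [smul_smul]; congr 1; ring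
      rw [hR]
      simp only
      split_ifs with h
      · rw [e4, ← mul_sub, smul_mul_assoc, mul_smul_comm]
      · rw [sub_zero, e4, smul_mul_assoc, mul_smul_comm]
    have e5 : (1 / 2 ^ m : ℝ) • FF (2 * A) M (insert p I)
        = ∑ i ∈ Finset.range (M + 1), ((1 / (i.factorial : ℝ)) • x ^ i)
          * ((1 / 2 ^ m * (2 * A) ^ i : ℝ) • FF (2 * A) M I) := by
      rw [hF]
      conv_lhs => rw [expo]
      rw [Finset.sum_mul, Finset.smul_sum]
      refine Finset.sum_congr rfl fun i _ => ?_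
      rw [smul_mul_smul_comm, smul_mul_assoc, smul_smul]
      congr 1
      ring
    rw [e1, e5]
    refine Dom.sum _ fun i hi => ?_
    rw [Finset.mem_range] at hi
    refine Dom.mul ((hxd.pow i).smul ?_) ?_
    · rw [abs_of_nonneg (by positivity)]
    · have hG : ∀ n, 0 ≤ (FF (2 * A) M I).coeff n :=
        (dom_FF hI' (c := 2 * A) (d := 2 * A) (by rw [abs_of_pos (by linarith)]) M).nonneg
      have hcA : |c ^ i| ≤ A ^ i := by
        rw [abs_pow]
        gcongr
      rw [hR]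
      simp only
      split_ifs with h
      · have h1 := ih hI' (m - i) (by omega)
        have h2 : Dom (c ^ i • (FF c M I - expo c (m - i) I))
            ((A ^ i : ℝ) • ((1 / 2 ^ (m - i) : ℝ) • FF (2 * A) M I)) := h1.smul hcA
        rw [smul_smul] at h2
        refine h2.trans' (le_of_eq ?_) hG
        have : (2 : ℝ) ^ m = 2 ^ (m - i) * 2 ^ i := by rw [← pow_add]; congr 1; omega
        rw [this, mul_pow]
        field_simp
      · have h1 := dom_FF hI' (c := c) (d := 2 * A) (by linarith) M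
        have h2 : Dom (c ^ i • FF c M I) ((A ^ i : ℝ) • FF (2 * A) M I) := h1.smul hcA
        refine h2.trans' ?_ hG
        have h3 : (2 : ℝ) ^ m ≤ 2 ^ i := pow_le_pow_right₀ (by norm_num) (by omega)
        rw [mul_pow]
        calc A ^ i = A ^ i * 1 := by ring
          _ ≤ A ^ i * (2 ^ i / 2 ^ m) := by
              gcongr
              rw [le_div_iff₀ (by positivity)]
              linarith
          _ = _ := by ring

/-- majorant forms -/
lemma FF_maj (hA : 1 ≤ A) (hI : ∀ p ∈ I, p.Prime) (hM : 1 ≤ M) :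
    |BK K2 (FF (2 * A) M I) (FF (2 * A) M I)| ≤ Real.exp (cG A * VV I) ∧
    |BK Kg (FF (2 * A) M I) (FF (2 * A) M I)|
      ≤ (4 * A * Real.exp (4 * A)) * LL I * Real.exp (cG A * VV I) := by
  have hA0 : 0 < A := by linarith
  have h := prod_boundsL logKer_Kg I (fun p => {p}) disj_single (fun p => expo (2 * A) M {p})
    (fun p hp => sup_expo (prime_single (hI p hp)) _ _)
    (fun p => Real.exp (cG A * (p : ℝ)⁻¹))
    (fun p => (4 * A * Real.exp (4 * A)) * ((p : ℝ)⁻¹ * Real.log p))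
    (fun p _ => (Real.exp_pos _).le)
    (fun p _ => mul_nonneg (by positivity) (mul_nonneg (by positivity) (Real.log_natCast_nonneg p)))
    ?_ ?_
  · rw [← Real.exp_sum, ← Finset.mul_sum, ← Finset.mul_sum] at h
    exact h
  · intro p hp
    have hpp := hI p hp
    have h1 := local_form k3_K2.isMK hpp (cf_TE (2 * A) hM) (cf_TE (2 * A) hM)
    rw [loc_TE, k3_K2.l p hpp, k3_K2.r p hpp, k3_K2.d p hpp, abs_of_pos (by linarith : 0 < 2 * A),
      Real.rpow_neg_one] at h1
    have hp0 : (0 : ℝ) < p := by exact_mod_cast hpp.pos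
    set r := (p : ℝ)⁻¹ with hr
    have hr0 : 0 < r := by positivity
    have hr1 : r ≤ 1 := inv_le_one_of_one_le₀ (by exact_mod_cast hpp.one_le)
    have hnn : 0 ≤ BK K2 (expo (2 * A) M {p}) (expo (2 * A) M {p}) := by
      have := cone_expo (prime_single hpp) (by linarith : (0 : ℝ) ≤ 2 * A) M
      exact BK_nonneg this this K2_nonneg
    rw [abs_of_nonneg hnn]
    rw [abs_le] at h1
    have e : 2 * A + 2 * A = 4 * A := by ring
    rw [e] at h1
    have h2 : Real.exp (4 * A) * r ^ 2 ≤ Real.exp (4 * A) * r := by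
      have : r ^ 2 ≤ r := by nlinarith
      gcongr
    have h3 := Real.add_one_le_exp (cG A * r)
    have h4 : cG A * r = 2 * A * (1 * r) + 2 * A * (1 * r) + 2 * A * (2 * A) * (1 * r)
        + Real.exp (4 * A) * r := by unfold cG; ring
    linarith [h1.2]
  · intro p hp
    have hpp := hI p hp
    have h1 := local_L logKer_Kg hpp (2 * A) M
    rw [abs_of_pos (by linarith : 0 < 2 * A)] at h1
    have hlog : 0 ≤ Real.log p := Real.log_natCast_nonneg p
    have hG := cG_nonneg hA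
    have h3 : 1 ≤ Real.exp (cG A * (p : ℝ)⁻¹) := Real.one_le_exp (by positivity)
    have hql : 0 ≤ (p : ℝ)⁻¹ * Real.log p := by positivity
    have e1 : 2 * (2 * A) = 4 * A := by ring
    rw [e1] at h1
    calc |BK Kg (expo (2 * A) M {p}) (expo (2 * A) M {p})|
        ≤ 4 * A * Real.exp (4 * A) * ((p : ℝ)⁻¹ * Real.log p) * 1 := by rw [mul_one]; exact h1
      _ ≤ _ := by gcongr

/-- the truncation error, additive form -/
lemma trunc_A (hK : MK K) (hA : 1 ≤ A) (hI : ∀ p ∈ I, p.Prime) (hc : |c| ≤ A) (hd : |d| ≤ A)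
    (hM : 1 ≤ M) (hV : VV I ≤ 12) :
    |BK K (expo c M I) (expo d M I) - BK K (FF c M I) (FF d M I)|
      ≤ 3 / 2 ^ M * Real.exp (12 * cG A) := by
  set G := FF (2 * A) M I with hG
  have hGn : Cone (Smo I) G := cone_FF hI (by linarith) M
  have hK0 := hK.1
  set δ : ℝ := 1 / 2 ^ M with hδ
  have hδ0 : 0 ≤ δ := by positivity
  have hδ1 : δ ≤ 1 := by
    rw [hδ, div_le_one (by positivity)]
    exact one_le_pow₀ (by norm_num)
  have hdc : Dom (FF c M I - expo c M I) (δ • G) := dom_diffA hA hI hc M M le_rfl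
  have hdd : Dom (FF d M I - expo d M I) (δ • G) := dom_diffA hA hI hd M M le_rfl
  have hFc : Dom (FF c M I) G := dom_FF hI (by linarith) M
  have hFd : Dom (FF d M I) G := dom_FF hI (by linarith) M
  set R := FF c M I - expo c M I with hR
  set R' := FF d M I - expo d M I with hR'
  have e1 : expo c M I = FF c M I + (-1 : ℝ) • R := by rw [hR, neg_one_smul]; abel
  have e2 : expo d M I = FF d M I + (-1 : ℝ) • R' := by rw [hR', neg_one_smul]; abel
  have e3 : BK K (expo c M I) (expo d M I) - BK K (FF c M I) (FF d M I)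
      = - BK K (FF c M I) R' - BK K R (FF d M I) + BK K R R' := by
    rw [e1, e2, BK_add_left, BK_add_right, BK_add_right, BK_smul_left, BK_smul_right, BK_smul_left,
      BK_smul_right]
    ring
  have hcG := cG_nonneg hA
  have hGG : BK K G G ≤ Real.exp (12 * cG A) := by
    refine (BK_le_K2 hK hGn hGn).trans ((le_abs_self _).trans ((FF_maj hA hI hM).1.trans ?_))
    apply Real.exp_le_exp.mpr
    nlinarith
  have hGG0 : 0 ≤ BK K G G := BK_nonneg hGn hGn hK0
  have h1 : |BK K (FF c M I) R'| ≤ δ * BK K G G := by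
    have := abs_BK_le_of_dom hK0 hFc hdd
    rwa [BK_smul_right] at this
  have h2 : |BK K R (FF d M I)| ≤ δ * BK K G G := by
    have := abs_BK_le_of_dom hK0 hdc hFd
    rwa [BK_smul_left] at this
  have h3 : |BK K R R'| ≤ δ * BK K G G := by
    have := abs_BK_le_of_dom hK0 hdc hdd
    rw [BK_smul_left, BK_smul_right] at this
    refine this.trans ?_
    calc δ * (δ * BK K G G) ≤ δ * (1 * BK K G G) := by gcongr
      _ = _ := by ring
  rw [e3]
  have h4 : |-BK K (FF c M I) R' - BK K R (FF d M I) + BK K R R'|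
      ≤ |BK K (FF c M I) R'| + |BK K R (FF d M I)| + |BK K R R'| := by
    refine (abs_add_le _ _).trans ?_
    gcongr
    refine (abs_sub _ _).trans ?_
    rw [abs_neg]
  refine h4.trans ?_
  calc |BK K (FF c M I) R'| + |BK K R (FF d M I)| + |BK K R R'| ≤ 3 * δ * BK K G G := by linarith
    _ ≤ 3 * δ * Real.exp (12 * cG A) := by gcongr
    _ = _ := by rw [hδ]; ring

/-- a truncated exponential, two sides -/
lemma expo_two (h : K3 K s α β γ) (hs : 1 ≤ s) (hA : 1 ≤ A) (hc : |c| ≤ A) (hd : |d| ≤ A)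
    (hμ : c * α + d * β + c * d * γ = μ) (hμB : |μ| ≤ cB A) (hI : ∀ p ∈ I, p.Prime)
    (hIl : ∀ p ∈ I, 2 * (cB A + cE A) ≤ (p : ℝ)) (hM : 1 ≤ M) (hV : VV I ≤ 12)
    (hT : cT A / 2 ^ M ≤ 1 / 2) :
    Real.exp (μ * QS s I - cC A * V2 I - 2 * (cT A / 2 ^ M)) ≤ BK K (expo c M I) (expo d M I) ∧
    BK K (expo c M I) (expo d M I)
      ≤ Real.exp (μ * QS s I + cC A * V2 I + 2 * (cT A / 2 ^ M)) := by
  obtain ⟨f1, f2⟩ := FF_two h hs hc hd hμ hμB hI hIl hM
  have h2 := trunc_A h.isMK hA hI hc hd hM hV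
  have hQ := (QS_le_VV hs hI).trans hV
  have hQ0 := QS_nonneg s I
  have hV2 := (V2_le_VV hI).trans hV
  have hV20 := V2_nonneg I
  have hC := cC_pos A
  have hB0 := cB_nonneg hA
  have hTp := cT_pos A
  set τ := cT A / 2 ^ M with hτ
  have hτ0 : 0 < τ := by positivity
  set f := BK K (FF c M I) (FF d M I) with hf
  set b := BK K (expo c M I) (expo d M I) with hb
  have hlow : Real.exp (-(12 * (cB A + cC A))) ≤ f := by
    refine le_trans (Real.exp_le_exp.mpr ?_) f1
    have a1 : -(cB A * 12) ≤ μ * QS s I := by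
      have : |μ * QS s I| ≤ cB A * 12 := by
        rw [abs_mul, abs_of_nonneg hQ0]
        gcongr
      exact (abs_le.mp this).1
    have a2 : cC A * V2 I ≤ cC A * 12 := by gcongr
    linarith
  have hf0 : 0 < f := (Real.exp_pos _).trans_le hlow
  have h3 : 3 / 2 ^ M * Real.exp (12 * cG A) ≤ f * τ := by
    have : 1 ≤ f * Real.exp (12 * (cB A + cC A)) := by
      calc 1 = Real.exp (-(12 * (cB A + cC A))) * Real.exp (12 * (cB A + cC A)) := by
            rw [← Real.exp_add]; simp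
        _ ≤ _ := by gcongr
    rw [hτ]
    unfold cT
    calc 3 / 2 ^ M * Real.exp (12 * cG A) = 3 / 2 ^ M * Real.exp (12 * cG A) * 1 := by ring
      _ ≤ 3 / 2 ^ M * Real.exp (12 * cG A) * (f * Real.exp (12 * (cB A + cC A))) := by gcongr
      _ = _ := by ring
  have h4 := h2.trans h3
  rw [abs_le] at h4
  constructor
  · have h5 : f * (1 - τ) ≤ b := by linarith [h4.1]
    refine le_trans ?_ h5
    rw [sub_eq_add_neg (μ * QS s I - cC A * V2 I), Real.exp_add]
    have h6 := exp_sub_two_sq_le (x := -τ) (by linarith)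
    have h7 : Real.exp (-(2 * τ)) ≤ 1 - τ := by
      refine le_trans (Real.exp_le_exp.mpr ?_) (h6.trans (le_of_eq (by ring)))
      nlinarith
    have h8 : 0 ≤ 1 - τ := by linarith
    exact mul_le_mul f1 h7 (Real.exp_pos _).le hf0.le
  · have h5 : b ≤ f * (1 + τ) := by linarith [h4.2]
    refine h5.trans ?_
    rw [Real.exp_add]
    have h7 : 1 + τ ≤ Real.exp (2 * τ) := by
      have := Real.add_one_le_exp (2 * τ)
      linarith
    exact mul_le_mul f2 h7 (by linarith) (Real.exp_pos _).le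

/-- constant for the `gcd` kernel -/
noncomputable def cL (A : ℝ) : ℝ :=
  4 * A * Real.exp (2 * A) + 3 * (4 * A * Real.exp (4 * A)) * (Real.exp (12 * cG A)
    * Real.exp (12 * (cB A + cC A)))

lemma cL_pos (hA : 1 ≤ A) : 0 < cL A := by
  have : 0 < A := by linarith
  unfold cL
  positivity

/-- the `gcd` form of the product of local factors -/
lemma FF_Kg (hA : 1 ≤ A) (hc : |c| ≤ A) (hμ : 2 * c + c ^ 2 = μ) (hμB : |μ| ≤ cB A)
    (hI : ∀ p ∈ I, p.Prime) (hIl : ∀ p ∈ I, 2 * (cB A + cE A) ≤ (p : ℝ)) (hM : 1 ≤ M) :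
    |BK Kg (FF c M I) (FF c M I)|
      ≤ 4 * A * Real.exp (2 * A) * LL I * Real.exp (μ * QS 1 I + cC A * V2 I) := by
  have hA0 : 0 < A := by linarith
  have h := prod_boundsL logKer_Kg I (fun p => {p}) disj_single (fun p => expo c M {p})
    (fun p hp => sup_expo (prime_single (hI p hp)) _ _)
    (fun p => Real.exp (μ * (p : ℝ) ^ (-1 : ℝ) + cC A * ((p : ℝ)⁻¹) ^ 2))
    (fun p => (4 * A * Real.exp (2 * A)) * ((p : ℝ)⁻¹ * Real.log p))
    (fun p _ => (Real.exp_pos _).le)
    (fun p _ => mul_nonneg (by positivity) (mul_nonneg (by positivity) (Real.log_natCast_nonneg p)))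
    ?_ ?_
  · rw [← Real.exp_sum, Finset.sum_add_distrib, ← Finset.mul_sum, ← Finset.mul_sum,
      ← Finset.mul_sum] at h
    exact h.2
  · intro p hp
    have h1 := loc_two k3_K2 le_rfl hc hc (by rw [← hμ]; ring) hμB (hI p hp) (hIl p hp) hM
    rw [abs_of_pos ((Real.exp_pos _).trans_le h1.1)]
    exact h1.2
  · intro p hp
    have hpp := hI p hp
    have h1 := local_L logKer_Kg hpp c M
    have hlog : 0 ≤ Real.log p := Real.log_natCast_nonneg p
    have hp0 : (0 : ℝ) < p := by exact_mod_cast hpp.pos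
    have hpl := hIl p hp
    have hE := cE_pos A
    have hB := cB_nonneg hA
    have hC := cC_pos A
    rw [Real.rpow_neg_one]
    set r := (p : ℝ)⁻¹ with hr
    have hr0 : 0 < r := by positivity
    have h4 : (cB A + cE A) * r ≤ 1 / 2 := by
      rw [hr, ← div_eq_mul_inv, div_le_iff₀ hp0]
      linarith
    have h5 : |μ * r| ≤ cB A * r := by
      rw [abs_mul, abs_of_pos hr0]
      gcongr
    have h6 : (1 / 2 : ℝ) ≤ Real.exp (μ * r + cC A * r ^ 2) := by
      have h7 := Real.add_one_le_exp (μ * r + cC A * r ^ 2)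
      have h8 := (abs_le.mp h5).1
      have h9 : 0 ≤ cC A * r ^ 2 := by positivity
      have h10 : 0 ≤ cE A * r := by positivity
      linarith
    have hql : 0 ≤ r * Real.log p := by positivity
    calc |BK Kg (expo c M {p}) (expo c M {p})| ≤ 2 * |c| * Real.exp (2 * |c|) * (r * Real.log p) := h1
      _ ≤ 2 * A * Real.exp (2 * A) * (r * Real.log p) := by gcongr
      _ = 4 * A * Real.exp (2 * A) * (r * Real.log p) * (1 / 2) := by ring
      _ ≤ _ := by gcongr

/-- the `gcd` form of a truncated exponential -/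
lemma expo_Kg (hA : 1 ≤ A) (hc : |c| ≤ A) (hμ : 2 * c + c ^ 2 = μ) (hμB : |μ| ≤ cB A)
    (hI : ∀ p ∈ I, p.Prime) (hIl : ∀ p ∈ I, 2 * (cB A + cE A) ≤ (p : ℝ)) (hM : 1 ≤ M)
    (hV : VV I ≤ 12) :
    |BK Kg (expo c M I) (expo c M I)| ≤ cL A * LL I * Real.exp (μ * QS 1 I + cC A * V2 I) := by
  have hA0 : 0 < A := by linarith
  have f2 := FF_Kg hA hc hμ hμB hI hIl hM
  obtain ⟨_, g2⟩ := FF_maj hA hI hM
  have hd := dom_diffA hA hI hc M M le_rfl
  set F := FF c M I with hF
  set P := expo c M I with hP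
  set G := FF (2 * A) M I with hG
  set δ : ℝ := 1 / 2 ^ M with hδ
  have hδ0 : 0 ≤ δ := by positivity
  have hδ1 : δ ≤ 1 := by
    rw [hδ, div_le_one (by positivity)]
    exact one_le_pow₀ (by norm_num)
  set R := F - P with hR
  have hFG : Dom F G := dom_FF hI (by linarith) M
  have hPe : P = F + (-1 : ℝ) • R := by rw [hR, neg_one_smul]; abel
  have hK : ∀ a b, 0 ≤ Kg a b := logKer_Kg.nonneg
  have key : |BK Kg P P| ≤ |BK Kg F F| + 3 * |BK Kg G G| := by
    have h1 : |BK Kg F R| ≤ BK Kg G (δ • G) := abs_BK_le_of_dom hK hFG hd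
    have h2 : |BK Kg R F| ≤ BK Kg (δ • G) G := abs_BK_le_of_dom hK hd hFG
    have h3 : |BK Kg R R| ≤ BK Kg (δ • G) (δ • G) := abs_BK_le_of_dom hK hd hd
    rw [BK_smul_right] at h1
    rw [BK_smul_left] at h2
    rw [BK_smul_left, BK_smul_right] at h3
    have h4 : BK Kg G G ≤ |BK Kg G G| := le_abs_self _
    have h5 : 0 ≤ |BK Kg G G| := abs_nonneg _
    have h50 : 0 ≤ BK Kg G G := by
      have hGn : Cone (Smo I) G := cone_FF hI (by linarith) M
      exact BK_nonneg hGn hGn hK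
    have e1 : BK Kg P P = BK Kg F F - BK Kg F R - BK Kg R F + BK Kg R R := by
      rw [hPe, BK_add_left, BK_add_right, BK_add_right, BK_smul_left, BK_smul_right, BK_smul_left,
        BK_smul_right]
      ring
    rw [e1]
    have h6 : |BK Kg F F - BK Kg F R - BK Kg R F + BK Kg R R|
        ≤ |BK Kg F F| + |BK Kg F R| + |BK Kg R F| + |BK Kg R R| := by
      refine (abs_add_le _ _).trans ?_
      gcongr
      refine (abs_sub _ _).trans ?_
      gcongr
      exact abs_sub _ _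
    refine h6.trans ?_
    have h7 : |BK Kg F R| ≤ |BK Kg G G| := h1.trans (by
      calc δ * BK Kg G G ≤ 1 * |BK Kg G G| := by gcongr
        _ = _ := one_mul _)
    have h8 : |BK Kg R F| ≤ |BK Kg G G| := h2.trans (by
      calc δ * BK Kg G G ≤ 1 * |BK Kg G G| := by gcongr
        _ = _ := one_mul _)
    have h9 : |BK Kg R R| ≤ |BK Kg G G| := by
      refine h3.trans ?_
      calc δ * (δ * BK Kg G G) ≤ 1 * (1 * |BK Kg G G|) := by gcongr
        _ = _ := by ring
    linarith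
  have hQ := (QS_le_VV (le_refl (1 : ℝ)) hI).trans hV
  have hQ0 := QS_nonneg 1 I
  have hV20 := V2_nonneg I
  have hVn := VV_nonneg I
  have hC := cC_pos A
  have hB0 := cB_nonneg hA
  have hG0 := cG_nonneg hA
  have hLL := LL_nonneg I
  set X := Real.exp (μ * QS 1 I + cC A * V2 I) with hX
  have hX1 : 1 ≤ X * Real.exp (12 * (cB A + cC A)) := by
    rw [hX, ← Real.exp_add]
    apply Real.one_le_exp
    have a1 : -(cB A * 12) ≤ μ * QS 1 I := by
      have : |μ * QS 1 I| ≤ cB A * 12 := by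
        rw [abs_mul, abs_of_nonneg hQ0]
        gcongr
      exact (abs_le.mp this).1
    have a2 : 0 ≤ cC A * V2 I := by positivity
    linarith
  have h10 : Real.exp (cG A * VV I) ≤ Real.exp (12 * cG A) * (X * Real.exp (12 * (cB A + cC A))) := by
    calc Real.exp (cG A * VV I) ≤ Real.exp (12 * cG A) * 1 := by
          rw [mul_one]
          apply Real.exp_le_exp.mpr
          nlinarith
      _ ≤ _ := by gcongr
  calc |BK Kg P P| ≤ |BK Kg F F| + 3 * |BK Kg G G| := key
    _ ≤ 4 * A * Real.exp (2 * A) * LL I * X + 3 * (4 * A * Real.exp (4 * A) * LL I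
          * (Real.exp (12 * cG A) * (X * Real.exp (12 * (cB A + cC A))))) := by
        gcongr
        exact g2.trans (by gcongr)
    _ = _ := by unfold cL; ring

end blocks

/-! ### products over the scales -/

section scales

variable {K : ℕ → ℕ → ℝ} {s α β γ A c d μ Y : ℝ} {m p0 J : ℕ}

lemma cT_Mm_le (hm : 1 ≤ m) (j : ℕ) : cT A / 2 ^ Mm m j ≤ cT A / 2 ^ m * (1 / 2) ^ j := by
  have h1 : m + j ≤ m * 2 ^ j := by
    have h2 : j + 1 ≤ 2 ^ j := Nat.lt_two_pow_self
    calc m + j ≤ m + m * j := by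
          have : j ≤ m * j := Nat.le_mul_of_pos_left j hm
          omega
      _ = m * (j + 1) := by ring
      _ ≤ _ := Nat.mul_le_mul_left m h2
  have h3 : (2 : ℝ) ^ (m + j) ≤ 2 ^ (m * 2 ^ j) := pow_le_pow_right₀ (by norm_num) h1
  have hT := cT_pos A
  unfold Mm
  calc cT A / 2 ^ (m * 2 ^ j) ≤ cT A / 2 ^ (m + j) := by gcongr
    _ = _ := by
        rw [pow_add, one_div, inv_pow]
        field_simp

lemma sum_cT_le (hm : 1 ≤ m) (J : ℕ) :
    ∑ j ∈ Finset.range J, 2 * (cT A / 2 ^ Mm m j) ≤ 4 * (cT A / 2 ^ m) := by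
  have hT := cT_pos A
  have h1 : ∑ j ∈ Finset.range J, (1 / 2 : ℝ) ^ j ≤ 2 := by
    have h2 := sum_half_le J
    have h3 : ∑ j ∈ Finset.range J, (1 / 2 : ℝ) ^ (j + 1)
        = (∑ j ∈ Finset.range J, (1 / 2 : ℝ) ^ j) * (1 / 2) := by
      rw [Finset.sum_mul]
      exact Finset.sum_congr rfl fun j _ => pow_succ _ _
    linarith
  calc ∑ j ∈ Finset.range J, 2 * (cT A / 2 ^ Mm m j)
      ≤ ∑ j ∈ Finset.range J, (2 * (cT A / 2 ^ m)) * (1 / 2) ^ j :=
        Finset.sum_le_sum fun j _ => by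
          have := cT_Mm_le (A := A) hm j
          linarith
    _ = (2 * (cT A / 2 ^ m)) * ∑ j ∈ Finset.range J, (1 / 2 : ℝ) ^ j := by rw [Finset.mul_sum]
    _ ≤ (2 * (cT A / 2 ^ m)) * 2 := by gcongr
    _ = _ := by ring

lemma cT_Mm_half (hm : 1 ≤ m) (hT : cT A / 2 ^ m ≤ 1 / 2) (j : ℕ) : cT A / 2 ^ Mm m j ≤ 1 / 2 := by
  refine (cT_Mm_le hm j).trans ?_
  have h2 : (1 / 2 : ℝ) ^ j ≤ 1 := pow_le_one₀ (by norm_num) (by norm_num)
  have := cT_pos A
  calc cT A / 2 ^ m * (1 / 2) ^ j ≤ cT A / 2 ^ m * 1 := by gcongr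
    _ ≤ _ := by linarith

lemma Mm_one (hm : 1 ≤ m) (j : ℕ) : 1 ≤ Mm m j := by
  unfold Mm
  exact Nat.mul_pos hm (by positivity)

lemma sc_large (hp0 : 2 * (cB A + cE A) ≤ (p0 : ℝ)) (j : ℕ) :
    ∀ p ∈ sc Y p0 j, 2 * (cB A + cE A) ≤ (p : ℝ) := by
  intro p hp
  have h1 := (mem_sc.mp hp).2.2.1
  have h2 : (p0 : ℝ) < p := by exact_mod_cast h1
  linarith

lemma sum_QS (μ s : ℝ) : ∑ j ∈ Finset.range J, μ * QS s (sc Y p0 j) = μ * QT s p0 Y J := by
  unfold QT
  rw [Finset.mul_sum]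

lemma sum_cC (hY : 0 < Y) (hp0 : 1 ≤ p0) :
    ∑ j ∈ Finset.range J, cC A * V2 (sc Y p0 j) ≤ cC A / p0 := by
  rw [← Finset.mul_sum]
  have h := sum_sq_sc_le hY hp0 J
  have hC := cC_pos A
  calc cC A * ∑ j ∈ Finset.range J, V2 (sc Y p0 j) ≤ cC A * (1 / p0) := by
        have : ∑ j ∈ Finset.range J, V2 (sc Y p0 j) ≤ 1 / p0 := h
        gcongr
    _ = _ := by ring

/-- forms over the scales, two sides -/
lemma DD_two (h : K3 K s α β γ) (hs : 1 ≤ s) (hA : 1 ≤ A) (hc : |c| ≤ A) (hd : |d| ≤ A)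
    (hμ : c * α + d * β + c * d * γ = μ) (hμB : |μ| ≤ cB A) (hY : 0 < Y) (hp01 : 1 ≤ p0)
    (hp0 : 2 * (cB A + cE A) ≤ (p0 : ℝ)) (hm : 1 ≤ m) (hT : cT A / 2 ^ m ≤ 1 / 2) :
    Real.exp (μ * QT s p0 Y J - (cC A / p0 + 4 * (cT A / 2 ^ m)))
      ≤ BK K (DD m p0 c Y J) (DD m p0 d Y J) ∧
    BK K (DD m p0 c Y J) (DD m p0 d Y J)
      ≤ Real.exp (μ * QT s p0 Y J + (cC A / p0 + 4 * (cT A / 2 ^ m))) := by
  rw [DD_prod h.isMK hY]
  have h1 := sum_cT_le (A := A) hm J
  have h2 := sum_cC (A := A) (J := J) hY hp01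
  have hb : ∀ j ∈ Finset.range J, _ := fun j hj =>
    expo_two h hs hA hc hd hμ hμB (scp (Y := Y) (p0 := p0) j hj) (sc_large hp0 j) (Mm_one hm j)
      (VV_sc_le hY p0 j) (cT_Mm_half hm hT j)
  constructor
  · calc Real.exp (μ * QT s p0 Y J - (cC A / p0 + 4 * (cT A / 2 ^ m)))
        ≤ Real.exp ((∑ j ∈ Finset.range J, μ * QS s (sc Y p0 j))
          - (∑ j ∈ Finset.range J, cC A * V2 (sc Y p0 j))
          - ∑ j ∈ Finset.range J, 2 * (cT A / 2 ^ Mm m j)) := by
          apply Real.exp_le_exp.mpr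
          rw [sum_QS]
          linarith
      _ = ∏ j ∈ Finset.range J, Real.exp (μ * QS s (sc Y p0 j) - cC A * V2 (sc Y p0 j)
            - 2 * (cT A / 2 ^ Mm m j)) := by
          rw [← Real.exp_sum, Finset.sum_sub_distrib, Finset.sum_sub_distrib]
      _ ≤ _ := Finset.prod_le_prod (fun _ _ => (Real.exp_pos _).le) fun j hj => (hb j hj).1
  · calc ∏ j ∈ Finset.range J, BK K (expo c (Mm m j) (sc Y p0 j)) (expo d (Mm m j) (sc Y p0 j))
        ≤ ∏ j ∈ Finset.range J, Real.exp (μ * QS s (sc Y p0 j) + cC A * V2 (sc Y p0 j)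
            + 2 * (cT A / 2 ^ Mm m j)) :=
          Finset.prod_le_prod (fun j hj => (Real.exp_pos _).le.trans (hb j hj).1)
            fun j hj => (hb j hj).2
      _ = Real.exp ((∑ j ∈ Finset.range J, μ * QS s (sc Y p0 j))
          + (∑ j ∈ Finset.range J, cC A * V2 (sc Y p0 j))
          + ∑ j ∈ Finset.range J, 2 * (cT A / 2 ^ Mm m j)) := by
          rw [← Real.exp_sum, Finset.sum_add_distrib, Finset.sum_add_distrib]
      _ ≤ _ := by
          apply Real.exp_le_exp.mpr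
          rw [sum_QS]
          linarith

/-- the `gcd` form over the scales -/
lemma DD_Kg (hA : 1 ≤ A) (hc : |c| ≤ A) (hμ : 2 * c + c ^ 2 = μ) (hμB : |μ| ≤ cB A)
    (hY : 0 < Y) (hp01 : 1 ≤ p0) (hp0 : 2 * (cB A + cE A) ≤ (p0 : ℝ)) (hm : 1 ≤ m)
    (hT : cT A / 2 ^ m ≤ 1 / 2) :
    |BK Kg (DD m p0 c Y J) (DD m p0 c Y J)|
      ≤ (2 * cL A * Real.exp (cC A + 2)) * (1 + Y) * Real.exp (μ * QT 1 p0 Y J) := by
  have hL := cL_pos hA
  have hC := cC_pos A
  have hTp := cT_pos A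
  have h1 := sum_cT_le (A := A) hm J
  have h2 := sum_cC (A := A) (J := J) hY hp01
  have h := prod_boundsL logKer_Kg (Finset.range J) (sc Y p0) (scdis hY)
    (fun j => expo c (Mm m j) (sc Y p0 j)) (sup_sc c)
    (fun j => Real.exp (μ * QS 1 (sc Y p0 j) + cC A * V2 (sc Y p0 j) + 2 * (cT A / 2 ^ Mm m j)))
    (fun j => cL A * LL (sc Y p0 j)) (fun j _ => (Real.exp_pos _).le)
    (fun j _ => mul_nonneg hL.le (LL_nonneg _)) ?_ ?_
  · have h3 := h.2
    have h4 : ∑ j ∈ Finset.range J, cL A * LL (sc Y p0 j) ≤ cL A * (Y + 2) := by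
      rw [← Finset.mul_sum]
      have := sum_LL_sc_le hY p0 J
      gcongr
    have h5 : ∏ j ∈ Finset.range J, Real.exp (μ * QS 1 (sc Y p0 j) + cC A * V2 (sc Y p0 j)
        + 2 * (cT A / 2 ^ Mm m j)) ≤ Real.exp (cC A + 2) * Real.exp (μ * QT 1 p0 Y J) := by
      rw [← Real.exp_sum, Finset.sum_add_distrib, Finset.sum_add_distrib, sum_QS, ← Real.exp_add]
      apply Real.exp_le_exp.mpr
      have h6 : cC A / p0 ≤ cC A := by
        apply div_le_self hC.le
        exact_mod_cast hp01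
      linarith
    refine h3.trans ?_
    calc (∑ j ∈ Finset.range J, cL A * LL (sc Y p0 j)) * ∏ j ∈ Finset.range J,
          Real.exp (μ * QS 1 (sc Y p0 j) + cC A * V2 (sc Y p0 j) + 2 * (cT A / 2 ^ Mm m j))
        ≤ (cL A * (Y + 2)) * (Real.exp (cC A + 2) * Real.exp (μ * QT 1 p0 Y J)) := by
          gcongr
      _ ≤ (cL A * (2 * (1 + Y))) * (Real.exp (cC A + 2) * Real.exp (μ * QT 1 p0 Y J)) := by
          gcongr
          linarith
      _ = _ := by ring
  · intro j hj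
    have h3 := expo_two k3_K2 le_rfl hA hc hc (by rw [← hμ]; ring) hμB
      (scp (Y := Y) (p0 := p0) j hj) (sc_large hp0 j) (Mm_one hm j) (VV_sc_le hY p0 j)
      (cT_Mm_half hm hT j)
    rw [abs_of_pos ((Real.exp_pos _).trans_le h3.1)]
    exact h3.2
  · intro j hj
    refine (expo_Kg hA hc hμ hμB (scp (Y := Y) (p0 := p0) j hj) (sc_large hp0 j) (Mm_one hm j)
      (VV_sc_le hY p0 j)).trans ?_
    refine mul_le_mul_of_nonneg_left ?_ (mul_nonneg hL.le (LL_nonneg _))
    apply Real.exp_le_exp.mpr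
    have : 0 < cT A / 2 ^ Mm m j := by positivity
    linarith

end scales

/-- forms over the scales -/
theorem scaleForms : ScaleForms := by
  intro N hN
  set A : ℝ := (N : ℝ) with hAd
  have hA : 1 ≤ A := by rw [hAd]; exact_mod_cast hN
  have hA0 : 0 < A := by linarith
  have hL := cL_pos hA
  have hC := cC_pos A
  have hTp := cT_pos A
  have hE := cE_pos A
  have hB := cB_nonneg hA
  obtain ⟨n, hn⟩ := pow_unbounded_of_one_lt (2 * cT A) (one_lt_two (α := ℝ))
  have hL2 : 0 < 2 * cL A * Real.exp (cC A + 2) := by positivity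
  refine ⟨1 + cC A + 4 * cT A + 2 * cL A * Real.exp (cC A + 2), by linarith, max 4000 n,
    ⌈2 * (cB A + cE A)⌉₊ + 2, le_max_left _ _, by omega, ?_⟩
  intro m hm p0 hp0 k hk0 hkN Y hY J s hs
  have hm4 : 4000 ≤ m := (le_max_left _ _).trans hm
  have hmn : n ≤ m := (le_max_right _ _).trans hm
  have hm1 : 1 ≤ m := by omega
  have hp01 : 1 ≤ p0 := by omega
  have hp0' : 2 * (cB A + cE A) ≤ (p0 : ℝ) := by
    refine (Nat.le_ceil _).trans ?_
    exact_mod_cast (by omega : ⌈2 * (cB A + cE A)⌉₊ ≤ p0)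
  have hT : cT A / 2 ^ m ≤ 1 / 2 := by
    rw [div_le_iff₀ (by positivity)]
    have : (2 : ℝ) ^ n ≤ 2 ^ m := pow_le_pow_right₀ (by norm_num) hmn
    linarith
  have hk : |k| ≤ A := by rw [abs_of_nonneg hk0]; exact hkN
  have hk1 : |(-(1 - k))| ≤ A := by rw [abs_le]; constructor <;> linarith
  have hk2 : 0 ≤ k ^ 2 := sq_nonneg k
  have hkA : k ^ 2 ≤ A ^ 2 := by gcongr
  have hA2 : 1 ≤ A ^ 2 := one_le_pow₀ hA
  have hμ1 : |k ^ 2 - 1| ≤ cB A := by
    unfold cB
    rw [abs_le]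
    constructor <;> linarith
  have hμ2 : |k ^ 2| ≤ cB A := by
    unfold cB
    rw [abs_of_nonneg hk2]
    linarith
  set C := 1 + cC A + 4 * cT A + 2 * cL A * Real.exp (cC A + 2) with hCd
  have her : cC A / p0 + 4 * (cT A / 2 ^ m) ≤ er C m p0 := by
    unfold er
    have hp0p : (0 : ℝ) < p0 := by exact_mod_cast hp01
    have a1 : cC A * (1 / p0) ≤ C * (1 / p0) := by
      gcongr
      linarith
    have a2 : (4 * cT A) * (1 / 2 ^ m) ≤ C * (1 / 2 ^ m) := by
      gcongr
      linarith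
    have e1 : cC A / p0 = cC A * (1 / p0) := by ring
    have e2 : 4 * (cT A / 2 ^ m) = (4 * cT A) * (1 / 2 ^ m) := by ring
    rw [e1, e2, mul_add]
    linarith
  have g1 := DD_two (m := m) (p0 := p0) (J := J) (k3_K2s hs) hs hA hk1 hk1
    (μ := k ^ 2 - 1) (by ring) hμ1 hY hp01 hp0' hm1 hT
  have g2 := DD_two (m := m) (p0 := p0) (J := J) (k3_Kcs hs) hs hA hk1 hk
    (μ := k ^ 2) (by ring) hμ2 hY hp01 hp0' hm1 hT
  have g3 := DD_two (m := m) (p0 := p0) (J := J) (k3_K1s hs) hs hA hk hk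
    (μ := k ^ 2) (by ring) hμ2 hY hp01 hp0' hm1 hT
  have g5 := DD_Kg (m := m) (p0 := p0) (J := J) hA hk1 (μ := k ^ 2 - 1) (by ring) hμ1 hY hp01 hp0'
    hm1 hT
  refine ⟨?_, ?_, ?_, ?_, ?_⟩
  · rw [abs_of_pos ((Real.exp_pos _).trans_le g1.1)]
    refine g1.2.trans (Real.exp_le_exp.mpr ?_)
    linarith
  · refine le_trans (Real.exp_le_exp.mpr ?_) g2.1
    linarith
  · refine le_trans (Real.exp_le_exp.mpr ?_) g3.1
    linarith
  · refine g3.2.trans (Real.exp_le_exp.mpr ?_)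
    linarith
  · refine g5.trans ?_
    have : 0 ≤ (1 + Y) * Real.exp ((k ^ 2 - 1) * QT 1 p0 Y J) := by positivity
    have e1 : 2 * cL A * Real.exp (cC A + 2) * (1 + Y) * Real.exp ((k ^ 2 - 1) * QT 1 p0 Y J)
        = (2 * cL A * Real.exp (cC A + 2)) * ((1 + Y) * Real.exp ((k ^ 2 - 1) * QT 1 p0 Y J)) := by
      ring
    have e2 : C * (1 + Y) * Real.exp ((k ^ 2 - 1) * QT 1 p0 Y J)
        = C * ((1 + Y) * Real.exp ((k ^ 2 - 1) * QT 1 p0 Y J)) := by ring
    rw [e1, e2]
    refine mul_le_mul_of_nonneg_right ?_ this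
    rw [hCd]
    linarith

end Pool.Agent.Lib.NL
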