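import Mathlib
import Pool.Agent.Lib.MP_f9aece_nt_nl.A
import Pool.Agent.Lib.MP_f9aece_nt_h22.OnGood

/-!
The forms of the dual part: kernels `K2` and `Kg` at the mollifier `DN`.
-/

set_option autoImplicit false

namespace Pool.Agent.Lib.NL

open MeasureTheory Set Filter Topology Complex
open Pool.Agent.Lib.MP_f9aece_nt Pool.Agent.Lib.MP_f9aece_nt_h97 Pool.Agent.Lib.MP_f9aece_nt_h40
open Pool.Agent.Lib.MP_f9aece_nt_h22 (VS VS_ge VS_le sum_VV_eq_VS)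

/-! ### the small primes -/

private lemma bk_nonneg {k : ℝ} (hk : 0 ≤ k) (i : ℕ) : 0 ≤ bk k i := by
  unfold bk
  exact Finset.prod_nonneg fun l _ => by positivity

private lemma bk_mono {k k' : ℝ} (hk : 0 ≤ k) (h : k ≤ k') (i : ℕ) : bk k i ≤ bk k' i := by
  unfold bk
  refine Finset.prod_le_prod (fun l _ => by positivity) fun l _ => ?_
  gcongr

lemma dom_Lk {k k' : ℝ} (hk : 0 ≤ k) (h : k ≤ k') (K p : ℕ) : Dom (Lk k K p) (Lk k' K p) := by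
  unfold Lk
  exact Dom.sum _ fun i _ => Dom.single _ (by
    rw [abs_of_nonneg (bk_nonneg hk i)]; exact bk_mono hk h i)

private lemma dom_B0 {k k' : ℝ} (hk : 0 ≤ k) (h : k ≤ k') (K p0 : ℕ) : Dom (B0 k K p0) (B0 k' K p0) := by
  unfold B0
  exact Dom.prod _ fun p _ => dom_Lk hk h K p

lemma pow_mem_Smo {p : ℕ} (hp : p.Prime) {S : Set ℕ} (hS : p ∈ S) (i : ℕ) : p ^ i ∈ Smo S := by
  induction i with
  | zero => simpa using one_mem_Smo _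
  | succ i ih => rw [pow_succ]; exact mul_mem_Smo ih (prime_mem_Smo hp hS)

lemma sup_Lk {p : ℕ} (hp : p.Prime) {S : Set ℕ} (hS : p ∈ S) (k : ℝ) (K : ℕ) :
    Sup (Smo S) (Lk k K p) := by
  unfold Lk
  exact Sup.sum _ fun i _ => Sup.single (pow_mem_Smo hp hS i) _

private lemma sup_B0 (k : ℝ) (K p0 : ℕ) : Sup (Smo (Psm p0 : Set ℕ)) (B0 k K p0) := by
  unfold B0
  refine Sup.prod _ (fun p hp => ?_) (one_mem_Smo _) (fun a ha b hb => mul_mem_Smo ha hb)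
  exact sup_Lk (Psm_prime hp) (by exact_mod_cast hp) k K

private lemma DN_eq (k : ℝ) (K m p0 : ℕ) (Y : ℝ) (J : ℕ) :
    DN k K m p0 Y J = (B0 k K p0 * Dsm p0) * DD m p0 (-(1 - k)) Y J := by
  unfold DN Dm
  rw [mul_assoc]

lemma sup_SS (k : ℝ) (K p0 : ℕ) : Sup (Smo (Psm p0 : Set ℕ)) (B0 k K p0 * Dsm p0) :=
  (sup_B0 k K p0).mul (Pool.Agent.Lib.MP_f9aece_nt_h40.sup_Dsm p0) fun a ha b hb => mul_mem_Smo ha hb

/-! ### the prime sums -/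

lemma QT_one (p0 : ℕ) (Y : ℝ) (J : ℕ) : QT 1 p0 Y J = ∑ j ∈ Finset.range J, VV (sc Y p0 j) := by
  unfold QT QS VV
  refine Finset.sum_congr rfl fun j _ => Finset.sum_congr rfl fun p _ => ?_
  rw [Real.rpow_neg_one]

lemma exp_QT_le {μ B Y : ℝ} (hμ : |μ| ≤ B) (hY : 1 ≤ Y) {p0 : ℕ} (hp0 : 1 ≤ p0) {J : ℕ}
    (hJ : Y / 4 ^ J < Real.log 2) :
    Real.exp (μ * QT 1 p0 Y J) ≤ Real.exp (B * (6 + Real.log p0)) * Y ^ μ := by
  have hY0 : 0 < Y := by linarith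
  rw [QT_one, sum_VV_eq_VS hY0 p0 hJ]
  have h1 := VS_ge hY hp0
  have h2 := VS_le hY p0
  have hlogp : 0 ≤ Real.log p0 := Real.log_natCast_nonneg _
  have h3 : |VS p0 Y - Real.log Y| ≤ 6 + Real.log p0 := by
    rw [abs_le]
    constructor <;> linarith
  rw [Real.rpow_def_of_pos hY0, ← Real.exp_add]
  apply Real.exp_le_exp.mpr
  have h4 : μ * (VS p0 Y - Real.log Y) ≤ B * (6 + Real.log p0) := by
    refine (le_abs_self _).trans ?_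
    rw [abs_mul]
    have h5 : 0 ≤ B := (abs_nonneg _).trans hμ
    gcongr
  linarith

/-- the parameters -/
lemma exists_m1 (A : ℝ) : ∃ m1 : ℕ, 4000 ≤ m1 ∧ ∀ m : ℕ, m1 ≤ m → 1 ≤ m ∧ cT A / 2 ^ m ≤ 1 / 2 := by
  obtain ⟨n, hn⟩ := pow_unbounded_of_one_lt (2 * cT A) (one_lt_two (α := ℝ))
  refine ⟨max 4000 n, le_max_left _ _, fun m hm => ?_⟩
  have hm4 : 4000 ≤ m := (le_max_left _ _).trans hm
  have hmn : n ≤ m := (le_max_right _ _).trans hm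
  refine ⟨by omega, ?_⟩
  rw [div_le_iff₀ (by positivity)]
  have : (2 : ℝ) ^ n ≤ 2 ^ m := pow_le_pow_right₀ (by norm_num) hmn
  linarith

lemma exists_p1 (A : ℝ) : ∃ p1 : ℕ, 2 ≤ p1 ∧ ∀ p0 : ℕ, p1 ≤ p0 → 1 ≤ p0 ∧
    2 * (cB A + cE A) ≤ (p0 : ℝ) := by
  refine ⟨⌈2 * (cB A + cE A)⌉₊ + 2, by omega, fun p0 hp0 => ⟨by omega, ?_⟩⟩
  refine (Nat.le_ceil _).trans ?_
  exact_mod_cast (by omega : ⌈2 * (cB A + cE A)⌉₊ ≤ p0)

lemma abs_ksq {A k : ℝ} (hA : 1 ≤ A) (hk0 : 0 ≤ k) (hk : k ≤ A) :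
    |k ^ 2 - 1| ≤ cB A ∧ |k ^ 2| ≤ cB A ∧ |(-(1 - k))| ≤ A := by
  have hk2 : 0 ≤ k ^ 2 := sq_nonneg k
  have hkA : k ^ 2 ≤ A ^ 2 := by gcongr
  have hA2 : 1 ≤ A ^ 2 := one_le_pow₀ hA
  unfold cB
  refine ⟨?_, ?_, ?_⟩
  · rw [abs_le]
    constructor <;> linarith
  · rw [abs_of_nonneg hk2]
    linarith
  · rw [abs_le]
    constructor <;> linarith

lemma kalg {x1 x2 y1 y2 c1 c2 E W Y L : ℝ} (s1 : |x1| ≤ c1) (s2 : |x2| ≤ c2) (d1 : |y1| ≤ E * W)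
    (d2 : |y2| ≤ 4 * L * E * (Y * W)) (hY : 1 ≤ Y) (hc1 : 0 ≤ c1) (hc2 : 0 ≤ c2) (hL : 0 ≤ L)
    (hE : 0 ≤ E) (hW : 0 ≤ W) :
    |x1 * y1| ≤ (c1 + c2 + 4 * c1 * L) * (E * W) ∧
    |x2 * y1 + x1 * y2| ≤ (c1 + c2 + 4 * c1 * L) * (E * (Y * W)) := by
  have hY0 : 0 ≤ Y := by linarith
  have hEW : 0 ≤ E * W := mul_nonneg hE hW
  have hEYW : 0 ≤ E * (Y * W) := by positivity
  have hWY : W ≤ Y * W := by nlinarith
  constructor
  · rw [abs_mul]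
    calc |x1| * |y1| ≤ c1 * (E * W) := mul_le_mul s1 d1 (abs_nonneg _) hc1
      _ ≤ (c1 + c2 + 4 * c1 * L) * (E * W) := by
          have : 0 ≤ 4 * c1 * L := by positivity
          apply mul_le_mul_of_nonneg_right _ hEW
          linarith
  · refine (abs_add_le _ _).trans ?_
    rw [abs_mul, abs_mul]
    have a1 : |x2| * |y1| ≤ c2 * (E * W) := mul_le_mul s2 d1 (abs_nonneg _) hc2
    have a2 : |x1| * |y2| ≤ c1 * (4 * L * E * (Y * W)) := mul_le_mul s1 d2 (abs_nonneg _) hc1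
    have a3 : c2 * (E * W) ≤ c2 * (E * (Y * W)) :=
      mul_le_mul_of_nonneg_left (mul_le_mul_of_nonneg_left hWY hE) hc2
    have a4 : 0 ≤ c1 * (E * (Y * W)) := mul_nonneg hc1 hEYW
    have e : (c1 + c2 + 4 * c1 * L) * (E * (Y * W)) = c1 * (E * (Y * W)) + c2 * (E * (Y * W))
        + c1 * (4 * L * E * (Y * W)) := by ring
    linarith

/-- forms of the dual part -/
theorem kForms : KForms := by
  intro N hN
  set A : ℝ := (N : ℝ) with hAd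
  have hA : 1 ≤ A := by rw [hAd]; exact_mod_cast hN
  obtain ⟨m1, hm1, hm⟩ := exists_m1 A
  obtain ⟨p1, hp1, hp⟩ := exists_p1 A
  refine ⟨m1, p1, hm1, hp1, ?_⟩
  intro m hmm p0 hpp K
  obtain ⟨hm0, hT⟩ := hm m hmm
  obtain ⟨hp00, hp0⟩ := hp p0 hpp
  have hL := cL_pos hA
  have hC := cC_pos A
  have hTp := cT_pos A
  -- constants of the small primes
  set S' : DP := B0 A K p0 * Dsm' p0 with hS'
  set c1 := BK K2 S' S' with hc1
  set c2 := BK Kg S' S' with hc2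
  have hdom : ∀ k : ℝ, 0 ≤ k → k ≤ A → Dom (B0 k K p0 * Dsm p0) S' := fun k hk0 hk =>
    (dom_B0 hk0 hk K p0).mul (dom_Dsm p0)
  have b1 : ∀ k : ℝ, 0 ≤ k → k ≤ A → |BK K2 (B0 k K p0 * Dsm p0) (B0 k K p0 * Dsm p0)| ≤ c1 :=
    fun k hk0 hk => abs_BK_le_of_dom K2_nonneg (hdom k hk0 hk) (hdom k hk0 hk)
  have b2 : ∀ k : ℝ, 0 ≤ k → k ≤ A → |BK Kg (B0 k K p0 * Dsm p0) (B0 k K p0 * Dsm p0)| ≤ c2 :=
    fun k hk0 hk => abs_BK_le_of_dom logKer_Kg.nonneg (hdom k hk0 hk) (hdom k hk0 hk)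
  have hc10 : 0 ≤ c1 := (abs_nonneg _).trans (b1 0 le_rfl (by linarith))
  have hc20 : 0 ≤ c2 := (abs_nonneg _).trans (b2 0 le_rfl (by linarith))
  set E1 := Real.exp (cB A * (6 + Real.log p0)) with hE1
  have hE10 : 0 < E1 := Real.exp_pos _
  set E2 := Real.exp (cC A + 2) with hE2
  have hE20 : 0 < E2 := Real.exp_pos _
  refine ⟨(c1 + c2 + 4 * c1 * cL A) * E2 * E1, by positivity, ?_⟩
  intro k hk0 hkN Y hY J hJ
  have hY0 : 0 < Y := by linarith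
  obtain ⟨hμ, _, hc⟩ := abs_ksq hA hk0 hkN
  have g1 := DD_two (m := m) (p0 := p0) (J := J) k3_K2 le_rfl hA hc hc
    (μ := k ^ 2 - 1) (by ring) hμ hY0 hp00 hp0 hm0 hT
  have g2 := DD_Kg (m := m) (p0 := p0) (J := J) hA hc (μ := k ^ 2 - 1) (by ring) hμ hY0 hp00 hp0
    hm0 hT
  have g3 := exp_QT_le hμ hY hp00 hJ
  rw [← hE1] at g3
  rw [← hE2] at g2
  set Q := QT 1 p0 Y J with hQ
  have hYk : 0 < Y ^ (k ^ 2 - 1) := Real.rpow_pos_of_pos hY0 _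
  have hYk2 : Y ^ (k ^ 2) = Y * Y ^ (k ^ 2 - 1) := by
    rw [Real.rpow_sub hY0, Real.rpow_one]
    field_simp
  set W := E1 * Y ^ (k ^ 2 - 1) with hW
  have hW0 : 0 < W := by positivity
  have d1 : |BK K2 (DD m p0 (-(1 - k)) Y J) (DD m p0 (-(1 - k)) Y J)| ≤ E2 * W := by
    rw [abs_of_pos ((Real.exp_pos _).trans_le g1.1)]
    refine g1.2.trans ?_
    have h1 : cC A / p0 ≤ cC A := by
      apply div_le_self hC.le
      exact_mod_cast hp00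
    calc Real.exp ((k ^ 2 - 1) * Q + (cC A / p0 + 4 * (cT A / 2 ^ m)))
        ≤ Real.exp ((cC A + 2) + (k ^ 2 - 1) * Q) := by
          apply Real.exp_le_exp.mpr
          linarith
      _ = E2 * Real.exp ((k ^ 2 - 1) * Q) := by rw [Real.exp_add]
      _ ≤ _ := by gcongr
  have d2 : |BK Kg (DD m p0 (-(1 - k)) Y J) (DD m p0 (-(1 - k)) Y J)| ≤ 4 * cL A * E2 * (Y * W) := by
    refine g2.trans ?_
    calc 2 * cL A * E2 * (1 + Y) * Real.exp ((k ^ 2 - 1) * Q)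
        ≤ 2 * cL A * E2 * (2 * Y) * W := by
          gcongr
          linarith
      _ = _ := by ring
  have hds : Disjoint (Psm p0 : Set ℕ) (⋃ j ∈ Finset.range J, (sc Y p0 j : Set ℕ)) := disj_Psm p0 Y J
  have hs1 := sup_SS k K p0
  have hs2 := sup_DD m p0 (-(1 - k)) Y J
  have s1 := b1 k hk0 hkN
  have s2 := b2 k hk0 hkN
  rw [DN_eq, BK_mul_sup K2 hs1 hs1 hs2 hs2 fun x hx x' hx' y hy y' hy' => K2_mul hds hx hx' hy hy',
    BK_mul_der K2 Kg hs1 hs1 hs2 hs2 fun x hx x' hx' y hy y' hy' =>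
      logKer_Kg.mul _ _ hds x hx x' hx' y hy y' hy']
  have key := kalg s1 s2 d1 d2 hY hc10 hc20 hL.le hE20.le hW0.le
  refine ⟨key.1.trans (le_of_eq ?_), key.2.trans (le_of_eq ?_)⟩
  · rw [hW]; ring
  · rw [hYk2, hW]; ring

end Pool.Agent.Lib.NL
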