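import Mathlib
import Pool.Agent.Lib.MP_f9aece_nt_nl.Stmts
import Pool.Agent.Lib.MP_f9aece_nt_h5.EvS

/-!
The majorants of the weights are sums of squares of Dirichlet polynomials (module K of NearLine).
-/

set_option autoImplicit false

namespace Pool.Agent.Lib.NL

open MeasureTheory Set Filter Topology Complex
open Pool.Agent.Lib.MP_f9aece_nt Pool.Agent.Lib.MP_f9aece_nt_h97

lemma Pj_eq_evs (p0 : ℕ) (Y δ : ℝ) (j : ℕ) (t : ℝ) :
    Pj p0 Y (1 / 2 + δ) j t = evs (pt δ t) (PP (sc Y p0 j)) := by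
  rw [MP_f9aece_nt_h5.evs_PP, Pj, pt]

lemma T1_succ (m p0 : ℕ) (c Y : ℝ) {J j : ℕ} (hj : j < J) :
    T1 m p0 c Y (J + 1) j = T1 m p0 c Y J j * expo c (Mm m J) (sc Y p0 J) := by
  unfold T1
  rw [Finset.prod_Ico_succ_top (by omega), mul_assoc]

lemma T1_self (m p0 : ℕ) (c Y : ℝ) (J : ℕ) :
    T1 m p0 c Y (J + 1) J = PP (sc Y p0 J) ^ Mm m J := by
  unfold T1
  simp

theorem upEq : UpEq := by
  intro m p0 c Y J δ t _
  obtain ⟨s, hs⟩ : ∃ s : ℂ, s = pt δ t := ⟨_, rfl⟩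
  have hP : (fun j => Pj p0 Y (1 / 2 + δ) j t) = fun j => evs s (PP (sc Y p0 j)) := by
    funext j
    rw [Pj_eq_evs, hs]
  rw [hP, ← hs]
  clear hP hs
  induction J with
  | zero => simp [up, DD, MP_f9aece_nt_h5.evs_one]
  | succ J ih =>
    simp only [up]
    rw [ih]
    have e1 : EE (Mm m J) (c * evs s (PP (sc Y p0 J))) = evs s (expo c (Mm m J) (sc Y p0 J)) := by
      rw [MP_f9aece_nt_h5.evs_expo, MP_f9aece_nt_h5.evs_PP]
    have e2 : DD m p0 c Y (J + 1) = DD m p0 c Y J * expo c (Mm m J) (sc Y p0 J) := by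
      unfold DD; rw [Finset.prod_range_succ]
    rw [Finset.sum_range_succ, e2, T1_self, e1]
    have e5 : ∑ j ∈ Finset.range J, qm m c j * ‖evs s (T1 m p0 c Y (J + 1) j)‖ ^ 2
        = (∑ j ∈ Finset.range J, qm m c j * ‖evs s (T1 m p0 c Y J j)‖ ^ 2)
          * ‖evs s (expo c (Mm m J) (sc Y p0 J))‖ ^ 2 := by
      rw [Finset.sum_mul]
      refine Finset.sum_congr rfl fun j hj => ?_
      rw [T1_succ m p0 c Y (Finset.mem_range.mp hj), MP_f9aece_nt_h5.evs_mul, norm_mul]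
      ring
    rw [e5, MP_f9aece_nt_h5.evs_mul, norm_mul, MP_f9aece_nt_h5.evs_pow, norm_pow]
    unfold qm
    rw [div_pow]
    ring

end Pool.Agent.Lib.NL
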