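import Mathlib
import Pool.Agent.Lib.MP_f9aece_nt_nl.D
import Pool.Agent.Lib.MP_f9aece_nt_h5.MeanB

/-!
NearLine, module L: mean value of the second weight of the upper bound.
-/

set_option autoImplicit false

namespace Pool.Agent.Lib.NL

open MeasureTheory Set Filter Topology Complex
open Pool.Agent.Lib.MP_f9aece_nt Pool.Agent.Lib.MP_f9aece_nt_h97
open Pool.Agent.Lib.MP_f9aece_nt_h5 (tw cone_tw BK_tw aug_tw_le BK_tw_le ev_tw mean_ev_abs
  cone_block cone_pow_block aug_block aug_pow_block eb one_le_eb form_B prime_sc cone_Smo_block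
  evs_mul lenM_le sum_lenM Mm_add_le)
open Pool.Agent.Lib.MP_f9aece_nt_h40 (aug_nonneg')

namespace L87

/-- two-sided mean value at distance `δ` -/
lemma mean_evs {T lam B δ : ℝ} (hT : 0 < T) (hδ : 0 ≤ δ) {f : DP} (hf : Cone (Len lam) f)
    (hB : aug f ≤ B) :
    |(∫ t in (0 : ℝ)..T, ‖evs (pt δ t) f‖ ^ 2) - T * BK (K1s (1 + 2 * δ)) f f|
      ≤ 4 * Real.exp lam * B ^ 2 := by
  have h1 := mean_ev_abs hT (cone_tw δ hf) ((aug_tw_le hδ hf fun n hn => hn.1).trans hB)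
  rw [BK_tw hδ] at h1
  simp only [ev_tw hδ] at h1
  exact h1

lemma mean_evs_le {T lam B δ : ℝ} (hT : 0 < T) (hδ : 0 ≤ δ) {f : DP} (hf : Cone (Len lam) f)
    (hB : aug f ≤ B) :
    ∫ t in (0 : ℝ)..T, ‖evs (pt δ t) f‖ ^ 2
      ≤ T * BK (K1s (1 + 2 * δ)) f f + 4 * Real.exp lam * B ^ 2 := by
  have h := (abs_le.mp (mean_evs hT hδ hf hB)).2
  linarith

section

variable {Y k : ℝ} {m p0 : ℕ}

lemma one_le_prod_real {ι : Type} (s : Finset ι) {f : ι → ℝ} (h : ∀ i ∈ s, 1 ≤ f i) :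
    1 ≤ ∏ i ∈ s, f i :=
  calc (1 : ℝ) = ∏ _p ∈ s, (1 : ℝ) := by simp
    _ ≤ _ := Finset.prod_le_prod (fun _ _ => zero_le_one) h

lemma sum_len_Ico (hY : 0 < Y) (J j : ℕ) :
    ∑ i ∈ Finset.Ico (j + 1) J, (Mm m i : ℝ) * (Y / 4 ^ i) ≤ 2 * m * Y := by
  refine le_trans (Finset.sum_le_sum_of_subset_of_nonneg ?_ fun i _ _ => by positivity)
    (sum_lenM (m := m) hY J)
  intro i hi
  rw [Finset.mem_Ico] at hi
  rw [Finset.mem_range]
  exact hi.2

lemma cone_T1 (hY : 0 < Y) (hk : 0 ≤ k) (J j : ℕ) :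
    Cone (Len (3 * m * Y)) (T1 m p0 k Y J j) := by
  unfold T1
  refine ((cone_pow_block hY (Mm m j) j).mul
    (cone_len_prod (Finset.Ico (j + 1) J) (fun i => expo k (Mm m i) (sc Y p0 i))
      (fun i => (Mm m i : ℝ) * (Y / 4 ^ i)) fun i _ => cone_block hY hk (Mm m i) i)
    fun a ha b hb => Len.mul ha hb).mono (Len.mono ?_)
  have h1 := lenM_le (m := m) hY j
  have h2 := sum_len_Ico (m := m) hY J j
  linarith

lemma aug_T1 (hY : 0 < Y) (hk : 0 ≤ k) (hk1 : k ≤ 1) {J j : ℕ} :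
    aug (T1 m p0 k Y J j) ≤ Real.exp (J + 3 * m * Y) := by
  unfold T1
  rw [aug_mul, aug_prod]
  have h1 := aug_pow_block (Y := Y) (p0 := p0) (Mm m j) j
  have h2 := lenM_le (m := m) hY j
  have h3 := sum_len_Ico (m := m) hY J j
  have h4 : ∏ i ∈ Finset.Ico (j + 1) J, aug (expo k (Mm m i) (sc Y p0 i))
      ≤ Real.exp (∑ i ∈ Finset.Ico (j + 1) J, (1 + Mm m i * (Y / 4 ^ i))) := by
    rw [Real.exp_sum]
    exact Finset.prod_le_prod (fun i _ => aug_nonneg (cone_block hY hk (Mm m i) i))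
          fun i _ => aug_block hY hk hk1 (Mm m i) i
  have h5 : 0 ≤ ∏ i ∈ Finset.Ico (j + 1) J, aug (expo k (Mm m i) (sc Y p0 i)) :=
    Finset.prod_nonneg fun i _ => aug_nonneg (cone_block hY hk (Mm m i) i)
  calc aug (PP (sc Y p0 j) ^ Mm m j) * ∏ i ∈ Finset.Ico (j + 1) J, aug (expo k (Mm m i) (sc Y p0 i))
      ≤ Real.exp (Mm m j * (Y / 4 ^ j))
        * Real.exp (∑ i ∈ Finset.Ico (j + 1) J, (1 + Mm m i * (Y / 4 ^ i))) :=
        mul_le_mul h1 h4 h5 (Real.exp_pos _).le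
    _ ≤ _ := by
        rw [← Real.exp_add]
        apply Real.exp_le_exp.mpr
        rw [Finset.sum_add_distrib]
        simp only [Finset.sum_const, Nat.card_Ico, nsmul_eq_mul, mul_one]
        have h6 : ((J - (j + 1) : ℕ) : ℝ) ≤ J := by exact_mod_cast Nat.sub_le _ _
        linarith

lemma sup_T1 (c : ℝ) {J j : ℕ} (hj : j < J) :
    Sup (Smo (⋃ i ∈ Finset.range J, (sc Y p0 i : Set ℕ))) (T1 m p0 c Y J j) := by
  unfold T1
  have hsub : ∀ i, i < J → (sc Y p0 i : Set ℕ) ⊆ ⋃ i ∈ Finset.range J, (sc Y p0 i : Set ℕ) := by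
    intro i hi
    exact Set.subset_biUnion_of_mem (u := fun j => (sc Y p0 j : Set ℕ))
      (Finset.mem_coe.mpr (Finset.mem_range.mpr hi))
  refine Sup.mul (A := Smo (⋃ i ∈ Finset.range J, (sc Y p0 i : Set ℕ)))
    (B := Smo (⋃ i ∈ Finset.range J, (sc Y p0 i : Set ℕ))) ?_ ?_
    fun a ha b hb => mul_mem_Smo ha hb
  · refine (sup_of_cone (cone_PP_pow (prime_sc (Y := Y) (p0 := p0) j) (Mm m j))).mono fun n hn => ?_
    exact Smo_mono (hsub j hj) hn.1
  · refine Sup.prod _ (fun i hi => ?_) (one_mem_Smo _) fun a ha b hb => mul_mem_Smo ha hb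
    rw [Finset.mem_Ico] at hi
    exact (sup_expo (prime_sc i) c (Mm m i)).mono (Smo_mono (hsub i hi.2))

/-- the form of an off-diagonal piece -/
lemma form_T1 (hY : 0 < Y) (hk : 0 ≤ k) {δ : ℝ} (hδ : 0 ≤ δ) (J j : ℕ) :
    BK (K1s (1 + 2 * δ)) (T1 m p0 k Y J j) (T1 m p0 k Y J j)
      ≤ (Mm m j).factorial * VV (sc Y p0 j) ^ Mm m j
        * BK (K1s (1 + 2 * δ)) (DD m p0 k Y J) (DD m p0 k Y J) := by
  classical
  have hform := form_B (m := m) (p0 := p0) hY hk hδ J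
  unfold Bm at hform
  rw [hform, ← BK_tw hδ]
  have hcone : ∀ i ∈ Finset.Ico (j + 1) J,
      Cone (Smo (sc Y p0 i)) (tw δ (expo k (Mm m i) (sc Y p0 i))) :=
    fun i _ => cone_tw δ (cone_Smo_block hk (Mm m i) i)
  have hc0 : Cone (Smo (sc Y p0 j)) (PP (sc Y p0 j) ^ Mm m j) :=
    (cone_PP_pow (prime_sc j) _).mono fun n hn => hn.1
  have hc1 : Cone (Smo (sc Y p0 j)) (tw δ (PP (sc Y p0 j) ^ Mm m j)) := cone_tw δ hc0
  have hdis : Disjoint (sc Y p0 j : Set ℕ) (⋃ i ∈ Finset.Ico (j + 1) J, (sc Y p0 i : Set ℕ)) := by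
    rw [Set.disjoint_iUnion₂_right]
    intro i hi
    rw [Finset.mem_Ico] at hi
    rw [Finset.disjoint_coe]
    exact sc_disjoint hY (by omega)
  unfold T1
  rw [map_mul, map_prod, BK_mul K1 hc1 hc1 (cone_prod_Smo _ _ _ hcone) (cone_prod_Smo _ _ _ hcone)
    (mulKer_K1.2 _ _ hdis), BK_prod mulKer_K1 (Finset.Ico (j + 1) J) (sc Y p0)
      (fun i _ j _ hij => sc_disjoint hY hij) _ _ hcone hcone]
  have h1 : BK K1 (tw δ (PP (sc Y p0 j) ^ Mm m j)) (tw δ (PP (sc Y p0 j) ^ Mm m j))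
      ≤ (Mm m j).factorial * VV (sc Y p0 j) ^ Mm m j :=
    (BK_tw_le hδ hc0 fun n hn => Smo_pos hn).trans (BK_PP_pow_self (prime_sc j) _)
  have h2 : ∏ i ∈ Finset.Ico (j + 1) J,
      BK K1 (tw δ (expo k (Mm m i) (sc Y p0 i))) (tw δ (expo k (Mm m i) (sc Y p0 i)))
      ≤ ∏ i ∈ Finset.range J, eb δ m p0 k Y i := by
    have hsub : Finset.Ico (j + 1) J ⊆ Finset.range J := by
      intro i hi
      rw [Finset.mem_Ico] at hi
      rw [Finset.mem_range]
      exact hi.2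
    rw [← Finset.prod_sdiff hsub]
    refine le_mul_of_one_le_left ?_ ?_
    · exact Finset.prod_nonneg fun i _ => zero_le_one.trans (one_le_eb hk δ i)
    · exact one_le_prod_real _ fun i _ => one_le_eb hk δ i
  have h3 : 0 ≤ ∏ i ∈ Finset.Ico (j + 1) J,
      BK K1 (tw δ (expo k (Mm m i) (sc Y p0 i))) (tw δ (expo k (Mm m i) (sc Y p0 i))) :=
    Finset.prod_nonneg fun i hi => BK_nonneg (hcone i hi) (hcone i hi) K1_nonneg
  have h4 := VV_nonneg (sc Y p0 j)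
  exact mul_le_mul h1 h2 h3 (by positivity)

end

/-! ### numerical bounds -/

lemma exp_tenth : Real.exp (1 / 10 : ℝ) ≤ 1.12 := by
  have h4 := Real.add_one_le_exp (-(1 / 10) : ℝ)
  rw [Real.exp_neg] at h4
  have h5 := Real.exp_pos (1 / 10 : ℝ)
  rw [show (-(1 / 10) + 1 : ℝ) = 0.9 by norm_num, le_inv_comm₀ (by norm_num) h5] at h4
  exact h4.trans (by norm_num)

lemma qm_nonneg (m : ℕ) (c : ℝ) (j : ℕ) : 0 ≤ qm m c j := by
  unfold qm Rm
  positivity

lemma qm_eq (m : ℕ) (c : ℝ) (j : ℕ) (h : 0 < Mm m j) :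
    qm m c j = 5 * |c| * (100 * Real.exp (1 / 10) / (Mm m j : ℝ) ^ 2) ^ Mm m j := by
  unfold qm Rm
  set M := Mm m j with hM
  have hM0 : (0 : ℝ) < M := by exact_mod_cast h
  have e1 : Real.exp ((M : ℝ) / 10) = Real.exp (1 / 10) ^ M := by
    rw [← Real.exp_nat_mul]; congr 1; ring
  rw [e1, pow_mul, ← div_pow]
  congr 2
  field_simp
  ring

/-- weight times form of the off-diagonal pieces -/
lemma qm_form {m : ℕ} (hm : 4000 ≤ m) {c V : ℝ} (hc : |c| ≤ 1) (hV0 : 0 ≤ V) (hV : V ≤ 12) (j : ℕ) :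
    qm m c j * ((Mm m j).factorial * V ^ Mm m j) ≤ 5 * (1 / 2) ^ Mm m j := by
  have hMm : 4000 ≤ Mm m j := by
    have := Mm_add_le (m := m) (by omega) j
    omega
  rw [qm_eq m c j (by omega)]
  set M := Mm m j with hM
  have hM0 : (4000 : ℝ) ≤ M := by exact_mod_cast hMm
  have hMpos : (0 : ℝ) < M := by linarith
  have h1 : (M.factorial : ℝ) ≤ (M : ℝ) ^ M := by exact_mod_cast Nat.factorial_le_pow _
  have he := exp_tenth
  have he0 := Real.exp_pos (1 / 10 : ℝ)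
  calc 5 * |c| * (100 * Real.exp (1 / 10) / (M : ℝ) ^ 2) ^ M * (M.factorial * V ^ M)
      ≤ 5 * 1 * (100 * Real.exp (1 / 10) / (M : ℝ) ^ 2) ^ M * ((M : ℝ) ^ M * 12 ^ M) := by gcongr
    _ = 5 * (1200 * Real.exp (1 / 10) / M) ^ M := by
        rw [mul_one, mul_assoc, ← mul_pow, ← mul_pow]
        congr 2
        field_simp
        ring
    _ ≤ 5 * (1 / 2) ^ M := by
        have h2 : 1200 * Real.exp (1 / 10) / (M : ℝ) ≤ 1 / 2 := by
          rw [div_le_iff₀ hMpos]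
          nlinarith
        exact mul_le_mul_of_nonneg_left (pow_le_pow_left₀ (by positivity) h2 M) (by norm_num)

lemma qm_le {m : ℕ} (hm : 4000 ≤ m) {c : ℝ} (hc : |c| ≤ 1) (j : ℕ) :
    qm m c j ≤ 5 * (1 / 2) ^ Mm m j := by
  have hMm : 4000 ≤ Mm m j := by
    have := Mm_add_le (m := m) (by omega) j
    omega
  rw [qm_eq m c j (by omega)]
  set M := Mm m j with hM
  have hM0 : (4000 : ℝ) ≤ M := by exact_mod_cast hMm
  have hMpos : (0 : ℝ) < M := by linarith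
  have he := exp_tenth
  have he0 := Real.exp_pos (1 / 10 : ℝ)
  calc 5 * |c| * (100 * Real.exp (1 / 10) / (M : ℝ) ^ 2) ^ M
      ≤ 5 * 1 * (100 * Real.exp (1 / 10) / (M : ℝ) ^ 2) ^ M := by gcongr
    _ ≤ 5 * 1 * (1 / 2) ^ M := by
        have h2 : 100 * Real.exp (1 / 10) / (M : ℝ) ^ 2 ≤ 1 / 2 := by
          rw [div_le_iff₀ (by positivity)]
          nlinarith
        exact mul_le_mul_of_nonneg_left (pow_le_pow_left₀ (by positivity) h2 M) (by norm_num)
    _ = _ := by ring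

lemma sum_half_Mm {m : ℕ} (hm : 1 ≤ m) (J : ℕ) :
    ∑ j ∈ Finset.range J, (1 / 2 : ℝ) ^ Mm m j ≤ 2 * (1 / 2) ^ m := by
  have h1 : ∀ j ∈ Finset.range J, (1 / 2 : ℝ) ^ Mm m j ≤ (1 / 2) ^ m * (1 / 2) ^ j := by
    intro j _
    rw [← pow_add]
    exact pow_le_pow_of_le_one (by norm_num) (by norm_num) (Mm_add_le hm j)
  refine (Finset.sum_le_sum h1).trans ?_
  rw [← Finset.mul_sum]
  have h3 : ∑ j ∈ Finset.range J, (1 / 2 : ℝ) ^ j ≤ 2 := by
    have h : ∀ n : ℕ, ∑ j ∈ Finset.range n, (1 / 2 : ℝ) ^ j = 2 - 2 * (1 / 2) ^ n := by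
      intro n
      induction n with
      | zero => simp
      | succ n ih => rw [Finset.sum_range_succ, ih, pow_succ]; ring
    rw [h]
    have : (0 : ℝ) < (1 / 2) ^ J := by positivity
    linarith
  calc (1 / 2 : ℝ) ^ m * ∑ j ∈ Finset.range J, (1 / 2 : ℝ) ^ j ≤ (1 / 2) ^ m * 2 := by gcongr
    _ = _ := by ring

/-! ### the mean value -/

lemma continuous_evs_pt' {δ : ℝ} (hδ : 0 ≤ δ) (D : DP) :
    Continuous (fun t : ℝ => evs (pt δ t) D) := by
  have h : (fun t : ℝ => evs (pt δ t) D) = fun t : ℝ => ev t (tw δ D) := by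
    funext t
    rw [ev_tw hδ]
    rfl
  rw [h]
  exact continuous_ev _

lemma one_le_EN {k : ℝ} (hk : 0 ≤ k) (K m p0 : ℕ) {Y : ℝ} (hY : 0 < Y) (J : ℕ) {δ : ℝ} (hδ : 0 ≤ δ) :
    1 ≤ EN k K m p0 Y J (1 + 2 * δ) := by
  rw [(smallForms k K m p0 Y J (1 + 2 * δ) (by linarith)).2.2]
  have h1 := one_le_F0 k K p0 (1 + 2 * δ)
  have h2 := form_B (m := m) (p0 := p0) hY hk hδ J
  unfold Bm at h2
  rw [h2]
  have h3 : 1 ≤ ∏ j ∈ Finset.range J, eb δ m p0 k Y j :=
    one_le_prod_real _ fun i _ => one_le_eb hk δ i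
  exact one_le_mul_of_one_le_of_one_le h1 h3

end L87

open L87 in
theorem upperB (hK : UpEq) : UpperB := by
  intro η hη
  obtain ⟨m0, hm0⟩ := exists_pow_lt_of_lt_one (show (0 : ℝ) < min (η / 20) (1 / 10) by positivity)
    (show (1 / 2 : ℝ) < 1 by norm_num)
  refine ⟨max m0 4000, le_max_right _ _, ?_⟩
  intro m hm p0 hp0 K
  have hm4 : 4000 ≤ m := (le_max_right _ _).trans hm
  have hmm0 : m0 ≤ m := (le_max_left _ _).trans hm
  have hhalf : (1 / 2 : ℝ) ^ m ≤ min (η / 20) (1 / 10) :=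
    (pow_le_pow_of_le_one (by norm_num) (by norm_num) hmm0).trans hm0.le
  have hh1 : (1 / 2 : ℝ) ^ m ≤ η / 20 := hhalf.trans (min_le_left _ _)
  have hh2 : (1 / 2 : ℝ) ^ m ≤ 1 / 10 := hhalf.trans (min_le_right _ _)
  set lam0 := (p0 : ℝ) * (K * Real.log p0) with hlam0
  set A0 := aug (B0 1 K p0) with hA0
  have hA00 : 0 ≤ A0 := aug_nonneg' (cone_B0 zero_le_one K hp0)
  set G := 4 * Real.exp lam0 * A0 ^ 2 with hG
  have hG0 : 0 ≤ G := by positivity
  refine ⟨max 1 (4 * G * Real.exp 6 / η), le_max_left _ _, ?_⟩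
  intro Y hY J hJ k hk0 hk1 δ hδ0 hδ1
  have hY1 : 1 ≤ Y := (le_max_left _ _).trans hY
  have hYG : 4 * G * Real.exp 6 / η ≤ Y := (le_max_right _ _).trans hY
  have hY0 : 0 < Y := by linarith
  have hkabs : |k| ≤ 1 := by rw [abs_of_pos hk0]; exact hk1
  set T := Real.exp (160 * m * Y) with hT
  have hTpos : 0 < T := Real.exp_pos _
  set E := EN k K m p0 Y J (1 + 2 * δ) with hE
  have hE1 : 1 ≤ E := one_le_EN hk0.le K m p0 hY0 J hδ0
  set er1 := 4 * Real.exp (lam0 + 3 * m * Y) * (A0 * Real.exp (J + 3 * m * Y)) ^ 2 with her1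
  have her10 : 0 ≤ er1 := by positivity
  have hm1 : (1 : ℝ) ≤ m := by exact_mod_cast (by omega : 1 ≤ m)
  have herr : 2 * er1 ≤ η / 2 * T := by
    have e1 : er1 = G * Real.exp (9 * m * Y + 2 * J) := by
      rw [her1, hG, mul_pow, ← Real.exp_nat_mul, Real.exp_add lam0]
      have : Real.exp (9 * m * Y + 2 * J) = Real.exp (3 * m * Y) * Real.exp (((2 : ℕ) : ℝ) * (J + 3 * m * Y)) := by
        rw [← Real.exp_add]; congr 1; push_cast; ring
      rw [this]
      ring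
    have e2 : Real.exp (9 * m * Y + 2 * J) ≤ Real.exp 6 * (T * Real.exp (-Y)) := by
      rw [hT, ← Real.exp_add, ← Real.exp_add]
      apply Real.exp_le_exp.mpr
      have : Y ≤ m * Y := le_mul_of_one_le_left hY0.le hm1
      linarith
    have e3 : 4 * G * Real.exp 6 ≤ η * Real.exp Y := by
      have h1 : 4 * G * Real.exp 6 ≤ Y * η := by
        rwa [div_le_iff₀ hη] at hYG
      have h2 := Real.add_one_le_exp Y
      nlinarith
    have e4 : Real.exp Y * Real.exp (-Y) = 1 := by rw [← Real.exp_add]; simp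
    calc 2 * er1 = 2 * (G * Real.exp (9 * m * Y + 2 * J)) := by rw [e1]
      _ ≤ 2 * (G * (Real.exp 6 * (T * Real.exp (-Y)))) := by gcongr
      _ = 1 / 2 * (4 * G * Real.exp 6) * (T * Real.exp (-Y)) := by ring
      _ ≤ 1 / 2 * (η * Real.exp Y) * (T * Real.exp (-Y)) := by gcongr
      _ = η / 2 * T * (Real.exp Y * Real.exp (-Y)) := by ring
      _ = _ := by rw [e4, mul_one]
  -- rewriting of the integrand
  have hpt : ∀ t : ℝ, ‖evs (pt δ t) (B0 k K p0)‖ ^ 2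
      * up k (Mm m) (Rm m) (fun j => Pj p0 Y (1 / 2 + δ) j t) J
      = ‖evs (pt δ t) (BN k K m p0 Y J)‖ ^ 2
        + ∑ j ∈ Finset.range J, qm m k j * ‖evs (pt δ t) (B0 k K p0 * T1 m p0 k Y J j)‖ ^ 2 := by
    intro t
    rw [hK m p0 k Y J δ t hδ0, mul_add, Finset.mul_sum]
    congr 1
    · unfold BN Bm
      rw [evs_mul, norm_mul, mul_pow]
    · refine Finset.sum_congr rfl fun j _ => ?_
      rw [evs_mul, norm_mul, mul_pow]
      ring
  simp_rw [hpt]
  have hcont : ∀ D : DP, Continuous (fun t : ℝ => ‖evs (pt δ t) D‖ ^ 2) :=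
    fun D => (continuous_evs_pt' hδ0 D).norm.pow 2
  have i0 : IntervalIntegrable (fun t : ℝ => ‖evs (pt δ t) (BN k K m p0 Y J)‖ ^ 2) volume 0 T :=
    (hcont _).intervalIntegrable _ _
  have i1 : ∀ j ∈ Finset.range J, IntervalIntegrable
      (fun t : ℝ => qm m k j * ‖evs (pt δ t) (B0 k K p0 * T1 m p0 k Y J j)‖ ^ 2) volume 0 T :=
    fun j _ => Continuous.intervalIntegrable (continuous_const.mul (hcont _)) _ _
  have i2 : IntervalIntegrable (fun t : ℝ => ∑ j ∈ Finset.range J,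
      qm m k j * ‖evs (pt δ t) (B0 k K p0 * T1 m p0 k Y J j)‖ ^ 2) volume 0 T := by
    refine Continuous.intervalIntegrable (continuous_finsetSum _ fun j _ => ?_) _ _
    exact continuous_const.mul (hcont _)
  rw [intervalIntegral.integral_add i0 i2, intervalIntegral.integral_finsetSum i1]
  simp_rw [intervalIntegral.integral_const_mul]
  have hcB0 := cone_B0 (k := k) hk0.le K hp0
  have haB0 : aug (B0 k K p0) ≤ A0 := aug_mono (dom_B0 hk0.le hk1 K p0)
  have haB00 : 0 ≤ aug (B0 k K p0) := aug_nonneg' hcB0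
  have hmY : 0 ≤ m * Y := by positivity
  -- main piece
  have hI0 : ∫ t in (0 : ℝ)..T, ‖evs (pt δ t) (BN k K m p0 Y J)‖ ^ 2 ≤ T * E + er1 := by
    have hc : Cone (Len (lam0 + 3 * m * Y)) (BN k K m p0 Y J) := by
      unfold BN Bm
      refine (hcB0.mul (cone_DDN m p0 hk0.le hY0 J) fun a ha b hb => Len.mul ha hb).mono (Len.mono ?_)
      linarith
    have ha : aug (BN k K m p0 Y J) ≤ A0 * Real.exp (J + 3 * m * Y) := by
      unfold BN Bm
      rw [aug_mul]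
      have h1 := aug_DDN m p0 hk0.le hY0 J
      have h2 : Real.exp (k * J + 2 * m * Y) ≤ Real.exp (J + 3 * m * Y) := by
        apply Real.exp_le_exp.mpr
        have : k * J ≤ J := mul_le_of_le_one_left (Nat.cast_nonneg _) hk1
        linarith
      exact mul_le_mul haB0 (h1.trans h2) (aug_nonneg' (cone_DDN m p0 hk0.le hY0 J)) hA00
    exact mean_evs_le hTpos hδ0 hc ha
  -- other pieces
  have hI1 : ∀ j ∈ Finset.range J,
      qm m k j * ∫ t in (0 : ℝ)..T, ‖evs (pt δ t) (B0 k K p0 * T1 m p0 k Y J j)‖ ^ 2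
        ≤ 5 * (1 / 2) ^ Mm m j * (T * E + er1) := by
    intro j hj
    rw [Finset.mem_range] at hj
    have hc : Cone (Len (lam0 + 3 * m * Y)) (B0 k K p0 * T1 m p0 k Y J j) :=
      hcB0.mul (cone_T1 hY0 hk0.le J j) fun a ha b hb => Len.mul ha hb
    have ha : aug (B0 k K p0 * T1 m p0 k Y J j) ≤ A0 * Real.exp (J + 3 * m * Y) := by
      rw [aug_mul]
      exact mul_le_mul haB0 (aug_T1 hY0 hk0.le hk1) (aug_nonneg' (cone_T1 hY0 hk0.le J j)) hA00
    have h1 := mean_evs_le hTpos hδ0 hc ha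
    have h2 : BK (K1s (1 + 2 * δ)) (B0 k K p0 * T1 m p0 k Y J j) (B0 k K p0 * T1 m p0 k Y J j)
        ≤ (Mm m j).factorial * VV (sc Y p0 j) ^ Mm m j * E := by
      rw [BK_mul_sup (K1s (1 + 2 * δ)) (sup_B0 k K p0) (sup_B0 k K p0) (sup_T1 k hj) (sup_T1 k hj)
        ((mk_K1s (by linarith)).2.2.2 _ _ disj_Psm), small_K1s (by linarith)]
      have h3 := form_T1 (m := m) (p0 := p0) hY0 hk0.le hδ0 J j
      have h4 := one_le_F0 k K p0 (1 + 2 * δ)
      have h5 : E = F0 k K p0 (1 + 2 * δ) * BK (K1s (1 + 2 * δ)) (DD m p0 k Y J) (DD m p0 k Y J) :=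
        (smallForms k K m p0 Y J (1 + 2 * δ) (by linarith)).2.2
      rw [h5]
      calc F0 k K p0 (1 + 2 * δ) * BK (K1s (1 + 2 * δ)) (T1 m p0 k Y J j) (T1 m p0 k Y J j)
          ≤ F0 k K p0 (1 + 2 * δ) * ((Mm m j).factorial * VV (sc Y p0 j) ^ Mm m j
            * BK (K1s (1 + 2 * δ)) (DD m p0 k Y J) (DD m p0 k Y J)) :=
            mul_le_mul_of_nonneg_left h3 (by linarith)
        _ = _ := by ring
    have hq0 := qm_nonneg m k j
    have h6 := qm_form hm4 hkabs (VV_nonneg (sc Y p0 j)) (VV_sc_le hY0 p0 j) j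
    have h7 := qm_le hm4 hkabs j
    calc qm m k j * ∫ t in (0 : ℝ)..T, ‖evs (pt δ t) (B0 k K p0 * T1 m p0 k Y J j)‖ ^ 2
        ≤ qm m k j * (T * ((Mm m j).factorial * VV (sc Y p0 j) ^ Mm m j * E) + er1) := by
          refine mul_le_mul_of_nonneg_left (h1.trans ?_) hq0
          gcongr
      _ = qm m k j * ((Mm m j).factorial * VV (sc Y p0 j) ^ Mm m j) * (T * E) + qm m k j * er1 := by
          ring
      _ ≤ 5 * (1 / 2) ^ Mm m j * (T * E) + 5 * (1 / 2) ^ Mm m j * er1 := by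
          have : 0 ≤ T * E := by positivity
          gcongr
      _ = _ := by ring
  have hsum : ∑ j ∈ Finset.range J,
      qm m k j * ∫ t in (0 : ℝ)..T, ‖evs (pt δ t) (B0 k K p0 * T1 m p0 k Y J j)‖ ^ 2
      ≤ 10 * (1 / 2) ^ m * (T * E + er1) := by
    refine (Finset.sum_le_sum hI1).trans ?_
    rw [← Finset.sum_mul, ← Finset.mul_sum]
    have h1 := sum_half_Mm (m := m) (by omega) J
    have h2 : 0 ≤ T * E + er1 := by positivity
    refine mul_le_mul_of_nonneg_right ?_ h2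
    linarith
  have hTE : 0 ≤ T * E := by positivity
  have hTE2 : T ≤ T * E := le_mul_of_one_le_right hTpos.le hE1
  have h8 : 10 * (1 / 2 : ℝ) ^ m * (T * E + er1) ≤ η / 2 * (T * E) + er1 := by
    rw [mul_add]
    have a1 : 10 * (1 / 2 : ℝ) ^ m * (T * E) ≤ η / 2 * (T * E) := by
      refine mul_le_mul_of_nonneg_right ?_ hTE
      linarith
    have a2 : 10 * (1 / 2 : ℝ) ^ m * er1 ≤ 1 * er1 := by
      refine mul_le_mul_of_nonneg_right ?_ her10
      linarith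
    linarith
  have h9 : η / 2 * T ≤ η / 2 * (T * E) := mul_le_mul_of_nonneg_left hTE2 (by positivity)
  calc _ ≤ (T * E + er1) + (η / 2 * (T * E) + er1) := add_le_add hI0 (hsum.trans h8)
    _ = T * E + η / 2 * (T * E) + 2 * er1 := by ring
    _ ≤ T * E + η / 2 * (T * E) + η / 2 * (T * E) := by linarith
    _ = (1 + η) * (T * E) := by ring

end Pool.Agent.Lib.NL
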