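import Mathlib
import Pool.Agent.Lib.MP_f9aece_nt_nl.K
import Pool.Agent.Lib.MP_f9aece_nt_nl.L

/-!
NearLine, module F: mean values of the model.
-/

set_option autoImplicit false

namespace Pool.Agent.Lib.NL

open MeasureTheory Set Filter Topology Complex
open Pool.Agent.Lib.MP_f9aece_nt Pool.Agent.Lib.MP_f9aece_nt_h97
open Pool.Agent.Lib.MP_f9aece_nt_h5 (tw cone_tw BK_tw aug_tw_le BK_tw_le ev_tw
  cone_block cone_pow_block aug_block aug_pow_block eb one_le_eb form_B prime_sc cone_Smo_block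
  evs_mul evs_pow lenM_le sum_lenM Mm_add_le BK_expo_mul_pow)
open Pool.Agent.Lib.MP_f9aece_nt_h40 (aug_nonneg')

namespace F97

/-- the lower bound for `m` -/
noncomputable def thr (N : ℕ) : ℝ := 2400 * (N : ℝ) ^ 2 * Real.exp (24 * (N : ℝ) ^ 2)

lemma block_numN {N M : ℕ} (hN : 1 ≤ N) (hM : thr N ≤ M) {V c : ℝ} (hV0 : 0 ≤ V) (hV : V ≤ 12)
    (hc0 : 0 ≤ c) (hc : c ≤ N) :
    (10 * N / (M : ℝ)) ^ (2 * M) * (M.factorial * V ^ M * Real.exp (2 * M * V * c ^ 2))
      ≤ (1 / 2) ^ M := by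
  have hN1 : (1 : ℝ) ≤ N := by exact_mod_cast hN
  have hthr : 0 < thr N := by unfold thr; positivity
  have hMpos : (0 : ℝ) < M := lt_of_lt_of_le hthr hM
  have h1 : (M.factorial : ℝ) ≤ (M : ℝ) ^ M := by exact_mod_cast Nat.factorial_le_pow _
  have h2 : Real.exp (2 * M * V * c ^ 2) ≤ Real.exp (24 * (N : ℝ) ^ 2) ^ M := by
    rw [← Real.exp_nat_mul]
    apply Real.exp_le_exp.mpr
    calc 2 * M * V * c ^ 2 ≤ 2 * M * 12 * (N : ℝ) ^ 2 := by gcongr
      _ = (M : ℝ) * (24 * (N : ℝ) ^ 2) := by ring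
  calc (10 * N / (M : ℝ)) ^ (2 * M) * (M.factorial * V ^ M * Real.exp (2 * M * V * c ^ 2))
      ≤ (10 * N / (M : ℝ)) ^ (2 * M) * ((M : ℝ) ^ M * 12 ^ M * Real.exp (24 * (N : ℝ) ^ 2) ^ M) := by
        gcongr
    _ = (1200 * (N : ℝ) ^ 2 * Real.exp (24 * (N : ℝ) ^ 2) / M) ^ M := by
        rw [pow_mul, ← mul_pow, ← mul_pow, ← mul_pow]
        congr 1
        field_simp
        ring
    _ ≤ (1 / 2) ^ M := by
        refine pow_le_pow_left₀ (by positivity) ?_ M
        rw [div_le_iff₀ hMpos]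
        unfold thr at hM
        linarith

section

variable {Y k : ℝ} {m p0 N : ℕ}

/-- form of the model times a high power of one block -/
lemma form_BPN (hN : 1 ≤ N) (hm : thr N ≤ m) (hm1 : 1 ≤ m) (hY : 0 < Y) (hk0 : 0 < k) (hk : k ≤ N)
    {δ : ℝ} (hδ : 0 ≤ δ) {J j : ℕ} (hj : j ∈ Finset.range J) :
    (10 * N / (Mm m j : ℝ)) ^ (2 * Mm m j)
      * BK (K1s (1 + 2 * δ)) (DD m p0 k Y J * PP (sc Y p0 j) ^ Mm m j)
          (DD m p0 k Y J * PP (sc Y p0 j) ^ Mm m j)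
      ≤ (1 / 2) ^ Mm m j * BK (K1s (1 + 2 * δ)) (DD m p0 k Y J) (DD m p0 k Y J) := by
  classical
  have hform := form_B (m := m) (p0 := p0) hY hk0.le hδ J
  unfold Bm at hform
  rw [hform, ← BK_tw hδ]
  set M := Mm m j with hM
  have hmM : m ≤ M := by
    have := Mm_add_le (m := m) hm1 j
    omega
  have hMt : thr N ≤ M := hm.trans (by exact_mod_cast hmM)
  set f : ℕ → DP := fun i => if i = j then expo k M (sc Y p0 j) * PP (sc Y p0 j) ^ M
    else expo k (Mm m i) (sc Y p0 i) with hf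
  have e1 : f j = expo k M (sc Y p0 j) * PP (sc Y p0 j) ^ M := by rw [hf]; simp
  have e3 : ∀ i ∈ (Finset.range J).erase j, f i = expo k (Mm m i) (sc Y p0 i) := by
    intro i hi
    rw [hf]
    simp only
    rw [if_neg (Finset.ne_of_mem_erase hi)]
  have hprod : DD m p0 k Y J * PP (sc Y p0 j) ^ M = ∏ i ∈ Finset.range J, f i := by
    unfold DD
    rw [← Finset.mul_prod_erase _ _ hj, ← Finset.mul_prod_erase _ f hj, e1,
      Finset.prod_congr rfl e3]
    ring
  have hcone : ∀ i ∈ Finset.range J, Cone (Smo (sc Y p0 i)) (tw δ (f i)) := by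
    intro i _
    refine cone_tw δ ?_
    rw [hf]
    simp only
    split_ifs with h
    · subst h
      refine (cone_Smo_block hk0.le M i).mul
        ((cone_PP_pow (prime_sc i) M).mono fun n hn => hn.1) fun a ha b hb => mul_mem_Smo ha hb
    · exact cone_Smo_block hk0.le _ i
  have hBK : BK K1 (tw δ (DD m p0 k Y J * PP (sc Y p0 j) ^ M))
      (tw δ (DD m p0 k Y J * PP (sc Y p0 j) ^ M))
      = BK K1 (tw δ (f j)) (tw δ (f j)) * ∏ i ∈ (Finset.range J).erase j, eb δ m p0 k Y i := by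
    rw [hprod, map_prod, BK_prod mulKer_K1 (Finset.range J) (sc Y p0)
      (fun i _ j _ hij => sc_disjoint hY hij) _ _ hcone hcone,
      ← Finset.mul_prod_erase _ _ hj]
    congr 1
    refine Finset.prod_congr rfl fun i hi => ?_
    rw [e3 i hi]
    rfl
  have hfj : BK K1 (tw δ (f j)) (tw δ (f j))
      ≤ M.factorial * VV (sc Y p0 j) ^ M * Real.exp (2 * M * VV (sc Y p0 j) * k ^ 2) := by
    rw [e1]
    refine (BK_tw_le hδ (A := Smo (sc Y p0 j)) ?_ fun n hn => Smo_pos hn).trans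
      (BK_expo_mul_pow (prime_sc j))
    exact (cone_Smo_block hk0.le M j).mul
      ((cone_PP_pow (prime_sc j) M).mono fun n hn => hn.1) fun a ha b hb => mul_mem_Smo ha hb
  have hnum := block_numN hN hMt (VV_nonneg (sc Y p0 j)) (VV_sc_le hY p0 j) hk0.le hk
  have hE0 : 0 ≤ ∏ i ∈ (Finset.range J).erase j, eb δ m p0 k Y i :=
    Finset.prod_nonneg fun i _ => zero_le_one.trans (one_le_eb hk0.le δ i)
  have hE1 : ∏ i ∈ (Finset.range J).erase j, eb δ m p0 k Y i
      ≤ ∏ i ∈ Finset.range J, eb δ m p0 k Y i := by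
    rw [← Finset.mul_prod_erase _ _ hj]
    exact le_mul_of_one_le_left hE0 (one_le_eb hk0.le δ j)
  rw [hBK]
  set P := ∏ i ∈ (Finset.range J).erase j, eb δ m p0 k Y i with hP
  set Q := ∏ i ∈ Finset.range J, eb δ m p0 k Y i with hQ
  set F := BK K1 (tw δ (f j)) (tw δ (f j)) with hF
  set G := (M.factorial : ℝ) * VV (sc Y p0 j) ^ M * Real.exp (2 * M * VV (sc Y p0 j) * k ^ 2) with hG
  have hc0 : (0 : ℝ) ≤ (10 * N / (M : ℝ)) ^ (2 * M) := by positivity
  have s1 : (10 * N / (M : ℝ)) ^ (2 * M) * (F * P) ≤ (10 * N / (M : ℝ)) ^ (2 * M) * G * P := by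
    rw [← mul_assoc]
    exact mul_le_mul_of_nonneg_right (mul_le_mul_of_nonneg_left hfj hc0) hE0
  have s2 : (10 * N / (M : ℝ)) ^ (2 * M) * G * P ≤ (1 / 2) ^ M * P :=
    mul_le_mul_of_nonneg_right hnum hE0
  have s3 : (1 / 2 : ℝ) ^ M * P ≤ (1 / 2) ^ M * Q := mul_le_mul_of_nonneg_left hE1 (by positivity)
  exact s1.trans (s2.trans s3)

lemma sup_DDP (c : ℝ) {J j : ℕ} (hj : j < J) :
    Sup (Smo (⋃ i ∈ Finset.range J, (sc Y p0 i : Set ℕ)))
      (DD m p0 c Y J * PP (sc Y p0 j) ^ Mm m j) := by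
  have hsub : ∀ i, i < J → (sc Y p0 i : Set ℕ) ⊆ ⋃ i ∈ Finset.range J, (sc Y p0 i : Set ℕ) := by
    intro i hi
    exact Set.subset_biUnion_of_mem (u := fun j => (sc Y p0 j : Set ℕ))
      (Finset.mem_coe.mpr (Finset.mem_range.mpr hi))
  refine Sup.mul (A := Smo (⋃ i ∈ Finset.range J, (sc Y p0 i : Set ℕ)))
    (B := Smo (⋃ i ∈ Finset.range J, (sc Y p0 i : Set ℕ))) ?_ ?_
    fun a ha b hb => mul_mem_Smo ha hb
  · unfold DD
    refine Sup.prod _ (fun i hi => ?_) (one_mem_Smo _) fun a ha b hb => mul_mem_Smo ha hb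
    rw [Finset.mem_range] at hi
    exact (sup_expo (prime_sc i) c (Mm m i)).mono (Smo_mono (hsub i hi))
  · refine (sup_of_cone (cone_PP_pow (prime_sc (Y := Y) (p0 := p0) j) (Mm m j))).mono fun n hn => ?_
    exact Smo_mono (hsub j hj) hn.1

/-- form of the full model times a high power of one block -/
lemma form_BNP (hN : 1 ≤ N) (hm : thr N ≤ m) (hm1 : 1 ≤ m) (hY : 0 < Y) (hk0 : 0 < k) (hk : k ≤ N)
    {δ : ℝ} (hδ : 0 ≤ δ) (K : ℕ) {J j : ℕ} (hj : j < J) :
    (10 * N / (Mm m j : ℝ)) ^ (2 * Mm m j)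
      * BK (K1s (1 + 2 * δ)) (BN k K m p0 Y J * PP (sc Y p0 j) ^ Mm m j)
          (BN k K m p0 Y J * PP (sc Y p0 j) ^ Mm m j)
      ≤ (1 / 2) ^ Mm m j * EN k K m p0 Y J (1 + 2 * δ) := by
  have hs : 1 ≤ 1 + 2 * δ := by linarith
  have e1 : BN k K m p0 Y J * PP (sc Y p0 j) ^ Mm m j
      = B0 k K p0 * (DD m p0 k Y J * PP (sc Y p0 j) ^ Mm m j) := by
    unfold BN Bm
    rw [mul_assoc]
  have h1 := form_BPN (p0 := p0) hN hm hm1 hY hk0 hk hδ (Finset.mem_range.mpr hj)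
  have h4 := one_le_F0 k K p0 (1 + 2 * δ)
  rw [e1, BK_mul_sup (K1s (1 + 2 * δ)) (sup_B0 k K p0) (sup_B0 k K p0) (sup_DDP k hj) (sup_DDP k hj)
    ((mk_K1s hs).2.2.2 _ _ disj_Psm), small_K1s hs, (smallForms k K m p0 Y J (1 + 2 * δ) hs).2.2]
  calc (10 * N / (Mm m j : ℝ)) ^ (2 * Mm m j) * (F0 k K p0 (1 + 2 * δ)
        * BK (K1s (1 + 2 * δ)) (DD m p0 k Y J * PP (sc Y p0 j) ^ Mm m j)
          (DD m p0 k Y J * PP (sc Y p0 j) ^ Mm m j))
      = F0 k K p0 (1 + 2 * δ) * ((10 * N / (Mm m j : ℝ)) ^ (2 * Mm m j)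
        * BK (K1s (1 + 2 * δ)) (DD m p0 k Y J * PP (sc Y p0 j) ^ Mm m j)
          (DD m p0 k Y J * PP (sc Y p0 j) ^ Mm m j)) := by ring
    _ ≤ F0 k K p0 (1 + 2 * δ) * ((1 / 2) ^ Mm m j
        * BK (K1s (1 + 2 * δ)) (DD m p0 k Y J) (DD m p0 k Y J)) :=
        mul_le_mul_of_nonneg_left h1 (by linarith)
    _ = _ := by ring

end

end F97

open L87 F97 in
theorem meanN : MeanN := by
  intro N hN η hη
  have hN1 : (1 : ℝ) ≤ N := by exact_mod_cast hN
  obtain ⟨m0, hm0⟩ := exists_pow_lt_of_lt_one (show (0 : ℝ) < min (η / 4) 1 by positivity)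
    (show (1 / 2 : ℝ) < 1 by norm_num)
  obtain ⟨m2, hm2⟩ := exists_nat_ge (thr N)
  refine ⟨max (max m0 m2) (max 4000 (20 * N)), (le_max_left _ _).trans (le_max_right _ _), ?_⟩
  intro m hm p0 hp0 K
  have hmm0 : m0 ≤ m := ((le_max_left _ _).trans (le_max_left _ _)).trans hm
  have hmm2 : m2 ≤ m := ((le_max_right _ _).trans (le_max_left _ _)).trans hm
  have hm4 : 4000 ≤ m := ((le_max_left _ _).trans (le_max_right _ _)).trans hm
  have hmN : 20 * N ≤ m := ((le_max_right _ _).trans (le_max_right _ _)).trans hm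
  have hmthr : thr N ≤ m := hm2.trans (by exact_mod_cast hmm2)
  have hmNr : 20 * (N : ℝ) ≤ m := by exact_mod_cast hmN
  have hm1 : (1 : ℝ) ≤ m := by linarith
  have hhalf : (1 / 2 : ℝ) ^ m ≤ min (η / 4) 1 :=
    (pow_le_pow_of_le_one (by norm_num) (by norm_num) hmm0).trans hm0.le
  have hh1 : (1 / 2 : ℝ) ^ m ≤ η / 4 := hhalf.trans (min_le_left _ _)
  have hh2 : (1 / 2 : ℝ) ^ m ≤ 1 := hhalf.trans (min_le_right _ _)
  obtain ⟨C, hC1, hsz⟩ := sizes N p0 K hN hp0
  have hC0 : 0 < C := by linarith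
  set G := 4 * C ^ 3 with hG
  have hG0 : 0 < G := by positivity
  refine ⟨max 1 (4 * G * Real.exp (6 * N) / η), le_max_left _ _, ?_⟩
  intro Y hY J hJ k hk0 hkN δ hδ0 hδ1
  have hY1 : 1 ≤ Y := (le_max_left _ _).trans hY
  have hYG : 4 * G * Real.exp (6 * N) / η ≤ Y := (le_max_right _ _).trans hY
  have hY0 : 0 < Y := by linarith
  obtain ⟨-, -, -, hcB, haB⟩ := hsz k hk0.le hkN m (by omega) Y hY0 J
  set T := Real.exp (160 * m * Y) with hT
  have hTpos : 0 < T := Real.exp_pos _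
  set E := EN k K m p0 Y J (1 + 2 * δ) with hE
  have hE1 : 1 ≤ E := one_le_EN hk0.le K m p0 hY0 J hδ0
  set er1 := 4 * Real.exp (3 * m * Y + Real.log C) * (C * Real.exp (N * J + 3 * m * Y)) ^ 2 with her1
  have her10 : 0 ≤ er1 := by positivity
  have hmY : 0 ≤ m * Y := by positivity
  have herr : er1 ≤ η / 4 * T := by
    have e1 : er1 = G * Real.exp (9 * m * Y + 2 * N * J) := by
      rw [her1, hG, mul_pow, ← Real.exp_nat_mul, Real.exp_add (3 * m * Y) (Real.log C),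
        Real.exp_log hC0]
      have : Real.exp (9 * m * Y + 2 * N * J)
          = Real.exp (3 * m * Y) * Real.exp (((2 : ℕ) : ℝ) * (N * J + 3 * m * Y)) := by
        rw [← Real.exp_add]; congr 1; push_cast; ring
      rw [this]
      ring
    have e2 : Real.exp (9 * m * Y + 2 * N * J) ≤ Real.exp (6 * N) * (T * Real.exp (-Y)) := by
      rw [hT, ← Real.exp_add, ← Real.exp_add]
      apply Real.exp_le_exp.mpr
      have h1 : Y ≤ m * Y := le_mul_of_one_le_left hY0.le hm1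
      have h2 : 2 * N * J ≤ 2 * N * (Y + 3) := by gcongr
      have h3 : 2 * N * Y ≤ m * Y := by
        refine mul_le_mul_of_nonneg_right ?_ hY0.le
        linarith
      linarith
    have e3 : 4 * G * Real.exp (6 * N) ≤ η * Real.exp Y := by
      have h1 : 4 * G * Real.exp (6 * N) ≤ Y * η := by
        rwa [div_le_iff₀ hη] at hYG
      have h2 := Real.add_one_le_exp Y
      nlinarith
    have e4 : Real.exp Y * Real.exp (-Y) = 1 := by rw [← Real.exp_add]; simp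
    calc er1 = G * Real.exp (9 * m * Y + 2 * N * J) := e1
      _ ≤ G * (Real.exp (6 * N) * (T * Real.exp (-Y))) := by gcongr
      _ = 1 / 4 * (4 * G * Real.exp (6 * N)) * (T * Real.exp (-Y)) := by ring
      _ ≤ 1 / 4 * (η * Real.exp Y) * (T * Real.exp (-Y)) := by gcongr
      _ = η / 4 * T * (Real.exp Y * Real.exp (-Y)) := by ring
      _ = _ := by rw [e4, mul_one]
  have hTE : 0 ≤ T * E := by positivity
  have hTE2 : T ≤ T * E := le_mul_of_one_le_right hTpos.le hE1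
  have herr2 : er1 ≤ η / 4 * (T * E) := herr.trans (mul_le_mul_of_nonneg_left hTE2 (by positivity))
  have haug0 : 0 ≤ aug (BN k K m p0 Y J) := aug_nonneg' hcB
  refine ⟨hE1, ?_, ?_⟩
  · -- mean square of the model
    have h1 := mean_evs hTpos hδ0 hcB haB
    refine h1.trans ?_
    have h2 : 4 * Real.exp (2 * m * Y + Real.log C) * (C * Real.exp (N * J + 2 * m * Y)) ^ 2 ≤ er1 := by
      rw [her1]
      gcongr <;> linarith
    have h3 : η / 4 * (T * E) ≤ η * (T * E) := mul_le_mul_of_nonneg_right (by linarith) hTE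
    linarith
  · -- large values
    have hpt : ∀ t : ℝ, ‖evs (pt δ t) (BN k K m p0 Y J)‖ ^ 2 * Qw N m p0 Y (1 / 2 + δ) J t
        = ∑ j ∈ Finset.range J, (10 * N / (Mm m j : ℝ)) ^ (2 * Mm m j)
          * ‖evs (pt δ t) (BN k K m p0 Y J * PP (sc Y p0 j) ^ Mm m j)‖ ^ 2 := by
      intro t
      unfold Qw
      rw [Finset.mul_sum]
      refine Finset.sum_congr rfl fun j _ => ?_
      have e5 : (‖Pj p0 Y (1 / 2 + δ) j t‖ / ((Mm m j : ℝ) / (10 * N))) ^ (2 * Mm m j)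
          = (10 * N / (Mm m j : ℝ)) ^ (2 * Mm m j) * (‖evs (pt δ t) (PP (sc Y p0 j))‖ ^ Mm m j) ^ 2 := by
        rw [Pj_eq_evs, div_div_eq_mul_div, ← pow_mul, mul_comm (Mm m j) 2, ← mul_pow]
        congr 1
        ring
      rw [e5, evs_mul, evs_pow, norm_mul, norm_pow, mul_pow]
      ring
    simp_rw [hpt]
    have hcont : ∀ D : DP, Continuous (fun t : ℝ => ‖evs (pt δ t) D‖ ^ 2) :=
      fun D => (continuous_evs_pt' hδ0 D).norm.pow 2
    have i1 : ∀ j ∈ Finset.range J, IntervalIntegrable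
        (fun t : ℝ => (10 * N / (Mm m j : ℝ)) ^ (2 * Mm m j)
          * ‖evs (pt δ t) (BN k K m p0 Y J * PP (sc Y p0 j) ^ Mm m j)‖ ^ 2) volume 0 T :=
      fun j _ => Continuous.intervalIntegrable (continuous_const.mul (hcont _)) _ _
    rw [intervalIntegral.integral_finsetSum i1]
    simp_rw [intervalIntegral.integral_const_mul]
    have hI1 : ∀ j ∈ Finset.range J,
        (10 * N / (Mm m j : ℝ)) ^ (2 * Mm m j)
          * ∫ t in (0 : ℝ)..T, ‖evs (pt δ t) (BN k K m p0 Y J * PP (sc Y p0 j) ^ Mm m j)‖ ^ 2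
          ≤ (1 / 2) ^ Mm m j * (T * E + er1) := by
      intro j hj
      rw [Finset.mem_range] at hj
      have hcP := cone_pow_block (p0 := p0) hY0 (Mm m j) j
      have hlen := lenM_le (m := m) hY0 j
      have hc : Cone (Len (3 * m * Y + Real.log C)) (BN k K m p0 Y J * PP (sc Y p0 j) ^ Mm m j) := by
        refine (hcB.mul hcP fun a ha b hb => Len.mul ha hb).mono (Len.mono ?_)
        linarith
      have ha : aug (BN k K m p0 Y J * PP (sc Y p0 j) ^ Mm m j) ≤ C * Real.exp (N * J + 3 * m * Y) := by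
        rw [aug_mul]
        have h1 := aug_pow_block (Y := Y) (p0 := p0) (Mm m j) j
        calc aug (BN k K m p0 Y J) * aug (PP (sc Y p0 j) ^ Mm m j)
            ≤ (C * Real.exp (N * J + 2 * m * Y)) * Real.exp (Mm m j * (Y / 4 ^ j)) :=
              mul_le_mul haB h1 (aug_nonneg' hcP) (by positivity)
          _ = C * Real.exp (N * J + 2 * m * Y + Mm m j * (Y / 4 ^ j)) := by
              rw [Real.exp_add (N * J + 2 * m * Y)]; ring
          _ ≤ _ := by
              refine mul_le_mul_of_nonneg_left (Real.exp_le_exp.mpr ?_) hC0.le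
              linarith
      have h1 := mean_evs_le hTpos hδ0 hc ha
      have h2 := form_BNP (p0 := p0) hN hmthr (by omega) hY0 hk0 hkN hδ0 K hj
      have hMm : m ≤ Mm m j := by
        have := Mm_add_le (m := m) (by omega) j
        omega
      have hMr : 20 * (N : ℝ) ≤ Mm m j := hmNr.trans (by exact_mod_cast hMm)
      have hMpos : (0 : ℝ) < Mm m j := by linarith
      have h3 : (10 * N / (Mm m j : ℝ)) ^ (2 * Mm m j) ≤ (1 / 2) ^ Mm m j := by
        have h4 : 10 * N / (Mm m j : ℝ) ≤ 1 / 2 := by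
          rw [div_le_iff₀ hMpos]
          linarith
        calc (10 * N / (Mm m j : ℝ)) ^ (2 * Mm m j) ≤ (1 / 2 : ℝ) ^ (2 * Mm m j) :=
              pow_le_pow_left₀ (by positivity) h4 _
          _ ≤ (1 / 2) ^ Mm m j := pow_le_pow_of_le_one (by norm_num) (by norm_num) (by omega)
      have hw0 : 0 ≤ (10 * N / (Mm m j : ℝ)) ^ (2 * Mm m j) := by positivity
      calc (10 * N / (Mm m j : ℝ)) ^ (2 * Mm m j)
            * ∫ t in (0 : ℝ)..T, ‖evs (pt δ t) (BN k K m p0 Y J * PP (sc Y p0 j) ^ Mm m j)‖ ^ 2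
          ≤ (10 * N / (Mm m j : ℝ)) ^ (2 * Mm m j)
            * (T * BK (K1s (1 + 2 * δ)) (BN k K m p0 Y J * PP (sc Y p0 j) ^ Mm m j)
              (BN k K m p0 Y J * PP (sc Y p0 j) ^ Mm m j) + er1) := mul_le_mul_of_nonneg_left h1 hw0
        _ = T * ((10 * N / (Mm m j : ℝ)) ^ (2 * Mm m j)
              * BK (K1s (1 + 2 * δ)) (BN k K m p0 Y J * PP (sc Y p0 j) ^ Mm m j)
              (BN k K m p0 Y J * PP (sc Y p0 j) ^ Mm m j))
            + (10 * N / (Mm m j : ℝ)) ^ (2 * Mm m j) * er1 := by ring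
        _ ≤ T * ((1 / 2) ^ Mm m j * E) + (1 / 2) ^ Mm m j * er1 :=
            add_le_add (mul_le_mul_of_nonneg_left h2 hTpos.le) (mul_le_mul_of_nonneg_right h3 her10)
        _ = _ := by ring
    refine (Finset.sum_le_sum hI1).trans ?_
    rw [← Finset.sum_mul]
    have h1 := sum_half_Mm (m := m) (by omega) J
    have h2 : 0 ≤ T * E + er1 := by positivity
    calc (∑ j ∈ Finset.range J, (1 / 2 : ℝ) ^ Mm m j) * (T * E + er1)
        ≤ 2 * (1 / 2) ^ m * (T * E + er1) := mul_le_mul_of_nonneg_right h1 h2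
      _ = 2 * ((1 / 2) ^ m * (T * E)) + 2 * ((1 / 2) ^ m * er1) := by ring
      _ ≤ 2 * (η / 4 * (T * E)) + 2 * (1 * er1) := by gcongr
      _ ≤ η * (T * E) := by linarith

end Pool.Agent.Lib.NL
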