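import Mathlib
import Pool.Agent.Lib.MP_f9aece_nt_nl.Stmts
import Pool.Agent.Lib.MP_f9aece_nt_h5.Tilt

/-!
Module H: the pointwise inequality behind the lower bound.
-/

set_option autoImplicit false

namespace Pool.Agent.Lib.NL

open MeasureTheory Set Filter Topology Complex
open Pool.Agent.Lib.MP_f9aece_nt Pool.Agent.Lib.MP_f9aece_nt_h97 Pool.Agent.Lib.MP_f9aece_nt_h5

namespace HPt

/-- truncated exponentials are close to exponentials -/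
lemma EE_bounds {M : ℕ} {w : ℂ} (hw : ‖w‖ ≤ ((M + 1 : ℕ) : ℝ) / 10) :
    ‖EE M w‖ ≤ (1 + MP_f9aece_nt_h97.dl M) * Real.exp w.re ∧
    (1 - MP_f9aece_nt_h97.dl M) * Real.exp w.re ≤ ‖EE M w‖ := by
  have h := EE_sub_exp_c (c := 1) (z := w) (by simp) hw
  simp only [ofReal_one, one_mul, abs_one] at h
  have h3 : ‖cexp w‖ = Real.exp w.re := Complex.norm_exp w
  have h4 : ‖cexp w‖ ≤ ‖EE M w‖ + ‖cexp w - EE M w‖ := by
    have : cexp w = EE M w + (cexp w - EE M w) := by ring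
    calc ‖cexp w‖ = ‖EE M w + (cexp w - EE M w)‖ := by rw [← this]
      _ ≤ _ := norm_add_le _ _
  have h5 : ‖EE M w‖ ≤ ‖cexp w‖ + ‖cexp w - EE M w‖ := by
    have : EE M w = cexp w - (cexp w - EE M w) := by ring
    calc ‖EE M w‖ = ‖cexp w - (cexp w - EE M w)‖ := by rw [← this]
      _ ≤ _ := norm_sub_le _ _
  rw [h3] at h h4 h5
  constructor <;> linarith

/-- the scalar inequality -/
lemma scalar {N : ℕ} (hN : 1 ≤ N) {k x y : ℝ} (hk0 : 0 < k) (hk : k ≤ N) (hx : 0 ≤ x)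
    (hxy : |x - 1| ≤ y) : 1 - 2 * N * y ≤ x ^ (2 * k) := by
  have hy : 0 ≤ y := (abs_nonneg _).trans hxy
  have hN' : (1 : ℝ) ≤ N := by exact_mod_cast hN
  have h1 : 1 - y ≤ x := by
    have := neg_abs_le (x - 1)
    linarith
  rcases le_or_gt 1 y with h | h
  · have : 0 ≤ x ^ (2 * k) := Real.rpow_nonneg hx _
    nlinarith
  · have h2 : (1 - y) ^ (2 * k) ≤ x ^ (2 * k) := Real.rpow_le_rpow (by linarith) h1 (by linarith)
    have h3 : (1 - y) ^ (((2 * N : ℕ) : ℝ)) ≤ (1 - y) ^ (2 * k) :=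
      Real.rpow_le_rpow_of_exponent_ge (by linarith) (by linarith) (by push_cast; linarith)
    have h4 : 1 + ((2 * N : ℕ) : ℝ) * (-y) ≤ (1 + -y) ^ (2 * N) :=
      one_add_mul_le_pow (by linarith) _
    rw [Real.rpow_natCast] at h3
    have h5 : (1 + -y) = 1 - y := by ring
    rw [h5] at h4
    push_cast at h4
    linarith

/-- one scale -/
lemma block {N : ℕ} (hN : 1 ≤ N) {k : ℝ} (hk0 : 0 < k) (hk : k ≤ N) {M : ℕ} (hM : 1 ≤ M) {P : ℂ}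
    (hP : ‖P‖ ≤ (M : ℝ) / (10 * N)) :
    0 < ‖EE M (k * P)‖ ∧
    ‖EE M ((-(1 - k) : ℝ) * P)‖ ^ (2 * k) * ‖EE M (k * P)‖ ^ (2 - 2 * k)
      ≤ Real.exp (6 * N * MP_f9aece_nt_h97.dl M) := by
  have hN' : (1 : ℝ) ≤ N := by exact_mod_cast hN
  have hN0 : (0 : ℝ) < N := by linarith
  have hNP : (N : ℝ) * ‖P‖ ≤ ((M + 1 : ℕ) : ℝ) / 10 := by
    calc (N : ℝ) * ‖P‖ ≤ N * ((M : ℝ) / (10 * N)) := by gcongr
      _ = (M : ℝ) / 10 := by field_simp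
      _ ≤ _ := by push_cast; linarith
  have hb1 : ‖(((-(1 - k) : ℝ) : ℂ)) * P‖ ≤ ((M + 1 : ℕ) : ℝ) / 10 := by
    refine le_trans ?_ hNP
    rw [norm_mul, Complex.norm_real, Real.norm_eq_abs]
    gcongr
    rw [abs_le]
    constructor <;> linarith
  have hb2 : ‖(k : ℂ) * P‖ ≤ ((M + 1 : ℕ) : ℝ) / 10 := by
    refine le_trans ?_ hNP
    rw [norm_mul, Complex.norm_real, Real.norm_eq_abs]
    gcongr
    rw [abs_le]
    constructor <;> linarith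
  obtain ⟨u1, -⟩ := EE_bounds hb1
  obtain ⟨u2, l2⟩ := EE_bounds hb2
  set d := MP_f9aece_nt_h97.dl M with hd
  have hd0 : 0 < d := dl_pos M
  have hd4 : d ≤ 1 / 4 := dl_le hM
  set x := P.re with hx
  have r1 : ((((-(1 - k) : ℝ) : ℂ)) * P).re = -(1 - k) * x := by simp [hx]
  have r2 : ((k : ℂ) * P).re = k * x := by simp [hx]
  rw [r1] at u1
  rw [r2] at u2 l2
  have hpos : 0 < ‖EE M (k * P)‖ := lt_of_lt_of_le (by have := Real.exp_pos (k * x); nlinarith) l2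
  refine ⟨hpos, ?_⟩
  have v1 : ‖EE M ((-(1 - k) : ℝ) * P)‖ ≤ Real.exp (d + -(1 - k) * x) := by
    rw [Real.exp_add]
    refine u1.trans ?_
    gcongr
    linarith [Real.add_one_le_exp d]
  have w1 : ‖EE M ((-(1 - k) : ℝ) * P)‖ ^ (2 * k) ≤ Real.exp (d + -(1 - k) * x) ^ (2 * k) :=
    Real.rpow_le_rpow (norm_nonneg _) v1 (by linarith)
  rcases le_or_gt k 1 with hk1 | hk1
  · have v2 : ‖EE M (k * P)‖ ≤ Real.exp (d + k * x) := by
      rw [Real.exp_add]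
      refine u2.trans ?_
      gcongr
      linarith [Real.add_one_le_exp d]
    have w2 : ‖EE M (k * P)‖ ^ (2 - 2 * k) ≤ Real.exp (d + k * x) ^ (2 - 2 * k) :=
      Real.rpow_le_rpow (norm_nonneg _) v2 (by linarith)
    calc _ ≤ Real.exp (d + -(1 - k) * x) ^ (2 * k) * Real.exp (d + k * x) ^ (2 - 2 * k) :=
          mul_le_mul w1 w2 (by positivity) (by positivity)
      _ = Real.exp (2 * d) := by
          rw [← Real.exp_mul, ← Real.exp_mul, ← Real.exp_add]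
          congr 1
          ring
      _ ≤ _ := by
          apply Real.exp_le_exp.mpr
          nlinarith
  · have v2 : Real.exp (-(2 * d) + k * x) ≤ ‖EE M (k * P)‖ := by
      rw [Real.exp_add]
      refine le_trans ?_ l2
      gcongr
      exact one_sub_ge_exp hd0.le (by linarith)
    have w2 : ‖EE M (k * P)‖ ^ (2 - 2 * k) ≤ Real.exp (-(2 * d) + k * x) ^ (2 - 2 * k) :=
      Real.rpow_le_rpow_of_nonpos (Real.exp_pos _) v2 (by linarith)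
    calc _ ≤ Real.exp (d + -(1 - k) * x) ^ (2 * k) * Real.exp (-(2 * d) + k * x) ^ (2 - 2 * k) :=
          mul_le_mul w1 w2 (by positivity) (by positivity)
      _ = Real.exp (6 * k * d - 4 * d) := by
          rw [← Real.exp_mul, ← Real.exp_mul, ← Real.exp_add]
          congr 1
          ring
      _ ≤ _ := by
          apply Real.exp_le_exp.mpr
          nlinarith

lemma evs_BN (s : ℂ) (k : ℝ) (K m p0 : ℕ) (Y : ℝ) (J : ℕ) :
    evs s (BN k K m p0 Y J) = evs s (B0 k K p0) *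
      ∏ j ∈ Finset.range J, EE (Mm m j) (k * ∑ p ∈ sc Y p0 j, (p : ℂ) ^ (-s)) := by
  rw [BN, evs_mul, Bm, evs_DD]

lemma evs_DN (s : ℂ) (k : ℝ) (K m p0 : ℕ) (Y : ℝ) (J : ℕ) :
    evs s (DN k K m p0 Y J) = evs s (B0 k K p0) * (evs s (Dsm p0) *
      ∏ j ∈ Finset.range J, EE (Mm m j) ((-(1 - k) : ℝ) * ∑ p ∈ sc Y p0 j, (p : ℂ) ^ (-s))) := by
  rw [DN, evs_mul, Dm, evs_mul, evs_DD]

lemma Pj_eq (p0 : ℕ) (Y δ : ℝ) (j : ℕ) (t : ℝ) :
    ∑ p ∈ sc Y p0 j, (p : ℂ) ^ (-pt δ t) = Pj p0 Y (1 / 2 + δ) j t := rfl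

/-- the product over the scales -/
lemma prods {N : ℕ} (hN : 1 ≤ N) {k : ℝ} (hk0 : 0 < k) (hk : k ≤ N) {m : ℕ} (hm : 1 ≤ m) {ε : ℝ}
    (hε : Real.exp (6 * N * (2 * (1 / 2) ^ m)) ≤ 1 + ε) (J : ℕ) (P : ℕ → ℂ)
    (hP : ∀ j ∈ Finset.range J, ‖P j‖ ≤ (Mm m j : ℝ) / (10 * N)) :
    0 < ∏ j ∈ Finset.range J, ‖EE (Mm m j) (k * P j)‖ ∧
    (∏ j ∈ Finset.range J, ‖EE (Mm m j) ((-(1 - k) : ℝ) * P j)‖) ^ (2 * k)
      * (∏ j ∈ Finset.range J, ‖EE (Mm m j) (k * P j)‖) ^ (2 - 2 * k) ≤ 1 + ε := by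
  have hM1 : ∀ j, 1 ≤ Mm m j := fun j => by
    have := Mm_add_le hm j
    omega
  have hblock := fun j (hj : j ∈ Finset.range J) => block hN hk0 hk (hM1 j) (hP j hj)
  refine ⟨Finset.prod_pos fun j hj => (hblock j hj).1, ?_⟩
  rw [← Real.finsetProd_rpow _ _ (fun _ _ => norm_nonneg _),
    ← Real.finsetProd_rpow _ _ (fun _ _ => norm_nonneg _), ← Finset.prod_mul_distrib]
  calc _ ≤ ∏ j ∈ Finset.range J, Real.exp (6 * N * MP_f9aece_nt_h97.dl (Mm m j)) :=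
        Finset.prod_le_prod (fun _ _ => by positivity) fun j hj => (hblock j hj).2
    _ = Real.exp (6 * N * ∑ j ∈ Finset.range J, MP_f9aece_nt_h97.dl (Mm m j)) := by
        rw [← Real.exp_sum, Finset.mul_sum]
    _ ≤ Real.exp (6 * N * (2 * (1 / 2) ^ m)) := by
        apply Real.exp_le_exp.mpr
        have := sum_dl_le hm J
        gcongr
    _ ≤ 1 + ε := hε

/-- the final comparison -/
lemma final {N : ℕ} (hN : 1 ≤ N) {k ε : ℝ} (hε : 0 < ε) (hε4 : ε ≤ 1 / 4) (hk0 : 0 < k)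
    (hk : k ≤ N) {z b0 ds B D : ℂ} {PB PD : ℝ} (hPB : 0 < PB) (hPD : 0 ≤ PD)
    (hB : ‖B‖ = ‖b0‖ * PB) (hD : ‖D‖ = ‖b0‖ * (‖ds‖ * PD))
    (h1 : ‖b0‖ ^ 2 * ‖ds‖ ^ (2 * k) ≤ 1 + ε) (h2 : PD ^ (2 * k) * PB ^ (2 - 2 * k) ≤ 1 + ε) :
    (1 - 2 * ε) * (‖B‖ ^ 2 - 2 * N * (‖B‖ * ‖z * D - B‖)) ≤ ‖z‖ ^ (2 * k) := by
  have hrhs : 0 ≤ ‖z‖ ^ (2 * k) := by positivity
  rcases eq_or_ne b0 0 with h0 | h0
  · have hB0 : ‖B‖ = 0 := by rw [hB, h0, norm_zero, zero_mul]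
    rw [hB0]
    refine le_trans (le_of_eq ?_) hrhs
    ring
  have hb0pos : 0 < ‖b0‖ := norm_pos_iff.mpr h0
  have hBpos : 0 < ‖B‖ := by rw [hB]; positivity
  have hB0 : B ≠ 0 := norm_pos_iff.mp hBpos
  obtain ⟨X, hX⟩ : ∃ X, X = ‖D‖ ^ (2 * k) * ‖B‖ ^ (2 - 2 * k) := ⟨_, rfl⟩
  have hX1 : X ≤ (1 + ε) * (1 + ε) := by
    have e1 : X = (‖b0‖ ^ 2 * ‖ds‖ ^ (2 * k)) * (PD ^ (2 * k) * PB ^ (2 - 2 * k)) := by
      rw [hX, hB, hD, Real.mul_rpow (norm_nonneg _) (by positivity),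
        Real.mul_rpow (norm_nonneg _) hPD, Real.mul_rpow (norm_nonneg _) hPB.le]
      have e2 : ‖b0‖ ^ 2 = ‖b0‖ ^ (2 * k) * ‖b0‖ ^ (2 - 2 * k) := by
        rw [← Real.rpow_add hb0pos, ← Real.rpow_natCast]
        congr 1
        push_cast
        ring
      rw [e2]
      ring
    rw [e1]
    exact mul_le_mul h1 h2 (by positivity) (by linarith)
  have hu := scalar (x := ‖z * D / B‖) (y := ‖z * D / B - 1‖) hN hk0 hk (norm_nonneg _) (by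
    have := abs_norm_sub_norm_le (z * D / B) 1
    rwa [norm_one] at this)
  have e1 : ‖z * D / B - 1‖ = ‖z * D - B‖ / ‖B‖ := by
    rw [← norm_div]
    congr 1
    field_simp
  have e2 : ‖z * D / B‖ = ‖z‖ * ‖D‖ / ‖B‖ := by rw [norm_div, norm_mul]
  rw [e1, e2] at hu
  obtain ⟨V, hV⟩ : ∃ V, V = ‖B‖ ^ 2 - 2 * N * (‖B‖ * ‖z * D - B‖) := ⟨_, rfl⟩
  have h5 : V ≤ ‖z‖ ^ (2 * k) * X := by
    calc V = (1 - 2 * N * (‖z * D - B‖ / ‖B‖)) * ‖B‖ ^ 2 := by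
          rw [hV]
          field_simp
      _ ≤ (‖z‖ * ‖D‖ / ‖B‖) ^ (2 * k) * ‖B‖ ^ 2 := mul_le_mul_of_nonneg_right hu (by positivity)
      _ = _ := by
          rw [Real.div_rpow (by positivity) (by positivity),
            Real.mul_rpow (by positivity) (by positivity), hX]
          have e3 : ‖B‖ ^ (2 - 2 * k) = ‖B‖ ^ 2 / ‖B‖ ^ (2 * k) := by
            rw [← Real.rpow_natCast ‖B‖ 2, ← Real.rpow_sub hBpos]
            congr 1
          rw [e3]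
          ring
  rw [← hV]
  rcases le_or_gt V 0 with h | h
  · have : (1 - 2 * ε) * V ≤ 0 := mul_nonpos_of_nonneg_of_nonpos (by linarith) h
    linarith
  · have h7 : V ≤ ‖z‖ ^ (2 * k) * ((1 + ε) * (1 + ε)) :=
      h5.trans (mul_le_mul_of_nonneg_left hX1 hrhs)
    have h8 : (1 - 2 * ε) * ((1 + ε) * (1 + ε)) ≤ 1 := by
      have e3 : (1 - 2 * ε) * ((1 + ε) * (1 + ε)) = 1 - (3 * ε ^ 2 + 2 * ε ^ 3) := by ring
      have e4 : 0 ≤ 3 * ε ^ 2 + 2 * ε ^ 3 := by positivity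
      rw [e3]
      linarith
    calc (1 - 2 * ε) * V ≤ (1 - 2 * ε) * (‖z‖ ^ (2 * k) * ((1 + ε) * (1 + ε))) :=
          mul_le_mul_of_nonneg_left h7 (by linarith)
      _ = ‖z‖ ^ (2 * k) * ((1 - 2 * ε) * ((1 + ε) * (1 + ε))) := by ring
      _ ≤ ‖z‖ ^ (2 * k) * 1 := mul_le_mul_of_nonneg_left h8 hrhs
      _ = _ := mul_one _

end HPt

open HPt in
theorem lowerPt : LowerPt := by
  intro N hN ε hε hε4
  have hN' : (1 : ℝ) ≤ N := by exact_mod_cast hN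
  have hN0 : (0 : ℝ) < N := by linarith
  -- choice of `m1`
  obtain ⟨m1, hm1, hm1e⟩ : ∃ m1 : ℕ, 4000 ≤ m1 ∧ ∀ m : ℕ, m1 ≤ m →
      Real.exp (6 * N * (2 * (1 / 2) ^ m)) ≤ 1 + ε := by
    have h1 : Tendsto (fun m : ℕ => 6 * (N : ℝ) * (2 * (1 / 2) ^ m)) atTop
        (𝓝 (6 * (N : ℝ) * (2 * 0))) :=
      ((tendsto_pow_atTop_nhds_zero_of_lt_one (by norm_num) (by norm_num)).const_mul 2).const_mul _
    rw [mul_zero, mul_zero] at h1
    have h2 := (Real.continuous_exp.tendsto 0).comp h1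
    rw [Real.exp_zero] at h2
    have h3 := h2.eventually_le_const (show (1 : ℝ) < 1 + ε by linarith)
    obtain ⟨m0, hm0⟩ := eventually_atTop.1 h3
    exact ⟨max m0 4000, le_max_right _ _, fun m hm => hm0 m ((le_max_left _ _).trans hm)⟩
  refine ⟨m1, hm1, fun m hm p0 K k hk0 hk Y J δ t hδ z hsmall => ?_⟩
  have hmpos : 1 ≤ m := by omega
  have hMpos : ∀ j, (0 : ℝ) < Mm m j := fun j => by
    have := Mm_add_le hmpos j
    exact_mod_cast (by omega : 0 < Mm m j)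
  have hM1 : ∀ j, 1 ≤ Mm m j := fun j => by exact_mod_cast hMpos j
  set s := pt δ t with hs
  set B := evs s (BN k K m p0 Y J) with hB
  set D := evs s (DN k K m p0 Y J) with hD
  set Q := Qw N m p0 Y (1 / 2 + δ) J t with hQ
  have hterm : ∀ j, 0 ≤ (‖Pj p0 Y (1 / 2 + δ) j t‖ / ((Mm m j : ℝ) / (10 * N))) ^ (2 * Mm m j) :=
    fun j => by
      have := hMpos j
      positivity
  have hQ0 : 0 ≤ Q := Finset.sum_nonneg fun j _ => hterm j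
  have hrhs : 0 ≤ ‖z‖ ^ (2 * k) := by positivity
  have hBn : 0 ≤ ‖B‖ := norm_nonneg _
  have hEn : 0 ≤ ‖z * D - B‖ := norm_nonneg _
  have hBE : 0 ≤ 2 * N * (‖B‖ * ‖z * D - B‖) := by positivity
  by_cases hbig : ∃ j ∈ Finset.range J, (Mm m j : ℝ) / (10 * N) < ‖Pj p0 Y (1 / 2 + δ) j t‖
  · obtain ⟨j, hj, hj1⟩ := hbig
    have h1 : 1 ≤ Q := by
      have h2 : 1 ≤ (‖Pj p0 Y (1 / 2 + δ) j t‖ / ((Mm m j : ℝ) / (10 * N))) ^ (2 * Mm m j) := by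
        apply one_le_pow₀
        rw [le_div_iff₀ (by have := hMpos j; positivity)]
        linarith
      exact h2.trans (Finset.single_le_sum (fun i _ => hterm i) hj)
    refine le_trans ?_ hrhs
    have h3 : ‖B‖ ^ 2 ≤ ‖B‖ ^ 2 * Q := le_mul_of_one_le_right (by positivity) h1
    have h4 : 0 ≤ (1 - 2 * ε) * (2 * N * (‖B‖ * ‖z * D - B‖)) := mul_nonneg (by linarith) hBE
    have h5 : 0 ≤ 2 * ε * ‖B‖ ^ 2 := by positivity
    have e5 : (1 - 2 * ε) * (‖B‖ ^ 2 - 2 * N * (‖B‖ * ‖z * D - B‖)) - ‖B‖ ^ 2 * Q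
        = (‖B‖ ^ 2 - ‖B‖ ^ 2 * Q) - 2 * ε * ‖B‖ ^ 2
          - (1 - 2 * ε) * (2 * N * (‖B‖ * ‖z * D - B‖)) := by ring
    rw [e5]
    linarith
  · push Not at hbig
    obtain ⟨hPB, hprod⟩ := prods hN hk0 hk hmpos (hm1e m hm) J (fun j => Pj p0 Y (1 / 2 + δ) j t) hbig
    have hBn' : ‖B‖ = ‖evs s (B0 k K p0)‖ * ∏ j ∈ Finset.range J,
        ‖EE (Mm m j) (k * Pj p0 Y (1 / 2 + δ) j t)‖ := by
      rw [hB, evs_BN, norm_mul, norm_prod]
      simp only [hs, Pj_eq]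
    have hDn' : ‖D‖ = ‖evs s (B0 k K p0)‖ * (‖evs s (Dsm p0)‖ * ∏ j ∈ Finset.range J,
        ‖EE (Mm m j) ((-(1 - k) : ℝ) * Pj p0 Y (1 / 2 + δ) j t)‖) := by
      rw [hD, evs_DN, norm_mul, norm_mul, norm_prod]
      simp only [hs, Pj_eq]
    have h6 := final (z := z) hN hε hε4 hk0 hk hPB (Finset.prod_nonneg fun _ _ => norm_nonneg _)
      hBn' hDn' hsmall hprod
    have hBQ : 0 ≤ ‖B‖ ^ 2 * Q := mul_nonneg (by positivity) hQ0
    linarith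

end Pool.Agent.Lib.NL
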