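import Mathlib
import Pool.Agent.Lib.MP_f9aece_nt_nl.Stmts
import Pool.Agent.Lib.MP_f9aece_nt_h5.Tilt

/-!
The pointwise upper bound (module J of NearLine).
-/

set_option autoImplicit false

namespace Pool.Agent.Lib.NL

open MeasureTheory Set Filter Topology Complex
open Pool.Agent.Lib.MP_f9aece_nt Pool.Agent.Lib.MP_f9aece_nt_h97

lemma Mm_castJ (m j : ℕ) : (Mm m j : ℝ) = m * 2 ^ j := by unfold Mm; push_cast; ring

lemma one_le_MmJ {m : ℕ} (hm : 1 ≤ m) (j : ℕ) : 1 ≤ Mm m j := by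
  unfold Mm
  exact Nat.one_le_iff_ne_zero.mpr (by positivity)

lemma one_le_Rm {m : ℕ} (hm : 4000 ≤ m) (j : ℕ) : 1 ≤ Rm m j := by
  unfold Rm
  rw [Mm_castJ]
  have h1 : (1 : ℝ) ≤ 2 ^ j := one_le_pow₀ (by norm_num)
  have h2 : (4000 : ℝ) ≤ m := by exact_mod_cast hm
  have h3 : (4000 : ℝ) * 1 ≤ m * 2 ^ j := by gcongr
  rw [le_div_iff₀ (by norm_num)]
  linarith

lemma Rm_le (m j : ℕ) : Rm m j ≤ ((Mm m j + 1 : ℕ) : ℝ) / 10 := by
  unfold Rm
  push_cast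
  linarith

lemma sum_Rm_le (m j : ℕ) : ∑ i ∈ Finset.range j, Rm m i ≤ Rm m j := by
  have h : ∑ i ∈ Finset.range j, Rm m i = Rm m j - m / 10 := by
    induction j with
    | zero => simp [Rm, Mm]
    | succ j ih =>
      rw [Finset.sum_range_succ, ih]
      unfold Rm
      rw [Mm_castJ, Mm_castJ]
      ring
  rw [h]
  have : (0 : ℝ) ≤ m / 10 := by positivity
  linarith

lemma up_nonneg (c : ℝ) (M : ℕ → ℕ) (R : ℕ → ℝ) (z : ℕ → ℂ) (j : ℕ) : 0 ≤ up c M R z j := by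
  induction j with
  | zero => simp [up]
  | succ j ih =>
    simp only [up]
    have h1 : 0 ≤ (‖z j‖ / R j) ^ (2 * M j) := by
      rw [pow_mul]
      positivity
    have h2 := Real.exp_pos (R j)
    positivity

/-- the abstract form -/
lemma upper_young {k ε : ℝ} (hk : 0 < k) (hk1 : k ≤ 1) (hε : 0 < ε) (hε1 : ε ≤ 1 / 4)
    {x b d U V E : ℝ} (hx : 0 ≤ x) (hb : 0 ≤ b) (hd : 0 ≤ d) (hU : 0 ≤ U) (hV : 0 ≤ V)
    (hE : E ≤ 1 + ε / 2) (hE0 : 0 ≤ E) (h1 : 1 ≤ E * (U ^ k * V ^ (1 - k)))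
    (h2 : 1 - ε ≤ b ^ 2 * d ^ (2 * k)) :
    x ^ (2 * k) ≤ (1 + 3 * ε) * (k * ((x * (b * d)) ^ 2 * U) + (1 - k) * (b ^ 2 * V)) := by
  have hA : 0 ≤ (x * (b * d)) ^ 2 * U := by positivity
  have hB : 0 ≤ b ^ 2 * V := by positivity
  have hy := Real.geom_mean_le_arith_mean2_weighted hk.le (by linarith : (0 : ℝ) ≤ 1 - k) hA hB
    (by ring)
  have e1 : ((x * (b * d)) ^ 2 * U) ^ k * (b ^ 2 * V) ^ (1 - k)
      = x ^ (2 * k) * (b ^ 2 * d ^ (2 * k)) * (U ^ k * V ^ (1 - k)) := by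
    have f1 : ((x * (b * d)) ^ 2 * U) ^ k = x ^ (2 * k) * ((b ^ 2) ^ k * d ^ (2 * k)) * U ^ k := by
      have g1 : (x * (b * d)) ^ 2 = x ^ 2 * (b ^ 2 * d ^ 2) := by ring
      have g2 : x ^ (2 * k) = (x ^ 2) ^ k := by
        rw [Real.rpow_mul hx, Real.rpow_two]
      have g3 : d ^ (2 * k) = (d ^ 2) ^ k := by
        rw [Real.rpow_mul hd, Real.rpow_two]
      rw [g1, g2, g3, Real.mul_rpow (by positivity) hU, Real.mul_rpow (by positivity) (by positivity),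
        Real.mul_rpow (by positivity) (by positivity)]
    have f2 : (b ^ 2 * V) ^ (1 - k) = (b ^ 2) ^ (1 - k) * V ^ (1 - k) :=
      Real.mul_rpow (by positivity) hV
    have f3 : (b ^ 2) ^ k * (b ^ 2) ^ (1 - k) = b ^ 2 := by
      rcases hb.eq_or_lt with h | h
      · exfalso
        rw [← h] at h2
        norm_num at h2
        linarith
      · rw [← Real.rpow_add (by positivity)]
        norm_num
    rw [f1, f2]
    calc x ^ (2 * k) * ((b ^ 2) ^ k * d ^ (2 * k)) * U ^ k * ((b ^ 2) ^ (1 - k) * V ^ (1 - k))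
        = x ^ (2 * k) * (((b ^ 2) ^ k * (b ^ 2) ^ (1 - k)) * d ^ (2 * k)) * (U ^ k * V ^ (1 - k)) := by
          ring
      _ = _ := by rw [f3]
  rw [e1] at hy
  obtain ⟨S, hS⟩ : ∃ S : ℝ, S = k * ((x * (b * d)) ^ 2 * U) + (1 - k) * (b ^ 2 * V) := ⟨_, rfl⟩
  rw [← hS] at hy ⊢
  obtain ⟨X, hX⟩ : ∃ X : ℝ, X = x ^ (2 * k) := ⟨_, rfl⟩
  have hX0 : 0 ≤ X := by rw [hX]; exact Real.rpow_nonneg hx _
  rw [← hX] at hy ⊢
  obtain ⟨W, hW⟩ : ∃ W : ℝ, W = U ^ k * V ^ (1 - k) := ⟨_, rfl⟩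
  rw [← hW] at hy h1
  obtain ⟨G, hG⟩ : ∃ G : ℝ, G = b ^ 2 * d ^ (2 * k) := ⟨_, rfl⟩
  rw [← hG] at hy h2
  have hW0 : 0 ≤ W := by
    by_contra h
    push Not at h
    have : E * W ≤ 0 := mul_nonpos_of_nonneg_of_nonpos hE0 h.le
    linarith
  have hG0 : 0 < G := by linarith
  have hS0 : 0 ≤ S := le_trans (by positivity) hy
  -- X * G * W ≤ S
  have h3 : X * (1 - ε) ≤ E * S := by
    calc X * (1 - ε) ≤ X * G := by gcongr
      _ = X * G * 1 := by ring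
      _ ≤ X * G * (E * W) := by gcongr
      _ = E * (X * G * W) := by ring
      _ ≤ E * S := by gcongr
  have h4 : E * S ≤ (1 + ε / 2) * S := by gcongr
  have h5 : (1 + ε / 2) * S ≤ (1 + 3 * ε) * S * (1 - ε) := by
    have : 0 ≤ (1 + 3 * ε) * (1 - ε) - (1 + ε / 2) := by nlinarith
    nlinarith
  have h6 : X * (1 - ε) ≤ (1 + 3 * ε) * S * (1 - ε) := h3.trans (h4.trans h5)
  exact le_of_mul_le_mul_right h6 (by linarith)

theorem upperPt : UpperPt := by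
  intro ε hε hε1
  obtain ⟨m2, hm2⟩ := exists_pow_lt_of_lt_one (by positivity : (0 : ℝ) < ε / 16)
    (by norm_num : (1 / 2 : ℝ) < 1)
  refine ⟨max 4000 m2, le_max_left _ _, ?_⟩
  intro m hm p0 K k hk hk1 Y J δ t hδ z hz
  have hm1 : 4000 ≤ m := (le_max_left _ _).trans hm
  have hm3 : m2 ≤ m := (le_max_right _ _).trans hm
  have hpow : (1 / 2 : ℝ) ^ m ≤ ε / 16 :=
    (pow_le_pow_of_le_one (by norm_num) (by norm_num) hm3).trans hm2.le
  have hpow0 : 0 < (1 / 2 : ℝ) ^ m := by positivity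
  have h1 := one_le_up (a := 1 - k) (k := k) (by linarith) hk.le (by ring)
    (fun j => Pj p0 Y (1 / 2 + δ) j t) (one_le_MmJ (by omega)) (one_le_Rm hm1) (Rm_le m)
    (sum_Rm_le m) J
  have h2 := MP_f9aece_nt_h5.sum_dl_le (m := m) (by omega) J
  have hE : Real.exp (8 * k * (1 - k) * ∑ i ∈ Finset.range J, MP_f9aece_nt_h97.dl (Mm m i))
      ≤ 1 + ε / 2 := by
    have hS0 : 0 ≤ ∑ i ∈ Finset.range J, MP_f9aece_nt_h97.dl (Mm m i) :=
      Finset.sum_nonneg fun i _ => (dl_pos _).le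
    obtain ⟨S, hS⟩ : ∃ S, S = ∑ i ∈ Finset.range J, MP_f9aece_nt_h97.dl (Mm m i) := ⟨_, rfl⟩
    rw [← hS] at h2 hS0 ⊢
    have hka : k * (1 - k) ≤ 1 / 4 := by nlinarith [sq_nonneg (k - 1 / 2)]
    have hka0 : 0 ≤ k * (1 - k) := mul_nonneg hk.le (by linarith)
    have h3 : 8 * k * (1 - k) * S ≤ ε / 4 := by
      calc 8 * k * (1 - k) * S = 8 * (k * (1 - k)) * S := by ring
        _ ≤ 8 * (1 / 4) * (2 * (1 / 2) ^ m) := by gcongr
        _ = 4 * (1 / 2) ^ m := by ring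
        _ ≤ 4 * (ε / 16) := by gcongr
        _ = ε / 4 := by ring
    have h4 : Real.exp (8 * k * (1 - k) * S) ≤ Real.exp (ε / 4) := Real.exp_le_exp.mpr h3
    refine h4.trans ?_
    have h5 := Real.add_one_le_exp (-(ε / 4))
    rw [Real.exp_neg] at h5
    have h6 := Real.exp_pos (ε / 4)
    have h7 : Real.exp (ε / 4) * (1 - ε / 4) ≤ 1 := by
      have : (1 - ε / 4) ≤ (Real.exp (ε / 4))⁻¹ := by linarith
      calc Real.exp (ε / 4) * (1 - ε / 4) ≤ Real.exp (ε / 4) * (Real.exp (ε / 4))⁻¹ := by gcongr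
        _ = 1 := mul_inv_cancel₀ h6.ne'
    have h8 : 1 ≤ (1 + ε / 2) * (1 - ε / 4) := by nlinarith
    exact le_of_mul_le_mul_right (h7.trans h8) (by linarith)
  have hU := up_nonneg (-(1 - k)) (Mm m) (Rm m) (fun j => Pj p0 Y (1 / 2 + δ) j t) J
  have hV := up_nonneg k (Mm m) (Rm m) (fun j => Pj p0 Y (1 / 2 + δ) j t) J
  have h9 := upper_young hk hk1 hε hε1 (norm_nonneg z) (norm_nonneg (evs (pt δ t) (B0 k K p0)))
    (norm_nonneg (evs (pt δ t) (Dsm p0))) hU hV hE (Real.exp_pos _).le h1 hz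
  rw [MP_f9aece_nt_h5.evs_mul, norm_mul, norm_mul]
  exact h9

end Pool.Agent.Lib.NL
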