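import Mathlib
import Pool.Agent.Lib.MP_f9aece_nt_nl.A
import Pool.Agent.Lib.MP_f9aece_nt_nl.D

/-!
NearLine, module M, first part: the forms of the pieces of the upper bound weights.
-/

set_option autoImplicit false

namespace Pool.Agent.Lib.NL

open MeasureTheory Set Filter Topology Complex
open Pool.Agent.Lib.MP_f9aece_nt Pool.Agent.Lib.MP_f9aece_nt_h97 Pool.Agent.Lib.MP_f9aece_nt_h40

/-- size of the forms of a piece -/
noncomputable def Wm (m j : ℕ) : ℝ := (24 * Mm m j : ℝ) ^ Mm m j * Real.exp (12 * (j + 1))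

lemma Wm_pos {m : ℕ} (hm : 1 ≤ m) (j : ℕ) : 0 < Wm m j := by
  have : 0 < Mm m j := Mm_one hm j
  have h2 : (0 : ℝ) < Mm m j := by exact_mod_cast this
  unfold Wm
  positivity

lemma one_le_Wm {m : ℕ} (hm : 1 ≤ m) (j : ℕ) : 1 ≤ Wm m j := by
  have h0 : (1 : ℝ) ≤ Mm m j := by exact_mod_cast Mm_one hm j
  have h1 : (1 : ℝ) ≤ (24 * Mm m j : ℝ) ^ Mm m j := one_le_pow₀ (by linarith)
  have h2 : 1 ≤ Real.exp (12 * ((j : ℝ) + 1)) := Real.one_le_exp (by positivity)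
  unfold Wm
  calc (1 : ℝ) = 1 * 1 := by ring
    _ ≤ _ := by gcongr

lemma succ_mul_le (m j : ℕ) : m * (j + 1) ≤ Mm m j := by
  unfold Mm
  exact Nat.mul_le_mul_left m (succ_le_two_pow j)

lemma qW_le {m : ℕ} (hm : 4000 ≤ m) (j : ℕ) :
    Real.exp (Rm m j) / Rm m j ^ (2 * Mm m j) * Wm m j ≤ ((2 / 3 : ℝ) ^ m * Real.exp 12) ^ (j + 1) := by
  set M := Mm m j with hM
  have hMm : m * (j + 1) ≤ M := succ_mul_le m j
  have hM4 : 4000 ≤ M := by
    refine hm.trans ((Nat.le_mul_of_pos_right m (Nat.succ_pos j)).trans hMm)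
  have hM0 : (4000 : ℝ) ≤ M := by exact_mod_cast hM4
  have hMpos : (0 : ℝ) < M := by linarith
  have h1 : Real.exp (Rm m j) / Rm m j ^ (2 * M) * (24 * M : ℝ) ^ M
      = (Real.exp (1 / 10) * (2400 / M)) ^ M := by
    unfold Rm
    rw [← hM]
    have e1 : Real.exp ((M : ℝ) / 10) = Real.exp (1 / 10) ^ M := by
      rw [← Real.exp_nat_mul]; congr 1; ring
    rw [e1, pow_mul, ← div_pow, ← mul_pow]
    congr 1
    field_simp
    ring
  have h2 : Real.exp (1 / 10) * (2400 / M) ≤ 2 / 3 := by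
    have h3 : Real.exp (1 / 10) ≤ 10 / 9 := by
      have h4 := Real.add_one_le_exp (-(1 / 10) : ℝ)
      rw [Real.exp_neg] at h4
      have h5 := Real.exp_pos (1 / 10 : ℝ)
      have h6 : (9 / 10 : ℝ) ≤ (Real.exp (1 / 10))⁻¹ := by linarith
      rw [le_inv_comm₀ (by norm_num) h5] at h6
      refine h6.trans ?_
      norm_num
    calc Real.exp (1 / 10) * (2400 / M) ≤ 10 / 9 * (2400 / 4000) := by gcongr
      _ = 2 / 3 := by norm_num
  have h3 : (Real.exp (1 / 10) * (2400 / M)) ^ M ≤ (2 / 3) ^ M := by gcongr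
  have h4 : (2 / 3 : ℝ) ^ M ≤ ((2 / 3 : ℝ) ^ m) ^ (j + 1) := by
    rw [← pow_mul]
    exact pow_le_pow_of_le_one (by norm_num) (by norm_num) hMm
  have h5 : Real.exp (12 * ((j : ℝ) + 1)) = Real.exp 12 ^ (j + 1) := by
    rw [← Real.exp_nat_mul]; congr 1; push_cast; ring
  unfold Wm
  rw [← hM, ← mul_assoc, h1, h5, mul_pow ((2 / 3 : ℝ) ^ m)]
  exact mul_le_mul_of_nonneg_right (h3.trans h4) (by positivity)

/-- the weights of the pieces are small -/
lemma weights_small {ε : ℝ} (hε : 0 < ε) : ∃ m1 : ℕ, 4000 ≤ m1 ∧ ∀ m : ℕ, m1 ≤ m → ∀ J : ℕ,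
    ∑ j ∈ Finset.range J, 5 * (Real.exp (Rm m j) / Rm m j ^ (2 * Mm m j)) * Wm m j ≤ ε := by
  have hlim : Tendsto (fun m : ℕ => (2 / 3 : ℝ) ^ m * Real.exp 12) atTop (𝓝 0) := by
    have h := (tendsto_pow_atTop_nhds_zero_of_lt_one (r := (2 / 3 : ℝ)) (by norm_num)
      (by norm_num)).mul_const (Real.exp 12)
    simpa using h
  have hev : ∀ᶠ m : ℕ in atTop, (2 / 3 : ℝ) ^ m * Real.exp 12 ≤ min (1 / 2) (ε / 10) :=
    hlim.eventually (eventually_le_nhds (lt_min (by norm_num) (by positivity)))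
  obtain ⟨m1, hm1⟩ := hev.exists_forall_of_atTop
  refine ⟨max 4000 m1, le_max_left _ _, ?_⟩
  intro m hm J
  have hm4 : 4000 ≤ m := (le_max_left _ _).trans hm
  have hx := hm1 m ((le_max_right _ _).trans hm)
  set x := (2 / 3 : ℝ) ^ m * Real.exp 12 with hxd
  have hx0 : 0 ≤ x := by positivity
  have hx1 : x ≤ 1 / 2 := hx.trans (min_le_left _ _)
  have hx2 : x ≤ ε / 10 := hx.trans (min_le_right _ _)
  have hg : ∑ j ∈ Finset.range J, (1 / 2 : ℝ) ^ j ≤ 2 := by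
    have h2 := sum_half_le J
    have h3 : ∑ j ∈ Finset.range J, (1 / 2 : ℝ) ^ (j + 1)
        = (∑ j ∈ Finset.range J, (1 / 2 : ℝ) ^ j) * (1 / 2) := by
      rw [Finset.sum_mul]
      exact Finset.sum_congr rfl fun j _ => pow_succ _ _
    linarith
  calc ∑ j ∈ Finset.range J, 5 * (Real.exp (Rm m j) / Rm m j ^ (2 * Mm m j)) * Wm m j
      ≤ ∑ j ∈ Finset.range J, 5 * x * (1 / 2) ^ j := by
        refine Finset.sum_le_sum fun j _ => ?_
        have h1 := qW_le hm4 j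
        rw [← hxd] at h1
        have h2 : x ^ (j + 1) ≤ x * (1 / 2) ^ j := by
          rw [pow_succ, mul_comm]
          gcongr
        calc 5 * (Real.exp (Rm m j) / Rm m j ^ (2 * Mm m j)) * Wm m j
            = 5 * (Real.exp (Rm m j) / Rm m j ^ (2 * Mm m j) * Wm m j) := by ring
          _ ≤ 5 * (x * (1 / 2) ^ j) := by
              have := h1.trans h2
              gcongr
          _ = _ := by ring
    _ = 5 * x * ∑ j ∈ Finset.range J, (1 / 2 : ℝ) ^ j := by rw [Finset.mul_sum]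
    _ ≤ 5 * (ε / 10) * 2 := by gcongr
    _ = ε := by ring

/-! ### forms of `T1` -/

/-- factors of `T1` -/
noncomputable def fT (m p0 : ℕ) (c Y : ℝ) (j i : ℕ) : DP :=
  if i = j then PP (sc Y p0 j) ^ Mm m j else expo c (Mm m i) (sc Y p0 i)

lemma T1_eq (m p0 : ℕ) (c Y : ℝ) {J j : ℕ} (hj : j < J) :
    T1 m p0 c Y J j = ∏ i ∈ Finset.Ico j J, fT m p0 c Y j i := by
  rw [Finset.prod_eq_prod_Ico_succ_bot hj]
  unfold T1 fT
  simp only [if_true]
  congr 1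
  refine Finset.prod_congr rfl fun i hi => ?_
  rw [Finset.mem_Ico] at hi
  rw [if_neg (by omega)]

lemma sup_fT (m p0 : ℕ) (c Y : ℝ) (j i : ℕ) : Sup (Smo (sc Y p0 i : Set ℕ)) (fT m p0 c Y j i) := by
  unfold fT
  split_ifs with h
  · rw [h]
    exact (sup_of_cone (cone_PP_pow (fun p hp => sc_prime hp) _)).mono fun n hn => hn.1
  · exact sup_expo (fun p hp => sc_prime hp) _ _

/-- bounds for the forms of the factors -/
noncomputable def UT (s A μ : ℝ) (m p0 : ℕ) (Y : ℝ) (j i : ℕ) : ℝ :=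
  if i = j then (24 * Mm m j : ℝ) ^ Mm m j
  else Real.exp (μ * QS s (sc Y p0 i) + cC A * V2 (sc Y p0 i) + 2 * (cT A / 2 ^ Mm m i))

section forms

variable {K : ℕ → ℕ → ℝ} {s α β γ A c μ Y : ℝ} {m p0 J j : ℕ}

lemma UT_nonneg (i : ℕ) : 0 ≤ UT s A μ m p0 Y j i := by
  unfold UT
  split_ifs <;> positivity

lemma prod_UT (hs : 1 ≤ s) (hμ0 : -1 ≤ μ) (_hμ1 : μ ≤ 0) (hY : 0 < Y) (hp01 : 1 ≤ p0) (hm : 1 ≤ m)
    (hj : j < J) :
    ∏ i ∈ Finset.Ico j J, UT s A μ m p0 Y j i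
      ≤ Wm m j * Real.exp (μ * QT s p0 Y J + (cC A / p0 + 4 * (cT A / 2 ^ m))) := by
  have hC := cC_pos A
  have hTp := cT_pos A
  have h1 : ∏ i ∈ Finset.Ico j J, UT s A μ m p0 Y j i = (24 * Mm m j : ℝ) ^ Mm m j
      * ∏ i ∈ Finset.Ico (j + 1) J, Real.exp (μ * QS s (sc Y p0 i) + cC A * V2 (sc Y p0 i)
        + 2 * (cT A / 2 ^ Mm m i)) := by
    rw [Finset.prod_eq_prod_Ico_succ_bot hj]
    unfold UT
    simp only [if_true]
    congr 1
    refine Finset.prod_congr rfl fun i hi => ?_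
    rw [Finset.mem_Ico] at hi
    rw [if_neg (by omega)]
  rw [h1, ← Real.exp_sum]
  unfold Wm
  rw [mul_assoc, ← Real.exp_add]
  refine mul_le_mul_of_nonneg_left (Real.exp_le_exp.mpr ?_) (by positivity)
  rw [Finset.sum_add_distrib, Finset.sum_add_distrib, ← Finset.mul_sum]
  have hsub : Finset.Ico (j + 1) J ⊆ Finset.range J := by
    intro i hi
    rw [Finset.mem_Ico] at hi
    rw [Finset.mem_range]
    exact hi.2
  have a1 : ∑ i ∈ Finset.Ico (j + 1) J, cC A * V2 (sc Y p0 i) ≤ cC A / p0 := by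
    refine le_trans ?_ (sum_cC (A := A) (J := J) hY hp01)
    exact Finset.sum_le_sum_of_subset_of_nonneg hsub fun i _ _ => mul_nonneg hC.le (V2_nonneg _)
  have a2 : ∑ i ∈ Finset.Ico (j + 1) J, 2 * (cT A / 2 ^ Mm m i) ≤ 4 * (cT A / 2 ^ m) := by
    refine le_trans ?_ (sum_cT_le (A := A) hm J)
    exact Finset.sum_le_sum_of_subset_of_nonneg hsub fun i _ _ => by positivity
  have a3 : QT s p0 Y J = (∑ i ∈ Finset.range (j + 1), QS s (sc Y p0 i))
      + ∑ i ∈ Finset.Ico (j + 1) J, QS s (sc Y p0 i) := by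
    unfold QT
    exact (Finset.sum_range_add_sum_Ico _ (by omega)).symm
  have a4 : ∑ i ∈ Finset.range (j + 1), QS s (sc Y p0 i) ≤ 12 * ((j : ℝ) + 1) := by
    calc ∑ i ∈ Finset.range (j + 1), QS s (sc Y p0 i) ≤ ∑ _i ∈ Finset.range (j + 1), (12 : ℝ) :=
          Finset.sum_le_sum fun i _ => (QS_le_VV hs fun p hp => sc_prime hp).trans (VV_sc_le hY p0 i)
      _ = _ := by
          rw [Finset.sum_const, Finset.card_range, nsmul_eq_mul]
          push_cast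
          ring
  have a5 : 0 ≤ ∑ i ∈ Finset.range (j + 1), QS s (sc Y p0 i) :=
    Finset.sum_nonneg fun i _ => QS_nonneg _ _
  have a6 : μ * ∑ i ∈ Finset.Ico (j + 1) J, QS s (sc Y p0 i) ≤ 12 * ((j : ℝ) + 1) + μ * QT s p0 Y J := by
    rw [a3]
    nlinarith
  linarith

lemma abs_pow_le (hK : MK K) (hY : 0 < Y) (hm : 12 ≤ m) (j : ℕ) :
    |BK K (PP (sc Y p0 j) ^ Mm m j) (PP (sc Y p0 j) ^ Mm m j)| ≤ (24 * Mm m j : ℝ) ^ Mm m j := by
  have hI : ∀ p ∈ sc Y p0 j, p.Prime := fun p hp => sc_prime hp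
  have hc := cone_PP_pow hI (Mm m j)
  have h1 := BK_le_K2 hK hc hc
  have h0 : 0 ≤ BK K (PP (sc Y p0 j) ^ Mm m j) (PP (sc Y p0 j) ^ Mm m j) := BK_nonneg hc hc hK.1
  have hM : 12 ≤ Mm m j := by
    refine hm.trans ?_
    unfold Mm
    exact Nat.le_mul_of_pos_right m (by positivity)
  have h2 := (pow_bounds (I := sc Y p0 j) hI hM (VV_sc_le hY p0 j) (y := Y / 4 ^ j)
    (by positivity) (fun p hp => sc_log_le hp)).1
  rw [abs_of_nonneg h0]
  exact h1.trans ((le_abs_self _).trans h2)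

lemma abs_fT_le (h : K3 K s α β γ) (hs : 1 ≤ s) (hA : 1 ≤ A) (hc : |c| ≤ A)
    (hμ : c * α + c * β + c * c * γ = μ) (hμB : |μ| ≤ cB A) (hY : 0 < Y)
    (hp0 : 2 * (cB A + cE A) ≤ (p0 : ℝ)) (hm : 12 ≤ m) (hT : cT A / 2 ^ m ≤ 1 / 2) (i : ℕ) :
    |BK K (fT m p0 c Y j i) (fT m p0 c Y j i)| ≤ UT s A μ m p0 Y j i := by
  unfold fT UT
  split_ifs with hij
  · exact abs_pow_le h.isMK hY hm j
  · have h3 := expo_two h hs hA hc hc hμ hμB
      (fun p hp => sc_prime hp : ∀ p ∈ sc Y p0 i, p.Prime) (sc_large hp0 i)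
      (Mm_one (by omega : 1 ≤ m) i) (VV_sc_le hY p0 i) (cT_Mm_half (by omega) hT i)
    rw [abs_of_pos ((Real.exp_pos _).trans_le h3.1)]
    exact h3.2

/-- form of a piece -/
lemma T1_form (h : K3 K s α β γ) (hs : 1 ≤ s) (hA : 1 ≤ A) (hc : |c| ≤ A)
    (hμ : c * α + c * β + c * c * γ = μ) (hμB : |μ| ≤ cB A) (hμ0 : -1 ≤ μ) (hμ1 : μ ≤ 0)
    (hY : 0 < Y) (hp01 : 1 ≤ p0)
    (hp0 : 2 * (cB A + cE A) ≤ (p0 : ℝ)) (hm : 12 ≤ m) (hT : cT A / 2 ^ m ≤ 1 / 2) (hj : j < J) :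
    |BK K (T1 m p0 c Y J j) (T1 m p0 c Y J j)|
      ≤ Wm m j * Real.exp (μ * QT s p0 Y J + (cC A / p0 + 4 * (cT A / 2 ^ m))) := by
  rw [T1_eq m p0 c Y hj, BK_prod_MK h.isMK (Finset.Ico j J) (sc Y p0)
    (fun _ _ _ _ hh => sc_disjoint hY hh) _ _ (fun i _ => sup_fT m p0 c Y j i)
    (fun i _ => sup_fT m p0 c Y j i), Finset.abs_prod]
  refine le_trans ?_ (prod_UT hs hμ0 hμ1 hY hp01 (by omega) hj)
  exact Finset.prod_le_prod (fun _ _ => abs_nonneg _) fun i _ =>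
    abs_fT_le h hs hA hc hμ hμB hY hp0 hm hT i

/-- the `gcd` form of a power -/
lemma pow_Kg {I : Finset ℕ} (hI : ∀ p ∈ I, p.Prime) {l : ℕ} {y : ℝ} (hy : 0 ≤ y)
    (hyI : ∀ p ∈ I, Real.log p ≤ y) :
    |BK Kg ((PP I) ^ l) ((PP I) ^ l)| ≤ (2 * l * y) * BK K2 ((PP I) ^ l) ((PP I) ^ l) := by
  have h0' : 0 ≤ BK Kg ((PP I) ^ l) ((PP I) ^ l) :=
    BK_nonneg (A := univ) ((cone_PP_pow hI l).mono (subset_univ _))
      ((cone_PP_pow hI l).mono (subset_univ _)) logKer_Kg.nonneg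
  rw [abs_of_nonneg h0']
  have hlog : ∀ a ∈ {n | n ∈ Smo (I : Set ℕ) ∧ ArithmeticFunction.cardFactors n = l},
      Real.log a ≤ l * y := by
    intro a ha
    exact log_le_of_Omega (fun p hp => hyI p hp) hy ha.1 ha.2.le
  have e1 : 2 * l * y * BK K2 ((PP I) ^ l) ((PP I) ^ l)
      = pair (fun a => pair (fun b => K2 a b * (2 * l * y)) ((PP I) ^ l)) ((PP I) ^ l) := by
    unfold BK
    simp only [pair_mul_const]
    ring
  rw [e1]
  unfold BK
  refine pair_mono (cone_PP_pow hI l) fun a ha => ?_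
  refine pair_mono (cone_PP_pow hI l) fun b hb => ?_
  refine (logKer_Kg.le _ _ (Smo_pos ha.1) (Smo_pos hb.1)).trans ?_
  refine mul_le_mul_of_nonneg_left ?_ (K2_nonneg _ _)
  have := hlog a ha
  have := hlog b hb
  linarith

/-- the `gcd` form of a piece -/
lemma T1_Kg (hA : 1 ≤ A) (hc : |c| ≤ A) (hμ : 2 * c + c ^ 2 = μ) (hμB : |μ| ≤ cB A)
    (hμ0 : -1 ≤ μ) (hμ1 : μ ≤ 0) (hY : 0 < Y) (hp01 : 1 ≤ p0)
    (hp0 : 2 * (cB A + cE A) ≤ (p0 : ℝ)) (hm : 12 ≤ m) (hT : cT A / 2 ^ m ≤ 1 / 2) (hj : j < J) :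
    |BK Kg (T1 m p0 c Y J j) (T1 m p0 c Y J j)|
      ≤ (4 * m * Y + cL A * (Y + 2))
        * (Wm m j * Real.exp (μ * QT 1 p0 Y J + (cC A / p0 + 4 * (cT A / 2 ^ m)))) := by
  have hL := cL_pos hA
  have hC := cC_pos A
  have hTp := cT_pos A
  have hμ' : c * 1 + c * 1 + c * c * 1 = μ := by rw [← hμ]; ring
  set κ : ℕ → ℝ := fun i => if i = j then 2 * Mm m j * (Y / 4 ^ j) else cL A * LL (sc Y p0 i) with hκ
  have h := prod_boundsL logKer_Kg (Finset.Ico j J) (sc Y p0)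
    (fun _ _ _ _ hh => sc_disjoint hY hh) (fT m p0 c Y j) (fun i _ => sup_fT m p0 c Y j i)
    (UT 1 A μ m p0 Y j) κ (fun i _ => UT_nonneg i)
    (fun i _ => by
      rw [hκ]; simp only
      split_ifs
      · positivity
      · exact mul_nonneg hL.le (LL_nonneg _))
    (fun i _ => abs_fT_le k3_K2 le_rfl hA hc hμ' hμB hY hp0 hm hT i)
    (fun i _ => by
      rw [hκ]
      unfold fT UT
      simp only
      split_ifs with hij
      · have hI : ∀ p ∈ sc Y p0 j, p.Prime := fun p hp => sc_prime hp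
        have hy0 : 0 ≤ Y / 4 ^ j := by positivity
        refine (pow_Kg hI hy0 (fun p hp => sc_log_le hp)).trans ?_
        have h2 := abs_pow_le (m := m) (p0 := p0) k3_K2.isMK hY hm j
        exact mul_le_mul_of_nonneg_left ((le_abs_self _).trans h2) (by positivity)
      · refine (expo_Kg hA hc hμ hμB (fun p hp => sc_prime hp : ∀ p ∈ sc Y p0 i, p.Prime)
          (sc_large hp0 i) (Mm_one (by omega : 1 ≤ m) i) (VV_sc_le hY p0 i)).trans ?_
        refine mul_le_mul_of_nonneg_left ?_ (mul_nonneg hL.le (LL_nonneg _))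
        apply Real.exp_le_exp.mpr
        have : 0 < cT A / 2 ^ Mm m i := by positivity
        linarith)
  have h2 := h.2
  rw [← T1_eq m p0 c Y hj] at h2
  have hP := prod_UT (s := 1) (A := A) (μ := μ) (m := m) le_rfl hμ0 hμ1 hY hp01 (by omega) hj
  have hκs : ∑ i ∈ Finset.Ico j J, κ i ≤ 4 * m * Y + cL A * (Y + 2) := by
    rw [hκ, Finset.sum_eq_sum_Ico_succ_bot hj]
    simp only [if_true]
    have b1 : 2 * (Mm m j : ℝ) * (Y / 4 ^ j) ≤ 4 * m * Y := by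
      have h5 := Finset.single_le_sum (f := fun i => (Mm m i : ℝ) * (Y / 4 ^ i)) (s := Finset.range J)
        (fun i _ => by positivity) (Finset.mem_range.mpr hj)
      have h6 := sum_lenm m hY J
      linarith
    have b2 : ∑ i ∈ Finset.Ico (j + 1) J, (if i = j then 2 * (Mm m j : ℝ) * (Y / 4 ^ j)
        else cL A * LL (sc Y p0 i)) ≤ cL A * (Y + 2) := by
      have e1 : ∑ i ∈ Finset.Ico (j + 1) J, (if i = j then 2 * (Mm m j : ℝ) * (Y / 4 ^ j)
        else cL A * LL (sc Y p0 i)) = ∑ i ∈ Finset.Ico (j + 1) J, cL A * LL (sc Y p0 i) := by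
        refine Finset.sum_congr rfl fun i hi => ?_
        rw [Finset.mem_Ico] at hi
        rw [if_neg (by omega)]
      rw [e1, ← Finset.mul_sum]
      refine mul_le_mul_of_nonneg_left ?_ hL.le
      refine le_trans ?_ (sum_LL_sc_le hY p0 J)
      refine Finset.sum_le_sum_of_subset_of_nonneg ?_ fun i _ _ => LL_nonneg _
      intro i hi
      rw [Finset.mem_Ico] at hi
      rw [Finset.mem_range]
      exact hi.2
    linarith
  have hκ0 : 0 ≤ 4 * m * Y + cL A * (Y + 2) := by positivity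
  have hU0 : 0 ≤ ∏ i ∈ Finset.Ico j J, UT 1 A μ m p0 Y j i := Finset.prod_nonneg fun i _ => UT_nonneg i
  refine h2.trans ?_
  calc (∑ i ∈ Finset.Ico j J, κ i) * ∏ i ∈ Finset.Ico j J, UT 1 A μ m p0 Y j i
      ≤ (4 * m * Y + cL A * (Y + 2)) * ∏ i ∈ Finset.Ico j J, UT 1 A μ m p0 Y j i := by gcongr
    _ ≤ _ := by gcongr

end forms

end Pool.Agent.Lib.NL
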