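import Mathlib
import Pool.Agent.Lib.MP_f9aece_nt_nl.M1
import Pool.Agent.Lib.MP_f9aece_nt_nl.E

/-!
NearLine, module M, second part: forms and sizes of the pieces with the small primes.
-/

set_option autoImplicit false

namespace Pool.Agent.Lib.NL

open MeasureTheory Set Filter Topology Complex
open Pool.Agent.Lib.MP_f9aece_nt Pool.Agent.Lib.MP_f9aece_nt_h97
open Pool.Agent.Lib.MP_f9aece_nt_h40 (Dsm' dom_Dsm aug_Dsm' cone_Dsm' card_Psm Psm_le sum_lenm aug_nonneg'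
  logKer_Kg)

/-- a piece with the small primes -/
noncomputable def Dp (k : ℝ) (K m p0 : ℕ) (Y : ℝ) (J j : ℕ) : DP :=
  B0 k K p0 * Dsm p0 * T1 m p0 (-(1 - k)) Y J j

lemma sup_T1 (m p0 : ℕ) (c Y : ℝ) {J j : ℕ} (hj : j < J) :
    Sup (Smo (⋃ i ∈ Finset.range J, (sc Y p0 i : Set ℕ))) (T1 m p0 c Y J j) := by
  rw [T1_eq m p0 c Y hj]
  refine (sup_prod_Smo (Finset.Ico j J) (sc Y p0) _ fun i _ => sup_fT m p0 c Y j i).mono
    (Smo_mono ?_)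
  intro x hx
  rw [Set.mem_iUnion₂] at hx ⊢
  obtain ⟨i, hi, hx⟩ := hx
  rw [Finset.mem_Ico] at hi
  exact ⟨i, Finset.mem_range.mpr hi.2, hx⟩

lemma form_K2s {s : ℝ} (hs : 1 ≤ s) (k : ℝ) (K m p0 : ℕ) (Y : ℝ) {J j : ℕ} (hj : j < J) :
    BK (K2s s) (Dp k K m p0 Y J j) (Dp k K m p0 Y J j)
      = (∏ p ∈ Psm p0, (1 - (p : ℝ) ^ (-s))) * F0 k K p0 s
        * BK (K2s s) (T1 m p0 (-(1 - k)) Y J j) (T1 m p0 (-(1 - k)) Y J j) := by
  unfold Dp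
  rw [BK_mul_sup (K2s s) (sup_B0Dsm k K p0) (sup_B0Dsm k K p0) (sup_T1 m p0 _ Y hj)
    (sup_T1 m p0 _ Y hj) ((mk_K2s hs).2.2.2 _ _ (disj_Psm)), small_K2s hs]

/-- the forms of the small prime factor are bounded -/
noncomputable def Gs (K p0 : ℕ) : ℝ :=
  BK K2 (B0 1 K p0 * Dsm' p0) (B0 1 K p0 * Dsm' p0) + BK Kg (B0 1 K p0 * Dsm' p0) (B0 1 K p0 * Dsm' p0)

lemma small_abs {k : ℝ} (hk0 : 0 ≤ k) (hk1 : k ≤ 1) (K p0 : ℕ) :
    |BK K2 (B0 k K p0 * Dsm p0) (B0 k K p0 * Dsm p0)| ≤ Gs K p0 ∧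
    |BK Kg (B0 k K p0 * Dsm p0) (B0 k K p0 * Dsm p0)| ≤ Gs K p0 := by
  have hd : Dom (B0 k K p0 * Dsm p0) (B0 1 K p0 * Dsm' p0) := (dom_B0 hk0 hk1 K p0).mul (dom_Dsm p0)
  have h1 := abs_BK_le_of_dom K2_nonneg hd hd
  have h2 := abs_BK_le_of_dom logKer_Kg.nonneg hd hd
  have h3 := (abs_nonneg _).trans h1
  have h4 := (abs_nonneg _).trans h2
  unfold Gs
  constructor <;> linarith

lemma Gs_nonneg (K p0 : ℕ) : 0 ≤ Gs K p0 := (abs_nonneg _).trans (small_abs zero_le_one le_rfl K p0).1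

lemma form_dual {k : ℝ} (hk0 : 0 ≤ k) (hk1 : k ≤ 1) (K m p0 : ℕ) (Y : ℝ) {J j : ℕ} (hj : j < J)
    {a b : ℝ}
    (h1 : |BK K2 (T1 m p0 (-(1 - k)) Y J j) (T1 m p0 (-(1 - k)) Y J j)| ≤ a)
    (h2 : |BK Kg (T1 m p0 (-(1 - k)) Y J j) (T1 m p0 (-(1 - k)) Y J j)| ≤ b) :
    |BK K2 (Dp k K m p0 Y J j) (Dp k K m p0 Y J j)| ≤ Gs K p0 * a ∧
    |BK Kg (Dp k K m p0 Y J j) (Dp k K m p0 Y J j)| ≤ Gs K p0 * (a + b) := by
  obtain ⟨s1, s2⟩ := small_abs hk0 hk1 K p0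
  have hG := Gs_nonneg K p0
  unfold Dp
  rw [BK_mul_sup K2 (sup_B0Dsm k K p0) (sup_B0Dsm k K p0) (sup_T1 m p0 _ Y hj)
      (sup_T1 m p0 _ Y hj) fun x hx x' hx' y hy y' hy' => K2_mul (disj_Psm) hx hx' hy hy',
    BK_mul_der K2 Kg (sup_B0Dsm k K p0) (sup_B0Dsm k K p0) (sup_T1 m p0 _ Y hj)
      (sup_T1 m p0 _ Y hj) fun x hx x' hx' y hy y' hy' =>
        logKer_Kg.mul _ _ (disj_Psm) x hx x' hx' y hy y' hy']
  constructor
  · rw [abs_mul]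
    gcongr
  · refine (abs_add_le _ _).trans ?_
    rw [abs_mul, abs_mul, mul_add]
    gcongr

/-! ### sizes -/

lemma cone_T1 (m p0 : ℕ) {c Y : ℝ} (hc : 0 ≤ c) (hY : 0 < Y) {J j : ℕ} (hj : j < J) :
    Cone (Len (2 * m * Y)) (T1 m p0 c Y J j) := by
  have hI : ∀ i, ∀ p ∈ sc Y p0 i, p.Prime := fun i p hp => sc_prime hp
  have h1 : Cone (Len ((Mm m j : ℝ) * (Y / 4 ^ j))) (PP (sc Y p0 j) ^ Mm m j) := by
    refine (cone_PP_pow (hI j) (Mm m j)).mono fun n hn => ?_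
    exact ⟨Smo_pos hn.1, log_le_of_Omega (fun p hp => sc_log_le hp) (by positivity) hn.1 hn.2.le⟩
  have h2 : Cone (Len (∑ i ∈ Finset.Ico (j + 1) J, (Mm m i : ℝ) * (Y / 4 ^ i)))
      (∏ i ∈ Finset.Ico (j + 1) J, expo c (Mm m i) (sc Y p0 i)) := by
    refine cone_len_prod _ _ (fun j => (Mm m j : ℝ) * (Y / 4 ^ j)) fun i _ => ?_
    refine (cone_expo (hI i) hc (Mm m i)).mono fun n hn => ?_
    exact ⟨Smo_pos hn.1, log_le_of_Omega (fun p hp => sc_log_le hp) (by positivity) hn.1 hn.2⟩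
  have h3 := h1.mul h2 (fun x hx y hy => Len.mul hx hy)
  refine h3.mono (Len.mono ?_)
  have h4 : (Mm m j : ℝ) * (Y / 4 ^ j) + ∑ i ∈ Finset.Ico (j + 1) J, (Mm m i : ℝ) * (Y / 4 ^ i)
      = ∑ i ∈ Finset.Ico j J, (Mm m i : ℝ) * (Y / 4 ^ i) := by
    rw [Finset.sum_eq_sum_Ico_succ_bot hj (fun i => (Mm m i : ℝ) * (Y / 4 ^ i))]
  rw [h4]
  refine le_trans ?_ (sum_lenm m hY J)
  refine Finset.sum_le_sum_of_subset_of_nonneg ?_ fun i _ _ => by positivity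
  intro i hi
  rw [Finset.mem_Ico] at hi
  rw [Finset.mem_range]
  exact hi.2

lemma dom_T1 (m p0 : ℕ) {c d : ℝ} (hc : |c| ≤ d) (Y : ℝ) (J j : ℕ) :
    Dom (T1 m p0 c Y J j) (T1 m p0 d Y J j) :=
  (dom_self (cone_PP_pow (fun _ hp => sc_prime hp) _)).mul
    (Dom.prod _ fun _ _ => dom_expo (fun _ hp => sc_prime hp) hc _)

lemma aug_T1 (m p0 : ℕ) {Y : ℝ} (hY : 0 < Y) {J j : ℕ} (hj : j < J) :
    aug (T1 m p0 1 Y J j) ≤ Real.exp (J + 2 * m * Y) := by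
  have hcard : ∀ i, ((sc Y p0 i).card : ℝ) ≤ Real.exp (Y / 4 ^ i) := fun i =>
    card_le_exp fun p hp => ⟨(sc_prime hp).one_le, sc_log_le hp⟩
  have hcn : ∀ i, 0 ≤ aug (expo 1 (Mm m i) (sc Y p0 i)) := fun i =>
    aug_nonneg' (cone_expo (fun p hp => sc_prime hp) zero_le_one (Mm m i))
  unfold T1
  rw [aug_mul, aug_prod, aug_pow, aug_PP]
  have h1 : ((sc Y p0 j).card : ℝ) ^ Mm m j ≤ Real.exp (Mm m j * (Y / 4 ^ j)) := by
    rw [Real.exp_nat_mul]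
    gcongr
    exact hcard j
  have h2 : ∏ i ∈ Finset.Ico (j + 1) J, aug (expo 1 (Mm m i) (sc Y p0 i))
      ≤ Real.exp (∑ i ∈ Finset.Ico (j + 1) J, (1 + Mm m i * (Y / 4 ^ i))) := by
    rw [Real.exp_sum]
    exact Finset.prod_le_prod (fun i _ => hcn i) fun i _ => aug_expo_le (by positivity) (hcard i)
  calc ((sc Y p0 j).card : ℝ) ^ Mm m j * ∏ i ∈ Finset.Ico (j + 1) J, aug (expo 1 (Mm m i) (sc Y p0 i))
      ≤ Real.exp (Mm m j * (Y / 4 ^ j))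
        * Real.exp (∑ i ∈ Finset.Ico (j + 1) J, (1 + Mm m i * (Y / 4 ^ i))) := by
        gcongr
        exact Finset.prod_nonneg fun i _ => hcn i
    _ ≤ _ := by
        rw [← Real.exp_add]
        apply Real.exp_le_exp.mpr
        rw [Finset.sum_add_distrib]
        simp only [Finset.sum_const, Nat.card_Ico, nsmul_eq_mul, mul_one]
        have h3 : (Mm m j : ℝ) * (Y / 4 ^ j) + ∑ i ∈ Finset.Ico (j + 1) J, (Mm m i : ℝ) * (Y / 4 ^ i)
            ≤ 2 * m * Y := by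
          have h4 : (Mm m j : ℝ) * (Y / 4 ^ j) + ∑ i ∈ Finset.Ico (j + 1) J, (Mm m i : ℝ) * (Y / 4 ^ i)
              = ∑ i ∈ Finset.Ico j J, (Mm m i : ℝ) * (Y / 4 ^ i) := by
            rw [Finset.sum_eq_sum_Ico_succ_bot hj (fun i => (Mm m i : ℝ) * (Y / 4 ^ i))]
          rw [h4]
          refine le_trans ?_ (sum_lenm m hY J)
          refine Finset.sum_le_sum_of_subset_of_nonneg ?_ fun i _ _ => by positivity
          intro i hi
          rw [Finset.mem_Ico] at hi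
          rw [Finset.mem_range]
          exact hi.2
        have h4 : ((J - (j + 1) : ℕ) : ℝ) ≤ J := by exact_mod_cast Nat.sub_le _ _
        linarith

lemma sizes_Dp (p0 K : ℕ) (hp0 : 1 ≤ p0) : ∃ C : ℝ, 1 ≤ C ∧ ∀ k : ℝ, 0 ≤ k → k ≤ 1 → ∀ (m : ℕ) (Y : ℝ),
    0 < Y → ∀ J j : ℕ, j < J →
    (∀ n, (Dp k K m p0 Y J j).coeff n ≠ 0 → 1 ≤ n ∧ (n : ℝ) ≤ C * Real.exp (2 * m * Y)) ∧
    nrm (Dp k K m p0 Y J j) ≤ C * Real.exp (J + 2 * m * Y) := by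
  have hlog : 0 ≤ Real.log p0 := Real.log_natCast_nonneg _
  set lam := (p0 : ℝ) * (K * Real.log p0) + p0 * Real.log p0 with hlam
  have hlam0 : 0 ≤ lam := by positivity
  set A0 := aug (B0 1 K p0) with hA0
  have hA00 : 0 ≤ A0 := aug_nonneg' (cone_B0 zero_le_one K hp0)
  set C := Real.exp lam + A0 * 2 ^ p0 with hC
  have hexp1 : 1 ≤ Real.exp lam := Real.one_le_exp hlam0
  have h2p : (0 : ℝ) ≤ A0 * 2 ^ p0 := by positivity
  have hClam : Real.exp lam ≤ C := by rw [hC]; linarith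
  have hC1 : 1 ≤ C := hexp1.trans hClam
  have hC2 : A0 * 2 ^ p0 ≤ C := by rw [hC]; linarith
  refine ⟨C, hC1, ?_⟩
  intro k hk0 hk1 m Y hY J j hj
  have habs : |(-(1 - k))| ≤ (1 : ℝ) := by
    rw [abs_le]
    constructor <;> linarith
  have dD : Dom (Dp k K m p0 Y J j) (B0 1 K p0 * Dsm' p0 * T1 m p0 1 Y J j) :=
    ((dom_B0 hk0 hk1 K p0).mul (dom_Dsm p0)).mul (dom_T1 m p0 habs Y J j)
  have cD : Cone (Len (lam + 2 * m * Y)) (B0 1 K p0 * Dsm' p0 * T1 m p0 1 Y J j) :=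
    ((cone_B0 zero_le_one K hp0).mul (cone_Dsm' hp0) fun x hx y hy => Len.mul hx hy).mul
      (cone_T1 m p0 zero_le_one hY hj) fun x hx y hy => Len.mul hx hy
  have aT := aug_T1 m p0 hY hj
  have aT0 : 0 ≤ aug (T1 m p0 1 Y J j) := aug_nonneg' (cone_T1 m p0 zero_le_one hY hj)
  constructor
  · intro n hn
    obtain ⟨h1, h2⟩ := sup_len_floor (dD.sup cD) n hn
    refine ⟨h1, h2.trans ?_⟩
    rw [Real.exp_add]
    exact mul_le_mul_of_nonneg_right hClam (Real.exp_pos _).le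
  · refine (nrm_le_aug dD).trans ?_
    rw [aug_mul, aug_mul]
    calc aug (B0 1 K p0) * aug (Dsm' p0) * aug (T1 m p0 1 Y J j)
        ≤ A0 * 2 ^ p0 * Real.exp (J + 2 * m * Y) := by
          have := aug_Dsm' p0
          gcongr
      _ ≤ _ := mul_le_mul_of_nonneg_right hC2 (Real.exp_pos _).le

/-! ### the direct energy of a piece -/

lemma Dp_supp (k : ℝ) (K m p0 : ℕ) (Y : ℝ) {J j : ℕ} (hj : j < J) :
    ∀ n, (Dp k K m p0 Y J j).coeff n ≠ 0 → 1 ≤ n := by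
  intro n hn
  have h : Sup (Smo (Set.univ : Set ℕ)) (Dp k K m p0 Y J j) :=
    ((sup_B0Dsm k K p0).mono (Smo_mono (Set.subset_univ _))).mul
      ((sup_T1 m p0 _ Y hj).mono (Smo_mono (Set.subset_univ _))) (fun a ha b hb => mul_mem_Smo ha hb)
  exact Smo_pos (h n hn)

lemma BK_zero_r (K : ℕ → ℕ → ℝ) (f : DP) : BK K f 0 = 0 := by
  have := BK_smul_right K 0 f 0
  simpa using this

lemma BK_zero_l (K : ℕ → ℕ → ℝ) (f : DP) : BK K 0 f = 0 := by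
  have := BK_smul_left K 0 0 f
  simpa using this

/-- scalar inequality behind the direct energy of a piece -/
lemma piece_scalar {κ x Q k V Z A P F W E X : ℝ} (hκ : 0 ≤ κ) (hZ0 : 0 ≤ Z) (hP0 : 0 ≤ P)
    (hF0 : 0 ≤ F) (hW0 : 0 ≤ W)
    (hZ : Z ≤ (1 + κ) * A) (hAP : A * P ≤ Real.exp (Q + 2 * V))
    (h1 : |X| ≤ W * Real.exp ((k ^ 2 - 1) * Q + x))
    (h3 : Real.exp (k ^ 2 * Q - x) ≤ E) :
    Z * (P * F * X) ≤ (1 + κ) * Real.exp (2 * x + 2 * V) * (W * (F * E)) := by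
  have hX : X ≤ W * Real.exp ((k ^ 2 - 1) * Q + x) := (le_abs_self _).trans h1
  calc Z * (P * F * X) ≤ Z * (P * F * (W * Real.exp ((k ^ 2 - 1) * Q + x))) := by gcongr
    _ ≤ ((1 + κ) * A) * (P * F * (W * Real.exp ((k ^ 2 - 1) * Q + x))) :=
        mul_le_mul_of_nonneg_right hZ (by positivity)
    _ = (1 + κ) * ((A * P) * (F * (W * Real.exp ((k ^ 2 - 1) * Q + x)))) := by ring
    _ ≤ (1 + κ) * (Real.exp (Q + 2 * V) * (F * (W * Real.exp ((k ^ 2 - 1) * Q + x)))) := by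
        have : A * P * (F * (W * Real.exp ((k ^ 2 - 1) * Q + x)))
            ≤ Real.exp (Q + 2 * V) * (F * (W * Real.exp ((k ^ 2 - 1) * Q + x))) :=
          mul_le_mul_of_nonneg_right hAP (by positivity)
        gcongr
    _ = (1 + κ) * Real.exp (2 * x + 2 * V) * (W * (F * Real.exp (k ^ 2 * Q - x))) := by
        have e : Real.exp (Q + 2 * V) * Real.exp ((k ^ 2 - 1) * Q + x)
            = Real.exp (2 * x + 2 * V) * Real.exp (k ^ 2 * Q - x) := by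
          rw [← Real.exp_add, ← Real.exp_add]; congr 1; ring
        calc (1 + κ) * (Real.exp (Q + 2 * V) * (F * (W * Real.exp ((k ^ 2 - 1) * Q + x))))
            = (1 + κ) * (F * W) * (Real.exp (Q + 2 * V) * Real.exp ((k ^ 2 - 1) * Q + x)) := by ring
          _ = (1 + κ) * (F * W) * (Real.exp (2 * x + 2 * V) * Real.exp (k ^ 2 * Q - x)) := by rw [e]
          _ = _ := by ring
    _ ≤ _ := by gcongr

end Pool.Agent.Lib.NL
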