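import Mathlib
import Pool.Agent.Lib.MP_f9aece_nt_nl.M2
import Pool.Agent.Lib.MP_f9aece_nt_h5.EvS

/-!
NearLine, module M: mean of the first weight.
-/

set_option autoImplicit false

namespace Pool.Agent.Lib.NL

open MeasureTheory Set Filter Topology Complex
open Pool.Agent.Lib.MP_f9aece_nt Pool.Agent.Lib.MP_f9aece_nt_h97
open Pool.Agent.Lib.MP_f9aece_nt_h5

lemma er2_small : ∃ m1 p1 : ℕ, 4000 ≤ m1 ∧ 2 ≤ p1 ∧ ∀ m : ℕ, m1 ≤ m → ∀ p0 : ℕ, p1 ≤ p0 →
    cC 1 / p0 + 4 * (cT 1 / 2 ^ m) ≤ 1 ∧ cT 1 / 2 ^ m ≤ 1 / 2 ∧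
    2 * (cB 1 + cE 1) ≤ (p0 : ℝ) := by
  have hC := cC_pos 1
  have hT := cT_pos 1
  obtain ⟨m1, p1, hm14, hp12, h⟩ := er_small (cC 1 + 4 * cT 1) 1 (by linarith) one_pos
  obtain ⟨n, hn⟩ := pow_unbounded_of_one_lt (2 * cT 1) (one_lt_two (α := ℝ))
  refine ⟨max m1 n, max p1 (⌈2 * (cB 1 + cE 1)⌉₊), hm14.trans (le_max_left _ _),
    hp12.trans (le_max_left _ _), ?_⟩
  intro m hm p0 hp0
  have h1 := h m ((le_max_left _ _).trans hm) p0 ((le_max_left _ _).trans hp0)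
  have hp02 : 2 ≤ p0 := hp12.trans ((le_max_left _ _).trans hp0)
  have hp0p : (0 : ℝ) < p0 := by exact_mod_cast (by omega : 0 < p0)
  refine ⟨?_, ?_, ?_⟩
  · refine le_trans ?_ h1
    unfold er
    have a1 : cC 1 * (1 / p0) ≤ (cC 1 + 4 * cT 1) * (1 / p0) := by
      gcongr
      linarith
    have a2 : (4 * cT 1) * (1 / 2 ^ m) ≤ (cC 1 + 4 * cT 1) * (1 / 2 ^ m) := by
      gcongr
      linarith
    have e1 : cC 1 / p0 = cC 1 * (1 / p0) := by ring
    have e2 : 4 * (cT 1 / 2 ^ m) = (4 * cT 1) * (1 / 2 ^ m) := by ring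
    rw [e1, e2, mul_add]
    linarith
  · rw [div_le_iff₀ (by positivity)]
    have : (2 : ℝ) ^ n ≤ 2 ^ m := pow_le_pow_right₀ (by norm_num) ((le_max_right _ _).trans hm)
    linarith
  · refine (Nat.le_ceil _).trans ?_
    exact_mod_cast (le_max_right _ _).trans hp0

/-- Mertens' lower bound over the scales -/
lemma QT_one_lower (p0 : ℕ) : ∃ c : ℝ, 0 ≤ c ∧ ∀ Y : ℝ, 4 ≤ Y → ∀ J : ℕ, Y / 4 ^ J < Real.log 2 →
    Real.log Y - c ≤ QT 1 p0 Y J := by
  obtain ⟨c', hc'⟩ := prime_sum_lower p0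
  refine ⟨max c' 0, le_max_right _ _, ?_⟩
  intro Y hY J hJ
  have hY0 : 0 < Y := by linarith
  have h1 := hc' (1 / Y) (by positivity) (by
    rw [div_le_div_iff₀ hY0 (by norm_num)]
    linarith) (Real.exp Y) (by rw [one_div_one_div])
  rw [one_div_one_div] at h1
  rw [QT_eq hY0 hJ]
  have h2 : ∑ p ∈ (Finset.Ioc p0 ⌊Real.exp Y⌋₊).filter Nat.Prime, (p : ℝ) ^ (-(1 + 2 * (1 / Y)))
      ≤ ∑ p ∈ (Finset.Ioc p0 ⌊Real.exp Y⌋₊).filter Nat.Prime, (p : ℝ) ^ (-(1 : ℝ)) := by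
    refine Finset.sum_le_sum fun p hp => ?_
    have hp1 : 1 ≤ p := (Finset.mem_filter.mp hp).2.one_le
    refine Real.rpow_le_rpow_of_exponent_le (by exact_mod_cast hp1) ?_
    have : 0 ≤ 2 * (1 / Y) := by positivity
    linarith
  have h3 : c' ≤ max c' 0 := le_max_left _ _
  linarith

/-- the mean square of `zeta` times a piece -/
theorem piece_mean (hA : ScaleForms) : ∃ C2 : ℝ, 2 ≤ C2 ∧ ∃ m1 p1 : ℕ, 4000 ≤ m1 ∧ 2 ≤ p1 ∧
    ∀ m : ℕ, m1 ≤ m → ∀ p0 : ℕ, p1 ≤ p0 → ∀ K : ℕ, ∃ Λ Y0 : ℝ, 1 ≤ Λ ∧ 1 ≤ Y0 ∧ ∀ Y : ℝ, Y0 ≤ Y →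
    ∀ J : ℕ, (J : ℝ) ≤ Y + 3 → Y / 4 ^ J < Real.log 2 → ∀ δ : ℝ, Λ / (160 * m * Y) ≤ δ → δ ≤ 1 / 4 →
    ∀ k : ℝ, 0 < k → k ≤ 1 → ∀ j : ℕ, j < J →
    ∫ t in (0 : ℝ)..Real.exp (160 * m * Y),
      ‖riemannZeta (pt δ t) * evs (pt δ t) (Dp k K m p0 Y J j)‖ ^ 2
      ≤ C2 * Wm m j * (Real.exp (160 * m * Y) * EN k K m p0 Y J (1 + 2 * δ)) := by
  obtain ⟨C, T1', hC, hT1, hoff⟩ := off_mean
  obtain ⟨CA, hCA, mA, pA, hmA4, hpA2, hforms⟩ := hA 1 le_rfl
  obtain ⟨mE, pE, hmE4, hpE2, her⟩ := er_small CA 1 (by linarith) one_pos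
  obtain ⟨mR, pR, hmR4, hpR2, hR⟩ := er2_small
  obtain ⟨C0, hzt⟩ := zeta_tail 1 one_pos
  refine ⟨2 * Real.exp 3 * C + 2, by
    have : 0 ≤ 2 * Real.exp 3 * C := by positivity
    linarith, max mA (max mE mR), max pA (max pE pR), hmA4.trans (le_max_left _ _),
    hpA2.trans (le_max_left _ _), ?_⟩
  intro m hm p0 hp0 K
  have hmA : mA ≤ m := (le_max_left _ _).trans hm
  have hmE : mE ≤ m := ((le_max_left _ _).trans (le_max_right _ _)).trans hm
  have hmR : mR ≤ m := ((le_max_right _ _).trans (le_max_right _ _)).trans hm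
  have hpA : pA ≤ p0 := (le_max_left _ _).trans hp0
  have hpE : pE ≤ p0 := ((le_max_left _ _).trans (le_max_right _ _)).trans hp0
  have hpR : pR ≤ p0 := ((le_max_right _ _).trans (le_max_right _ _)).trans hp0
  have hp02 : 2 ≤ p0 := hpA2.trans hpA
  have hm4000 : 4000 ≤ m := hmA4.trans hmA
  obtain ⟨hR1, hR2, hR3⟩ := hR m hmR p0 hpR
  obtain ⟨CD, hCD1, hsz⟩ := sizes_Dp p0 K (by omega)
  obtain ⟨c', hc'⟩ := prime_sum_lower p0
  set c := max c' 0 with hc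
  have hc0 : 0 ≤ c := le_max_right _ _
  have hcc : c' ≤ c := le_max_left _ _
  obtain ⟨cq, hcq0, hcq⟩ := QT_one_lower p0
  have hm0 : (0 : ℝ) < m := by exact_mod_cast (by omega : 0 < m)
  have hm4 : (4000 : ℝ) ≤ m := by exact_mod_cast hm4000
  have hp00 : (0 : ℝ) < p0 := by exact_mod_cast (by omega : 0 < p0)
  have hL1 : 0 < cL 1 := cL_pos le_rfl
  have hG0 := Gs_nonneg K p0
  set d := c + 1 with hd
  have hd0 : 0 ≤ d := by positivity
  set C1 := Gs K p0 * ((1 + 4 * m + 3 * cL 1) * Real.exp (cq + 1)) with hC1d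
  have hC1 : 0 ≤ C1 := by positivity
  -- choice of Λ
  set A2 := C * (C1 * (2 + 160 * m) * Real.exp d) with hA2
  have hA20 : 0 ≤ A2 := by positivity
  have hlimΛ : ∀ᶠ L : ℝ in atTop, A2 * (L ^ 1 * Real.exp (-L)) ≤ 1 := by
    have h1 := (Real.tendsto_pow_mul_exp_neg_atTop_nhds_zero 1).const_mul A2
    rw [mul_zero] at h1
    exact h1.eventually (eventually_le_nhds (by positivity))
  obtain ⟨Λ1, hΛ1⟩ := hlimΛ.exists_forall_of_atTop
  set Λ := max (max 1 Λ1) (max (160 * m) (160 * m * C0)) with hΛ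
  have hΛge1 : 1 ≤ Λ := (le_max_left _ _).trans (le_max_left _ _)
  have hΛgeΛ1 : Λ1 ≤ Λ := (le_max_right _ _).trans (le_max_left _ _)
  have hΛge160 : 160 * (m : ℝ) ≤ Λ := (le_max_left _ _).trans (le_max_right _ _)
  have hΛgeB : 160 * m * C0 ≤ Λ := (le_max_right _ _).trans (le_max_right _ _)
  have hΛ0 : 0 < Λ := by linarith
  -- choice of Y0
  set A3 := C * ((CD ^ 2) ^ 2 * Real.exp (6 * 1) * Real.exp d) with hA3
  have hA30 : 0 ≤ A3 := by positivity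
  have hlimY : ∀ᶠ Y : ℝ in atTop, A3 * Real.exp (-Y) ≤ 1 := by
    have h1 := (Real.tendsto_exp_neg_atTop_nhds_zero).const_mul A3
    rw [mul_zero] at h1
    exact h1.eventually (eventually_le_nhds (by positivity))
  obtain ⟨Y1, hY1⟩ := (hlimY.and ((eventually_ge_atTop 4).and ((eventually_ge_atTop (Real.log T1')).and
    ((eventually_ge_atTop (Real.log CD)).and
    (eventually_ge_atTop (p0 : ℝ)))))).exists_forall_of_atTop
  refine ⟨Λ, max 1 Y1, hΛge1, le_max_left _ _, ?_⟩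
  intro Y hY J hJ hJ4 δ hδΛ hδ4 k hk0 hk1 j hj
  obtain ⟨hY2, hY3', hY4, hY6, hY7⟩ := hY1 Y ((le_max_right _ _).trans hY)
  have hY3 : 1 ≤ Y := by linarith
  have hYp : 0 < Y := by linarith
  set X := 160 * m * Y with hX
  have hXp : 0 < X := by positivity
  have hδ0 : 0 < δ := lt_of_lt_of_le (by positivity) hδΛ
  set u := δ * X with hu
  have huΛ : Λ ≤ u := by rwa [div_le_iff₀ hXp] at hδΛ
  have hu1 : 1 ≤ u := hΛge1.trans huΛ
  have hu0 : 0 < u := by linarith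
  have hδY : δ * Y = u / (160 * m) := by rw [hu, hX]; field_simp
  have hδYB : C0 ≤ δ * Y := by
    rw [hδY, le_div_iff₀ (by positivity)]
    linarith
  have hδY1 : 1 ≤ δ * Y := by
    rw [hδY, le_div_iff₀ (by positivity)]
    linarith
  have hyexp : 1 / δ ≤ Y := by
    rw [div_le_iff₀ hδ0]
    linarith
  have hYX : Y ≤ X := le_mul_of_one_le_left hYp.le (by linarith)
  have hs : (1 : ℝ) ≤ 1 + 2 * δ := by linarith
  have hs1 : (1 : ℝ) < 1 + 2 * δ := by linarith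
  obtain ⟨g1, g2, g3, g4, _⟩ := hforms m hmA p0 hpA k hk0.le (by exact_mod_cast hk1) Y hYp J (1 + 2 * δ) hs
  have hQ : Real.log (1 / δ) - c ≤ QT (1 + 2 * δ) p0 Y J := by
    rw [QT_eq hYp hJ4]
    have := hc' δ hδ0 hδ4 (Real.exp Y) (Real.exp_le_exp.mpr hyexp)
    linarith
  have hElow := EN_lower (K := K) (N := 1) g3 (her m hmE p0 hpE) hk0.le (by exact_mod_cast hk1) hc0 hδ0 hQ
  have hde : ((1 : ℕ) : ℝ) ^ 2 * c + 1 = d := by rw [hd]; push_cast; ring
  rw [hde] at hElow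
  set E := EN k K m p0 Y J (1 + 2 * δ) with hE
  have hXu : X / u = 1 / δ := by rw [hu]; field_simp
  have hEX : (X / u) ^ (k ^ 2) * Real.exp (-d) ≤ E := by rw [hXu]; exact hElow
  have hE1 : 1 ≤ E * Real.exp d := by
    have h1 : 1 ≤ (1 / δ) ^ (k ^ 2) := by
      apply Real.one_le_rpow _ (by positivity)
      rw [le_div_iff₀ hδ0]
      linarith
    calc (1 : ℝ) = 1 * Real.exp (-d) * Real.exp d := by rw [mul_assoc, ← Real.exp_add]; simp
      _ ≤ (1 / δ) ^ (k ^ 2) * Real.exp (-d) * Real.exp d := by gcongr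
      _ ≤ _ := by gcongr
  have hE0 : 0 < E := lt_of_lt_of_le (by positivity) hElow
  set T := Real.exp X with hT
  have hTp : 0 < T := Real.exp_pos _
  obtain ⟨hDs, hnrm⟩ := hsz k hk0.le hk1 m Y hYp J j hj
  set D := Dp k K m p0 Y J j with hD
  set W := Wm m j with hW
  have hW1 : 1 ≤ W := one_le_Wm (by omega) j
  have hW0 : 0 < W := by linarith
  -- forms of the piece
  have hck : |(-(1 - k))| ≤ (1 : ℝ) := by rw [abs_le]; constructor <;> linarith
  have hk2 : 0 ≤ k ^ 2 := sq_nonneg k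
  have hk21 : k ^ 2 ≤ 1 := pow_le_one₀ hk0.le hk1
  have hμB : |k ^ 2 - 1| ≤ cB 1 := by
    unfold cB
    rw [abs_le]
    constructor <;> linarith
  have hT1s := T1_form (J := J) (j := j) (μ := k ^ 2 - 1) (k3_K2s hs) hs le_rfl hck
    (by ring) hμB (by linarith) (by linarith) hYp (by omega) hR3 (by omega) hR2 hj
  have hT12 := T1_form (J := J) (j := j) (μ := k ^ 2 - 1) k3_K2 le_rfl le_rfl hck
    (by ring) hμB (by linarith) (by linarith) hYp (by omega) hR3 (by omega : 12 ≤ m) hR2 hj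
  have hT1g := T1_Kg (J := J) (j := j) (μ := k ^ 2 - 1) le_rfl hck
    (by ring) hμB (by linarith) (by linarith) hYp (by omega) hR3 (by omega : 12 ≤ m) hR2 hj
  rw [← hW] at hT1s hT12 hT1g
  -- the dual forms
  have hq1 := hcq Y hY3' J hJ4
  have hYk : Real.exp ((k ^ 2 - 1) * QT 1 p0 Y J + (cC 1 / p0 + 4 * (cT 1 / 2 ^ m)))
      ≤ Real.exp (cq + 1) * Y ^ (k ^ 2 - 1) := by
    rw [Real.rpow_def_of_pos hYp, ← Real.exp_add]
    apply Real.exp_le_exp.mpr
    have h1 : (1 - k ^ 2) * (Real.log Y - cq) ≤ (1 - k ^ 2) * QT 1 p0 Y J := by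
      have : 0 ≤ 1 - k ^ 2 := by linarith
      gcongr
    have h2 : (1 - k ^ 2) * cq ≤ 1 * cq := by
      gcongr
      linarith
    linarith
  set a := W * Real.exp ((k ^ 2 - 1) * QT 1 p0 Y J + (cC 1 / p0 + 4 * (cT 1 / 2 ^ m))) with ha
  have ha0 : 0 ≤ a := by positivity
  obtain ⟨hf1, hf2⟩ := form_dual hk0.le hk1 K m p0 Y hj hT12 hT1g
  rw [← hD] at hf1 hf2
  have haW : a ≤ W * (Real.exp (cq + 1) * Y ^ (k ^ 2 - 1)) := by
    rw [ha]
    gcongr
  have hYk0 : 0 < Y ^ (k ^ 2 - 1) := by positivity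
  have hb1 : |BK K2 D D| / W ≤ C1 * Y ^ (k ^ 2 - 1) := by
    rw [div_le_iff₀ hW0]
    calc |BK K2 D D| ≤ Gs K p0 * a := hf1
      _ ≤ Gs K p0 * (W * (Real.exp (cq + 1) * Y ^ (k ^ 2 - 1))) := by gcongr
      _ = Gs K p0 * (1 * Real.exp (cq + 1)) * Y ^ (k ^ 2 - 1) * W := by ring
      _ ≤ _ := by
          rw [hC1d]
          gcongr
          have : 0 ≤ 4 * (m : ℝ) + 3 * cL 1 := by positivity
          linarith
  have hb2 : |BK Kg D D| / W ≤ C1 * Y ^ (k ^ 2) := by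
    rw [div_le_iff₀ hW0]
    have e1 : Y ^ (k ^ 2) = Y * Y ^ (k ^ 2 - 1) := by
      rw [Real.rpow_sub_one hYp.ne']
      field_simp
    have h5 : a + (4 * m * Y + cL 1 * (Y + 2)) * a ≤ ((1 + 4 * m + 3 * cL 1) * Y) * a := by
      have h6 : 1 + (4 * m * Y + cL 1 * (Y + 2)) ≤ (1 + 4 * m + 3 * cL 1) * Y := by
        have h7 : cL 1 * (Y + 2) ≤ cL 1 * (3 * Y) := by
          gcongr
          linarith
        linarith
      calc a + (4 * m * Y + cL 1 * (Y + 2)) * a = (1 + (4 * m * Y + cL 1 * (Y + 2))) * a := by ring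
        _ ≤ _ := by gcongr
    calc |BK Kg D D| ≤ Gs K p0 * (a + (4 * m * Y + cL 1 * (Y + 2)) * a) := hf2
      _ ≤ Gs K p0 * (((1 + 4 * m + 3 * cL 1) * Y) * (W * (Real.exp (cq + 1) * Y ^ (k ^ 2 - 1)))) := by
          refine mul_le_mul_of_nonneg_left (h5.trans ?_) hG0
          gcongr
      _ = _ := by rw [hC1d, e1]; ring
  -- the direct energy
  have hfl : p0 ≤ ⌊Real.exp Y⌋₊ := by
    apply Nat.le_floor
    have := Real.add_one_le_exp Y
    linarith
  have hexpY : Real.exp (C0 / δ) ≤ Real.exp Y := by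
    apply Real.exp_le_exp.mpr
    rw [div_le_iff₀ hδ0]
    linarith
  have hZ := hzt δ hδ0 hδ4 (Real.exp Y) hexpY
  have h5 := euler_le (s := 1 + 2 * δ) (J := J) hYp hJ4 hs hfl
  set V := ∑ i ∈ Finset.range J, V2 (sc Y p0 i) with hV
  have hV1 : V ≤ 1 / 2 := by
    refine (sum_V2_sc hYp hp02).trans ?_
    rw [div_le_div_iff₀ hp00 (by norm_num)]
    have : (2 : ℝ) ≤ p0 := by exact_mod_cast hp02
    linarith
  set AA := ∏ p ∈ (Finset.Ioc 0 ⌊Real.exp Y⌋₊).filter Nat.Prime, (1 - (p : ℝ) ^ (-(1 + 2 * δ)))⁻¹ with hAA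
  have hZr : Zr (1 + 2 * δ) ≤ (1 + 1) * AA := by
    rw [← Zr_eq hs1]
    push_cast
    exact hZ
  set P := ∏ p ∈ Psm p0, (1 - (p : ℝ) ^ (-(1 + 2 * δ))) with hP
  have hP0 : 0 ≤ P := Finset.prod_nonneg fun p hp => by
    obtain ⟨_, _, h⟩ := q_bounds (Psm_prime p hp) hs
    linarith
  obtain ⟨_, _, e3⟩ := smallForms k K m p0 Y J (1 + 2 * δ) hs
  have hF1 := one_le_F0 k K p0 (1 + 2 * δ)
  have hWs : ∀ L : ℕ, ∑ M ∈ Finset.Icc 1 L, eM D 0 M ^ 2 * (M : ℝ) ^ (-(2 * (1 / 2 + δ)))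
      ≤ 2 * Real.exp 3 * (W * E) := by
    intro L
    have hexp2 : -(2 * (1 / 2 + δ)) = -(1 + 2 * δ) := by ring
    rw [hexp2]
    have hsum := eM_sum_le hs1 (B := 0) (Dp_supp k K m p0 Y hj) L
    rw [BK_zero_r, BK_zero_r, ← hD] at hsum
    refine hsum.trans ?_
    rw [hD, form_K2s hs k K m p0 Y hj]
    have hsc := piece_scalar (κ := 1) (x := 1) (Q := QT (1 + 2 * δ) p0 Y J) (k := k) (V := V)
      (Z := Zr (1 + 2 * δ)) (A := AA) (P := P) (F := F0 k K p0 (1 + 2 * δ)) (W := W)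
      (E := BK (K1s (1 + 2 * δ)) (DD m p0 k Y J) (DD m p0 k Y J))
      (X := BK (K2s (1 + 2 * δ)) (T1 m p0 (-(1 - k)) Y J j) (T1 m p0 (-(1 - k)) Y J j))
      zero_le_one (Zr_nonneg _) hP0 (by linarith) hW0.le hZr h5
      (hT1s.trans (by gcongr)) (le_trans (Real.exp_le_exp.mpr (by linarith [her m hmE p0 hpE])) g3)
    rw [← e3] at hsc
    have hfin : (1 + 1) * Real.exp (2 * 1 + 2 * V) * (W * E) ≤ 2 * Real.exp 3 * (W * E) := by
      have : Real.exp (2 * 1 + 2 * V) ≤ Real.exp 3 := Real.exp_le_exp.mpr (by linarith)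
      have h8 : 0 ≤ W * E := by positivity
      calc (1 + 1) * Real.exp (2 * 1 + 2 * V) * (W * E) ≤ (1 + 1) * Real.exp 3 * (W * E) := by gcongr
        _ = _ := by ring
    linarith
  -- the mean square
  set H := CD * Real.exp (2 * m * Y) with hH
  have hCD0 : 0 < CD := by linarith
  have hH1 : 1 ≤ H := by
    calc (1 : ℝ) = 1 * 1 := by ring
      _ ≤ _ := by
        rw [hH]
        gcongr
        exact Real.one_le_exp (by positivity)
  have hHT : H ≤ T ^ (1 / 4 : ℝ) := by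
    have e1 : T ^ (1 / 4 : ℝ) = Real.exp (40 * m * Y) := by
      rw [hT, ← Real.exp_mul, hX]; congr 1; ring
    rw [e1, hH]
    have h1 : CD ≤ Real.exp Y := by
      rwa [← Real.log_le_iff_le_exp hCD0]
    calc CD * Real.exp (2 * m * Y) ≤ Real.exp Y * Real.exp (2 * m * Y) := by gcongr
      _ = Real.exp (Y + 2 * m * Y) := by rw [← Real.exp_add]
      _ ≤ _ := by
          apply Real.exp_le_exp.mpr
          have : 1 * Y ≤ 38 * m * Y := by gcongr; linarith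
          linarith
  have hTT : T1' ≤ T := by
    rw [hT, ← Real.log_le_iff_le_exp (by linarith)]
    linarith
  have hmain := hoff T hTT (1 / 2 + δ) (by linarith) (by linarith) D 0 H (2 * Real.exp 3 * (W * E))
    hH1 hHT hDs (fun n hn => absurd rfl hn) hWs (by
      refine Continuous.integrableOn_Ioc ?_
      have c1 := continuous_zeta_line (σ := 1 / 2 + δ) (by linarith)
      have c2 := continuous_evs_line (σ := 1 / 2 + δ) (by linarith) D
      have c3 := continuous_evs_line (σ := 1 / 2 + δ) (by linarith) 0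
      exact ((c1.mul c2).sub c3).norm.pow 2)
  have hrew : ∀ t : ℝ, ‖riemannZeta (pt δ t) * evs (pt δ t) D‖ ^ 2
      = ‖riemannZeta (((1 / 2 + δ : ℝ) : ℂ) + I * t) * evs (((1 / 2 + δ : ℝ) : ℂ) + I * t) D
        - evs (((1 / 2 + δ : ℝ) : ℂ) + I * t) 0‖ ^ 2 := by
    intro t
    have e0 : evs (((1 / 2 + δ : ℝ) : ℂ) + I * t) (0 : DP) = 0 := by simp [evs]
    rw [e0, sub_zero]
    rfl
  simp_rw [hrew]
  refine hmain.trans ?_
  have hlogT : Real.log T = X := by rw [hT, Real.log_exp]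
  -- second term
  have hTδ : T ^ (-(7 / 4 * (1 / 2 + δ - 1 / 2))) ≤ Real.exp (-u) := by
    rw [hT, ← Real.exp_mul]
    apply Real.exp_le_exp.mpr
    have : X * -(7 / 4 * (1 / 2 + δ - 1 / 2)) = -(7 / 4 * u) := by rw [hu]; ring
    rw [this]
    linarith
  have t2 : C * (T ^ (-(7 / 4 * (1 / 2 + δ - 1 / 2))) * ((1 + Real.log T) * |BK K2 D D| + |BK Kg D D|))
      ≤ W * E := by
    rw [hlogT]
    have h6 := numE5 (n := 1) (c := d) (u := u) (k2 := k ^ 2) (m := (m : ℝ)) (η := 1)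
      (f1 := |BK K2 D D| / W) (f2 := |BK Kg D D| / W) hC hC1 hX hm0 hY3 hb1 hb2
      (by positivity) hu1 (by push_cast; exact hk21) hYX (by positivity) hEX (by positivity) hTδ hE0 hA2
      (hΛ1 u (hΛgeΛ1.trans huΛ))
    calc C * (T ^ (-(7 / 4 * (1 / 2 + δ - 1 / 2))) * ((1 + X) * |BK K2 D D| + |BK Kg D D|))
        = W * (C * (T ^ (-(7 / 4 * (1 / 2 + δ - 1 / 2)))
          * ((1 + X) * (|BK K2 D D| / W) + |BK Kg D D| / W))) := by
          field_simp
      _ ≤ W * (1 * E) := by gcongr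
      _ = _ := by ring
  -- third term
  have t3 : C * ((nrm D * H) ^ 2 / T ^ (1 / 16 : ℝ)) ≤ 1 * E := by
    refine numE6 (K := CD ^ 2) (m := (m : ℝ)) (Y := Y) (J := J) (N := 1) (c := d) hC (nrm_nonneg D)
      zero_le_one (by linarith) hY3 hJ ?_ (by linarith) ?_ hE1 hA3 hY2 hE0
    · calc nrm D * H ≤ (CD * Real.exp (J + 2 * m * Y)) * H := by gcongr
        _ = _ := by rw [hH, one_mul]; ring
    · rw [hT, ← Real.exp_mul, hX]; congr 1; ring
  have t4 : 1 * E ≤ W * E := by gcongr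
  calc C * T * (2 * Real.exp 3 * (W * E)
        + T ^ (-(7 / 4 * (1 / 2 + δ - 1 / 2))) * ((1 + Real.log T) * |BK K2 D D| + |BK Kg D D|)
        + (nrm D * H) ^ 2 / T ^ (1 / 16 : ℝ))
      = T * (2 * Real.exp 3 * C * (W * E) + C * (T ^ (-(7 / 4 * (1 / 2 + δ - 1 / 2)))
          * ((1 + Real.log T) * |BK K2 D D| + |BK Kg D D|))
        + C * ((nrm D * H) ^ 2 / T ^ (1 / 16 : ℝ))) := by ring
    _ ≤ T * (2 * Real.exp 3 * C * (W * E) + W * E + W * E) := by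
        have := t3.trans t4
        gcongr
    _ = _ := by ring

/-- **Module M.** -/
theorem upperA (hA : ScaleForms) (hE : OffCoreN) (hF : MeanN) (hK : UpEq) : UpperA := by
  intro η hη
  set η0 := min η 1 with hη0
  have hη00 : 0 < η0 := lt_min hη one_pos
  have hη01 : η0 ≤ 1 := min_le_right _ _
  have hη0η : η0 ≤ η := min_le_left _ _
  obtain ⟨C2, hC2, mP, pP, hmP4, hpP2, hpiece⟩ := piece_mean hA
  obtain ⟨mE, pE, hmE4, hpE2, hoff⟩ := hE 1 le_rfl (η0 ^ 2 / 64) (by positivity)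
  obtain ⟨mF, hmF4, hmean⟩ := hF 1 le_rfl (η0 / 8) (by positivity)
  have hC20 : 0 < C2 := by linarith
  obtain ⟨mW, hmW4, hwt⟩ := weights_small (ε := η0 / (2 * C2)) (by positivity)
  refine ⟨max (max mP mE) (max mF mW), max pP pE, hmP4.trans ((le_max_left _ _).trans (le_max_left _ _)),
    hpP2.trans (le_max_left _ _), ?_⟩
  intro m hm p0 hp0 K
  have hmP : mP ≤ m := ((le_max_left _ _).trans (le_max_left _ _)).trans hm
  have hmE : mE ≤ m := ((le_max_right _ _).trans (le_max_left _ _)).trans hm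
  have hmF : mF ≤ m := ((le_max_left _ _).trans (le_max_right _ _)).trans hm
  have hmW : mW ≤ m := ((le_max_right _ _).trans (le_max_right _ _)).trans hm
  have hpP : pP ≤ p0 := (le_max_left _ _).trans hp0
  have hpE : pE ≤ p0 := (le_max_right _ _).trans hp0
  have hp01 : 1 ≤ p0 := by
    have := hpP2.trans hpP
    omega
  have hm1 : 1 ≤ m := by
    have := hmP4.trans hmP
    omega
  obtain ⟨Λ1, Y1, hΛ1, hY1, hp⟩ := hpiece m hmP p0 hpP K
  obtain ⟨Λ2, Y2, hΛ2, hY2, ho⟩ := hoff m hmE p0 hpE K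
  obtain ⟨Y3, hY3, hme⟩ := hmean m hmF p0 hp01 K
  refine ⟨max Λ1 Λ2, max Y1 (max Y2 Y3), hΛ1.trans (le_max_left _ _), hY1.trans (le_max_left _ _), ?_⟩
  intro Y hY J hJ hJ4 δ hδΛ hδ4 k hk0 hk1
  have hYY1 : Y1 ≤ Y := (le_max_left _ _).trans hY
  have hYY2 : Y2 ≤ Y := ((le_max_left _ _).trans (le_max_right _ _)).trans hY
  have hYY3 : Y3 ≤ Y := ((le_max_right _ _).trans (le_max_right _ _)).trans hY
  have hYp : 0 < Y := by linarith
  have hm0 : (0 : ℝ) < m := by exact_mod_cast hm1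
  have hXp : 0 < 160 * m * Y := by positivity
  have hd1 : Λ1 / (160 * m * Y) ≤ δ := by
    refine le_trans ?_ hδΛ
    gcongr
    exact le_max_left _ _
  have hd2 : Λ2 / (160 * m * Y) ≤ δ := by
    refine le_trans ?_ hδΛ
    gcongr
    exact le_max_right _ _
  have hδ0 : 0 < δ := lt_of_lt_of_le (by positivity) hd1
  have hk1' : k ≤ ((1 : ℕ) : ℝ) := by exact_mod_cast hk1
  have h1 := ho Y hYY2 J hJ hJ4 δ hd2 hδ4 k hk0 hk1'
  obtain ⟨h2, h3, _⟩ := hme Y hYY3 J hJ k hk0 hk1' δ hδ0.le hδ4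
  have h4 := hp Y hYY1 J hJ hJ4 δ hd1 hδ4 k hk0 hk1
  set T := Real.exp (160 * m * Y) with hT
  have hTp : 0 < T := Real.exp_pos _
  set E := EN k K m p0 Y J (1 + 2 * δ) with hEd
  have hE0 : 0 < E := by linarith
  have hTE : 0 < T * E := by positivity
  -- continuity
  have cz := continuous_zeta_pt (δ := δ) (by linarith)
  have ce : ∀ D : DP, Continuous (fun t : ℝ => evs (pt δ t) D) := fun D => continuous_evs_pt hδ0.le D
  have cze : ∀ D : DP, Continuous (fun t : ℝ => ‖riemannZeta (pt δ t) * evs (pt δ t) D‖ ^ 2) :=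
    fun D => (cz.mul (ce D)).norm.pow 2
  -- expansion
  have hexp : ∀ t : ℝ, ‖riemannZeta (pt δ t) * evs (pt δ t) (B0 k K p0 * Dsm p0)‖ ^ 2
        * up (-(1 - k)) (Mm m) (Rm m) (fun j => Pj p0 Y (1 / 2 + δ) j t) J
      = ‖riemannZeta (pt δ t) * evs (pt δ t) (DN k K m p0 Y J)‖ ^ 2
        + ∑ j ∈ Finset.range J, qm m (-(1 - k)) j
          * ‖riemannZeta (pt δ t) * evs (pt δ t) (Dp k K m p0 Y J j)‖ ^ 2 := by
    intro t
    rw [hK m p0 (-(1 - k)) Y J δ t hδ0.le, mul_add, DN_eq, Finset.mul_sum]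
    congr 1
    · rw [evs_mul (pt δ t) (B0 k K p0 * Dsm p0) (DD _ _ _ _ _), ← mul_assoc,
        norm_mul (_ * _) (evs (pt δ t) (DD _ _ _ _ _)), mul_pow]
    · refine Finset.sum_congr rfl fun j _ => ?_
      unfold Dp
      rw [evs_mul (pt δ t) (B0 k K p0 * Dsm p0) (T1 _ _ _ _ _ _)]
      simp only [norm_mul]
      ring
  simp_rw [hexp]
  have i0 : IntervalIntegrable
      (fun t : ℝ => ‖riemannZeta (pt δ t) * evs (pt δ t) (DN k K m p0 Y J)‖ ^ 2) volume 0 T :=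
    (cze _).intervalIntegrable _ _
  have i1 : ∀ j ∈ Finset.range J, IntervalIntegrable
      (fun t : ℝ => qm m (-(1 - k)) j
        * ‖riemannZeta (pt δ t) * evs (pt δ t) (Dp k K m p0 Y J j)‖ ^ 2) volume 0 T :=
    fun j _ => Continuous.intervalIntegrable (continuous_const.mul (cze _)) _ _
  have i2 : IntervalIntegrable (fun t : ℝ => ∑ j ∈ Finset.range J, qm m (-(1 - k)) j
      * ‖riemannZeta (pt δ t) * evs (pt δ t) (Dp k K m p0 Y J j)‖ ^ 2) volume 0 T := by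
    refine Continuous.intervalIntegrable (continuous_finsetSum _ fun j _ => ?_) _ _
    exact continuous_const.mul (cze _)
  rw [intervalIntegral.integral_add i0 i2, intervalIntegral.integral_finsetSum i1]
  simp_rw [intervalIntegral.integral_const_mul]
  -- the main piece
  set τ := η0 / 8 with hτ
  have hτ0 : 0 < τ := by positivity
  have hmainI : ∫ t in (0 : ℝ)..T, ‖riemannZeta (pt δ t) * evs (pt δ t) (DN k K m p0 Y J)‖ ^ 2
      ≤ (1 + τ) * (∫ t in (0 : ℝ)..T, ‖evs (pt δ t) (BN k K m p0 Y J)‖ ^ 2)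
        + (1 + 1 / τ) * ∫ t in (0 : ℝ)..T, ‖riemannZeta (pt δ t) * evs (pt δ t) (DN k K m p0 Y J)
          - evs (pt δ t) (BN k K m p0 Y J)‖ ^ 2 := by
    have c1 : Continuous (fun t : ℝ => (1 + τ) * ‖evs (pt δ t) (BN k K m p0 Y J)‖ ^ 2) :=
      continuous_const.mul ((ce _).norm.pow 2)
    have c2 : Continuous (fun t : ℝ => (1 + 1 / τ) * ‖riemannZeta (pt δ t) * evs (pt δ t) (DN k K m p0 Y J)
          - evs (pt δ t) (BN k K m p0 Y J)‖ ^ 2) :=
      continuous_const.mul ((((cz.mul (ce _)).sub (ce _))).norm.pow 2)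
    rw [← intervalIntegral.integral_const_mul, ← intervalIntegral.integral_const_mul,
      ← intervalIntegral.integral_add (c1.intervalIntegrable _ _) (c2.intervalIntegrable _ _)]
    refine intervalIntegral.integral_mono_on hTp.le i0
      ((c1.add c2).intervalIntegrable _ _) fun t _ => ?_
    set z := riemannZeta (pt δ t) * evs (pt δ t) (DN k K m p0 Y J)
    set b := evs (pt δ t) (BN k K m p0 Y J)
    have h5 : ‖z‖ ≤ ‖b‖ + ‖z - b‖ := by
      calc ‖z‖ = ‖b + (z - b)‖ := by congr 1; ring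
        _ ≤ _ := norm_add_le _ _
    have h6 : ‖z‖ ^ 2 ≤ (‖b‖ + ‖z - b‖) ^ 2 := pow_le_pow_left₀ (norm_nonneg _) h5 2
    refine h6.trans ?_
    have h7 : 2 * (‖b‖ * ‖z - b‖) ≤ τ * ‖b‖ ^ 2 + 1 / τ * ‖z - b‖ ^ 2 := by
      have h8 : 0 ≤ (τ * ‖b‖ - ‖z - b‖) ^ 2 / τ := by positivity
      have h9 : (τ * ‖b‖ - ‖z - b‖) ^ 2 / τ = τ * ‖b‖ ^ 2 + 1 / τ * ‖z - b‖ ^ 2
          - 2 * (‖b‖ * ‖z - b‖) := by
        field_simp
        ring
      linarith
    nlinarith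
  have hmain : ∫ t in (0 : ℝ)..T, ‖riemannZeta (pt δ t) * evs (pt δ t) (DN k K m p0 Y J)‖ ^ 2
      ≤ (1 + η0 / 2) * (T * E) := by
    have h5 : ∫ t in (0 : ℝ)..T, ‖evs (pt δ t) (BN k K m p0 Y J)‖ ^ 2 ≤ (1 + η0 / 8) * (T * E) := by
      have := (abs_le.mp h3).2
      rw [hτ] at this
      linarith
    have h6 : (1 + 1 / τ) * (η0 ^ 2 / 64 * (T * E)) ≤ 9 * η0 / 64 * (T * E) := by
      have e1 : (1 + 1 / τ) * (η0 ^ 2 / 64 * (T * E)) = (η0 ^ 2 / 64 + 8 * η0 / 64) * (T * E) := by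
        rw [hτ]
        field_simp
      rw [e1]
      have : η0 ^ 2 ≤ η0 := by nlinarith
      gcongr
      linarith
    have hτ1 : 0 ≤ 1 + 1 / τ := by positivity
    calc _ ≤ (1 + τ) * ((1 + η0 / 8) * (T * E)) + (1 + 1 / τ) * (η0 ^ 2 / 64 * (T * E)) := by
          refine hmainI.trans ?_
          gcongr
      _ ≤ (1 + η0 / 8) * ((1 + η0 / 8) * (T * E)) + 9 * η0 / 64 * (T * E) := by
          rw [hτ] at h6 ⊢
          linarith
      _ = (1 + η0 / 4 + η0 ^ 2 / 64 + 9 * η0 / 64) * (T * E) := by ring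
      _ ≤ _ := by
          have : η0 ^ 2 ≤ η0 := by nlinarith
          exact mul_le_mul_of_nonneg_right (by linarith) hTE.le
  -- the pieces
  have hsum : ∑ j ∈ Finset.range J, qm m (-(1 - k)) j
      * (∫ t in (0 : ℝ)..T, ‖riemannZeta (pt δ t) * evs (pt δ t) (Dp k K m p0 Y J j)‖ ^ 2)
      ≤ η0 / 2 * (T * E) := by
    calc ∑ j ∈ Finset.range J, qm m (-(1 - k)) j
        * (∫ t in (0 : ℝ)..T, ‖riemannZeta (pt δ t) * evs (pt δ t) (Dp k K m p0 Y J j)‖ ^ 2)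
        ≤ ∑ j ∈ Finset.range J, (5 * (Real.exp (Rm m j) / Rm m j ^ (2 * Mm m j)) * Wm m j)
          * (C2 * (T * E)) := by
          refine Finset.sum_le_sum fun j hj => ?_
          rw [Finset.mem_range] at hj
          have h5 := h4 j hj
          have hck : |(-(1 - k))| ≤ (1 : ℝ) := by rw [abs_le]; constructor <;> linarith
          have hr0 : 0 ≤ Real.exp (Rm m j) / Rm m j ^ (2 * Mm m j) := by
            unfold Rm
            positivity
          have h6 : qm m (-(1 - k)) j ≤ 5 * (Real.exp (Rm m j) / Rm m j ^ (2 * Mm m j)) := by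
            unfold qm
            calc 5 * |(-(1 - k))| * (Real.exp (Rm m j) / Rm m j ^ (2 * Mm m j))
                ≤ 5 * 1 * (Real.exp (Rm m j) / Rm m j ^ (2 * Mm m j)) := by gcongr
              _ = _ := by ring
          have h7 : 0 ≤ ∫ t in (0 : ℝ)..T,
              ‖riemannZeta (pt δ t) * evs (pt δ t) (Dp k K m p0 Y J j)‖ ^ 2 :=
            intervalIntegral.integral_nonneg hTp.le fun _ _ => by positivity
          calc _ ≤ (5 * (Real.exp (Rm m j) / Rm m j ^ (2 * Mm m j)))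
                * (C2 * Wm m j * (T * E)) := by gcongr
            _ = _ := by ring
      _ = (∑ j ∈ Finset.range J, 5 * (Real.exp (Rm m j) / Rm m j ^ (2 * Mm m j)) * Wm m j)
          * (C2 * (T * E)) := by rw [Finset.sum_mul]
      _ ≤ (η0 / (2 * C2)) * (C2 * (T * E)) := by
          have := hwt m hmW J
          gcongr
      _ = _ := by field_simp
  calc _ ≤ (1 + η0 / 2) * (T * E) + η0 / 2 * (T * E) := add_le_add hmain hsum
    _ = (1 + η0) * (T * E) := by ring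
    _ ≤ _ := by gcongr

end Pool.Agent.Lib.NL
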