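import Mathlib
import Pool.Agent.Lib.MP_f9aece_nt_nl.C
import Pool.Agent.Lib.MP_f9aece_nt_h5.PrimeOff

/-!
The Dirichlet series of the squares of the divisor function, and the mean square of the model.
-/

set_option autoImplicit false

namespace Pool.Agent.Lib.NL

open MeasureTheory Set Filter Topology Complex
open Pool.Agent.Lib.MP_f9aece_nt Pool.Agent.Lib.MP_f9aece_nt_h97 Pool.Agent.Lib.MP_f9aece_nt_h40
open Pool.Agent.Lib.MP_f9aece_nt_h85 (Pst)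

namespace OS

lemma bk_nonneg {k : ℝ} (hk : 0 ≤ k) (i : ℕ) : 0 ≤ bk k i := by
  unfold bk
  exact Finset.prod_nonneg fun l _ => by positivity

lemma bk_mono {k k' : ℝ} (hk : 0 ≤ k) (h : k ≤ k') (i : ℕ) : bk k i ≤ bk k' i := by
  unfold bk
  refine Finset.prod_le_prod (fun l _ => by positivity) fun l _ => ?_
  gcongr

lemma bk_zero (k : ℝ) : bk k 0 = 1 := by simp [bk]

lemma bk_one (k : ℝ) : bk k 1 = k := by simp [bk]

lemma bk_pos {k : ℝ} (hk : 0 < k) (i : ℕ) : 0 < bk k i := by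
  unfold bk
  exact Finset.prod_pos fun l _ => by positivity

lemma bk_succ (k : ℝ) (i : ℕ) : bk k (i + 1) = bk k i * ((k + i) / (i + 1)) := by
  unfold bk
  rw [Finset.prod_range_succ]

lemma summable_bk {A : ℝ} (hA : 0 < A) : Summable (fun i : ℕ => bk A i ^ 2 * (1 / 2 : ℝ) ^ i) := by
  have hpos : ∀ i : ℕ, 0 < bk A i ^ 2 * (1 / 2 : ℝ) ^ i := fun i => by
    have := bk_pos hA i
    positivity
  refine summable_of_ratio_test_tendsto_lt_one (l := 1 / 2) (by norm_num)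
    (Eventually.of_forall fun i => (hpos i).ne') ?_
  have e : (fun i : ℕ => ‖bk A (i + 1) ^ 2 * (1 / 2 : ℝ) ^ (i + 1)‖ / ‖bk A i ^ 2 * (1 / 2 : ℝ) ^ i‖)
      = fun i : ℕ => (1 + (A - 1) * (1 / ((i : ℝ) + 1))) ^ 2 * (1 / 2) := by
    funext i
    rw [Real.norm_of_nonneg (hpos _).le, Real.norm_of_nonneg (hpos _).le, bk_succ]
    have h1 := bk_pos hA i
    have h2 : (0 : ℝ) < (i : ℝ) + 1 := by positivity
    have e1 : (A + i) / ((i : ℝ) + 1) = 1 + (A - 1) * (1 / ((i : ℝ) + 1)) := by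
      field_simp
      ring
    rw [e1, mul_pow, pow_succ (1 / 2 : ℝ) i]
    field_simp
  rw [e]
  have h := ((((tendsto_one_div_add_atTop_nhds_zero_nat (𝕜 := ℝ)).const_mul (A - 1)).const_add 1).pow
    2).mul_const (1 / 2 : ℝ)
  simpa using h

/-- local factor of the series -/
noncomputable def Lq (k q : ℝ) : ℝ := ∑' i : ℕ, bk k i ^ 2 * q ^ i

/-- error constant of the local factor -/
noncomputable def cS (A : ℝ) : ℝ := 4 * ∑' i : ℕ, bk A i ^ 2 * (1 / 2 : ℝ) ^ i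

/-- tail of the local factor -/
noncomputable def tK (A : ℝ) (K : ℕ) : ℝ :=
  ∑' i : ℕ, bk A (i + (K + 1)) ^ 2 * (1 / 2 : ℝ) ^ (i + (K + 1))

lemma cS_nonneg (A : ℝ) : 0 ≤ cS A := by
  unfold cS
  have : 0 ≤ ∑' i : ℕ, bk A i ^ 2 * (1 / 2 : ℝ) ^ i := tsum_nonneg fun i => by positivity
  positivity

lemma tK_nonneg (A : ℝ) (K : ℕ) : 0 ≤ tK A K := tsum_nonneg fun i => by positivity

lemma tK_tendsto (A : ℝ) : Tendsto (tK A) atTop (𝓝 0) :=
  (tendsto_sum_nat_add (fun i : ℕ => bk A i ^ 2 * (1 / 2 : ℝ) ^ i)).comp (tendsto_add_atTop_nat 1)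

section loc

variable {A k q : ℝ}

lemma term_le (hk0 : 0 ≤ k) (hk : k ≤ A) (hq0 : 0 ≤ q) (hq : q ≤ 1 / 2) (i : ℕ) :
    bk k i ^ 2 * q ^ i ≤ bk A i ^ 2 * (1 / 2 : ℝ) ^ i := by
  have h1 := bk_mono hk0 hk i
  have h2 := bk_nonneg hk0 i
  gcongr

lemma term_nonneg (hq0 : 0 ≤ q) (i : ℕ) : 0 ≤ bk k i ^ 2 * q ^ i := by positivity

lemma summable_Lq (hA : 0 < A) (hk0 : 0 ≤ k) (hk : k ≤ A) (hq0 : 0 ≤ q) (hq : q ≤ 1 / 2) :
    Summable (fun i : ℕ => bk k i ^ 2 * q ^ i) :=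
  Summable.of_nonneg_of_le (term_nonneg hq0) (term_le hk0 hk hq0 hq) (summable_bk hA)

lemma Lq_ge (hA : 0 < A) (hk0 : 0 ≤ k) (hk : k ≤ A) (hq0 : 0 ≤ q) (hq : q ≤ 1 / 2) :
    1 + k ^ 2 * q ≤ Lq k q := by
  have h := (summable_Lq hA hk0 hk hq0 hq).sum_le_tsum (Finset.range 2) fun i _ => term_nonneg hq0 i
  rw [Finset.sum_range_succ, Finset.sum_range_one, bk_zero, bk_one] at h
  unfold Lq
  simpa using h

lemma Fl_le_Lq (hA : 0 < A) (hk0 : 0 ≤ k) (hk : k ≤ A) (hq0 : 0 ≤ q) (hq : q ≤ 1 / 2) (K : ℕ) :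
    Fl k K q ≤ Lq k q :=
  (summable_Lq hA hk0 hk hq0 hq).sum_le_tsum (Finset.range (K + 1)) fun i _ => term_nonneg hq0 i

lemma one_le_Fl (hq0 : 0 ≤ q) (K : ℕ) : 1 ≤ Fl k K q := by
  unfold Fl
  have h : ∑ i ∈ Finset.range 1, bk k i ^ 2 * q ^ i ≤ ∑ i ∈ Finset.range (K + 1), bk k i ^ 2 * q ^ i :=
    Finset.sum_le_sum_of_subset_of_nonneg (Finset.range_subset_range.mpr (by omega))
      fun i _ _ => term_nonneg hq0 i
  rw [Finset.sum_range_one, bk_zero] at h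
  simpa using h

lemma Lq_le_Fl (hA : 0 < A) (hk0 : 0 ≤ k) (hk : k ≤ A) (hq0 : 0 ≤ q) (hq : q ≤ 1 / 2) (K : ℕ) :
    Lq k q ≤ Fl k K q * Real.exp (tK A K) := by
  have hs := summable_Lq hA hk0 hk hq0 hq
  have h1 : Lq k q = Fl k K q + ∑' i : ℕ, bk k (i + (K + 1)) ^ 2 * q ^ (i + (K + 1)) := by
    unfold Lq Fl
    exact (hs.sum_add_tsum_nat_add (K + 1)).symm
  have h2 : ∑' i : ℕ, bk k (i + (K + 1)) ^ 2 * q ^ (i + (K + 1)) ≤ tK A K := by
    unfold tK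
    refine Summable.tsum_le_tsum (fun i => term_le hk0 hk hq0 hq _) ?_ ?_
    · exact (summable_nat_add_iff (f := fun i : ℕ => bk k i ^ 2 * q ^ i) (K + 1)).mpr hs
    · exact (summable_nat_add_iff (f := fun i : ℕ => bk A i ^ 2 * (1 / 2 : ℝ) ^ i) (K + 1)).mpr
        (summable_bk hA)
  have h3 := one_le_Fl (k := k) hq0 K
  have h4 := Real.add_one_le_exp (tK A K)
  have h5 := tK_nonneg A K
  calc Lq k q ≤ Fl k K q + tK A K := by linarith
    _ ≤ Fl k K q + Fl k K q * tK A K := by nlinarith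
    _ = Fl k K q * (tK A K + 1) := by ring
    _ ≤ _ := by gcongr

lemma Lq_le (hA : 0 < A) (hk0 : 0 ≤ k) (hk : k ≤ A) (hq0 : 0 ≤ q) (hq : q ≤ 1 / 2) :
    Lq k q ≤ 1 + k ^ 2 * q + cS A * q ^ 2 := by
  have hs := summable_Lq hA hk0 hk hq0 hq
  have h1 : Lq k q = (1 + k ^ 2 * q) + ∑' i : ℕ, bk k (i + 2) ^ 2 * q ^ (i + 2) := by
    unfold Lq
    rw [← hs.sum_add_tsum_nat_add 2, Finset.sum_range_succ, Finset.sum_range_one, bk_zero, bk_one]
    simp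
  have hsA := summable_bk hA
  have hsA2 := (summable_nat_add_iff (f := fun i : ℕ => bk A i ^ 2 * (1 / 2 : ℝ) ^ i) 2).mpr hsA
  have h2 : ∑' i : ℕ, bk k (i + 2) ^ 2 * q ^ (i + 2)
      ≤ ∑' i : ℕ, (4 * q ^ 2) * (bk A (i + 2) ^ 2 * (1 / 2 : ℝ) ^ (i + 2)) := by
    refine Summable.tsum_le_tsum (fun i => ?_) ?_ ?_
    · have h3 := bk_mono hk0 hk (i + 2)
      have h4 := bk_nonneg hk0 (i + 2)
      have e1 : (4 * q ^ 2) * (bk A (i + 2) ^ 2 * (1 / 2 : ℝ) ^ (i + 2))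
          = bk A (i + 2) ^ 2 * ((1 / 2 : ℝ) ^ i * q ^ 2) := by
        rw [pow_add (1 / 2 : ℝ) i 2]; ring
      rw [e1, pow_add q i 2]
      gcongr
    · exact (summable_nat_add_iff (f := fun i : ℕ => bk k i ^ 2 * q ^ i) 2).mpr hs
    · exact hsA2.mul_left _
  rw [tsum_mul_left] at h2
  have h3 : ∑' i : ℕ, bk A (i + 2) ^ 2 * (1 / 2 : ℝ) ^ (i + 2) ≤ ∑' i : ℕ, bk A i ^ 2 * (1 / 2 : ℝ) ^ i := by
    rw [← hsA.sum_add_tsum_nat_add 2]
    have : 0 ≤ ∑ i ∈ Finset.range 2, bk A i ^ 2 * (1 / 2 : ℝ) ^ i :=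
      Finset.sum_nonneg fun i _ => by positivity
    linarith
  have h4 : (4 * q ^ 2) * ∑' i : ℕ, bk A (i + 2) ^ 2 * (1 / 2 : ℝ) ^ (i + 2) ≤ cS A * q ^ 2 := by
    unfold cS
    calc (4 * q ^ 2) * ∑' i : ℕ, bk A (i + 2) ^ 2 * (1 / 2 : ℝ) ^ (i + 2)
        ≤ (4 * q ^ 2) * ∑' i : ℕ, bk A i ^ 2 * (1 / 2 : ℝ) ^ i := by gcongr
      _ = _ := by ring
  linarith

end loc

/-! ### the Euler product -/

section euler

variable {k s A : ℝ}

/-- terms of the series -/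
noncomputable def fk (k s : ℝ) (n : ℕ) : ℝ := dk k n ^ 2 * (n : ℝ) ^ (-s)

lemma fk_nonneg (k s : ℝ) (n : ℕ) : 0 ≤ fk k s n := by unfold fk; positivity

lemma dk_one' (k : ℝ) : dk k 1 = 1 := by simp [dk]

lemma dk_mul' {a b : ℕ} (h : Nat.Coprime a b) : dk k (a * b) = dk k a * dk k b := by
  unfold dk
  rw [Nat.factorization_mul_of_coprime h]
  refine Finsupp.prod_add_index_of_disjoint ?_ _
  simpa using h.disjoint_primeFactors

lemma dk_pow' {p : ℕ} (hp : p.Prime) (i : ℕ) : dk k (p ^ i) = bk k i := by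
  unfold dk
  rw [hp.factorization_pow]
  exact Finsupp.prod_single_index (bk_zero k)

lemma fk_one (k s : ℝ) : fk k s 1 = 1 := by
  unfold fk
  rw [dk_one']
  simp

lemma fk_zero (k : ℝ) (hs : 1 ≤ s) : fk k s 0 = 0 := by
  unfold fk
  rw [Nat.cast_zero, Real.zero_rpow (by linarith)]
  ring

lemma fk_mul {a b : ℕ} (h : Nat.Coprime a b) : fk k s (a * b) = fk k s a * fk k s b := by
  unfold fk
  rw [dk_mul' h]
  push_cast
  rw [Real.mul_rpow (Nat.cast_nonneg _) (Nat.cast_nonneg _)]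
  ring

lemma fk_pow {p : ℕ} (hp : p.Prime) (i : ℕ) : fk k s (p ^ i) = bk k i ^ 2 * ((p : ℝ) ^ (-s)) ^ i := by
  unfold fk
  rw [dk_pow' hp, prime_rpow_pow hp]

lemma q_half (hs : 1 ≤ s) {p : ℕ} (hp : p.Prime) : 0 ≤ (p : ℝ) ^ (-s) ∧ (p : ℝ) ^ (-s) ≤ 1 / 2 := by
  obtain ⟨h0, _, h2⟩ := q_bounds hp hs
  exact ⟨h0.le, h2⟩

/-- the sum over smooth numbers -/
lemma hasSum_smooth (hA : 0 < A) (hk0 : 0 ≤ k) (hk : k ≤ A) (hs : 1 ≤ s) (n : ℕ) :
    HasSum ((Nat.smoothNumbers n).indicator (fk k s))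
      (∏ p ∈ n.primesBelow, Lq k ((p : ℝ) ^ (-s))) := by
  have hsum : ∀ {p : ℕ}, p.Prime → Summable (fun n : ℕ => ‖fk k s (p ^ n)‖) := by
    intro p hp
    obtain ⟨h0, h1⟩ := q_half hs hp
    refine (summable_Lq hA hk0 hk h0 h1).congr fun i => ?_
    rw [Real.norm_of_nonneg (fk_nonneg _ _ _), fk_pow hp]
  have h := (EulerProduct.summable_and_hasSum_smoothNumbers_prod_primesBelow_tsum (f := fk k s)
    (fk_one k s) (fun h => fk_mul h) hsum n).2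
  have e : ∏ p ∈ n.primesBelow, ∑' i : ℕ, fk k s (p ^ i)
      = ∏ p ∈ n.primesBelow, Lq k ((p : ℝ) ^ (-s)) := by
    refine Finset.prod_congr rfl fun p hp => ?_
    unfold Lq
    exact tsum_congr fun i => fk_pow (Nat.prime_of_mem_primesBelow hp) i
  rw [e] at h
  exact hasSum_subtype_iff_indicator.mp h

lemma sum_range_le (hA : 0 < A) (hk0 : 0 ≤ k) (hk : k ≤ A) (hs : 1 ≤ s) (n : ℕ) :
    ∑ i ∈ Finset.range n, fk k s i ≤ ∏ p ∈ n.primesBelow, Lq k ((p : ℝ) ^ (-s)) := by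
  have h := hasSum_smooth hA hk0 hk hs n
  have e : ∑ i ∈ Finset.range n, fk k s i
      = ∑ i ∈ Finset.range n, (Nat.smoothNumbers n).indicator (fk k s) i := by
    refine Finset.sum_congr rfl fun i hi => ?_
    rcases Nat.eq_zero_or_pos i with rfl | h0
    · rw [fk_zero k hs, Set.indicator_of_notMem]
      intro h1
      exact Nat.ne_zero_of_mem_smoothNumbers h1 rfl
    · rw [Set.indicator_of_mem]
      exact Nat.mem_smoothNumbers_of_lt h0 (Finset.mem_range.mp hi)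
  rw [e]
  refine sum_le_hasSum _ (fun i _ => ?_) h
  exact Set.indicator_nonneg (fun i _ => fk_nonneg _ _ _) i

lemma prod_le_SS (hA : 0 < A) (hk0 : 0 ≤ k) (hk : k ≤ A) (hs : 1 ≤ s) (hsum : Summable (fk k s)) (n : ℕ) :
    ∏ p ∈ n.primesBelow, Lq k ((p : ℝ) ^ (-s)) ≤ SS k s := by
  have h := hasSum_smooth hA hk0 hk hs n
  have h2 : HasSum (fk k s) (SS k s) := hsum.hasSum
  refine hasSum_le (fun i => ?_) h h2
  exact Set.indicator_le_self' (fun i _ => fk_nonneg _ _ _) i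

end euler

/-! ### products over sets of primes -/

section prods

variable {k s A Y : ℝ} {p0 : ℕ}

lemma Lq_one_le (hA : 0 < A) (hk0 : 0 ≤ k) (hk : k ≤ A) (hs : 1 ≤ s) {p : ℕ} (hp : p.Prime) :
    1 ≤ Lq k ((p : ℝ) ^ (-s)) := by
  obtain ⟨h0, h1⟩ := q_half hs hp
  have := Lq_ge hA hk0 hk h0 h1
  have h2 : 0 ≤ k ^ 2 * (p : ℝ) ^ (-s) := by positivity
  linarith

lemma prod_mono_sub {S T : Finset ℕ} {f : ℕ → ℝ} (h : S ⊆ T) (hf : ∀ i ∈ T, 1 ≤ f i) :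
    ∏ i ∈ S, f i ≤ ∏ i ∈ T, f i := by
  rw [← Finset.prod_sdiff h]
  have h1 : 1 ≤ ∏ i ∈ T \ S, f i := by
    calc (1 : ℝ) = ∏ i ∈ T \ S, 1 := by simp
      _ ≤ _ := Finset.prod_le_prod (fun _ _ => zero_le_one) fun i hi =>
          hf i (Finset.mem_sdiff.mp hi).1
  have h0 : 0 ≤ ∏ i ∈ S, f i := Finset.prod_nonneg fun i hi => zero_le_one.trans (hf i (h hi))
  exact le_mul_of_one_le_left h0 h1

lemma prod_Lq_le (hA : 0 < A) (hk0 : 0 ≤ k) (hk : k ≤ A) (hs : 1 ≤ s) (S : Finset ℕ)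
    (hS : ∀ p ∈ S, p.Prime) :
    ∏ p ∈ S, Lq k ((p : ℝ) ^ (-s)) ≤ Real.exp (k ^ 2 * QS s S + cS A * V2 S) := by
  unfold QS V2
  rw [Finset.mul_sum, Finset.mul_sum, ← Finset.sum_add_distrib, Real.exp_sum]
  refine Finset.prod_le_prod (fun p hp => zero_le_one.trans (Lq_one_le hA hk0 hk hs (hS p hp)))
    fun p hp => ?_
  obtain ⟨h0, h1⟩ := q_half hs (hS p hp)
  have h2 := Lq_le hA hk0 hk h0 h1
  have h3 := q_sq_le hs (hS p hp)
  have h4 := Real.add_one_le_exp (k ^ 2 * (p : ℝ) ^ (-s) + cS A * ((p : ℝ)⁻¹) ^ 2)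
  have h5 : cS A * ((p : ℝ) ^ (-s)) ^ 2 ≤ cS A * ((p : ℝ)⁻¹) ^ 2 :=
    mul_le_mul_of_nonneg_left h3 (cS_nonneg A)
  linarith

lemma prod_Lq_le' (hA : 0 < A) (hk0 : 0 ≤ k) (hk : k ≤ A) (hs : 1 ≤ s) (S : Finset ℕ)
    (hS : ∀ p ∈ S, p.Prime) :
    ∏ p ∈ S, Lq k ((p : ℝ) ^ (-s)) ≤ Real.exp ((A ^ 2 + cS A) * QS s S) := by
  unfold QS
  rw [Finset.mul_sum, Real.exp_sum]
  refine Finset.prod_le_prod (fun p hp => zero_le_one.trans (Lq_one_le hA hk0 hk hs (hS p hp)))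
    fun p hp => ?_
  obtain ⟨h0, h1⟩ := q_half hs (hS p hp)
  have h2 := Lq_le hA hk0 hk h0 h1
  set q := (p : ℝ) ^ (-s) with hq
  have h4 := Real.add_one_le_exp ((A ^ 2 + cS A) * q)
  have h5 : k ^ 2 * q ≤ A ^ 2 * q := by gcongr
  have h6 : cS A * q ^ 2 ≤ cS A * q := by
    have : q ^ 2 ≤ q := by nlinarith
    exact mul_le_mul_of_nonneg_left this (cS_nonneg A)
  have e : (A ^ 2 + cS A) * q = A ^ 2 * q + cS A * q := by ring
  rw [e] at h4 ⊢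
  linarith

lemma prod_Lq_ge (hA : 0 < A) (hk0 : 0 ≤ k) (hk : k ≤ A) (hs : 1 ≤ s) (S : Finset ℕ)
    (hS : ∀ p ∈ S, p.Prime) :
    Real.exp (k ^ 2 * QS s S - 2 * A ^ 4 * V2 S) ≤ ∏ p ∈ S, Lq k ((p : ℝ) ^ (-s)) := by
  unfold QS V2
  rw [Finset.mul_sum, Finset.mul_sum, ← Finset.sum_sub_distrib, Real.exp_sum]
  refine Finset.prod_le_prod (fun p _ => (Real.exp_pos _).le) fun p hp => ?_
  obtain ⟨h0, h1⟩ := q_half hs (hS p hp)
  have h2 := Lq_ge hA hk0 hk h0 h1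
  have h3 := q_sq_le hs (hS p hp)
  set q := (p : ℝ) ^ (-s) with hq
  have h5 : 0 ≤ k ^ 2 * q := by positivity
  have h4 := exp_sub_two_sq_le (x := k ^ 2 * q) (by linarith)
  refine le_trans (Real.exp_le_exp.mpr ?_) (h4.trans h2)
  have h6 : k ^ 4 ≤ A ^ 4 := by gcongr
  have h7 : (k ^ 2 * q) ^ 2 ≤ A ^ 4 * ((p : ℝ)⁻¹) ^ 2 := by
    have e : (k ^ 2 * q) ^ 2 = k ^ 4 * q ^ 2 := by ring
    rw [e]
    gcongr
  linarith

lemma QS_Pst (hY : 0 < Y) {J : ℕ} (hJ : Y / 4 ^ J < Real.log 2) (s : ℝ) :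
    QS s (Pst p0 Y) = QT s p0 Y J := by
  rw [← Pool.Agent.Lib.MP_f9aece_nt_h22.biUnion_sc hY p0 hJ]
  unfold QT QS
  rw [Finset.sum_biUnion]
  intro i _ j _ hij
  exact sc_disjoint hY hij

lemma V2_Pst (hp0 : 1 ≤ p0) (Y : ℝ) : V2 (Pst p0 Y) ≤ 1 / p0 := by
  refine sum_inv_sq_le p0 hp0 _ fun p hp => ?_
  exact (Finset.mem_Ioc.mp (Finset.mem_filter.mp hp).1).1

lemma Pst_pr : ∀ p ∈ Pst p0 Y, p.Prime := fun _ hp => (Finset.mem_filter.mp hp).2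

lemma Psm_pr : ∀ p ∈ Psm p0, p.Prime := fun _ hp => (Finset.mem_filter.mp hp).2

lemma disj_PP (p0 : ℕ) (Y : ℝ) : Disjoint (Psm p0) (Pst p0 Y) := by
  rw [Finset.disjoint_left]
  intro p hp hq
  have h1 := Psm_le hp
  have h2 := (Finset.mem_Ioc.mp (Finset.mem_filter.mp hq).1).1
  omega

lemma exp_Y_ge (hY : 1 ≤ Y) : 2 ≤ Real.exp Y := by
  have h1 := Real.add_one_le_exp Y
  linarith

/-- the full series, above -/
lemma SS_le (hA : 0 < A) (hk0 : 0 ≤ k) (hk : k ≤ A) (hY : 1 ≤ Y) {δ : ℝ} (hδ : 0 < δ) (hδ4 : δ ≤ 1 / 4)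
    (hp0 : 1 ≤ p0) {J : ℕ} (hJ : Y / 4 ^ J < Real.log 2) :
    Summable (fk k (1 + 2 * δ)) ∧
    SS k (1 + 2 * δ) ≤ (∏ p ∈ Psm p0, Lq k ((p : ℝ) ^ (-(1 + 2 * δ))))
      * Real.exp (k ^ 2 * QT (1 + 2 * δ) p0 Y J + cS A / p0 + 6 * (A ^ 2 + cS A) / (δ * Y)) := by
  have hY0 : 0 < Y := by linarith
  have hs : 1 ≤ 1 + 2 * δ := by linarith
  set s := 1 + 2 * δ with hsd
  set B := (∏ p ∈ Psm p0, Lq k ((p : ℝ) ^ (-s)))
      * Real.exp (k ^ 2 * QT s p0 Y J + cS A / p0 + 6 * (A ^ 2 + cS A) / (δ * Y)) with hB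
  have key : ∀ n : ℕ, ∑ i ∈ Finset.range n, fk k s i ≤ B := by
    intro n
    refine (sum_range_le hA hk0 hk hs n).trans ?_
    set R := n.primesBelow.filter (fun p : ℕ => Real.exp Y < (p : ℝ)) with hR
    have hRp : ∀ p ∈ R, p.Prime ∧ Real.exp Y < (p : ℝ) := by
      intro p hp
      rw [hR, Finset.mem_filter] at hp
      exact ⟨Nat.prime_of_mem_primesBelow hp.1, hp.2⟩
    have hsub : n.primesBelow ⊆ (Psm p0 ∪ Pst p0 Y) ∪ R := by
      intro p hp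
      have hpp := Nat.prime_of_mem_primesBelow hp
      rw [Finset.mem_union, Finset.mem_union]
      rcases le_or_gt p p0 with h | h
      · left; left
        exact Finset.mem_filter.mpr ⟨Finset.mem_Ioc.mpr ⟨hpp.pos, h⟩, hpp⟩
      · rcases le_or_gt (p : ℝ) (Real.exp Y) with h2 | h2
        · left; right
          exact Finset.mem_filter.mpr ⟨Finset.mem_Ioc.mpr ⟨h, Nat.le_floor h2⟩, hpp⟩
        · right
          rw [hR, Finset.mem_filter]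
          exact ⟨hp, h2⟩
    have hpr : ∀ p ∈ (Psm p0 ∪ Pst p0 Y) ∪ R, p.Prime := by
      intro p hp
      rw [Finset.mem_union, Finset.mem_union] at hp
      rcases hp with (hp | hp) | hp
      · exact Psm_pr p hp
      · exact Pst_pr p hp
      · exact (hRp p hp).1
    have hle := prod_mono_sub (f := fun p : ℕ => Lq k ((p : ℝ) ^ (-s))) hsub
      fun p hp => Lq_one_le hA hk0 hk hs (hpr p hp)
    refine hle.trans ?_
    have hprod : ∏ p ∈ (Psm p0 ∪ Pst p0 Y) ∪ R, Lq k ((p : ℝ) ^ (-s))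
        ≤ ((∏ p ∈ Psm p0, Lq k ((p : ℝ) ^ (-s))) * ∏ p ∈ Pst p0 Y, Lq k ((p : ℝ) ^ (-s)))
          * ∏ p ∈ R, Lq k ((p : ℝ) ^ (-s)) := by
      rw [← Finset.prod_union (disj_PP p0 Y), ← Finset.prod_union_inter]
      have h0 : 0 ≤ ∏ p ∈ (Psm p0 ∪ Pst p0 Y) ∪ R, Lq k ((p : ℝ) ^ (-s)) :=
        Finset.prod_nonneg fun p hp => zero_le_one.trans (Lq_one_le hA hk0 hk hs (hpr p hp))
      have h1 : 1 ≤ ∏ p ∈ (Psm p0 ∪ Pst p0 Y) ∩ R, Lq k ((p : ℝ) ^ (-s)) := by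
        calc (1 : ℝ) = ∏ p ∈ (Psm p0 ∪ Pst p0 Y) ∩ R, 1 := by simp
          _ ≤ _ := Finset.prod_le_prod (fun _ _ => zero_le_one) fun p hp =>
              Lq_one_le hA hk0 hk hs (hRp p (Finset.mem_inter.mp hp).2).1
      exact le_mul_of_one_le_right h0 h1
    refine hprod.trans ?_
    have h1 := prod_Lq_le hA hk0 hk hs (Pst p0 Y) Pst_pr
    have h2 := prod_Lq_le' hA hk0 hk hs R fun p hp => (hRp p hp).1
    have h3 := Pool.Agent.Lib.MP_f9aece_nt_h5.tail_finite hδ hδ4 (exp_Y_ge hY) R hRp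
    rw [Real.log_exp] at h3
    have h4 := V2_Pst hp0 Y
    have hcS := cS_nonneg A
    rw [QS_Pst hY0 hJ] at h1
    have h5 : ∏ p ∈ Pst p0 Y, Lq k ((p : ℝ) ^ (-s))
        ≤ Real.exp (k ^ 2 * QT s p0 Y J + cS A / p0) := by
      refine h1.trans (Real.exp_le_exp.mpr ?_)
      have : cS A * V2 (Pst p0 Y) ≤ cS A * (1 / p0) := by gcongr
      have e : cS A * (1 / (p0 : ℝ)) = cS A / p0 := by ring
      linarith
    have h6 : ∏ p ∈ R, Lq k ((p : ℝ) ^ (-s)) ≤ Real.exp (6 * (A ^ 2 + cS A) / (δ * Y)) := by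
      refine h2.trans (Real.exp_le_exp.mpr ?_)
      have h7 : (A ^ 2 + cS A) * QS s R ≤ (A ^ 2 + cS A) * (6 / (δ * Y)) := by
        have : 0 ≤ A ^ 2 + cS A := by positivity
        have h8 : QS s R ≤ 6 / (δ * Y) := h3
        gcongr
      refine h7.trans (le_of_eq ?_)
      ring
    have hG : 0 ≤ ∏ p ∈ Psm p0, Lq k ((p : ℝ) ^ (-s)) :=
      Finset.prod_nonneg fun p hp => zero_le_one.trans (Lq_one_le hA hk0 hk hs (Psm_pr p hp))
    have hP : 0 ≤ ∏ p ∈ Pst p0 Y, Lq k ((p : ℝ) ^ (-s)) :=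
      Finset.prod_nonneg fun p hp => zero_le_one.trans (Lq_one_le hA hk0 hk hs (Pst_pr p hp))
    have hR0 : 0 ≤ ∏ p ∈ R, Lq k ((p : ℝ) ^ (-s)) :=
      Finset.prod_nonneg fun p hp => zero_le_one.trans (Lq_one_le hA hk0 hk hs (hRp p hp).1)
    rw [hB, Real.exp_add (k ^ 2 * QT s p0 Y J + cS A / p0), mul_assoc]
    exact mul_le_mul_of_nonneg_left (mul_le_mul h5 h6 hR0 (Real.exp_pos _).le) hG
  have hsum : Summable (fk k s) := summable_of_sum_range_le (fk_nonneg k s) key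
  exact ⟨hsum, Real.tsum_le_of_sum_range_le (fk_nonneg k s) key⟩

/-- the full series, below -/
lemma SS_ge (hA : 0 < A) (hk0 : 0 ≤ k) (hk : k ≤ A) (hY : 1 ≤ Y) (hs : 1 ≤ s) (hp0 : 1 ≤ p0)
    (hpY : (p0 : ℝ) ≤ Real.exp Y) {J : ℕ} (hJ : Y / 4 ^ J < Real.log 2) (hsum : Summable (fk k s)) :
    (∏ p ∈ Psm p0, Lq k ((p : ℝ) ^ (-s))) * Real.exp (k ^ 2 * QT s p0 Y J - 2 * A ^ 4 / p0)
      ≤ SS k s := by
  have hY0 : 0 < Y := by linarith
  have h1 := prod_le_SS hA hk0 hk hs hsum (⌊Real.exp Y⌋₊ + 1)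
  have hsub : Psm p0 ∪ Pst p0 Y ⊆ (⌊Real.exp Y⌋₊ + 1).primesBelow := by
    intro p hp
    rw [Finset.mem_union] at hp
    rw [Nat.mem_primesBelow]
    rcases hp with hp | hp
    · refine ⟨?_, Psm_pr p hp⟩
      have h2 := Psm_le hp
      have h3 : p0 ≤ ⌊Real.exp Y⌋₊ := Nat.le_floor hpY
      omega
    · refine ⟨?_, Pst_pr p hp⟩
      have := (Finset.mem_Ioc.mp (Finset.mem_filter.mp hp).1).2
      omega
  have h2 := prod_mono_sub (f := fun p : ℕ => Lq k ((p : ℝ) ^ (-s))) hsub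
    fun p hp => Lq_one_le hA hk0 hk hs (Nat.prime_of_mem_primesBelow hp)
  rw [Finset.prod_union (disj_PP p0 Y)] at h2
  refine le_trans ?_ (h2.trans h1)
  have hG : 0 ≤ ∏ p ∈ Psm p0, Lq k ((p : ℝ) ^ (-s)) :=
    Finset.prod_nonneg fun p hp => zero_le_one.trans (Lq_one_le hA hk0 hk hs (Psm_pr p hp))
  refine mul_le_mul_of_nonneg_left ?_ hG
  refine le_trans (Real.exp_le_exp.mpr ?_) (prod_Lq_ge hA hk0 hk hs (Pst p0 Y) Pst_pr)
  rw [QS_Pst hY0 hJ]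
  have h4 := V2_Pst hp0 Y
  have h5 : 2 * A ^ 4 * V2 (Pst p0 Y) ≤ 2 * A ^ 4 * (1 / p0) := by gcongr
  have e : 2 * A ^ 4 * (1 / (p0 : ℝ)) = 2 * A ^ 4 / p0 := by ring
  linarith

lemma one_le_F0 (k : ℝ) (K p0 : ℕ) (s : ℝ) : 1 ≤ F0 k K p0 s := by
  unfold F0
  calc (1 : ℝ) = ∏ p ∈ Psm p0, 1 := by simp
    _ ≤ _ := Finset.prod_le_prod (fun _ _ => zero_le_one) fun p _ => one_le_Fl (by positivity) K

lemma F0_le (hA : 0 < A) (hk0 : 0 ≤ k) (hk : k ≤ A) (hs : 1 ≤ s) (K p0 : ℕ) :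
    F0 k K p0 s ≤ ∏ p ∈ Psm p0, Lq k ((p : ℝ) ^ (-s)) := by
  unfold F0
  refine Finset.prod_le_prod (fun p _ => zero_le_one.trans (one_le_Fl (by positivity) K))
    fun p hp => ?_
  obtain ⟨h0, h1⟩ := q_half hs (Psm_pr p hp)
  exact Fl_le_Lq hA hk0 hk h0 h1 K

lemma le_F0 (hA : 0 < A) (hk0 : 0 ≤ k) (hk : k ≤ A) (hs : 1 ≤ s) (K p0 : ℕ) :
    ∏ p ∈ Psm p0, Lq k ((p : ℝ) ^ (-s)) ≤ F0 k K p0 s * Real.exp (p0 * tK A K) := by
  have h1 : ∏ p ∈ Psm p0, Lq k ((p : ℝ) ^ (-s))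
      ≤ ∏ p ∈ Psm p0, (Fl k K ((p : ℝ) ^ (-s)) * Real.exp (tK A K)) := by
    refine Finset.prod_le_prod (fun p hp => zero_le_one.trans
      (Lq_one_le hA hk0 hk hs (Psm_pr p hp))) fun p hp => ?_
    obtain ⟨h0, h1⟩ := q_half hs (Psm_pr p hp)
    exact Lq_le_Fl hA hk0 hk h0 h1 K
  refine h1.trans ?_
  rw [Finset.prod_mul_distrib, Finset.prod_const, ← Real.exp_nat_mul]
  have h2 := one_le_F0 k K p0 s
  have h3 : Real.exp ((Psm p0).card * tK A K) ≤ Real.exp (p0 * tK A K) := by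
    apply Real.exp_le_exp.mpr
    have h4 : ((Psm p0).card : ℝ) ≤ p0 := by exact_mod_cast card_Psm p0
    exact mul_le_mul_of_nonneg_right h4 (tK_nonneg A K)
  exact mul_le_mul_of_nonneg_left h3 (by linarith : (0 : ℝ) ≤ F0 k K p0 s)

end prods

lemma final_alg {F B G Q x1 ε η S a b c t : ℝ} (hF0 : 0 < F) (hS0 : 0 ≤ S)
    (g1 : Real.exp (Q - x1) ≤ B) (g2 : B ≤ Real.exp (Q + x1)) (f2 : F ≤ G)
    (f3 : G ≤ F * Real.exp t) (u1 : S ≤ G * Real.exp (Q + a + b)) (u2 : G * Real.exp (Q - c) ≤ S)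
    (h1 : x1 + t + a + b ≤ ε) (h2 : x1 + c ≤ ε) (hexp : Real.exp ε = 1 + η) (hη : 0 < η) :
    (1 - η) * S ≤ F * B ∧ F * B ≤ (1 + η) * S := by
  have hB0 : 0 < B := (Real.exp_pos _).trans_le g1
  have hG0 : 0 < G := hF0.trans_le f2
  constructor
  · have h3 : S ≤ (F * B) * Real.exp ε := by
      calc S ≤ G * Real.exp (Q + a + b) := u1
        _ ≤ (F * Real.exp t) * Real.exp (Q + a + b) := mul_le_mul_of_nonneg_right f3 (Real.exp_pos _).le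
        _ = F * Real.exp (Q - x1 + (x1 + t + a + b)) := by
            rw [mul_assoc, ← Real.exp_add]
            congr 2
            ring
        _ ≤ F * Real.exp (Q - x1 + ε) :=
            mul_le_mul_of_nonneg_left (Real.exp_le_exp.mpr (by linarith)) hF0.le
        _ = F * Real.exp (Q - x1) * Real.exp ε := by rw [Real.exp_add]; ring
        _ ≤ F * B * Real.exp ε :=
            mul_le_mul_of_nonneg_right (mul_le_mul_of_nonneg_left g1 hF0.le) (Real.exp_pos _).le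
    have h4 : (1 - η) * Real.exp ε ≤ 1 := by
      rw [hexp]
      nlinarith
    have h5 : 0 ≤ F * B := mul_nonneg hF0.le hB0.le
    rcases le_or_gt 1 η with h6 | h6
    · have : (1 - η) * S ≤ 0 := mul_nonpos_of_nonpos_of_nonneg (by linarith) hS0
      linarith
    · calc (1 - η) * S ≤ (1 - η) * ((F * B) * Real.exp ε) :=
            mul_le_mul_of_nonneg_left h3 (by linarith)
        _ = (F * B) * ((1 - η) * Real.exp ε) := by ring
        _ ≤ (F * B) * 1 := mul_le_mul_of_nonneg_left h4 h5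
        _ = _ := mul_one _
  · rw [← hexp]
    calc F * B ≤ G * Real.exp (Q + x1) := mul_le_mul f2 g2 hB0.le hG0.le
      _ = Real.exp (x1 + c) * (G * Real.exp (Q - c)) := by
          have : Real.exp (Q + x1) = Real.exp (x1 + c) * Real.exp (Q - c) := by
            rw [← Real.exp_add]
            congr 1
            ring
          rw [this]
          ring
      _ ≤ Real.exp ε * S :=
          mul_le_mul (Real.exp_le_exp.mpr h2) u2 (mul_nonneg hG0.le (Real.exp_pos _).le)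
            (Real.exp_pos _).le

end OS

open OS

/-- the Dirichlet series against the mean square of the model -/
theorem seriesN (hS : SmallForms) : SeriesN := by
  intro N hN η hη
  set A : ℝ := (N : ℝ) with hAd
  have hA : 1 ≤ A := by rw [hAd]; exact_mod_cast hN
  have hA0 : 0 < A := by linarith
  have hC := cC_pos A
  have hTp := cT_pos A
  have hcS := cS_nonneg A
  set ε := Real.log (1 + η) with hε
  have hε0 : 0 < ε := Real.log_pos (by linarith)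
  have hεη : ε ≤ η := by
    have := Real.log_le_sub_one_of_pos (x := 1 + η) (by linarith)
    linarith
  have hexpε : Real.exp ε = 1 + η := Real.exp_log (by linarith)
  obtain ⟨m1, hm1, hm⟩ := exists_m1 A
  obtain ⟨p1, hp1, hp⟩ := exists_p1 A
  obtain ⟨n, hn⟩ := pow_unbounded_of_one_lt (16 * cT A / ε) (one_lt_two (α := ℝ))
  refine ⟨max m1 n, max p1 ⌈4 * (cC A + cS A + 2 * A ^ 4) / ε⌉₊, le_trans hm1 (le_max_left _ _),
    le_trans hp1 (le_max_left _ _), ?_⟩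
  intro m hmm p0 hpp
  obtain ⟨hm0, hT⟩ := hm m ((le_max_left _ _).trans hmm)
  obtain ⟨hp00, hp0⟩ := hp p0 ((le_max_left _ _).trans hpp)
  have hp0p : (0 : ℝ) < p0 := by exact_mod_cast hp00
  have hmn : n ≤ m := (le_max_right _ _).trans hmm
  have e1 : 4 * (cT A / 2 ^ m) ≤ ε / 4 := by
    have h1 : (2 : ℝ) ^ n ≤ 2 ^ m := pow_le_pow_right₀ (by norm_num) hmn
    have h2 : 16 * cT A / ε ≤ 2 ^ m := by linarith
    rw [div_le_iff₀ hε0] at h2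
    have h3 : (0 : ℝ) < 2 ^ m := by positivity
    rw [mul_div_assoc', div_le_iff₀ h3]
    linarith
  have e2 : (cC A + cS A + 2 * A ^ 4) / p0 ≤ ε / 4 := by
    have h1 : 4 * (cC A + cS A + 2 * A ^ 4) / ε ≤ p0 := by
      refine (Nat.le_ceil _).trans ?_
      exact_mod_cast (le_max_right _ _).trans hpp
    rw [div_le_iff₀ hε0] at h1
    rw [div_le_iff₀ hp0p]
    linarith
  have e3 : ∃ K1 : ℕ, ∀ K : ℕ, K1 ≤ K → p0 * tK A K ≤ ε / 4 := by
    have h1 : Tendsto (fun K => (p0 : ℝ) * tK A K) atTop (𝓝 (p0 * 0)) :=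
      (tK_tendsto A).const_mul _
    rw [mul_zero] at h1
    obtain ⟨K1, hK1⟩ := (h1.eventually (ge_mem_nhds (by positivity : (0 : ℝ) < ε / 4))).exists_forall_of_atTop
    exact ⟨K1, fun K hK => hK1 K hK⟩
  obtain ⟨K1, hK1⟩ := e3
  refine ⟨K1, fun K hK => ⟨max 1 (24 * (A ^ 2 + cS A) / ε), le_max_left _ _, ?_⟩⟩
  intro Y hY hpY J hJ δ hδ hδ4 hΛ k hk0 hkN
  have hY0 : 0 < Y := by linarith
  have hk0' := hk0.le
  have hs : 1 ≤ 1 + 2 * δ := by linarith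
  have e3 := hK1 K hK
  have e4 : 6 * (A ^ 2 + cS A) / (δ * Y) ≤ ε / 4 := by
    have h1 := (le_max_right _ _).trans hΛ
    rw [div_le_iff₀ hε0] at h1
    rw [div_le_iff₀ (by positivity)]
    linarith
  obtain ⟨hμ1, hμ2, hk1⟩ := abs_ksq hA hk0' hkN
  have hka : |k| ≤ A := by rw [abs_of_nonneg hk0']; exact hkN
  obtain ⟨g1, g2⟩ := DD_two (m := m) (p0 := p0) (J := J) (k3_K1s hs) hs hA hka hka
    (μ := k ^ 2) (by ring) hμ2 hY0 hp00 hp0 hm0 hT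
  obtain ⟨hsum, u1⟩ := SS_le hA0 hk0' hkN hY hδ hδ4 hp00 hJ
  have u2 := SS_ge hA0 hk0' hkN hY hs hp00 hpY hJ hsum
  have hEN := (hS k K m p0 Y J (1 + 2 * δ) hs).2.2
  have f1 := one_le_F0 k K p0 (1 + 2 * δ)
  have f2 := F0_le hA0 hk0' hkN hs K p0
  have f3 := le_F0 hA0 hk0' hkN hs K p0
  set s := 1 + 2 * δ with hsd
  set F := F0 k K p0 s with hF
  set G := ∏ p ∈ Psm p0, Lq k ((p : ℝ) ^ (-s)) with hG
  set B := BK (K1s s) (DD m p0 k Y J) (DD m p0 k Y J) with hB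
  set Q := k ^ 2 * QT s p0 Y J with hQ
  set x1 := cC A / p0 + 4 * (cT A / 2 ^ m) with hx1
  have e5 : (cC A + cS A + 2 * A ^ 4) / p0 = cC A / p0 + cS A / p0 + 2 * A ^ 4 / p0 := by ring
  have e6 : 0 ≤ cS A / p0 := by positivity
  have e7 : 0 ≤ 2 * A ^ 4 / p0 := by positivity
  rw [e5] at e2
  have hF0 : 0 < F := by linarith
  have hSS0 : 0 ≤ SS k s := tsum_nonneg fun n => fk_nonneg k s n
  rw [hEN]
  refine final_alg (a := cS A / p0) (b := 6 * (A ^ 2 + cS A) / (δ * Y)) hF0 hSS0 g1 g2 f2 f3 u1 u2 ?_ ?_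
    hexpε hη
  · rw [hx1]
    linarith
  · rw [hx1]
    linarith

end Pool.Agent.Lib.NL
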