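import Mathlib
import Pool.Agent.Lib.MP_f9aece_nt_nl.B
import Pool.Agent.Lib.MP_f9aece_nt_h97.SmoSum

/-!
NearLine, module O1: local factors, summability and Euler product of the series of `d_k ^ 2`.
-/

set_option autoImplicit false

namespace Pool.Agent.Lib.NL

open MeasureTheory Set Filter Topology Complex
open Pool.Agent.Lib.MP_f9aece_nt
open Pool.Agent.Lib.MP_f9aece_nt_h97 (q_bounds sum_smo_le)

/-! ### coefficients -/

lemma bk_succ (k : ℝ) (i : ℕ) : bk k (i + 1) = bk k i * ((k + i) / (i + 1)) := by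
  unfold bk
  rw [Finset.prod_range_succ]

lemma bk_one' (k : ℝ) : bk k 1 = k := by
  rw [bk_succ, bk_zero]; simp

lemma bk_at_one (i : ℕ) : bk 1 i = 1 := by
  induction i with
  | zero => exact bk_zero 1
  | succ i ih =>
    rw [bk_succ, ih]
    have : (i : ℝ) + 1 ≠ 0 := by positivity
    rw [add_comm (1 : ℝ) i, div_self this, mul_one]

lemma bk_nat_succ {N : ℕ} (hN : 1 ≤ N) (i : ℕ) :
    bk ((N : ℝ) + 1) i = bk N i * (((N : ℝ) + i) / N) := by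
  have hN0 : (N : ℝ) ≠ 0 := by
    have : (0 : ℝ) < N := by exact_mod_cast hN
    exact this.ne'
  induction i with
  | zero => rw [bk_zero, bk_zero]; push_cast; rw [add_zero, div_self hN0, mul_one]
  | succ i ih =>
    rw [bk_succ, bk_succ, ih]
    have h1 : (i : ℝ) + 1 ≠ 0 := by positivity
    push_cast
    field_simp
    ring

lemma bk_nat_le {N : ℕ} (hN : 1 ≤ N) (i : ℕ) : bk N i ≤ ((i : ℝ) + 1) ^ N := by
  induction N, hN using Nat.le_induction with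
  | base =>
    rw [Nat.cast_one, bk_at_one, pow_one]
    have : (0 : ℝ) ≤ i := by positivity
    linarith
  | succ N hN ih =>
    have hN1 : (1 : ℝ) ≤ N := by exact_mod_cast hN
    push_cast
    rw [bk_nat_succ hN, pow_succ]
    have h1 : ((N : ℝ) + i) / N ≤ i + 1 := by
      rw [div_le_iff₀ (by linarith)]
      have : (0 : ℝ) ≤ i := by positivity
      nlinarith
    have h2 : 0 ≤ bk N i := bk_nonneg (by positivity) i
    gcongr

lemma bk_le {N : ℕ} (hN : 1 ≤ N) {k : ℝ} (hk0 : 0 ≤ k) (hkN : k ≤ N) (i : ℕ) :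
    bk k i ≤ ((i : ℝ) + 1) ^ N := (bk_mono hk0 hkN i).trans (bk_nat_le hN i)

lemma bk_sq_le {N : ℕ} (hN : 1 ≤ N) {k : ℝ} (hk0 : 0 ≤ k) (hkN : k ≤ N) (i : ℕ) :
    bk k i ^ 2 ≤ ((i : ℝ) + 1) ^ (2 * N) := by
  have h := bk_le hN hk0 hkN i
  have h0 := bk_nonneg hk0 i
  calc bk k i ^ 2 ≤ (((i : ℝ) + 1) ^ N) ^ 2 := by gcongr
    _ = _ := by rw [← pow_mul, mul_comm]

/-- the majorant of all local series -/
noncomputable def Wf (N : ℕ) : ℝ := ∑' i : ℕ, ((i : ℝ) + 1) ^ (2 * N + 1) * (1 / 2) ^ i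

lemma summable_Wf (N : ℕ) : Summable fun i : ℕ => ((i : ℝ) + 1) ^ (2 * N + 1) * (1 / 2 : ℝ) ^ i := by
  have h := summable_pow_mul_geometric_of_norm_lt_one (R := ℝ) (2 * N + 1) (r := 1 / 2)
    (by rw [Real.norm_of_nonneg (by norm_num)]; norm_num)
  have h1 := ((summable_nat_add_iff 1).mpr h).mul_left 2
  refine h1.congr fun i => ?_
  push_cast
  rw [pow_succ (1 / 2 : ℝ) i]
  ring

lemma Wf_nonneg (N : ℕ) : 0 ≤ Wf N := tsum_nonneg fun i => by positivity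

/-- the local factor -/
noncomputable def Fi (k q : ℝ) : ℝ := ∑' i : ℕ, bk k i ^ 2 * q ^ i

section loc

variable {N : ℕ} {k q q' : ℝ}

lemma summable_Fi (hN : 1 ≤ N) (hk0 : 0 ≤ k) (hkN : k ≤ N) (hq0 : 0 ≤ q) (hq : q ≤ 1 / 2) :
    Summable fun i : ℕ => bk k i ^ 2 * q ^ i := by
  refine Summable.of_nonneg_of_le (fun i => by positivity) (fun i => ?_) (summable_Wf N)
  have h := bk_sq_le hN hk0 hkN i
  have h1 : ((i : ℝ) + 1) ^ (2 * N) ≤ ((i : ℝ) + 1) ^ (2 * N + 1) :=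
    pow_le_pow_right₀ (by have : (0 : ℝ) ≤ i := by positivity
                          linarith) (by omega)
  calc bk k i ^ 2 * q ^ i ≤ ((i : ℝ) + 1) ^ (2 * N + 1) * (1 / 2) ^ i := by
        gcongr
        exact h.trans h1

lemma Fi_split (hN : 1 ≤ N) (hk0 : 0 ≤ k) (hkN : k ≤ N) (hq0 : 0 ≤ q) (hq : q ≤ 1 / 2) :
    Fi k q = 1 + k ^ 2 * q + ∑' i : ℕ, bk k (i + 2) ^ 2 * q ^ (i + 2) := by
  have h := summable_Fi hN hk0 hkN hq0 hq
  unfold Fi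
  have h2 := h.sum_add_tsum_nat_add 2
  rw [← h2, Finset.sum_range_succ, Finset.sum_range_one, bk_zero, bk_one']
  ring

lemma pow_sub_pow_le' (hq0 : 0 ≤ q) (hqq : q ≤ q') (n : ℕ) :
    q' ^ (n + 1) - q ^ (n + 1) ≤ (n + 1) * q' ^ n * (q' - q) := by
  have hq'0 : 0 ≤ q' := hq0.trans hqq
  induction n with
  | zero => simp
  | succ n ih =>
    have h1 : q' ^ (n + 1 + 1) - q ^ (n + 1 + 1) = q' * (q' ^ (n + 1) - q ^ (n + 1))
        + q ^ (n + 1) * (q' - q) := by ring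
    have h2 : q ^ (n + 1) ≤ q' ^ (n + 1) := by gcongr
    have h3 : 0 ≤ q' - q := by linarith
    rw [h1]
    calc q' * (q' ^ (n + 1) - q ^ (n + 1)) + q ^ (n + 1) * (q' - q)
        ≤ q' * ((n + 1) * q' ^ n * (q' - q)) + q' ^ (n + 1) * (q' - q) := by gcongr
      _ = _ := by push_cast; ring

lemma Fi_diff (hN : 1 ≤ N) (hk0 : 0 ≤ k) (hkN : k ≤ N) (hq0 : 0 ≤ q) (hqq : q ≤ q')
    (hq' : q' ≤ 1 / 2) :
    0 ≤ Fi k q' - Fi k q - k ^ 2 * (q' - q) ∧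
    Fi k q' - Fi k q - k ^ 2 * (q' - q) ≤ 4 * Wf N * (q' * (q' - q)) := by
  have hq'0 : 0 ≤ q' := hq0.trans hqq
  have hd : 0 ≤ q' - q := by linarith
  have s1 := summable_Fi hN hk0 hkN hq'0 hq'
  have s2 := summable_Fi hN hk0 hkN hq0 (hqq.trans hq')
  have s1' := (summable_nat_add_iff 2).mpr s1
  have s2' := (summable_nat_add_iff 2).mpr s2
  rw [Fi_split hN hk0 hkN hq'0 hq', Fi_split hN hk0 hkN hq0 (hqq.trans hq')]
  have e : 1 + k ^ 2 * q' + ∑' i : ℕ, bk k (i + 2) ^ 2 * q' ^ (i + 2)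
      - (1 + k ^ 2 * q + ∑' i : ℕ, bk k (i + 2) ^ 2 * q ^ (i + 2)) - k ^ 2 * (q' - q)
      = ∑' i : ℕ, (bk k (i + 2) ^ 2 * q' ^ (i + 2) - bk k (i + 2) ^ 2 * q ^ (i + 2)) := by
    rw [s1'.tsum_sub s2']
    ring
  rw [e]
  constructor
  · refine tsum_nonneg fun i => ?_
    have : q ^ (i + 2) ≤ q' ^ (i + 2) := by gcongr
    have h2 : 0 ≤ bk k (i + 2) ^ 2 := by positivity
    nlinarith
  · have hW := summable_Wf N
    have hW2 := (summable_nat_add_iff 2).mpr hW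
    have hle : ∀ i : ℕ, bk k (i + 2) ^ 2 * q' ^ (i + 2) - bk k (i + 2) ^ 2 * q ^ (i + 2)
        ≤ 4 * (q' * (q' - q)) * ((((i + 2 : ℕ) : ℝ) + 1) ^ (2 * N + 1) * (1 / 2 : ℝ) ^ (i + 2)) := by
      intro i
      have h1 := pow_sub_pow_le' hq0 hqq (i + 1)
      have h2 := bk_sq_le hN hk0 hkN (i + 2)
      have h3 : q' ^ (i + 1) ≤ q' * (1 / 2) ^ i := by
        rw [pow_succ, mul_comm]
        gcongr
      have h0 : (0 : ℝ) ≤ i := by positivity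
      calc bk k (i + 2) ^ 2 * q' ^ (i + 2) - bk k (i + 2) ^ 2 * q ^ (i + 2)
          = bk k (i + 2) ^ 2 * (q' ^ (i + 1 + 1) - q ^ (i + 1 + 1)) := by ring
        _ ≤ bk k (i + 2) ^ 2 * ((((i + 1 : ℕ) : ℝ) + 1) * q' ^ (i + 1) * (q' - q)) := by gcongr
        _ ≤ (((i + 2 : ℕ) : ℝ) + 1) ^ (2 * N) * ((((i + 2 : ℕ) : ℝ) + 1) * (q' * (1 / 2) ^ i) * (q' - q)) := by
            have h4 : ((i + 1 : ℕ) : ℝ) + 1 ≤ ((i + 2 : ℕ) : ℝ) + 1 := by push_cast; linarith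
            gcongr
        _ = _ := by
            rw [pow_succ (((i + 2 : ℕ) : ℝ) + 1) (2 * N), pow_add (1 / 2 : ℝ) i 2]
            ring
    have h5 := Summable.tsum_le_tsum hle (s1'.sub s2') (hW2.mul_left _)
    refine h5.trans ?_
    rw [tsum_mul_left]
    have h6 : ∑' i : ℕ, ((((i + 2 : ℕ) : ℝ) + 1) ^ (2 * N + 1) * (1 / 2 : ℝ) ^ (i + 2)) ≤ Wf N := by
      have h7 := hW.sum_add_tsum_nat_add 2
      have h8 : 0 ≤ ∑ i ∈ Finset.range 2, (((i : ℝ) + 1) ^ (2 * N + 1) * (1 / 2 : ℝ) ^ i) :=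
        Finset.sum_nonneg fun i _ => by positivity
      unfold Wf
      linarith
    calc 4 * (q' * (q' - q)) * ∑' i : ℕ, ((((i + 2 : ℕ) : ℝ) + 1) ^ (2 * N + 1) * (1 / 2 : ℝ) ^ (i + 2))
        ≤ 4 * (q' * (q' - q)) * Wf N := by gcongr
      _ = _ := by ring

lemma Fi_zero (k : ℝ) : Fi k 0 = 1 := by
  unfold Fi
  rw [tsum_eq_single 0]
  · simp [bk_zero]
  · intro i hi
    rw [zero_pow hi, mul_zero]

lemma Fi_bounds (hN : 1 ≤ N) (hk0 : 0 ≤ k) (hkN : k ≤ N) (hq0 : 0 ≤ q) (hq : q ≤ 1 / 2) :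
    1 + k ^ 2 * q ≤ Fi k q ∧ Fi k q ≤ 1 + k ^ 2 * q + 4 * Wf N * q ^ 2 := by
  obtain ⟨h1, h2⟩ := Fi_diff hN hk0 hkN le_rfl hq0 hq
  rw [Fi_zero] at h1 h2
  constructor
  · linarith
  · nlinarith

lemma one_le_Fi (hN : 1 ≤ N) (hk0 : 0 ≤ k) (hkN : k ≤ N) (hq0 : 0 ≤ q) (hq : q ≤ 1 / 2) :
    1 ≤ Fi k q := by
  have h := (Fi_bounds hN hk0 hkN hq0 hq).1
  have : 0 ≤ k ^ 2 * q := by positivity
  linarith

/-- constant of the local factors -/
noncomputable def cF (N : ℕ) : ℝ := 4 * Wf N + ((N : ℝ) ^ 2 + 4 * Wf N) ^ 2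

lemma cF_nonneg (N : ℕ) : 0 ≤ cF N := by
  unfold cF
  have := Wf_nonneg N
  positivity

/-- logarithm of the ratio of local factors -/
lemma log_Fi_diff (hN : 1 ≤ N) (hk0 : 0 ≤ k) (hkN : k ≤ N) (hq0 : 0 ≤ q) (hqq : q ≤ q')
    (hq' : q' ≤ 1 / 2) :
    |Real.log (Fi k q') - Real.log (Fi k q) - k ^ 2 * (q' - q)| ≤ cF N * (q' * (q' - q)) := by
  have hq'0 : 0 ≤ q' := hq0.trans hqq
  have hd : 0 ≤ q' - q := by linarith
  obtain ⟨h1, h2⟩ := Fi_diff hN hk0 hkN hq0 hqq hq'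
  have hF1 := one_le_Fi hN hk0 hkN hq0 (hqq.trans hq')
  have hF2 := one_le_Fi hN hk0 hkN hq'0 hq'
  have hF3 := (Fi_bounds hN hk0 hkN hq'0 hq').2
  have hW := Wf_nonneg N
  set F := Fi k q with hF
  set F' := Fi k q' with hF'
  set Δ := F' - F with hΔ
  have hk2 : k ^ 2 ≤ (N : ℝ) ^ 2 := by gcongr
  have hΔ0 : 0 ≤ Δ := by
    have : 0 ≤ k ^ 2 * (q' - q) := by positivity
    linarith
  have hΔle : Δ ≤ ((N : ℝ) ^ 2 + 4 * Wf N) * (q' - q) := by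
    have a1 : k ^ 2 * (q' - q) ≤ (N : ℝ) ^ 2 * (q' - q) := by gcongr
    have a2 : 4 * Wf N * (q' * (q' - q)) ≤ 4 * Wf N * (1 * (q' - q)) := by gcongr; linarith
    linarith
  have hFp : 0 < F := by linarith
  have hF'p : 0 < F' := by linarith
  have hup : Real.log F' - Real.log F ≤ Δ := by
    rw [← Real.log_div hF'p.ne' hFp.ne']
    have h3 := Real.log_le_sub_one_of_pos (div_pos hF'p hFp)
    refine h3.trans ?_
    rw [div_sub_one hFp.ne', div_le_iff₀ hFp]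
    nlinarith
  have hF'1 : F' - 1 ≤ ((N : ℝ) ^ 2 + 4 * Wf N) * q' := by
    have a1 : k ^ 2 * q' ≤ (N : ℝ) ^ 2 * q' := by gcongr
    have a2 : 4 * Wf N * q' ^ 2 ≤ 4 * Wf N * q' := by
      have : q' ^ 2 ≤ q' := by nlinarith
      gcongr
    linarith
  have hlow : Δ - Δ * (F' - 1) ≤ Real.log F' - Real.log F := by
    rw [← Real.log_div hF'p.ne' hFp.ne']
    have h3 := Real.one_sub_inv_le_log_of_pos (div_pos hF'p hFp)
    refine le_trans ?_ h3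
    rw [inv_div, one_sub_div hF'p.ne', le_div_iff₀ hF'p]
    have h5 : F' * (2 - F') ≤ 1 := by nlinarith [sq_nonneg (F' - 1)]
    calc (Δ - Δ * (F' - 1)) * F' = Δ * (F' * (2 - F')) := by ring
      _ ≤ Δ * 1 := by gcongr
      _ = _ := by rw [mul_one]
  have hΔF : Δ * (F' - 1) ≤ ((N : ℝ) ^ 2 + 4 * Wf N) ^ 2 * (q' * (q' - q)) := by
    calc Δ * (F' - 1) ≤ (((N : ℝ) ^ 2 + 4 * Wf N) * (q' - q)) * (((N : ℝ) ^ 2 + 4 * Wf N) * q') :=
          mul_le_mul hΔle hF'1 (by linarith) (by positivity)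
      _ = _ := by ring
  unfold cF
  have hz : 0 ≤ ((N : ℝ) ^ 2 + 4 * Wf N) ^ 2 * (q' * (q' - q)) := by positivity
  have hz2 : 0 ≤ 4 * Wf N * (q' * (q' - q)) := by positivity
  have hz3 : (4 * Wf N + ((N : ℝ) ^ 2 + 4 * Wf N) ^ 2) * (q' * (q' - q))
      = 4 * Wf N * (q' * (q' - q)) + ((N : ℝ) ^ 2 + 4 * Wf N) ^ 2 * (q' * (q' - q)) := by ring
  rw [hz3, abs_le]
  constructor <;> linarith

/-- the local factor of the series divided by the local factor of `zeta^(k^2)` -/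
noncomputable def gl (k q : ℝ) : ℝ := Real.log (Fi k q) + k ^ 2 * Real.log (1 - q)

/-- its Lipschitz constant -/
noncomputable def cG' (N : ℕ) : ℝ := cF N + 2 * (N : ℝ) ^ 2

lemma cG'_nonneg (N : ℕ) : 0 ≤ cG' N := by
  unfold cG'
  have := cF_nonneg N
  positivity

lemma gl_diff (hN : 1 ≤ N) (hk0 : 0 ≤ k) (hkN : k ≤ N) (hq0 : 0 ≤ q) (hqq : q ≤ q')
    (hq' : q' ≤ 1 / 2) : |gl k q' - gl k q| ≤ cG' N * (q' * (q' - q)) := by
  have hq'0 : 0 ≤ q' := hq0.trans hqq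
  have hd : 0 ≤ q' - q := by linarith
  have h1 := log_Fi_diff hN hk0 hkN hq0 hqq hq'
  have hk2 : k ^ 2 ≤ (N : ℝ) ^ 2 := by gcongr
  have hp : 0 < 1 - q := by linarith
  have hp' : 0 < 1 - q' := by linarith
  have e1 : Real.log (1 - q) - Real.log (1 - q') = Real.log ((1 - q) / (1 - q')) := by
    rw [Real.log_div hp.ne' hp'.ne']
  have hL1 : Real.log (1 - q) - Real.log (1 - q') ≤ (q' - q) + 2 * (q' * (q' - q)) := by
    rw [e1]
    refine (Real.log_le_sub_one_of_pos (div_pos hp hp')).trans ?_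
    rw [div_sub_one hp'.ne', div_le_iff₀ hp']
    have h5 : 0 ≤ (q' - q) * (q' * (1 - 2 * q')) := by
      have : 0 ≤ 1 - 2 * q' := by linarith
      positivity
    nlinarith
  have hL2 : (q' - q) ≤ Real.log (1 - q) - Real.log (1 - q') := by
    rw [e1]
    refine le_trans ?_ (Real.one_sub_inv_le_log_of_pos (div_pos hp hp'))
    rw [inv_div, one_sub_div hp.ne', le_div_iff₀ hp]
    nlinarith
  set L := Real.log (1 - q) - Real.log (1 - q') with hL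
  have e2 : gl k q' - gl k q = (Real.log (Fi k q') - Real.log (Fi k q) - k ^ 2 * (q' - q))
      - k ^ 2 * (L - (q' - q)) := by
    unfold gl
    rw [hL]
    ring
  have h3 : |k ^ 2 * (L - (q' - q))| ≤ (N : ℝ) ^ 2 * (2 * (q' * (q' - q))) := by
    rw [abs_mul, abs_of_nonneg (by positivity : 0 ≤ k ^ 2), abs_of_nonneg (by linarith)]
    gcongr
    linarith
  rw [e2]
  calc |(Real.log (Fi k q') - Real.log (Fi k q) - k ^ 2 * (q' - q)) - k ^ 2 * (L - (q' - q))|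
      ≤ |Real.log (Fi k q') - Real.log (Fi k q) - k ^ 2 * (q' - q)| + |k ^ 2 * (L - (q' - q))| := by
        rw [sub_eq_add_neg]
        refine (abs_add_le _ _).trans ?_
        rw [abs_neg]
    _ ≤ cF N * (q' * (q' - q)) + (N : ℝ) ^ 2 * (2 * (q' * (q' - q))) := add_le_add h1 h3
    _ = _ := by unfold cG'; ring

lemma log_Fi (hN : 1 ≤ N) (hk0 : 0 ≤ k) (hkN : k ≤ N) (hq0 : 0 ≤ q) (hq : q ≤ 1 / 2) :
    |Real.log (Fi k q) - k ^ 2 * q| ≤ cF N * q ^ 2 := by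
  have h := log_Fi_diff hN hk0 hkN le_rfl hq0 hq
  rw [Fi_zero, Real.log_one] at h
  calc |Real.log (Fi k q) - k ^ 2 * q| = |Real.log (Fi k q) - 0 - k ^ 2 * (q - 0)| := by
        rw [sub_zero, sub_zero]
    _ ≤ _ := h
    _ = _ := by ring

lemma gl_zero (k : ℝ) : gl k 0 = 0 := by
  unfold gl
  rw [Fi_zero]
  simp

lemma gl_le (hN : 1 ≤ N) (hk0 : 0 ≤ k) (hkN : k ≤ N) (hq0 : 0 ≤ q) (hq : q ≤ 1 / 2) :
    |gl k q| ≤ cG' N * q ^ 2 := by
  have h := gl_diff hN hk0 hkN le_rfl hq0 hq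
  rw [gl_zero, sub_zero, sub_zero] at h
  refine h.trans (le_of_eq ?_)
  ring

/-- the truncated local factor -/
lemma Fl_le_Fi (hN : 1 ≤ N) (hk0 : 0 ≤ k) (hkN : k ≤ N) (hq0 : 0 ≤ q) (hq : q ≤ 1 / 2) (K : ℕ) :
    Fl k K q ≤ Fi k q := by
  unfold Fl Fi
  exact (summable_Fi hN hk0 hkN hq0 hq).sum_le_tsum _ fun i _ => by positivity

/-- uniform truncation error of the local factor -/
lemma Fi_sub_Fl_le (hN : 1 ≤ N) (hk0 : 0 ≤ k) (hkN : k ≤ N) (hq0 : 0 ≤ q) (hq : q ≤ 1 / 2) (K : ℕ) :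
    Fi k q - Fl k K q ≤ ∑' i : ℕ, (((i + (K + 1) : ℕ) : ℝ) + 1) ^ (2 * N + 1) * (1 / 2 : ℝ) ^ (i + (K + 1)) := by
  have s1 := summable_Fi hN hk0 hkN hq0 hq
  have h2 := s1.sum_add_tsum_nat_add (K + 1)
  have e : Fi k q - Fl k K q = ∑' i : ℕ, bk k (i + (K + 1)) ^ 2 * q ^ (i + (K + 1)) := by
    unfold Fi Fl
    rw [← h2]
    ring
  rw [e]
  have t1 : Summable fun i : ℕ => bk k (i + (K + 1)) ^ 2 * q ^ (i + (K + 1)) :=
    (summable_nat_add_iff (f := fun i : ℕ => bk k i ^ 2 * q ^ i) (K + 1)).mpr s1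
  have t2 : Summable fun i : ℕ => (((i + (K + 1) : ℕ) : ℝ) + 1) ^ (2 * N + 1) * (1 / 2 : ℝ) ^ (i + (K + 1)) :=
    (summable_nat_add_iff (f := fun i : ℕ => ((i : ℝ) + 1) ^ (2 * N + 1) * (1 / 2 : ℝ) ^ i) (K + 1)).mpr
      (summable_Wf N)
  refine Summable.tsum_le_tsum (fun i => ?_) t1 t2
  have h := bk_sq_le hN hk0 hkN (i + (K + 1))
  have h1 : (((i + (K + 1) : ℕ) : ℝ) + 1) ^ (2 * N) ≤ (((i + (K + 1) : ℕ) : ℝ) + 1) ^ (2 * N + 1) :=
    pow_le_pow_right₀ (by have : (0 : ℝ) ≤ ((i + (K + 1) : ℕ) : ℝ) := by positivity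
                          linarith) (by omega)
  have h3 := h.trans h1
  have h4 : q ^ (i + (K + 1)) ≤ (1 / 2 : ℝ) ^ (i + (K + 1)) := by gcongr
  exact mul_le_mul h3 h4 (by positivity) (by positivity)

lemma tail_Wf (N : ℕ) (ε : ℝ) (hε : 0 < ε) : ∃ K1 : ℕ, ∀ K : ℕ, K1 ≤ K →
    ∑' i : ℕ, (((i + (K + 1) : ℕ) : ℝ) + 1) ^ (2 * N + 1) * (1 / 2 : ℝ) ^ (i + (K + 1)) ≤ ε := by
  have h := tendsto_sum_nat_add (fun i : ℕ => ((i : ℝ) + 1) ^ (2 * N + 1) * (1 / 2 : ℝ) ^ i)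
  have h1 : ∀ᶠ K in atTop, ∑' i : ℕ, (((i + K : ℕ) : ℝ) + 1) ^ (2 * N + 1) * (1 / 2 : ℝ) ^ (i + K) ≤ ε :=
    h.eventually (eventually_le_nhds hε)
  obtain ⟨K1, hK1⟩ := h1.exists_forall_of_atTop
  exact ⟨K1, fun K hK => hK1 (K + 1) (by omega)⟩

end loc

/-! ### the Dirichlet series -/

lemma dk_one (k : ℝ) : dk k 1 = 1 := by simp [dk]

lemma dk_mul (k : ℝ) {m n : ℕ} (h : Nat.Coprime m n) : dk k (m * n) = dk k m * dk k n := by
  unfold dk
  rw [Nat.factorization_mul_of_coprime h]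
  exact Finsupp.prod_add_index_of_disjoint (by
    rw [Nat.support_factorization, Nat.support_factorization]
    exact h.disjoint_primeFactors) _

lemma dk_prime_pow (k : ℝ) {p : ℕ} (hp : p.Prime) (e : ℕ) : dk k (p ^ e) = bk k e := by
  unfold dk
  rw [hp.factorization_pow, Finsupp.prod_single_index]
  exact bk_zero k

/-- the terms -/
noncomputable def tS (k s : ℝ) (n : ℕ) : ℝ := dk k n ^ 2 * (n : ℝ) ^ (-s)

lemma tS_zero (k : ℝ) {s : ℝ} (hs : 0 < s) : tS k s 0 = 0 := by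
  unfold tS
  rw [Nat.cast_zero, Real.zero_rpow (by linarith), mul_zero]

lemma tS_one (k s : ℝ) : tS k s 1 = 1 := by
  unfold tS
  rw [dk_one, Nat.cast_one, Real.one_rpow]
  norm_num

lemma tS_nonneg (k s : ℝ) (n : ℕ) : 0 ≤ tS k s n := by unfold tS; positivity

lemma tS_mul (k s : ℝ) {m n : ℕ} (h : Nat.Coprime m n) : tS k s (m * n) = tS k s m * tS k s n := by
  unfold tS
  rw [dk_mul k h]
  push_cast
  rw [Real.mul_rpow (Nat.cast_nonneg _) (Nat.cast_nonneg _)]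
  ring

lemma tS_prime_pow (k s : ℝ) {p : ℕ} (hp : p.Prime) (e : ℕ) :
    tS k s (p ^ e) = bk k e ^ 2 * ((p : ℝ) ^ (-s)) ^ e := by
  unfold tS
  rw [dk_prime_pow k hp, MP_f9aece_nt_h97.prime_rpow_pow hp]

lemma rpow_prod_factorization {n : ℕ} (hn : n ≠ 0) (s : ℝ) :
    (n : ℝ) ^ (-s) = ∏ p ∈ n.primeFactors, ((p : ℝ) ^ (-s)) ^ n.factorization p := by
  have h1 := Nat.prod_factorization_pow_eq_self hn
  have h2 : (n : ℝ) = ∏ p ∈ n.primeFactors, (p : ℝ) ^ n.factorization p := by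
    conv_lhs => rw [← h1]
    rw [Finsupp.prod, Nat.support_factorization]
    push_cast
    rfl
  conv_lhs => rw [h2]
  rw [← Real.finsetProd_rpow _ _ fun p _ => by positivity]
  refine Finset.prod_congr rfl fun p _ => ?_
  rw [← Real.rpow_natCast, ← Real.rpow_natCast, ← Real.rpow_mul (by positivity),
    ← Real.rpow_mul (by positivity), mul_comm]

lemma tS_eq_prod (k s : ℝ) {S : Finset ℕ} {n : ℕ} (hn : n ∈ Smo (S : Set ℕ)) :
    tS k s n = ∏ p ∈ S, (bk k (n.factorization p) ^ 2 * ((p : ℝ) ^ (-s)) ^ n.factorization p) := by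
  have hsub : n.primeFactors ⊆ S := by
    intro p hp
    rw [Nat.mem_primeFactors] at hp
    exact_mod_cast hn.2 p hp.1 hp.2.1
  rw [← Finset.prod_subset hsub]
  · unfold tS dk
    rw [rpow_prod_factorization hn.1, Finsupp.prod, Nat.support_factorization, ← Finset.prod_pow,
      ← Finset.prod_mul_distrib]
  · intro p _ hp
    have h0 : n.factorization p = 0 := by
      rwa [← Nat.support_factorization, Finsupp.notMem_support_iff] at hp
    rw [h0, bk_zero]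
    norm_num

lemma summable_prime_rpow {s : ℝ} (hs : 1 < s) :
    Summable fun p : Nat.Primes => ((p : ℕ) : ℝ) ^ (-s) :=
  Nat.Primes.summable_rpow.mpr (by linarith)

lemma sum_primes_le {s : ℝ} (hs : 1 < s) (S : Finset ℕ) (hpr : ∀ p ∈ S, p.Prime) :
    ∑ p ∈ S, (p : ℝ) ^ (-s) ≤ ∑' p : Nat.Primes, ((p : ℕ) : ℝ) ^ (-s) := by
  have h3 : ∀ F : Finset Nat.Primes, ∑ x ∈ F, ((x : ℕ) : ℝ) ^ (-s)
      ≤ ∑' p : Nat.Primes, ((p : ℕ) : ℝ) ^ (-s) := fun F =>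
    (summable_prime_rpow hs).sum_le_tsum F fun x _ => by positivity
  have hinj : Function.Injective (fun p : {p // p ∈ S} => (⟨p.1, hpr p.1 p.2⟩ : Nat.Primes)) :=
    fun a b hab => by
      apply Subtype.ext
      have := congrArg (fun x : Nat.Primes => (x : ℕ)) hab
      exact this
  rw [← Finset.sum_attach]
  have h2 : ∑ p ∈ S.attach, ((p : ℕ) : ℝ) ^ (-s)
      = ∑ x ∈ S.attach.map ⟨_, hinj⟩, ((x : ℕ) : ℝ) ^ (-s) := by
    rw [Finset.sum_map]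
    rfl
  rw [h2]
  exact h3 _

lemma Fi_le_exp {N : ℕ} {k q : ℝ} (hN : 1 ≤ N) (hk0 : 0 ≤ k) (hkN : k ≤ N) (hq0 : 0 ≤ q)
    (hq : q ≤ 1 / 2) : Fi k q ≤ Real.exp (((N : ℝ) ^ 2 + 4 * Wf N) * q) := by
  have h := (Fi_bounds hN hk0 hkN hq0 hq).2
  have h1 := Real.add_one_le_exp (((N : ℝ) ^ 2 + 4 * Wf N) * q)
  have hW := Wf_nonneg N
  have a1 : k ^ 2 * q ≤ (N : ℝ) ^ 2 * q := by gcongr
  have a2 : 4 * Wf N * q ^ 2 ≤ 4 * Wf N * q := by
    have : q ^ 2 ≤ q := by nlinarith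
    gcongr
  linarith

lemma summable_tS {N : ℕ} {k s : ℝ} (hN : 1 ≤ N) (hk0 : 0 ≤ k) (hkN : k ≤ N) (hs : 1 < s) :
    Summable (tS k s) := by
  set A := (N : ℝ) ^ 2 + 4 * Wf N with hA
  have hA0 : 0 ≤ A := by
    have := Wf_nonneg N
    positivity
  set P := ∑' p : Nat.Primes, ((p : ℕ) : ℝ) ^ (-s) with hP
  refine summable_of_sum_range_le (c := Real.exp (A * P)) (tS_nonneg k s) fun n => ?_
  have h1 : ∑ m ∈ Finset.range n, tS k s m = ∑ m ∈ (Finset.range n).filter (fun m => m ≠ 0), tS k s m := by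
    rw [Finset.sum_filter]
    refine Finset.sum_congr rfl fun m _ => ?_
    by_cases hm : m = 0
    · rw [hm, tS_zero k (by linarith)]; simp
    · rw [if_pos hm]
  rw [h1]
  have hmem : ∀ m ∈ (Finset.range n).filter (fun m => m ≠ 0), m ∈ Smo ((n.primesBelow : Finset ℕ) : Set ℕ) := by
    intro m hm
    rw [Finset.mem_filter, Finset.mem_range] at hm
    refine ⟨hm.2, fun p hp hd => ?_⟩
    rw [Finset.mem_coe, Nat.mem_primesBelow]
    exact ⟨lt_of_le_of_lt (Nat.le_of_dvd (by omega) hd) hm.1, hp⟩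
  have hpr : ∀ p ∈ n.primesBelow, p.Prime := fun p hp => (Nat.mem_primesBelow.mp hp).2
  generalize n.primesBelow = S at hmem hpr
  have hloc : ∀ p ∈ S, ∀ M, ∑ e ∈ Finset.range M, bk k e ^ 2 * ((p : ℝ) ^ (-s)) ^ e
      ≤ Real.exp (A * (p : ℝ) ^ (-s)) := by
    intro p hp M
    obtain ⟨hq0, _, hq2⟩ := q_bounds (hpr p hp) hs.le
    have g1 : ∑ e ∈ Finset.range M, bk k e ^ 2 * ((p : ℝ) ^ (-s)) ^ e ≤ Fi k ((p : ℝ) ^ (-s)) :=
      (summable_Fi hN hk0 hkN hq0.le hq2).sum_le_tsum _ fun i _ => by positivity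
    exact g1.trans (Fi_le_exp hN hk0 hkN hq0.le hq2)
  have hnn : ∀ p ∈ S, ∀ e : ℕ, 0 ≤ bk k e ^ 2 * ((p : ℝ) ^ (-s)) ^ e := fun p _ e => by positivity
  have hm := sum_smo_le S hpr (fun p e => bk k e ^ 2 * ((p : ℝ) ^ (-s)) ^ e) hnn
    (fun p => Real.exp (A * (p : ℝ) ^ (-s))) hloc ((Finset.range n).filter (fun m => m ≠ 0)) hmem
  have hm2 : ∑ m ∈ (Finset.range n).filter (fun m => m ≠ 0), tS k s m
      = ∑ m ∈ (Finset.range n).filter (fun m => m ≠ 0),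
        ∏ p ∈ S, (bk k (m.factorization p) ^ 2 * ((p : ℝ) ^ (-s)) ^ m.factorization p) :=
    Finset.sum_congr rfl fun m hm => tS_eq_prod k s (hmem m hm)
  rw [hm2]
  refine hm.trans ?_
  rw [← Real.exp_sum, ← Finset.mul_sum]
  apply Real.exp_le_exp.mpr
  refine mul_le_mul_of_nonneg_left ?_ hA0
  exact sum_primes_le hs S hpr

lemma SS_eq (k s : ℝ) : SS k s = ∑' n, tS k s n := rfl

lemma one_le_SS {N : ℕ} {k s : ℝ} (hN : 1 ≤ N) (hk0 : 0 ≤ k) (hkN : k ≤ N) (hs : 1 < s) :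
    1 ≤ SS k s := by
  rw [SS_eq]
  have h := (summable_tS hN hk0 hkN hs).le_tsum 1 fun n _ => tS_nonneg k s n
  rwa [tS_one] at h

theorem SS_hasProd {N : ℕ} {k s : ℝ} (hN : 1 ≤ N) (hk0 : 0 ≤ k) (hkN : k ≤ N) (hs : 1 < s) :
    HasProd (fun p : Nat.Primes => Fi k (((p : ℕ) : ℝ) ^ (-s))) (SS k s) := by
  have h := EulerProduct.eulerProduct_hasProd (f := tS k s) (tS_one k s)
    (fun {m n} hmn => tS_mul k s hmn)
    (by
      have := summable_tS hN hk0 hkN hs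
      refine this.congr fun n => ?_
      rw [Real.norm_of_nonneg (tS_nonneg k s n)])
    (tS_zero k (by linarith))
  have e : (fun p : Nat.Primes => Fi k (((p : ℕ) : ℝ) ^ (-s)))
      = fun p : Nat.Primes => ∑' e : ℕ, tS k s ((p : ℕ) ^ e) := by
    funext p
    unfold Fi
    exact tsum_congr fun e => (tS_prime_pow k s p.2 e).symm
  rw [SS_eq, e]
  exact h

end Pool.Agent.Lib.NL
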