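import Mathlib
import Pool.Agent.Lib.MP_f9aece_nt_nl.O1

/-!
NearLine, module Q: the size of the main term.  `(2 δ)^(k^2)` times the series of `d_k(n)^2` at
`1 + 2 δ` tends to the arithmetic factor, uniformly for bounded `k`.
-/

set_option autoImplicit false

namespace Pool.Agent.Lib.NL

open MeasureTheory Set Filter Topology Complex
open Pool.Agent.Lib.MP_f9aece_nt

/-- the arithmetic factor -/
noncomputable def ak (k : ℝ) : ℝ :=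
  ∏' p : Nat.Primes, ((1 - (((p : ℕ) : ℝ))⁻¹) ^ (k ^ 2) * Fi k (((p : ℕ) : ℝ))⁻¹)

lemma prime_inv_le {p : ℕ} (hp : p.Prime) : ((p : ℝ))⁻¹ ≤ 1 / 2 := by
  have : (2 : ℝ) ≤ p := by exact_mod_cast hp.two_le
  rw [inv_eq_one_div]
  exact one_div_le_one_div_of_le (by norm_num) this

lemma prime_rpow_le_inv {p : ℕ} (hp : p.Prime) {s : ℝ} (hs : 1 ≤ s) :
    (p : ℝ) ^ (-s) ≤ ((p : ℝ))⁻¹ := by
  have h1 : (1 : ℝ) ≤ p := by exact_mod_cast hp.one_lt.le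
  rw [← Real.rpow_neg_one]
  exact Real.rpow_le_rpow_of_exponent_le h1 (by linarith)

section sums

variable {N : ℕ} {k s : ℝ}

lemma summable_log_Fi (hN : 1 ≤ N) (hk0 : 0 ≤ k) (hkN : k ≤ N) (hs : 1 < s) :
    Summable fun p : Nat.Primes => Real.log (Fi k (((p : ℕ) : ℝ) ^ (-s))) := by
  refine Summable.of_norm_bounded (g := fun p : Nat.Primes => ((N : ℝ) ^ 2 + cF N) * ((p : ℕ) : ℝ) ^ (-s))
    ((summable_prime_rpow hs).mul_left _) fun p => ?_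
  have hq0 : 0 ≤ ((p : ℕ) : ℝ) ^ (-s) := by positivity
  have hq2 : ((p : ℕ) : ℝ) ^ (-s) ≤ 1 / 2 := (prime_rpow_le_inv p.2 hs.le).trans (prime_inv_le p.2)
  generalize ((p : ℕ) : ℝ) ^ (-s) = q at hq0 hq2
  have h := log_Fi hN hk0 hkN hq0 hq2
  have hc := cF_nonneg N
  have h1 : k ^ 2 * q ≤ (N : ℝ) ^ 2 * q := by gcongr
  have h2 : cF N * q ^ 2 ≤ cF N * q := by
    have : q ^ 2 ≤ q := by nlinarith
    gcongr
  have h3 : 0 ≤ k ^ 2 * q := by positivity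
  rw [Real.norm_eq_abs]
  rw [abs_le] at h ⊢
  constructor <;> linarith [h.1, h.2]

lemma SS_eq_exp (hN : 1 ≤ N) (hk0 : 0 ≤ k) (hkN : k ≤ N) (hs : 1 < s) :
    SS k s = Real.exp (∑' p : Nat.Primes, Real.log (Fi k (((p : ℕ) : ℝ) ^ (-s)))) := by
  have hpos : ∀ p : Nat.Primes, 0 < Fi k (((p : ℕ) : ℝ) ^ (-s)) := fun p => by
    have := one_le_Fi hN hk0 hkN (q := ((p : ℕ) : ℝ) ^ (-s)) (by positivity)
      ((prime_rpow_le_inv p.2 hs.le).trans (prime_inv_le p.2))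
    linarith
  exact (SS_hasProd hN hk0 hkN hs).unique
    (Real.hasProd_of_hasSum_log hpos (summable_log_Fi hN hk0 hkN hs).hasSum)

lemma log_SS (hN : 1 ≤ N) (hk0 : 0 ≤ k) (hkN : k ≤ N) (hs : 1 < s) :
    Real.log (SS k s) = ∑' p : Nat.Primes, Real.log (Fi k (((p : ℕ) : ℝ) ^ (-s))) := by
  rw [SS_eq_exp hN hk0 hkN hs, Real.log_exp]

lemma Fi_at_one {q : ℝ} (hq0 : 0 ≤ q) (hq : q ≤ 1 / 2) : Fi 1 q = (1 - q)⁻¹ := by
  unfold Fi
  rw [← tsum_geometric_of_lt_one hq0 (by linarith)]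
  refine tsum_congr fun i => ?_
  rw [bk_at_one, one_pow, one_mul]

lemma gl_eq {q : ℝ} (hq0 : 0 ≤ q) (hq : q ≤ 1 / 2) (k : ℝ) :
    gl k q = Real.log (Fi k q) - k ^ 2 * Real.log (Fi 1 q) := by
  unfold gl
  rw [Fi_at_one hq0 hq, Real.log_inv]
  ring

/-- the series divided by the power of the zeta function -/
lemma log_SS_sub (hN : 1 ≤ N) (hk0 : 0 ≤ k) (hkN : k ≤ N) (hs : 1 < s) :
    Real.log (SS k s) - k ^ 2 * Real.log (SS 1 s)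
      = ∑' p : Nat.Primes, gl k (((p : ℕ) : ℝ) ^ (-s)) := by
  have hN1 : (1 : ℝ) ≤ N := by exact_mod_cast hN
  rw [log_SS hN hk0 hkN hs, log_SS hN (by norm_num : (0 : ℝ) ≤ 1) hN1 hs, ← tsum_mul_left,
    ← (summable_log_Fi hN hk0 hkN hs).tsum_sub
      ((summable_log_Fi hN (by norm_num : (0 : ℝ) ≤ 1) hN1 hs).mul_left _)]
  refine tsum_congr fun p => ?_
  rw [gl_eq (by positivity) ((prime_rpow_le_inv p.2 hs.le).trans (prime_inv_le p.2))]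

lemma summable_prime_inv_sq : Summable fun p : Nat.Primes => (((p : ℕ) : ℝ))⁻¹ ^ 2 := by
  have h := summable_prime_rpow (s := 2) (by norm_num)
  refine h.congr fun p => ?_
  rw [Real.rpow_neg (by positivity), inv_pow]
  norm_num

lemma summable_gl (hN : 1 ≤ N) (hk0 : 0 ≤ k) (hkN : k ≤ N) {q : Nat.Primes → ℝ}
    (hq0 : ∀ p, 0 ≤ q p) (hq : ∀ p : Nat.Primes, q p ≤ (((p : ℕ) : ℝ))⁻¹) :
    Summable fun p : Nat.Primes => gl k (q p) := by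
  refine Summable.of_norm_bounded (g := fun p : Nat.Primes => cG' N * (((p : ℕ) : ℝ))⁻¹ ^ 2)
    (summable_prime_inv_sq.mul_left _) fun p => ?_
  rw [Real.norm_eq_abs]
  refine (gl_le hN hk0 hkN (hq0 p) ((hq p).trans (prime_inv_le p.2))).trans ?_
  have h1 := cG'_nonneg N
  have h2 := hq0 p
  have h3 := hq p
  gcongr

/-- the arithmetic factor as an exponential -/
lemma ak_eq (hN : 1 ≤ N) (hk0 : 0 ≤ k) (hkN : k ≤ N) :
    ak k = Real.exp (∑' p : Nat.Primes, gl k (((p : ℕ) : ℝ))⁻¹) := by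
  have e : ∀ p : Nat.Primes, Real.log ((1 - (((p : ℕ) : ℝ))⁻¹) ^ (k ^ 2) * Fi k (((p : ℕ) : ℝ))⁻¹)
      = gl k (((p : ℕ) : ℝ))⁻¹ := by
    intro p
    have h1 := prime_inv_le p.2
    have h2 : 0 ≤ (((p : ℕ) : ℝ))⁻¹ := by positivity
    have h3 := one_le_Fi hN hk0 hkN h2 h1
    have h4 : 0 < 1 - (((p : ℕ) : ℝ))⁻¹ := by linarith
    rw [Real.log_mul (Real.rpow_pos_of_pos h4 _).ne' (by linarith), Real.log_rpow h4]
    unfold gl
    ring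
  have hpos : ∀ p : Nat.Primes, 0 < (1 - (((p : ℕ) : ℝ))⁻¹) ^ (k ^ 2) * Fi k (((p : ℕ) : ℝ))⁻¹ := by
    intro p
    have h1 := prime_inv_le p.2
    have h2 : 0 ≤ (((p : ℕ) : ℝ))⁻¹ := by positivity
    have h3 := one_le_Fi hN hk0 hkN h2 h1
    have h4 : 0 < 1 - (((p : ℕ) : ℝ))⁻¹ := by linarith
    have h5 := Real.rpow_pos_of_pos h4 (k ^ 2)
    positivity
  have hs : Summable fun p : Nat.Primes =>
      Real.log ((1 - (((p : ℕ) : ℝ))⁻¹) ^ (k ^ 2) * Fi k (((p : ℕ) : ℝ))⁻¹) := by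
    have := summable_gl hN hk0 hkN (q := fun p : Nat.Primes => (((p : ℕ) : ℝ))⁻¹)
      (fun p => by positivity) (fun p => le_rfl)
    exact this.congr fun p => (e p).symm
  have h := Real.rexp_tsum_eq_tprod hpos hs
  unfold ak
  rw [← h, tsum_congr e]

lemma ak_pos (hN : 1 ≤ N) (hk0 : 0 ≤ k) (hkN : k ≤ N) : 0 < ak k := by
  rw [ak_eq hN hk0 hkN]
  exact Real.exp_pos _

lemma inv_sub_rpow_le {p : ℕ} (hp : p.Prime) {δ : ℝ} (hδ : 0 < δ) :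
    0 ≤ ((p : ℝ))⁻¹ - (p : ℝ) ^ (-(1 + 2 * δ)) ∧
    ((p : ℝ))⁻¹ - (p : ℝ) ^ (-(1 + 2 * δ)) ≤ ((p : ℝ))⁻¹ * (4 * δ * (p : ℝ) ^ (1 / 2 : ℝ)) := by
  have h1 : (1 : ℝ) ≤ p := by exact_mod_cast hp.one_lt.le
  have hp0 : (0 : ℝ) < p := by linarith
  refine ⟨sub_nonneg.mpr (prime_rpow_le_inv hp (by linarith)), ?_⟩
  have e1 : (p : ℝ) ^ (-(1 + 2 * δ)) = ((p : ℝ))⁻¹ * (p : ℝ) ^ (-(2 * δ)) := by
    rw [neg_add, Real.rpow_add hp0, Real.rpow_neg_one]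
  rw [e1, ← mul_one_sub]
  have h2 : 1 - (p : ℝ) ^ (-(2 * δ)) ≤ 2 * δ * Real.log p := by
    have h3 := Real.add_one_le_exp (-(2 * δ) * Real.log p)
    rw [Real.rpow_def_of_pos hp0, mul_comm (Real.log _)]
    linarith
  have h4 : Real.log p ≤ 2 * (p : ℝ) ^ (1 / 2 : ℝ) := by
    have := Real.log_le_rpow_div hp0.le (ε := 1 / 2) (by norm_num)
    linarith
  have h5 : 2 * δ * Real.log p ≤ 4 * δ * (p : ℝ) ^ (1 / 2 : ℝ) := by nlinarith
  have h6 : 0 ≤ ((p : ℝ))⁻¹ := by positivity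
  exact mul_le_mul_of_nonneg_left (h2.trans h5) h6

/-- Lipschitz bound in `δ` -/
lemma sum_gl_diff (hN : 1 ≤ N) (hk0 : 0 ≤ k) (hkN : k ≤ N) {δ : ℝ} (hδ : 0 < δ) :
    |(∑' p : Nat.Primes, gl k (((p : ℕ) : ℝ) ^ (-(1 + 2 * δ)))) - ∑' p : Nat.Primes, gl k (((p : ℕ) : ℝ))⁻¹|
      ≤ cG' N * (4 * δ * ∑' p : Nat.Primes, ((p : ℕ) : ℝ) ^ (-(3 / 2 : ℝ))) := by
  have s1 := summable_gl hN hk0 hkN (q := fun p : Nat.Primes => ((p : ℕ) : ℝ) ^ (-(1 + 2 * δ)))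
    (fun p => by positivity) (fun p => prime_rpow_le_inv p.2 (by linarith))
  have s2 := summable_gl hN hk0 hkN (q := fun p : Nat.Primes => (((p : ℕ) : ℝ))⁻¹)
    (fun p => by positivity) (fun p => le_rfl)
  have s3 : Summable fun p : Nat.Primes => ((p : ℕ) : ℝ) ^ (-(3 / 2 : ℝ)) :=
    summable_prime_rpow (by norm_num)
  rw [← s1.tsum_sub s2, ← tsum_mul_left, ← tsum_mul_left, ← Real.norm_eq_abs]
  have hb : ∀ p : Nat.Primes, ‖gl k (((p : ℕ) : ℝ) ^ (-(1 + 2 * δ))) - gl k (((p : ℕ) : ℝ))⁻¹‖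
      ≤ cG' N * (4 * δ * ((p : ℕ) : ℝ) ^ (-(3 / 2 : ℝ))) := by
    intro p
    have hp0 : (0 : ℝ) < ((p : ℕ) : ℝ) := by exact_mod_cast p.2.pos
    obtain ⟨h1, h2⟩ := inv_sub_rpow_le p.2 hδ
    have h3 := gl_diff hN hk0 hkN (q := ((p : ℕ) : ℝ) ^ (-(1 + 2 * δ))) (q' := (((p : ℕ) : ℝ))⁻¹)
      (by positivity) (by linarith) (prime_inv_le p.2)
    rw [norm_sub_rev, Real.norm_eq_abs]
    refine h3.trans ?_
    refine mul_le_mul_of_nonneg_left ?_ (cG'_nonneg N)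
    have h4 : 0 ≤ (((p : ℕ) : ℝ))⁻¹ := by positivity
    refine (mul_le_mul_of_nonneg_left h2 h4).trans (le_of_eq ?_)
    have e1 : ((p : ℕ) : ℝ) ^ (-(3 / 2 : ℝ)) = (((p : ℕ) : ℝ))⁻¹ * ((((p : ℕ) : ℝ))⁻¹ * ((p : ℕ) : ℝ) ^ (1 / 2 : ℝ)) := by
      rw [← Real.rpow_neg_one, ← Real.rpow_add hp0, ← Real.rpow_add hp0]
      norm_num
    rw [e1]
    ring
  exact tsum_of_norm_bounded ((s3.mul_left (4 * δ)).mul_left (cG' N)).hasSum hb

end sums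

/-- the pole of the zeta function -/
lemma log_two_delta (η : ℝ) (hη : 0 < η) : ∃ δ0 : ℝ, 0 < δ0 ∧ ∀ δ : ℝ, 0 < δ → δ ≤ δ0 →
    0 < SS 1 (1 + 2 * δ) ∧ |Real.log (2 * δ * SS 1 (1 + 2 * δ))| ≤ η := by
  have h1 : Tendsto (fun δ : ℝ => 1 + 2 * δ) (𝓝[>] 0) (𝓝[>] 1) := by
    have hc : Continuous (fun δ : ℝ => 1 + 2 * δ) := by fun_prop
    have h0 : Tendsto (fun δ : ℝ => 1 + 2 * δ) (𝓝[>] 0) (𝓝 1) := by
      have := hc.continuousWithinAt (s := Ioi 0) (x := 0)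
      simpa [ContinuousWithinAt] using this
    refine tendsto_nhdsWithin_iff.mpr ⟨h0, ?_⟩
    filter_upwards [self_mem_nhdsWithin] with δ hδ
    simp only [Set.mem_Ioi] at hδ ⊢
    linarith
  have h2 := tendsto_sub_mul_tsum_nat_rpow.comp h1
  have h3 : Tendsto (fun δ : ℝ => Real.log ((1 + 2 * δ - 1) * ∑' n : ℕ, 1 / (n : ℝ) ^ (1 + 2 * δ)))
      (𝓝[>] 0) (𝓝 0) := by
    have := ((Real.continuousAt_log (one_ne_zero)).tendsto).comp h2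
    rw [Real.log_one] at this
    exact this
  have h4 : ∀ᶠ δ : ℝ in 𝓝[>] 0,
      |Real.log ((1 + 2 * δ - 1) * ∑' n : ℕ, 1 / (n : ℝ) ^ (1 + 2 * δ))| ≤ η := by
    have := h3.abs
    rw [abs_zero] at this
    exact this.eventually (eventually_le_nhds hη)
  rw [eventually_nhdsWithin_iff, Metric.eventually_nhds_iff] at h4
  obtain ⟨ε, hε, h5⟩ := h4
  refine ⟨ε / 2, by positivity, fun δ hδ hδ2 => ?_⟩
  have hs : 1 < 1 + 2 * δ := by linarith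
  refine ⟨?_, ?_⟩
  · have := one_le_SS (N := 1) le_rfl (by norm_num : (0 : ℝ) ≤ 1) (by simp) hs
    linarith
  · have h6 := h5 (y := δ) (by rw [Real.dist_eq, sub_zero, abs_of_pos hδ]; linarith) hδ
    have e : SS 1 (1 + 2 * δ) = ∑' n : ℕ, 1 / (n : ℝ) ^ (1 + 2 * δ) := by
      rw [SS_eq]
      refine tsum_congr fun n => ?_
      rcases Nat.eq_zero_or_pos n with rfl | hn
      · rw [tS_zero 1 (by linarith), Nat.cast_zero, Real.zero_rpow (by linarith)]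
        simp
      · unfold tS dk
        rw [Finsupp.prod, Finset.prod_congr rfl fun p _ => bk_at_one _, Finset.prod_const_one,
          one_pow, one_mul, Real.rpow_neg (Nat.cast_nonneg _), one_div]
    rw [e]
    have e2 : 2 * δ = 1 + 2 * δ - 1 := by ring
    nth_rewrite 1 [e2]
    exact h6

/-- **The main term.** -/
theorem main_term (N : ℕ) (hN : 1 ≤ N) (η : ℝ) (hη : 0 < η) : ∃ δ0 : ℝ, 0 < δ0 ∧
    ∀ k : ℝ, 0 ≤ k → k ≤ N → ∀ δ : ℝ, 0 < δ → δ ≤ δ0 →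
    Real.exp (-η) * ak k ≤ (2 * δ) ^ (k ^ 2) * SS k (1 + 2 * δ) ∧
    (2 * δ) ^ (k ^ 2) * SS k (1 + 2 * δ) ≤ Real.exp η * ak k := by
  have hN0 : (0 : ℝ) < N := by exact_mod_cast (by omega : 0 < N)
  obtain ⟨δ1, hδ1, h1⟩ := log_two_delta (η / (2 * (N : ℝ) ^ 2)) (by positivity)
  set P := ∑' p : Nat.Primes, ((p : ℕ) : ℝ) ^ (-(3 / 2 : ℝ)) with hP
  have hP0 : 0 ≤ P := tsum_nonneg fun p => by positivity
  set G := cG' N * (4 * P) + 1 with hG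
  have hG0 : 0 < G := by
    have := cG'_nonneg N
    positivity
  refine ⟨min δ1 (η / (2 * G)), lt_min hδ1 (by positivity), fun k hk0 hkN δ hδ hδ2 => ?_⟩
  have hs : 1 < 1 + 2 * δ := by linarith
  obtain ⟨hZ0, hZ⟩ := h1 δ hδ (hδ2.trans (min_le_left _ _))
  have hd := sum_gl_diff hN hk0 hkN hδ
  have hδG : δ ≤ η / (2 * G) := hδ2.trans (min_le_right _ _)
  have hd2 : cG' N * (4 * δ * P) ≤ η / 2 := by
    have h3 : cG' N * (4 * δ * P) = δ * (cG' N * (4 * P)) := by ring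
    have h4 : δ * (cG' N * (4 * P)) ≤ δ * G := by
      rw [hG]
      have : 0 ≤ δ := hδ.le
      nlinarith
    have h5 : δ * G ≤ η / (2 * G) * G := by gcongr
    have h6 : η / (2 * G) * G = η / 2 := by field_simp
    linarith
  have hSS : 0 < SS k (1 + 2 * δ) := by
    have := one_le_SS hN hk0 hkN hs
    linarith
  have e1 := log_SS_sub hN hk0 hkN hs
  have e2 := ak_eq hN hk0 hkN
  have hlog : Real.log ((2 * δ) ^ (k ^ 2) * SS k (1 + 2 * δ))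
      = k ^ 2 * Real.log (2 * δ * SS 1 (1 + 2 * δ))
        + ∑' p : Nat.Primes, gl k (((p : ℕ) : ℝ) ^ (-(1 + 2 * δ))) := by
    rw [Real.log_mul (Real.rpow_pos_of_pos (by positivity) _).ne' hSS.ne',
      Real.log_rpow (by positivity), Real.log_mul (by positivity) hZ0.ne', ← e1]
    ring
  have hk2 : k ^ 2 ≤ (N : ℝ) ^ 2 := by gcongr
  have hkZ : |k ^ 2 * Real.log (2 * δ * SS 1 (1 + 2 * δ))| ≤ η / 2 := by
    rw [abs_mul, abs_of_nonneg (by positivity : 0 ≤ k ^ 2)]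
    calc k ^ 2 * |Real.log (2 * δ * SS 1 (1 + 2 * δ))| ≤ (N : ℝ) ^ 2 * (η / (2 * (N : ℝ) ^ 2)) := by
          gcongr
      _ = η / 2 := by field_simp
  have hpos : 0 < (2 * δ) ^ (k ^ 2) * SS k (1 + 2 * δ) :=
    mul_pos (Real.rpow_pos_of_pos (by positivity) _) hSS
  have hX : (2 * δ) ^ (k ^ 2) * SS k (1 + 2 * δ) = Real.exp (k ^ 2 * Real.log (2 * δ * SS 1 (1 + 2 * δ))
      + ∑' p : Nat.Primes, gl k (((p : ℕ) : ℝ) ^ (-(1 + 2 * δ)))) := by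
    rw [← hlog, Real.exp_log hpos]
  rw [e2, ← Real.exp_add, ← Real.exp_add, hX, Real.exp_le_exp, Real.exp_le_exp]
  rw [abs_le] at hkZ hd
  constructor <;> linarith [hkZ.1, hkZ.2, hd.1, hd.2]

end Pool.Agent.Lib.NL
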