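import Mathlib
import Pool.Agent.Lib.MP_f9aece_nt_nl.A
import Pool.Agent.Lib.MP_f9aece_nt_nl.C
import Pool.Agent.Lib.MP_f9aece_nt_nl.F
import Pool.Agent.Lib.MP_f9aece_nt_nl.G
import Pool.Agent.Lib.MP_f9aece_nt_nl.H
import Pool.Agent.Lib.MP_f9aece_nt_nl.J
import Pool.Agent.Lib.MP_f9aece_nt_nl.K
import Pool.Agent.Lib.MP_f9aece_nt_nl.L
import Pool.Agent.Lib.MP_f9aece_nt_nl.M
import Pool.Agent.Lib.MP_f9aece_nt_nl.O
import Pool.Agent.Lib.MP_f9aece_nt_nl.P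
import Pool.Agent.Lib.MP_f9aece_nt_nl.Q

/-!
NearLine: the final theorems.
-/

set_option autoImplicit false

namespace Pool.Agent.Lib.NL

open MeasureTheory Set Filter Topology Complex
open Pool.Agent.Lib.MP_f9aece_nt

theorem offCore : OffCoreN := offCoreN scaleForms kForms

theorem lowerFull : LowerN := lowerN offCore meanN smallPt lowerPt

theorem upperAFull : UpperA := upperA scaleForms offCore meanN upEq

theorem upperBFull : UpperB := upperB upEq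

theorem upperFull : UpperN := upperN smallPt upperPt upperBFull upperAFull

theorem seriesFull : SeriesN := seriesN smallForms

/-- moments at distance `δ`, in terms of the Dirichlet series -/
theorem near_line_series (N : ℕ) (hN : 1 ≤ N) (x ε : ℝ) (hε : 0 < ε) : ∃ C : ℝ, 1 ≤ C ∧
    ∀ β δ T : ℝ, 0 < β → β ≤ 2 * N → 0 < δ → δ ≤ 1 / 4 → 1 ≤ T → C ≤ δ * Real.log T →
    (1 - ε) * SS (β / 2) (1 + 2 * δ) ≤ momL β x δ T ∧
    (β ≤ 2 → momL β x δ T ≤ (1 + ε) * SS (β / 2) (1 + 2 * δ)) :=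
  near_line lowerFull upperFull seriesFull meanN N hN x ε hε

/-- moments at distance `δ`, with the arithmetic factor -/
theorem near_line_crisp (N : ℕ) (hN : 1 ≤ N) (x ε : ℝ) (hε : 0 < ε) : ∃ C : ℝ, 0 < C ∧
    ∀ β δ T : ℝ, 0 < β → β ≤ 2 * N → 0 < δ → δ ≤ 1 / C → 1 ≤ T → C ≤ δ * Real.log T →
      0 < (∏' p : Nat.Primes, ((1 - ((p : ℕ) : ℝ)⁻¹) ^ (β ^ 2 / 4)
        * ∑' i : ℕ, bk (β / 2) i ^ 2 * (((p : ℕ) : ℝ)⁻¹) ^ i)) ∧
      (1 - ε) * ((∏' p : Nat.Primes, ((1 - ((p : ℕ) : ℝ)⁻¹) ^ (β ^ 2 / 4)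
        * ∑' i : ℕ, bk (β / 2) i ^ 2 * (((p : ℕ) : ℝ)⁻¹) ^ i)) * (2 * δ) ^ (-(β ^ 2 / 4)))
        ≤ momL β x δ T ∧
      (β ≤ 2 → momL β x δ T ≤ (1 + ε) * ((∏' p : Nat.Primes, ((1 - ((p : ℕ) : ℝ)⁻¹) ^ (β ^ 2 / 4)
        * ∑' i : ℕ, bk (β / 2) i ^ 2 * (((p : ℕ) : ℝ)⁻¹) ^ i)) * (2 * δ) ^ (-(β ^ 2 / 4)))) := by
  set η := min (ε / 4) (1 / 4) with hη
  have hη0 : 0 < η := by positivity
  have hη1 : η ≤ ε / 4 := min_le_left _ _
  have hη2 : η ≤ 1 / 4 := min_le_right _ _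
  obtain ⟨C1, hC1, h1⟩ := near_line_series N hN x η hη0
  obtain ⟨δ0, hδ0, h2⟩ := main_term N hN η hη0
  refine ⟨max (max C1 4) (1 / δ0), lt_of_lt_of_le (by positivity) (le_max_left _ _), ?_⟩
  intro β δ T hβ0 hβN hδ hδC hT hCT
  set k := β / 2 with hk
  have hk0 : 0 < k := by rw [hk]; positivity
  have hkN : k ≤ N := by rw [hk]; linarith
  have hk2 : β ^ 2 / 4 = k ^ 2 := by rw [hk]; ring
  have hC4 : 4 ≤ max (max C1 4) (1 / δ0) := (le_max_right _ _).trans (le_max_left _ _)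
  have hCC1 : C1 ≤ max (max C1 4) (1 / δ0) := (le_max_left _ _).trans (le_max_left _ _)
  have hCδ : 1 / δ0 ≤ max (max C1 4) (1 / δ0) := le_max_right _ _
  have hδ4 : δ ≤ 1 / 4 := hδC.trans (one_div_le_one_div_of_le (by norm_num) hC4)
  have hδδ : δ ≤ δ0 := by
    refine hδC.trans ((one_div_le_one_div_of_le (by positivity) hCδ).trans ?_)
    rw [one_div_one_div]
  obtain ⟨hlow, hup⟩ := h1 β δ T hβ0 hβN hδ hδ4 hT (hCC1.trans hCT)
  obtain ⟨m1, m2⟩ := h2 k hk0.le hkN δ hδ hδδ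
  have hA : (∏' p : Nat.Primes, ((1 - ((p : ℕ) : ℝ)⁻¹) ^ (β ^ 2 / 4)
      * ∑' i : ℕ, bk k i ^ 2 * (((p : ℕ) : ℝ)⁻¹) ^ i)) = ak k := by
    unfold ak Fi
    rw [hk2]
  rw [hA, hk2]
  have hA0 : 0 < ak k := ak_pos hN hk0.le hkN
  set A := ak k with hAdef
  set S := SS k (1 + 2 * δ) with hS
  have hD : 0 < (2 * δ) ^ (k ^ 2) := Real.rpow_pos_of_pos (by positivity) _
  have hS0 : 0 < S := by
    have := one_le_SS hN hk0.le hkN (s := 1 + 2 * δ) (by linarith)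
    linarith
  have hinv : (2 * δ) ^ (-(k ^ 2)) = ((2 * δ) ^ (k ^ 2))⁻¹ := Real.rpow_neg (by positivity) _
  set D := (2 * δ) ^ (k ^ 2) with hDdef
  rw [hinv]
  -- bounds of the main term
  have b1 : (1 - η) * (A * D⁻¹) ≤ S := by
    have e1 : 1 - η ≤ Real.exp (-η) := by
      have := Real.add_one_le_exp (-η)
      linarith
    have e2 : (1 - η) * A ≤ D * S := (mul_le_mul_of_nonneg_right e1 hA0.le).trans m1
    calc (1 - η) * (A * D⁻¹) = ((1 - η) * A) * D⁻¹ := by ring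
      _ ≤ (D * S) * D⁻¹ := mul_le_mul_of_nonneg_right e2 (by positivity)
      _ = S := by field_simp
  have b2 : S ≤ (1 + 2 * η) * (A * D⁻¹) := by
    have e1 : Real.exp η ≤ 1 + 2 * η := by
      have h3 := Real.one_sub_le_exp_neg η
      rw [Real.exp_neg] at h3
      have h4 : Real.exp η ≤ (1 - η)⁻¹ := by
        rw [le_inv_comm₀ (Real.exp_pos _) (by linarith)]
        exact h3
      refine h4.trans ?_
      rw [inv_le_iff_one_le_mul₀ (by linarith)]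
      nlinarith
    have e2 : D * S ≤ (1 + 2 * η) * A := m2.trans (mul_le_mul_of_nonneg_right e1 hA0.le)
    calc S = (D * S) * D⁻¹ := by field_simp
      _ ≤ ((1 + 2 * η) * A) * D⁻¹ := mul_le_mul_of_nonneg_right e2 (by positivity)
      _ = _ := by ring
  have hX : 0 < A * D⁻¹ := by positivity
  set X := A * D⁻¹ with hXdef
  refine ⟨hA0, ?_, fun hβ2 => ?_⟩
  · refine le_trans ?_ hlow
    have h3 : (1 - η) * ((1 - η) * X) ≤ (1 - η) * S := mul_le_mul_of_nonneg_left b1 (by linarith)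
    have h4 : (1 - ε) * X ≤ (1 - η) * ((1 - η) * X) := by
      have h5 : 1 - ε ≤ (1 - η) * (1 - η) := by nlinarith
      calc (1 - ε) * X ≤ ((1 - η) * (1 - η)) * X := mul_le_mul_of_nonneg_right h5 hX.le
        _ = _ := by ring
    exact h4.trans h3
  · refine (hup hβ2).trans ?_
    have h3 : (1 + η) * S ≤ (1 + η) * ((1 + 2 * η) * X) := mul_le_mul_of_nonneg_left b2 (by linarith)
    have h4 : (1 + η) * ((1 + 2 * η) * X) ≤ (1 + ε) * X := by
      have h5 : (1 + η) * (1 + 2 * η) ≤ 1 + ε := by nlinarith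
      calc (1 + η) * ((1 + 2 * η) * X) = ((1 + η) * (1 + 2 * η)) * X := by ring
        _ ≤ _ := mul_le_mul_of_nonneg_right h5 hX.le
    exact h3.trans h4

end Pool.Agent.Lib.NL
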